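import Pool.Agent.Lib.MP_993073_gt.BlockDefs
import Pool.Agent.Lib.MP_993073_gt.Calc

/-!
# The Q-curvature of block metrics (helper file for MP_993073_gt)
-/

open scoped Manifold ContDiff Topology PowerSeries
open PowerSeries (C X coeff)
open Filter

noncomputable section

namespace Pool.QCurv

variable {n a b : ℕ} {V : Set (E n)}

/-- `1` for the two spheres, `0` for the line -/
def ep (s : Fin 3) : ℝ := if s = 2 then 0 else 1

namespace BlockData

variable (D : BlockData n a b V)

section real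

variable {D} {x : E n}

theorem diffΦ (hV : IsOpen V) (D : BlockData n a b V) (hx : x ∈ V) (α : J a b) :
    ContDiffAt ℝ ∞ (D.Φ α) x := (D.smoothΦ α).contDiffAt (hV.mem_nhds hx)

theorem diffX (hV : IsOpen V) (D : BlockData n a b V) (hx : x ∈ V) (α : J a b) (i : Fin n) :
    ContDiffAt ℝ ∞ (D.Xf α i) x := (D.smoothX α i).contDiffAt (hV.mem_nhds hx)

theorem cd_diff {f : E n → ℝ} (h : ContDiffAt ℝ ∞ f x) : DifferentiableAt ℝ f x :=
  h.differentiableAt (by simp)

theorem dual' (D : BlockData n a b V) (hx : x ∈ V) (α β : J a b) :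
    ∑ i, D.Xf β i x * pd i (D.Φ α) x =
    (if α = β then 1 else 0) - (if lab α = lab β then ep (lab β) * (D.Φ α x * D.Φ β x) else 0) := by
  rw [D.dual x hx α β]
  by_cases h : lab α = lab β
  · by_cases h2 : lab β = 2
    · simp [h, h2, ep]
    · simp [h, h2, ep]
  · simp [h]

/-- derivative of the sphere relation -/
theorem sphere_pd (hV : IsOpen V) (D : BlockData n a b V) (hx : x ∈ V) {s : Fin 3} (hs : s ≠ 2)
    (j : Fin n) : ∑ α with lab α = s, D.Φ α x * pd j (D.Φ α) x = 0 := by
  have h1 : pd j (fun y => ∑ α with lab α = s, D.Φ α y ^ 2) x = 0 := by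
    rw [pd_congr_on hV (fun y hy => D.sphere y hy s hs) hx, pd_const]
  have h2 : pd j (fun y => ∑ α with lab α = s, D.Φ α y ^ 2) x
      = ∑ α with lab α = s, 2 * (D.Φ α x * pd j (D.Φ α) x) := by
    rw [pd_sum]
    · refine Finset.sum_congr rfl fun α _ => ?_
      simp only [pow_two]
      rw [pd_mul (cd_diff (diffΦ hV D hx α)) (cd_diff (diffΦ hV D hx α))]
      ring
    · intro α _
      exact cd_diff ((diffΦ hV D hx α).pow 2)
  rw [h2, ← Finset.mul_sum] at h1
  linarith

/-- second derivative of the sphere relation -/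
theorem sphere_pd2 (hV : IsOpen V) (D : BlockData n a b V) (hx : x ∈ V) {s : Fin 3} (hs : s ≠ 2)
    (i j : Fin n) : ∑ α with lab α = s, D.Φ α x * pd i (pd j (D.Φ α)) x = - D.g s x i j := by
  have h1 : pd i (fun y => ∑ α with lab α = s, D.Φ α y * pd j (D.Φ α) y) x = 0 := by
    rw [pd_congr_on hV (fun y hy => sphere_pd hV D hy hs j) hx, pd_const]
  rw [pd_sum] at h1
  · have h2 : ∀ α, pd i (fun y => D.Φ α y * pd j (D.Φ α) y) x
        = pd i (D.Φ α) x * pd j (D.Φ α) x + D.Φ α x * pd i (pd j (D.Φ α)) x := fun α =>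
      pd_mul (cd_diff (diffΦ hV D hx α)) (cd_diff (contDiffAt_pd (diffΦ hV D hx α)))
    simp only [h2, Finset.sum_add_distrib] at h1
    simp only [BlockData.g, Matrix.of_apply]
    linarith
  · intro α _
    exact cd_diff ((diffΦ hV D hx α).mul (contDiffAt_pd (diffΦ hV D hx α)))

/-- the normal vector field vanishes -/
theorem normal (D : BlockData n a b V) (hx : x ∈ V) {s : Fin 3} (hs : s ≠ 2)
    (i : Fin n) : ∑ β with lab β = s, D.Φ β x * D.Xf β i x = 0 := by
  have h1 : ∀ α, ∑ j, pd j (D.Φ α) x * (∑ β with lab β = s, D.Φ β x * D.Xf β j x) = 0 := by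
    intro α
    have e1 : ∑ j, pd j (D.Φ α) x * (∑ β with lab β = s, D.Φ β x * D.Xf β j x)
        = ∑ β with lab β = s, D.Φ β x * ∑ j, D.Xf β j x * pd j (D.Φ α) x := by
      simp only [Finset.mul_sum]
      rw [Finset.sum_comm]
      refine Finset.sum_congr rfl fun β _ => Finset.sum_congr rfl fun j _ => by ring
    rw [e1]
    simp only [dual' D hx]
    have e2 : ∀ β ∈ Finset.univ.filter (fun β => lab β = s), D.Φ β x *
        ((if α = β then 1 else 0) -
          (if lab α = lab β then ep (lab β) * (D.Φ α x * D.Φ β x) else 0))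
        = (if α = β then D.Φ α x else 0) -
          (if lab α = s then D.Φ α x * D.Φ β x ^ 2 else 0) := by
      intro β hβ
      rw [Finset.mem_filter] at hβ
      rw [hβ.2]
      have : ep s = 1 := by simp [ep, hs]
      rw [this]
      by_cases h : α = β
      · subst h
        simp [hβ.2]
        ring
      · simp only [h, if_false]
        split_ifs <;> ring
    rw [Finset.sum_congr rfl e2, Finset.sum_sub_distrib]
    by_cases h : lab α = s
    · simp only [h, if_true]
      rw [← Finset.mul_sum, D.sphere x hx s hs, Finset.sum_ite_eq]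
      simp [h]
    · simp only [h, if_false]
      rw [Finset.sum_ite_eq]
      simp [h]
  have h2 : ∑ β with lab β = s, D.Φ β x * D.Xf β i x
      = ∑ j, (if i = j then 1 else 0) * (∑ β with lab β = s, D.Φ β x * D.Xf β j x) := by
    simp
  rw [h2]
  simp only [← D.complete x hx i, Finset.sum_mul]
  rw [Finset.sum_comm]
  have h3 : ∀ α, ∑ j, D.Xf α i x * pd j (D.Φ α) x * (∑ β with lab β = s, D.Φ β x * D.Xf β j x) = 0 := by
    intro α
    have := h1 α
    calc _ = D.Xf α i x * ∑ j, pd j (D.Φ α) x * (∑ β with lab β = s, D.Φ β x * D.Xf β j x) := by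
          rw [Finset.mul_sum]
          exact Finset.sum_congr rfl fun j _ => by ring
      _ = 0 := by rw [this, mul_zero]
  exact Finset.sum_eq_zero fun α _ => h3 α


/-- the inner products with a fixed coordinate: `g_s X_β = [β ∈ s] dΦ^β` -/
theorem g_X (hV : IsOpen V) (D : BlockData n a b V) (hx : x ∈ V) (s : Fin 3) (β : J a b)
    (i : Fin n) : ∑ j, D.g s x i j * D.Xf β j x = if lab β = s then pd i (D.Φ β) x else 0 := by
  simp only [BlockData.g, Matrix.of_apply, Finset.sum_mul]
  rw [Finset.sum_comm]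
  have e1 : ∀ α, ∑ j, pd i (D.Φ α) x * pd j (D.Φ α) x * D.Xf β j x
      = pd i (D.Φ α) x * ((if α = β then 1 else 0) -
        (if lab α = lab β then ep (lab β) * (D.Φ α x * D.Φ β x) else 0)) := by
    intro α
    rw [← dual' D hx α β, Finset.mul_sum]
    exact Finset.sum_congr rfl fun j _ => by ring
  simp only [e1]
  by_cases h : lab β = s
  · subst h
    simp only [if_true]
    have e2 : ∀ α ∈ Finset.univ.filter (fun α => lab α = lab β), pd i (D.Φ α) x *
        ((if α = β then 1 else 0) -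
          (if lab α = lab β then ep (lab β) * (D.Φ α x * D.Φ β x) else 0))
        = (if α = β then pd i (D.Φ β) x else 0) -
          ep (lab β) * D.Φ β x * (D.Φ α x * pd i (D.Φ α) x) := by
      intro α hα
      rw [Finset.mem_filter] at hα
      rw [if_pos hα.2]
      by_cases h : α = β
      · subst h
        simp
        ring
      · simp only [h, if_false]
        ring
    rw [Finset.sum_congr rfl e2, Finset.sum_sub_distrib, ← Finset.mul_sum]
    by_cases h2 : lab β = 2
    · simp [ep, h2]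
    · rw [sphere_pd hV D hx h2 i]
      simp
  · simp only [h, if_false]
    refine Finset.sum_eq_zero fun α hα => ?_
    rw [Finset.mem_filter] at hα
    have h1 : lab α ≠ lab β := by rw [hα.2]; exact fun h' => h h'.symm
    have h2 : α ≠ β := fun h' => h1 (by rw [h'])
    simp [h1, h2]

/-- the dual metrics `Y_s = ∑ X_α X_α` -/
def Y (D : BlockData n a b V) (s : Fin 3) (x : E n) : Mat n ℝ :=
  Matrix.of fun i j => ∑ α with lab α = s, D.Xf α i x * D.Xf α j x

/-- the projections `Q_s = ∑ dΦ^α X_α` -/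
def Q (D : BlockData n a b V) (s : Fin 3) (x : E n) : Mat n ℝ :=
  Matrix.of fun i j => ∑ α with lab α = s, pd i (D.Φ α) x * D.Xf α j x

theorem g_symm (D : BlockData n a b V) (s : Fin 3) (x : E n) (i j : Fin n) :
    D.g s x i j = D.g s x j i := by
  simp only [BlockData.g, Matrix.of_apply]
  exact Finset.sum_congr rfl fun α _ => mul_comm _ _

theorem sum_lab {f : J a b → ℝ} : ∑ s : Fin 3, ∑ α with lab α = s, f α = ∑ α, f α := by
  rw [← Finset.sum_fiberwise (s := Finset.univ) (g := fun α : J a b => lab α)]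

theorem g_mul_Y (hV : IsOpen V) (D : BlockData n a b V) (hx : x ∈ V) (s r : Fin 3) :
    D.g s x * D.Y r x = if s = r then D.Q s x else 0 := by
  ext i j
  have e1 : (D.g s x * D.Y r x) i j
      = ∑ β with lab β = r, (∑ k, D.g s x i k * D.Xf β k x) * D.Xf β j x := by
    simp only [Matrix.mul_apply, Y, Matrix.of_apply, Finset.mul_sum, Finset.sum_mul]
    rw [Finset.sum_comm]
    refine Finset.sum_congr rfl fun β _ => Finset.sum_congr rfl fun k _ => by ring
  rw [e1]
  simp only [g_X hV D hx]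
  by_cases h : s = r
  · subst h
    simp only [if_true, Q, Matrix.of_apply]
    refine Finset.sum_congr rfl fun β hβ => ?_
    rw [Finset.mem_filter] at hβ
    rw [if_pos hβ.2]
  · simp only [h, if_false, Matrix.zero_apply]
    refine Finset.sum_eq_zero fun β hβ => ?_
    rw [Finset.mem_filter] at hβ
    rw [if_neg, zero_mul]
    rw [hβ.2]
    exact fun h' => h h'.symm

theorem Q_mul_g (hV : IsOpen V) (D : BlockData n a b V) (hx : x ∈ V) (s r : Fin 3) :
    D.Q s x * D.g r x = if s = r then D.g s x else 0 := by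
  ext i j
  have e1 : (D.Q s x * D.g r x) i j
      = ∑ β with lab β = s, pd i (D.Φ β) x * (∑ k, D.g r x j k * D.Xf β k x) := by
    simp only [Matrix.mul_apply, Q, Matrix.of_apply, Finset.mul_sum, Finset.sum_mul]
    rw [Finset.sum_comm]
    refine Finset.sum_congr rfl fun β _ => Finset.sum_congr rfl fun k _ => ?_
    rw [g_symm D r x k j]
    ring
  rw [e1]
  simp only [g_X hV D hx]
  by_cases h : s = r
  · subst h
    simp only [if_true, BlockData.g, Matrix.of_apply]
    refine Finset.sum_congr rfl fun β hβ => ?_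
    rw [Finset.mem_filter] at hβ
    rw [if_pos hβ.2]
  · simp only [h, if_false, Matrix.zero_apply]
    refine Finset.sum_eq_zero fun β hβ => ?_
    rw [Finset.mem_filter] at hβ
    rw [if_neg, mul_zero]
    rw [hβ.2]
    exact h

theorem sum_Q (D : BlockData n a b V) (hx : x ∈ V) : ∑ s, D.Q s x = 1 := by
  ext i j
  rw [Matrix.sum_apply]
  simp only [Q, Matrix.of_apply]
  rw [sum_lab (f := fun α => pd i (D.Φ α) x * D.Xf α j x)]
  have := D.complete x hx j i
  simp only [mul_comm (D.Xf _ j x)] at this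
  rw [this, Matrix.one_apply]
  simp only [eq_comm]

theorem trace_Q (D : BlockData n a b V) (hx : x ∈ V) (s : Fin 3) :
    (D.Q s x).trace = mult a b s := by
  have e1 : (D.Q s x).trace = ∑ β with lab β = s, ∑ i, D.Xf β i x * pd i (D.Φ β) x := by
    simp only [Matrix.trace, Matrix.diag_apply, Q, Matrix.of_apply]
    rw [Finset.sum_comm]
    exact Finset.sum_congr rfl fun β _ => Finset.sum_congr rfl fun i _ => mul_comm _ _
  rw [e1]
  simp only [dual' D hx, if_true]
  rw [Finset.sum_sub_distrib]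
  have h1 : ∑ β : J a b with lab β = s, ep (lab β) * (D.Φ β x * D.Φ β x) = ep s := by
    have : ∀ β ∈ Finset.univ.filter (fun β : J a b => lab β = s),
        ep (lab β) * (D.Φ β x * D.Φ β x) = ep s * D.Φ β x ^ 2 := by
      intro β hβ
      rw [Finset.mem_filter] at hβ
      rw [hβ.2, pow_two]
    rw [Finset.sum_congr rfl this, ← Finset.mul_sum]
    by_cases h : s = 2
    · simp [ep, h]
    · rw [D.sphere x hx s h, mul_one]
  rw [h1]
  have h2 : ∀ s : Fin 3, (∑ β : J a b with lab β = s, (1 : ℝ)) =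
      ![(a : ℝ) + 1, (b : ℝ) + 1, 1] s := by
    intro s
    rw [Finset.sum_filter]
    fin_cases s <;> simp [lab]
  rw [h2 s]
  fin_cases s <;> simp [ep, mult]


/-- `Y_r dΦ^α = [α ∈ r] X_α` -/
theorem Y_dΦ (D : BlockData n a b V) (hx : x ∈ V) (r : Fin 3) (α : J a b) (l : Fin n) :
    ∑ k, D.Y r x l k * pd k (D.Φ α) x = if lab α = r then D.Xf α l x else 0 := by
  have e1 : ∑ k, D.Y r x l k * pd k (D.Φ α) x
      = ∑ β with lab β = r, D.Xf β l x * ∑ k, D.Xf β k x * pd k (D.Φ α) x := by
    simp only [Y, Matrix.of_apply, Finset.mul_sum, Finset.sum_mul]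
    rw [Finset.sum_comm]
    refine Finset.sum_congr rfl fun β _ => Finset.sum_congr rfl fun k _ => by ring
  rw [e1]
  simp only [dual' D hx]
  by_cases h : lab α = r
  · subst h
    simp only [if_true]
    have e2 : ∀ β ∈ Finset.univ.filter (fun β => lab β = lab α), D.Xf β l x *
        ((if α = β then 1 else 0) -
          (if lab α = lab β then ep (lab β) * (D.Φ α x * D.Φ β x) else 0))
        = (if α = β then D.Xf α l x else 0) -
          ep (lab α) * D.Φ α x * (D.Φ β x * D.Xf β l x) := by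
      intro β hβ
      rw [Finset.mem_filter] at hβ
      rw [if_pos hβ.2.symm, hβ.2]
      by_cases h : α = β
      · subst h
        simp
        ring
      · simp only [h, if_false]
        ring
    rw [Finset.sum_congr rfl e2, Finset.sum_sub_distrib, ← Finset.mul_sum]
    by_cases h2 : lab α = 2
    · simp [ep, h2]
    · rw [normal D hx h2 l]
      simp
  · simp only [h, if_false]
    refine Finset.sum_eq_zero fun β hβ => ?_
    rw [Finset.mem_filter] at hβ
    have h1 : lab α ≠ lab β := by rw [hβ.2]; exact h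
    have h2 : α ≠ β := fun h' => h1 (by rw [h'])
    simp [h1, h2]

/-- the Christoffel symbols -/
def Gam (D : BlockData n a b V) (l i j : Fin n) (x : E n) : ℝ :=
  ∑ α, D.Xf α l x * pd i (pd j (D.Φ α)) x

theorem smooth_Gam (hV : IsOpen V) (D : BlockData n a b V) (l i j : Fin n) :
    ContDiffOn ℝ ∞ (D.Gam l i j) V := by
  unfold Gam
  exact ContDiffOn.sum fun α _ => (D.smoothX α l).mul
    (contDiffOn_pd hV (contDiffOn_pd hV (D.smoothΦ α)))

/-- `∂_i ∂_j Φ^α = Γ^l_ij ∂_l Φ^α - ε g_ij Φ^α` -/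
theorem hess (hV : IsOpen V) (D : BlockData n a b V) (hx : x ∈ V) (α : J a b) (i j : Fin n) :
    pd i (pd j (D.Φ α)) x = ∑ l, D.Gam l i j x * pd l (D.Φ α) x
      - ep (lab α) * D.g (lab α) x i j * D.Φ α x := by
  have e1 : ∑ l, D.Gam l i j x * pd l (D.Φ α) x
      = ∑ β, pd i (pd j (D.Φ β)) x * ∑ l, D.Xf β l x * pd l (D.Φ α) x := by
    simp only [Gam, Finset.mul_sum, Finset.sum_mul]
    rw [Finset.sum_comm]
    refine Finset.sum_congr rfl fun β _ => Finset.sum_congr rfl fun k _ => by ring
  rw [e1]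
  simp only [dual' D hx]
  have e2 : ∀ β, pd i (pd j (D.Φ β)) x *
        ((if α = β then 1 else 0) -
          (if lab α = lab β then ep (lab β) * (D.Φ α x * D.Φ β x) else 0))
        = (if α = β then pd i (pd j (D.Φ α)) x else 0) -
          (if lab β = lab α then ep (lab α) * D.Φ α x * (D.Φ β x * pd i (pd j (D.Φ β)) x) else 0) := by
    intro β
    by_cases h : lab α = lab β
    · rw [if_pos h, if_pos h.symm, ← h]
      by_cases h' : α = β
      · subst h'
        simp
        ring
      · simp only [h', if_false]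
        ring
    · have h2 : α ≠ β := fun h' => h (by rw [h'])
      have h3 : ¬ lab β = lab α := fun h' => h h'.symm
      simp only [h, h2, h3, if_false]
      ring
  simp only [e2]
  rw [Finset.sum_sub_distrib, Finset.sum_ite_eq, ← Finset.sum_filter, ← Finset.mul_sum]
  simp only [Finset.mem_univ, if_true]
  by_cases h2 : lab α = 2
  · simp [ep, h2]
  · rw [sphere_pd2 hV D hx h2 i j]
    ring

theorem pd_g (hV : IsOpen V) (D : BlockData n a b V) (hx : x ∈ V) (s : Fin 3) (k i j : Fin n) :
    pd k (fun y => D.g s y i j) x = ∑ α with lab α = s,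
      (pd k (pd i (D.Φ α)) x * pd j (D.Φ α) x + pd i (D.Φ α) x * pd k (pd j (D.Φ α)) x) := by
  simp only [BlockData.g, Matrix.of_apply]
  rw [pd_sum]
  · exact Finset.sum_congr rfl fun α _ => pd_mul (cd_diff (contDiffAt_pd (diffΦ hV D hx α)))
      (cd_diff (contDiffAt_pd (diffΦ hV D hx α)))
  · intro α _
    exact cd_diff ((contDiffAt_pd (diffΦ hV D hx α)).mul (contDiffAt_pd (diffΦ hV D hx α)))

theorem smooth_g (hV : IsOpen V) (D : BlockData n a b V) (s : Fin 3) (i j : Fin n) :
    ContDiffOn ℝ ∞ (fun y => D.g s y i j) V := by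
  simp only [BlockData.g, Matrix.of_apply]
  exact ContDiffOn.sum fun α _ => (contDiffOn_pd hV (D.smoothΦ α)).mul
    (contDiffOn_pd hV (D.smoothΦ α))

/-- first kind Christoffel symbols of `g_s` -/
theorem first_kind (hV : IsOpen V) (D : BlockData n a b V) (hx : x ∈ V) (s : Fin 3)
    (i j l : Fin n) :
    pd i (fun y => D.g s y j l) x + pd j (fun y => D.g s y i l) x - pd l (fun y => D.g s y i j) x
      = 2 * ∑ α with lab α = s, pd i (pd j (D.Φ α)) x * pd l (D.Φ α) x := by
  rw [pd_g hV D hx, pd_g hV D hx, pd_g hV D hx, ← Finset.sum_add_distrib,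
    ← Finset.sum_sub_distrib, Finset.mul_sum]
  refine Finset.sum_congr rfl fun α _ => ?_
  rw [pd_comm (i := j) (j := i) (diffΦ hV D hx α), pd_comm (i := l) (j := i) (diffΦ hV D hx α),
    pd_comm (i := l) (j := j) (diffΦ hV D hx α)]
  ring

/-- the curvature acting on `dΦ^α` -/
theorem curv_dΦ (hV : IsOpen V) (D : BlockData n a b V) (hx : x ∈ V) (α : J a b) (i k j : Fin n) :
    ∑ m, (pd k (D.Gam m i j) x - pd j (D.Gam m i k) x
      + ∑ l, (D.Gam m k l x * D.Gam l i j x - D.Gam m j l x * D.Gam l i k x)) * pd m (D.Φ α) x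
      = ep (lab α) * (D.g (lab α) x i j * pd k (D.Φ α) x - D.g (lab α) x i k * pd j (D.Φ α) x) := by
  have hsm := diffΦ hV D hx α
  -- differentiate the Hessian identity
  have key : ∀ k j : Fin n, pd k (pd i (pd j (D.Φ α))) x
      = ∑ l, (pd k (D.Gam l i j) x * pd l (D.Φ α) x + D.Gam l i j x * pd k (pd l (D.Φ α)) x)
      - (ep (lab α) * pd k (fun y => D.g (lab α) y i j) x * D.Φ α x
        + ep (lab α) * D.g (lab α) x i j * pd k (D.Φ α) x) := by
    intro k j
    have hG : ∀ l, ContDiffAt ℝ ∞ (D.Gam l i j) x := fun l =>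
      (smooth_Gam hV D l i j).contDiffAt (hV.mem_nhds hx)
    have hg : ContDiffAt ℝ ∞ (fun y => D.g (lab α) y i j) x :=
      (smooth_g hV D (lab α) i j).contDiffAt (hV.mem_nhds hx)
    rw [pd_congr_on hV (fun y hy => hess hV D hy α i j) hx]
    rw [pd_sub, pd_sum]
    · congr 1
      · refine Finset.sum_congr rfl fun l _ => ?_
        exact pd_mul (cd_diff (hG l)) (cd_diff (contDiffAt_pd hsm))
      · have : pd k (fun y => ep (lab α) * D.g (lab α) y i j * D.Φ α y) x
            = pd k (fun y => (ep (lab α) * D.g (lab α) y i j) * D.Φ α y) x := rfl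
        rw [this, pd_mul (cd_diff (contDiffAt_const.mul hg)) (cd_diff hsm),
          pd_const_mul _ (cd_diff hg)]
    · intro l _
      exact cd_diff ((hG l).mul (contDiffAt_pd hsm))
    · exact cd_diff (ContDiffAt.sum fun l _ => (hG l).mul (contDiffAt_pd hsm))
    · exact cd_diff ((contDiffAt_const.mul hg).mul hsm)
  have hcomm : pd k (pd i (pd j (D.Φ α))) x = pd j (pd i (pd k (D.Φ α))) x := by
    have h1 : pd i (pd j (D.Φ α)) =ᶠ[𝓝 x] pd j (pd i (D.Φ α)) :=
      Filter.eventuallyEq_of_mem (hV.mem_nhds hx) fun y hy => pd_comm (diffΦ hV D hy α)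
    have h2 : pd i (pd k (D.Φ α)) =ᶠ[𝓝 x] pd k (pd i (D.Φ α)) :=
      Filter.eventuallyEq_of_mem (hV.mem_nhds hx) fun y hy => pd_comm (diffΦ hV D hy α)
    rw [pd_congr h1, pd_congr h2, pd_comm (contDiffAt_pd hsm)]
  rw [key k j, key j k] at hcomm
  -- second term: `Γ^l_ij ∂_k ∂_l Φ`
  have hG2 : ∀ k j : Fin n, ∑ l, D.Gam l i j x * pd k (pd l (D.Φ α)) x
      = ∑ m, (∑ l, D.Gam m k l x * D.Gam l i j x) * pd m (D.Φ α) x
        - ep (lab α) * D.Φ α x * ∑ l, D.Gam l i j x * D.g (lab α) x k l := by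
    intro k j
    simp only [hess hV D hx α k, Finset.mul_sum, Finset.sum_mul, mul_sub, Finset.sum_sub_distrib]
    congr 1
    · rw [Finset.sum_comm]
      refine Finset.sum_congr rfl fun l _ => Finset.sum_congr rfl fun m _ => by ring
    · refine Finset.sum_congr rfl fun l _ => by ring
  -- the middle term
  have hmid : ∀ k j : Fin n, ∑ l, D.Gam l i j x * D.g (lab α) x k l
      = ∑ β with lab β = lab α, pd i (pd j (D.Φ β)) x * pd k (D.Φ β) x := by
    intro k j
    have e1 : ∑ l, D.Gam l i j x * D.g (lab α) x k l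
        = ∑ β, pd i (pd j (D.Φ β)) x * ∑ l, D.g (lab α) x k l * D.Xf β l x := by
      simp only [Gam, Finset.mul_sum, Finset.sum_mul]
      rw [Finset.sum_comm]
      refine Finset.sum_congr rfl fun β _ => Finset.sum_congr rfl fun l _ => by ring
    rw [e1]
    simp only [g_X hV D hx]
    rw [Finset.sum_filter]
    refine Finset.sum_congr rfl fun β _ => ?_
    split_ifs <;> ring
  have hpg : ∀ k j : Fin n, pd k (fun y => D.g (lab α) y i j) x
      = ∑ β with lab β = lab α, pd k (pd i (D.Φ β)) x * pd j (D.Φ β) x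
        + ∑ β with lab β = lab α, pd i (D.Φ β) x * pd k (pd j (D.Φ β)) x := by
    intro k j
    rw [pd_g hV D hx, Finset.sum_add_distrib]
  have hc1 : ∑ β with lab β = lab α, pd k (pd i (D.Φ β)) x * pd j (D.Φ β) x
      = ∑ β with lab β = lab α, pd i (pd k (D.Φ β)) x * pd j (D.Φ β) x :=
    Finset.sum_congr rfl fun β _ => by rw [pd_comm (diffΦ hV D hx β)]
  have hc2 : ∑ β with lab β = lab α, pd j (pd i (D.Φ β)) x * pd k (D.Φ β) x
      = ∑ β with lab β = lab α, pd i (pd j (D.Φ β)) x * pd k (D.Φ β) x :=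
    Finset.sum_congr rfl fun β _ => by rw [pd_comm (diffΦ hV D hx β)]
  have hc3 : ∑ β with lab β = lab α, pd i (D.Φ β) x * pd k (pd j (D.Φ β)) x
      = ∑ β with lab β = lab α, pd i (D.Φ β) x * pd j (pd k (D.Φ β)) x :=
    Finset.sum_congr rfl fun β _ => by rw [pd_comm (diffΦ hV D hx β)]
  rw [Finset.sum_add_distrib, Finset.sum_add_distrib, hG2 k j, hG2 j k, hmid k j, hmid j k,
    hpg k j, hpg j k, hc1, hc2, hc3] at hcomm
  have e : ∑ m, (pd k (D.Gam m i j) x - pd j (D.Gam m i k) x
      + ∑ l, (D.Gam m k l x * D.Gam l i j x - D.Gam m j l x * D.Gam l i k x)) * pd m (D.Φ α) x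
      = ∑ m, pd k (D.Gam m i j) x * pd m (D.Φ α) x - ∑ m, pd j (D.Gam m i k) x * pd m (D.Φ α) x
        + (∑ m, (∑ l, D.Gam m k l x * D.Gam l i j x) * pd m (D.Φ α) x
          - ∑ m, (∑ l, D.Gam m j l x * D.Gam l i k x) * pd m (D.Φ α) x) := by
    rw [← Finset.sum_sub_distrib, ← Finset.sum_sub_distrib, ← Finset.sum_add_distrib]
    refine Finset.sum_congr rfl fun m _ => ?_
    rw [Finset.sum_sub_distrib]
    ring
  rw [e]
  linear_combination hcomm


/-- the curvature tensor in coordinates -/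
theorem curv (hV : IsOpen V) (D : BlockData n a b V) (hx : x ∈ V) (p i k j : Fin n) :
    pd k (D.Gam p i j) x - pd j (D.Gam p i k) x
      + ∑ l, (D.Gam p k l x * D.Gam l i j x - D.Gam p j l x * D.Gam l i k x)
      = ∑ α, D.Xf α p x * (ep (lab α) *
        (D.g (lab α) x i j * pd k (D.Φ α) x - D.g (lab α) x i k * pd j (D.Φ α) x)) := by
  simp only [← curv_dΦ hV D hx, Finset.mul_sum]
  rw [Finset.sum_comm]
  have e : ∀ m, ∑ α, D.Xf α p x * ((pd k (D.Gam m i j) x - pd j (D.Gam m i k) x
      + ∑ l, (D.Gam m k l x * D.Gam l i j x - D.Gam m j l x * D.Gam l i k x)) * pd m (D.Φ α) x)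
      = (if p = m then 1 else 0) * (pd k (D.Gam m i j) x - pd j (D.Gam m i k) x
      + ∑ l, (D.Gam m k l x * D.Gam l i j x - D.Gam m j l x * D.Gam l i k x)) := by
    intro m
    rw [← D.complete x hx p m, Finset.sum_mul]
    exact Finset.sum_congr rfl fun α _ => by ring
  simp only [e]
  simp

/-- the Ricci tensor in coordinates -/
theorem ricci (hV : IsOpen V) (D : BlockData n a b V) (hx : x ∈ V) (i j : Fin n) :
    ∑ k, (pd k (D.Gam k i j) x - pd j (D.Gam k i k) x
      + ∑ l, (D.Gam k k l x * D.Gam l i j x - D.Gam k j l x * D.Gam l i k x))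
      = ∑ s, kap a b s * D.g s x i j := by
  simp only [curv hV D hx]
  rw [Finset.sum_comm]
  have e1 : ∀ α, ∑ k, D.Xf α k x * (ep (lab α) *
        (D.g (lab α) x i j * pd k (D.Φ α) x - D.g (lab α) x i k * pd j (D.Φ α) x))
      = ep (lab α) * (D.g (lab α) x i j * ∑ k, D.Xf α k x * pd k (D.Φ α) x
        - pd j (D.Φ α) x * ∑ k, D.g (lab α) x i k * D.Xf α k x) := by
    intro α
    rw [Finset.mul_sum, Finset.mul_sum, ← Finset.sum_sub_distrib, Finset.mul_sum]
    exact Finset.sum_congr rfl fun k _ => by ring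
  simp only [e1, g_X hV D hx, if_true]
  rw [← sum_lab (f := fun α => ep (lab α) * (D.g (lab α) x i j * ∑ k, D.Xf α k x * pd k (D.Φ α) x
        - pd j (D.Φ α) x * pd i (D.Φ α) x))]
  refine Finset.sum_congr rfl fun s _ => ?_
  have e2 : ∀ α ∈ Finset.univ.filter (fun α : J a b => lab α = s),
      ep (lab α) * (D.g (lab α) x i j * ∑ k, D.Xf α k x * pd k (D.Φ α) x
        - pd j (D.Φ α) x * pd i (D.Φ α) x)
      = ep s * (D.g s x i j * ∑ k, D.Xf α k x * pd k (D.Φ α) x)
        - ep s * (pd i (D.Φ α) x * pd j (D.Φ α) x) := by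
    intro α hα
    rw [Finset.mem_filter] at hα
    rw [hα.2]
    ring
  rw [Finset.sum_congr rfl e2, Finset.sum_sub_distrib, ← Finset.mul_sum, ← Finset.mul_sum,
    ← Finset.mul_sum]
  have h3 : ∑ α with lab α = s, pd i (D.Φ α) x * pd j (D.Φ α) x = D.g s x i j := rfl
  have h4 : ∑ α with lab α = s, ∑ k, D.Xf α k x * pd k (D.Φ α) x = mult a b s := by
    rw [← trace_Q D hx s]
    simp only [Matrix.trace, Matrix.diag_apply, Q, Matrix.of_apply]
    rw [Finset.sum_comm]
    exact Finset.sum_congr rfl fun β _ => Finset.sum_congr rfl fun i _ => mul_comm _ _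
  rw [h3, h4]
  have h5 : kap a b s = ep s * (mult a b s - 1) := by
    fin_cases s <;> simp [kap, ep, mult]
  rw [h5]
  ring

end real

end BlockData

end Pool.QCurv
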