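import Pool.Agent.Lib.MP_993073_gt.Block

/-!
# The ambient family of block metrics (helper file for MP_993073_gt)
-/

open scoped Manifold ContDiff Topology PowerSeries
open PowerSeries (C X coeff)
open Filter

noncomputable section

namespace Pool.QCurv

variable {n a b : ℕ} {V : Set (E n)}

theorem drb_C (c : ℝ) : dr (C c) = 0 := by simp [dr]

theorem drb_C_mul (A : ℝ⟦X⟧) (c : ℝ) : dr (A * C c) = dr A * C c := by
  simp [dr, Derivation.leibniz, mul_comm]

theorem drb_add (A B : ℝ⟦X⟧) : dr (A + B) = dr A + dr B := by simp [dr]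

theorem drb_sum {ι : Type*} (s : Finset ι) (f : ι → ℝ⟦X⟧) :
    dr (∑ i ∈ s, f i) = ∑ i ∈ s, dr (f i) := by simp [dr]

section pdS

variable {i : Fin n} {x : E n}

theorem pdSb_congr_on (hV : IsOpen V) {f g : E n → ℝ⟦X⟧} (h : ∀ y ∈ V, f y = g y) (hx : x ∈ V) :
    pdS i f x = pdS i g x := by
  unfold pdS
  ext k
  simp only [PowerSeries.coeff_mk]
  exact pd_congr_on hV (fun y hy => by rw [h y hy]) hx

theorem pdSb_C (f : E n → ℝ) : pdS i (fun y => C (f y)) x = C (pd i f x) := by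
  ext k
  simp only [pdS, PowerSeries.coeff_mk, PowerSeries.coeff_C]
  split_ifs with h
  · rfl
  · exact pd_const 0

theorem pdSb_const (A : ℝ⟦X⟧) : pdS i (fun _ => A) x = 0 := by
  ext k
  simp only [pdS, PowerSeries.coeff_mk]
  rw [pd_const]
  simp

theorem pdSb_sum_mul_C {ι : Type*} (s : Finset ι) (A : ι → ℝ⟦X⟧) {f : ι → E n → ℝ}
    (hf : ∀ r ∈ s, DifferentiableAt ℝ (f r) x) :
    pdS i (fun y => ∑ r ∈ s, A r * C (f r y)) x = ∑ r ∈ s, A r * C (pd i (f r) x) := by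
  ext k
  simp only [pdS, PowerSeries.coeff_mk, map_sum, PowerSeries.coeff_mul_C]
  rw [pd_sum]
  · refine Finset.sum_congr rfl fun r hr => ?_
    exact pd_const_mul _ (hf r hr)
  · intro r hr
    exact (differentiableAt_const _).mul (hf r hr)

end pdS

namespace BlockData

variable {D : BlockData n a b V} {x : E n}

/-- the family `∑ A_s g_s` -/
def Hm (D : BlockData n a b V) (A : Fin 3 → ℝ⟦X⟧) (x : E n) : Mat n ℝ⟦X⟧ :=
  ∑ s, A s • (D.g s x).map C

theorem Hm_apply (D : BlockData n a b V) (A : Fin 3 → ℝ⟦X⟧) (x : E n) (i j : Fin n) :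
    D.Hm A x i j = ∑ s, A s * C (D.g s x i j) := by
  simp [Hm, Matrix.sum_apply]

theorem map_mul' (P R : Mat n ℝ) : P.map (C : ℝ → ℝ⟦X⟧) * R.map C = (P * R).map C := by
  rw [Matrix.map_mul]

theorem Hm_inv (hV : IsOpen V) (D : BlockData n a b V) (hx : x ∈ V) {A : Fin 3 → ℝ⟦X⟧}
    (hA : ∀ s, PowerSeries.constantCoeff (A s) ≠ 0) :
    (D.Hm A x)⁻¹ = ∑ s, (A s)⁻¹ • (D.Y s x).map C := by
  apply Matrix.inv_eq_right_inv
  simp only [Hm, Finset.sum_mul, Finset.mul_sum, Matrix.smul_mul, Matrix.mul_smul, map_mul',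
    g_mul_Y hV D hx]
  have e : ∀ r s : Fin 3, (A r)⁻¹ • A s • (if s = r then D.Q s x else 0).map (C : ℝ → ℝ⟦X⟧)
      = if r = s then (D.Q r x).map C else 0 := by
    intro r s
    by_cases h : r = s
    · subst h
      simp only [if_true]
      rw [smul_smul, PowerSeries.inv_mul_cancel _ (hA r), one_smul]
    · have h' : ¬ s = r := fun h' => h h'.symm
      simp only [h, h', if_false]
      ext i j
      simp
  simp only [e, Finset.sum_ite_eq, Finset.mem_univ, if_true]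
  rw [← Matrix.map_one (C : ℝ → ℝ⟦X⟧) (map_zero _) (map_one _), ← sum_Q D hx]
  ext i j
  simp [Matrix.sum_apply]

theorem Hm_inv_mul_dΦ (hV : IsOpen V) (D : BlockData n a b V) (hx : x ∈ V) {A : Fin 3 → ℝ⟦X⟧}
    (hA : ∀ s, PowerSeries.constantCoeff (A s) ≠ 0) (α : J a b) (l : Fin n) :
    ∑ k, (D.Hm A x)⁻¹ l k * C (pd k (D.Φ α) x) = (A (lab α))⁻¹ * C (D.Xf α l x) := by
  rw [Hm_inv hV D hx hA]
  simp only [Matrix.sum_apply, Matrix.smul_apply, Matrix.map_apply, smul_eq_mul, Finset.sum_mul]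
  rw [Finset.sum_comm]
  have e : ∀ s : Fin 3, ∑ k, (A s)⁻¹ * C (D.Y s x l k) * C (pd k (D.Φ α) x)
      = (A s)⁻¹ * C (if lab α = s then D.Xf α l x else 0) := by
    intro s
    rw [← Y_dΦ D hx s α l]
    simp only [map_sum, map_mul, Finset.mul_sum, mul_assoc]
  simp only [e]
  have e2 : ∀ s : Fin 3, (A s)⁻¹ * C (if lab α = s then D.Xf α l x else 0)
      = if lab α = s then (A s)⁻¹ * C (D.Xf α l x) else 0 := by
    intro s
    split_ifs <;> simp
  simp only [e2, Finset.sum_ite_eq, Finset.mem_univ, if_true]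

theorem chr_eq (hV : IsOpen V) (D : BlockData n a b V) (hx : x ∈ V) {A : Fin 3 → ℝ⟦X⟧}
    (hA : ∀ s, PowerSeries.constantCoeff (A s) ≠ 0) {H : E n → Mat n ℝ⟦X⟧}
    (hH : ∀ y ∈ V, H y = D.Hm A y) (k i j : Fin n) :
    chr H k i j x = C (D.Gam k i j x) := by
  have hp : ∀ k i j : Fin n, pdS k (fun y => H y i j) x
      = ∑ s, A s * C (pd k (fun y => D.g s y i j) x) := by
    intro k i j
    rw [pdSb_congr_on hV (g := fun y => ∑ s, A s * C (D.g s y i j))
      (fun y hy => by rw [hH y hy, Hm_apply]) hx]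
    exact pdSb_sum_mul_C _ _ fun s _ =>
      cd_diff ((smooth_g hV D s i j).contDiffAt (hV.mem_nhds hx))
  unfold chr
  simp only [hp, hH x hx]
  have e : ∀ l, (∑ s, A s * C (pd i (fun y => D.g s y j l) x)
      + ∑ s, A s * C (pd j (fun y => D.g s y i l) x)
      - ∑ s, A s * C (pd l (fun y => D.g s y i j) x))
      = ∑ s, ∑ α with lab α = s, A s * C (2 * pd i (pd j (D.Φ α)) x) * C (pd l (D.Φ α) x) := by
    intro l
    rw [← Finset.sum_add_distrib, ← Finset.sum_sub_distrib]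
    refine Finset.sum_congr rfl fun s _ => ?_
    rw [← mul_add, ← mul_sub, ← map_add, ← map_sub, first_kind hV D hx, Finset.mul_sum, map_sum,
      Finset.mul_sum]
    refine Finset.sum_congr rfl fun α _ => ?_
    rw [mul_assoc, ← map_mul, mul_assoc]
  simp only [e]
  have e2 : ∑ l, (D.Hm A x)⁻¹ k l * ∑ s, ∑ α with lab α = s, A s * C (2 * pd i (pd j (D.Φ α)) x)
      * C (pd l (D.Φ α) x)
      = ∑ s, ∑ α with lab α = s, A s * C (2 * pd i (pd j (D.Φ α)) x)
        * ∑ l, (D.Hm A x)⁻¹ k l * C (pd l (D.Φ α) x) := by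
    simp only [Finset.mul_sum]
    rw [Finset.sum_comm]
    refine Finset.sum_congr rfl fun s _ => ?_
    rw [Finset.sum_comm]
    refine Finset.sum_congr rfl fun α _ => Finset.sum_congr rfl fun l _ => by ring
  rw [e2]
  simp only [Hm_inv_mul_dΦ hV D hx hA]
  have e3 : ∀ s, ∀ α ∈ Finset.univ.filter (fun α : J a b => lab α = s),
      A s * C (2 * pd i (pd j (D.Φ α)) x) * ((A (lab α))⁻¹ * C (D.Xf α k x))
      = C (2 * (D.Xf α k x * pd i (pd j (D.Φ α)) x)) := by
    intro s α hα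
    rw [Finset.mem_filter] at hα
    rw [hα.2]
    calc _ = (A s * (A s)⁻¹) * (C (2 * pd i (pd j (D.Φ α)) x) * C (D.Xf α k x)) := by ring
      _ = _ := by
        rw [PowerSeries.mul_inv_cancel _ (hA s), one_mul, ← map_mul]
        congr 1
        ring
  rw [Finset.sum_congr rfl fun s _ => Finset.sum_congr rfl (e3 s)]
  rw [Gam, ← sum_lab (f := fun α => D.Xf α k x * pd i (pd j (D.Φ α)) x)]
  simp only [← map_sum]
  rw [← map_mul]
  congr 1
  simp only [← Finset.mul_sum]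
  ring

theorem ric_eq (hV : IsOpen V) (D : BlockData n a b V) (hx : x ∈ V) {A : Fin 3 → ℝ⟦X⟧}
    (hA : ∀ s, PowerSeries.constantCoeff (A s) ≠ 0) {H : E n → Mat n ℝ⟦X⟧}
    (hH : ∀ y ∈ V, H y = D.Hm A y) :
    ric H x = D.Hm (fun s => C (kap a b s)) x := by
  ext1 i j
  have hp : ∀ p k i j : Fin n, pdS p (chr H k i j) x = C (pd p (D.Gam k i j) x) := by
    intro p k i j
    rw [pdSb_congr_on hV (fun y hy => chr_eq hV D hy hA hH k i j) hx, pdSb_C]
  simp only [ric, Matrix.of_apply, hp, chr_eq hV D hx hA hH, Hm_apply]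
  simp only [← map_mul, ← map_sub, ← map_add, ← map_sum]
  rw [ricci hV D hx i j]

theorem Hm_map_dr (D : BlockData n a b V) (A : Fin 3 → ℝ⟦X⟧) (x : E n) :
    (D.Hm A x).map dr = D.Hm (fun s => dr (A s)) x := by
  ext1 i j
  simp only [Matrix.map_apply, Hm_apply, drb_sum, drb_C_mul]

theorem dr_eq_sd (f : ℝ⟦X⟧) : dr f = sd f := rfl

theorem Hm_mul_inv (hV : IsOpen V) (D : BlockData n a b V) (hx : x ∈ V) {A : Fin 3 → ℝ⟦X⟧}
    (hA : ∀ s, PowerSeries.constantCoeff (A s) ≠ 0) (B : Fin 3 → ℝ⟦X⟧) :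
    D.Hm B x * (D.Hm A x)⁻¹ = ∑ s, (B s * (A s)⁻¹) • (D.Q s x).map C := by
  rw [Hm_inv hV D hx hA]
  simp only [Hm, Finset.sum_mul, Finset.mul_sum, Matrix.smul_mul, Matrix.mul_smul, map_mul',
    g_mul_Y hV D hx]
  have e : ∀ r s : Fin 3, (A r)⁻¹ • B s • (if s = r then D.Q s x else 0).map (C : ℝ → ℝ⟦X⟧)
      = if r = s then (B r * (A r)⁻¹) • (D.Q r x).map C else 0 := by
    intro r s
    by_cases h : r = s
    · subst h
      simp only [if_true]
      rw [smul_smul, mul_comm]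
    · have h' : ¬ s = r := fun h' => h h'.symm
      simp only [h, h', if_false]
      ext i j
      simp
  simp only [e, Finset.sum_ite_eq, Finset.mem_univ, if_true]

theorem Hm_mul_inv_mul (hV : IsOpen V) (D : BlockData n a b V) (hx : x ∈ V) {A : Fin 3 → ℝ⟦X⟧}
    (hA : ∀ s, PowerSeries.constantCoeff (A s) ≠ 0) (B B' : Fin 3 → ℝ⟦X⟧) :
    D.Hm B x * (D.Hm A x)⁻¹ * D.Hm B' x = D.Hm (fun s => B s * (A s)⁻¹ * B' s) x := by
  rw [Hm_mul_inv hV D hx hA]
  simp only [Hm, Finset.sum_mul, Finset.mul_sum, Matrix.smul_mul, Matrix.mul_smul, map_mul',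
    Q_mul_g hV D hx]
  have e : ∀ r s : Fin 3, B' r • (B s * (A s)⁻¹) • (if s = r then D.g s x else 0).map (C : ℝ → ℝ⟦X⟧)
      = if r = s then (B r * (A r)⁻¹ * B' r) • (D.g r x).map C else 0 := by
    intro r s
    by_cases h : r = s
    · subst h
      simp only [if_true]
      rw [smul_smul]
      congr 1
      ring
    · have h' : ¬ s = r := fun h' => h h'.symm
      simp only [h, h', if_false]
      ext i j
      simp
  simp only [e, Finset.sum_ite_eq, Finset.mem_univ, if_true]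

theorem trace_Hm (hV : IsOpen V) (D : BlockData n a b V) (hx : x ∈ V) {A : Fin 3 → ℝ⟦X⟧}
    (hA : ∀ s, PowerSeries.constantCoeff (A s) ≠ 0) (B : Fin 3 → ℝ⟦X⟧) :
    ((D.Hm A x)⁻¹ * D.Hm B x).trace = ∑ s, C (mult a b s) * (B s * (A s)⁻¹) := by
  rw [Matrix.trace_mul_comm, Hm_mul_inv hV D hx hA]
  simp only [Matrix.trace_sum, Matrix.trace_smul, smul_eq_mul]
  refine Finset.sum_congr rfl fun s _ => ?_
  have : ((D.Q s x).map (C : ℝ → ℝ⟦X⟧)).trace = C (mult a b s) := by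
    rw [← trace_Q D hx s]
    simp [Matrix.trace, map_sum]
  rw [this, mul_comm]

theorem trd_Hm (hV : IsOpen V) (D : BlockData n a b V) (hx : x ∈ V) {A : Fin 3 → ℝ⟦X⟧}
    (hA : ∀ s, PowerSeries.constantCoeff (A s) ≠ 0) :
    trd (D.Hm A x) = sT (mult a b) A := by
  rw [trd, Hm_map_dr, trace_Hm hV D hx hA]
  rfl

theorem smul_Hm (D : BlockData n a b V) (c : ℝ⟦X⟧) (A : Fin 3 → ℝ⟦X⟧) :
    c • D.Hm A x = D.Hm (fun s => c * A s) x := by
  simp only [Hm, Finset.smul_sum, smul_smul]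

theorem add_Hm (D : BlockData n a b V) (A B : Fin 3 → ℝ⟦X⟧) :
    D.Hm A x + D.Hm B x = D.Hm (fun s => A s + B s) x := by
  simp only [Hm, add_smul, Finset.sum_add_distrib]

theorem sub_Hm (D : BlockData n a b V) (A B : Fin 3 → ℝ⟦X⟧) :
    D.Hm A x - D.Hm B x = D.Hm (fun s => A s - B s) x := by
  simp only [Hm, sub_smul, Finset.sum_sub_distrib]

theorem amb_eq (hV : IsOpen V) (D : BlockData n a b V) (hx : x ∈ V) {A : Fin 3 → ℝ⟦X⟧}
    (hA : ∀ s, PowerSeries.constantCoeff (A s) ≠ 0) {H : E n → Mat n ℝ⟦X⟧}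
    (hH : ∀ y ∈ V, H y = D.Hm A y) :
    amb H x = D.Hm (sAmb n (mult a b) (kap a b) A) x := by
  unfold amb
  rw [ric_eq hV D hx hA hH, hH x hx, trd_Hm hV D hx hA]
  simp only [Hm_map_dr, Hm_mul_inv_mul hV D hx hA, smul_Hm, add_Hm, sub_Hm]
  rfl

theorem G_eq_Hm (D : BlockData n a b V) (A0 : Fin 3 → ℝ) (x : E n) :
    (D.G A0 x).map C = D.Hm (fun s => C (A0 s)) x := by
  ext1 i j
  simp [BlockData.G, Hm_apply, Matrix.sum_apply]

theorem G_inv (hV : IsOpen V) (D : BlockData n a b V) (hx : x ∈ V) {A0 : Fin 3 → ℝ}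
    (hA : ∀ s, A0 s ≠ 0) : (D.G A0 x)⁻¹ = ∑ s, (A0 s)⁻¹ • D.Y s x := by
  apply Matrix.inv_eq_right_inv
  simp only [BlockData.G, Finset.sum_mul, Finset.mul_sum, Matrix.smul_mul, Matrix.mul_smul,
    g_mul_Y hV D hx]
  have e : ∀ r s : Fin 3, (A0 r)⁻¹ • A0 s • (if s = r then D.Q s x else 0)
      = if r = s then D.Q r x else 0 := by
    intro r s
    by_cases h : r = s
    · subst h
      simp only [if_true]
      rw [smul_smul, inv_mul_cancel₀ (hA r), one_smul]
    · have h' : ¬ s = r := fun h' => h h'.symm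
      simp only [h, h', if_false]
      simp
  simp only [e, Finset.sum_ite_eq, Finset.mem_univ, if_true]
  exact sum_Q D hx

theorem trace_G (hV : IsOpen V) (D : BlockData n a b V) (hx : x ∈ V) {A0 : Fin 3 → ℝ}
    (hA : ∀ s, A0 s ≠ 0) (F : Fin 3 → ℝ) :
    ((D.G A0 x)⁻¹ * D.G F x).trace = ∑ s, mult a b s * (F s / A0 s) := by
  rw [Matrix.trace_mul_comm, G_inv hV D hx hA]
  simp only [BlockData.G, Finset.sum_mul, Finset.mul_sum, Matrix.smul_mul, Matrix.mul_smul,
    g_mul_Y hV D hx, Matrix.trace_sum, Matrix.trace_smul, smul_eq_mul]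
  have e : ∀ r s : Fin 3, (A0 r)⁻¹ * (F s * (if s = r then D.Q s x else 0).trace)
      = if r = s then mult a b r * (F r / A0 r) else 0 := by
    intro r s
    by_cases h : r = s
    · subst h
      simp only [if_true]
      rw [trace_Q D hx]
      field_simp
    · have h' : ¬ s = r := fun h' => h h'.symm
      simp only [h, h', if_false]
      simp
  simp only [e, Finset.sum_ite_eq, Finset.mem_univ, if_true]

theorem corr_eq (hV : IsOpen V) (D : BlockData n a b V) (hx : x ∈ V) {A0 : Fin 3 → ℝ}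
    (hA : ∀ s, A0 s ≠ 0) (m : ℕ) (F : Fin 3 → ℝ) :
    corr m (D.G A0 x) (D.G F x) = D.G (sCorr n m (mult a b) A0 F) x := by
  unfold corr
  rw [trace_G hV D hx hA]
  simp only [BlockData.G, sCorr]
  split_ifs with h
  · simp only [Finset.smul_sum, ← Finset.sum_sub_distrib, smul_smul, ← sub_smul]
  · simp only [Finset.smul_sum, smul_smul]

theorem coeff_Hm (D : BlockData n a b V) (A : Fin 3 → ℝ⟦X⟧) (x : E n) (k : ℕ) :
    (D.Hm A x).map (coeff k) = D.G (fun s => coeff k (A s)) x := by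
  ext1 i j
  simp [BlockData.G, Hm_apply, Matrix.sum_apply, PowerSeries.coeff_mul_C]

theorem const_sFam (m κ A0 : Fin 3 → ℝ) (j : ℕ) (s : Fin 3) :
    PowerSeries.constantCoeff (sFam n m κ A0 j s) = A0 s := by
  induction j with
  | zero => simp [sFam]
  | succ j ih => simp [sFam, ih]

theorem fam_eq (hV : IsOpen V) (D : BlockData n a b V) {A0 : Fin 3 → ℝ}
    (hA : ∀ s, A0 s ≠ 0) (m : ℕ) : ∀ x ∈ V,
    fam (D.G A0) m x = D.Hm (sFam n (mult a b) (kap a b) A0 m) x := by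
  induction m with
  | zero =>
    intro x _
    exact G_eq_Hm D A0 x
  | succ m ih =>
    intro x hx
    have hc : ∀ s, PowerSeries.constantCoeff (sFam n (mult a b) (kap a b) A0 m s) ≠ 0 := by
      intro s
      rw [const_sFam]
      exact hA s
    show fam (D.G A0) m x + (X ^ (m + 1) : ℝ⟦X⟧) •
      (corr (m + 1) (D.G A0 x) ((amb (fam (D.G A0) m) x).map (coeff m))).map C = _
    rw [amb_eq hV D hx hc ih, coeff_Hm, corr_eq hV D hx hA, G_eq_Hm, ih x hx, smul_Hm, add_Hm]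
    rfl

theorem logIter_eq (hV : IsOpen V) (D : BlockData n a b V) {A : Fin 3 → ℝ⟦X⟧}
    (hA : ∀ s, PowerSeries.constantCoeff (A s) ≠ 0) {H : E n → Mat n ℝ⟦X⟧}
    (hH : ∀ y ∈ V, H y = D.Hm A y) (k : ℕ) : ∀ x ∈ V,
    logIter H k x = sLog n (mult a b) A k := by
  induction k with
  | zero =>
    intro x hx
    simp only [logIter, sLog]
    rw [hH x hx, trd_Hm hV D hx hA]
  | succ k ih =>
    intro x hx
    have h1 : ∀ y ∈ V, ∀ j, pdS j (logIter H k) y = 0 := by
      intro y hy j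
      rw [pdSb_congr_on hV (g := fun _ => sLog n (mult a b) A k) (fun y hy => ih y hy) hy, pdSb_const]
    have h2 : ∀ i j, pdS i (pdS j (logIter H k)) x = 0 := by
      intro i j
      rw [pdSb_congr_on hV (g := fun _ => 0) (fun y hy => h1 y hy j) hx, pdSb_const]
    have h3 : lap H (logIter H k) x = 0 := by
      unfold lap
      simp [h1 x hx, h2]
    show ambLap H (-2 * (k + 1)) (logIter H k) x = _
    unfold ambLap
    rw [h3, ih x hx, hH x hx, trd_Hm hV D hx hA, add_zero]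
    rfl

end BlockData

/-- The Q-curvature of a block metric is the constant `sQ`. -/
theorem Qcurv_block (hV : IsOpen V) (D : BlockData n a b V)
    (A0 : Fin 3 → ℝ) (hA : ∀ s, A0 s ≠ 0) {x : E n} (hx : x ∈ V) :
    Qcurv (D.G A0) x = sQ n (mult a b) (kap a b) A0 := by
  unfold Qcurv sQ
  rw [BlockData.logIter_eq hV D (A := sFam n (mult a b) (kap a b) A0 (n / 2)) ?_
    (BlockData.fam_eq hV D hA (n / 2)) _ x hx]
  intro s
  rw [BlockData.const_sFam]
  exact hA s

end Pool.QCurv
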