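import Mathlib

/-!
# The scalar recursion for metrics `A₀ g₀ + A₁ g₁ + A₂ g₂` (helper file for MP_993073_gt)

`g₀`, `g₁` are round metrics of spheres of dimensions `a`, `b` and `g₂ = dτ²`.  The ambient family
of such a metric is `∑ A_s(ρ) g_s` with `A_s` given by `sFam` below.
-/

open scoped PowerSeries
open PowerSeries (C X coeff)

noncomputable section

namespace Pool.QCurv

/-- `d/dρ`, scalar version (the same as `dr`). -/
def sd (f : ℝ⟦X⟧) : ℝ⟦X⟧ := PowerSeries.derivative ℝ f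

/-- multiplicities -/
def mult (a b : ℕ) : Fin 3 → ℝ := ![a, b, 1]

/-- Einstein constants -/
def kap (a b : ℕ) : Fin 3 → ℝ := ![(a : ℝ) - 1, (b : ℝ) - 1, 0]

/-- `T = ∑ m_s A_s' / A_s` -/
def sT (m : Fin 3 → ℝ) (A : Fin 3 → ℝ⟦X⟧) : ℝ⟦X⟧ := ∑ s, C (m s) * (sd (A s) * (A s)⁻¹)

/-- the scalar Fefferman–Graham equation -/
def sAmb (n : ℕ) (m κ : Fin 3 → ℝ) (A : Fin 3 → ℝ⟦X⟧) (s : Fin 3) : ℝ⟦X⟧ :=
  X * sd (sd (A s)) - X * (sd (A s) * (A s)⁻¹ * sd (A s)) + C (1 / 2) * X * sT m A * sd (A s)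
    - C ((n : ℝ) / 2 - 1) * sd (A s) - C (1 / 2) * sT m A * A s + C (κ s)

/-- the correction at order `j` -/
def sCorr (n j : ℕ) (m A0 F : Fin 3 → ℝ) (s : Fin 3) : ℝ :=
  if 2 * j < n then
    (1 / (j * ((n : ℝ) / 2 - j))) * (F s - (j / 2 * ((∑ r, m r * (F r / A0 r)) / (j * (n - j)))) * A0 s)
  else ((∑ r, m r * (F r / A0 r)) / (j * (n - j)) / n) * A0 s

/-- the scalar ambient family -/
def sFam (n : ℕ) (m κ A0 : Fin 3 → ℝ) : ℕ → Fin 3 → ℝ⟦X⟧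
  | 0 => fun s => C (A0 s)
  | j + 1 => fun s => sFam n m κ A0 j s +
      X ^ (j + 1) * C (sCorr n (j + 1) m A0 (fun r => coeff j (sAmb n m κ (sFam n m κ A0 j) r)) s)

/-- the scalar version of `logIter` -/
def sLog (n : ℕ) (m : Fin 3 → ℝ) (A : Fin 3 → ℝ⟦X⟧) : ℕ → ℝ⟦X⟧
  | 0 => C (1 / 2) * sT m A
  | k + 1 => C (-2) * X * sd (sd (sLog n m A k))
      + (C (2 * (-2 * ((k : ℝ) + 1)) + n - 2) - X * sT m A) * sd (sLog n m A k)
      + C ((-2 * ((k : ℝ) + 1)) / 2) * sT m A * sLog n m A k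

/-- the Q-curvature of the block metric -/
def sQ (n : ℕ) (m κ A0 : Fin 3 → ℝ) : ℝ :=
  (-1) ^ (n / 2 - 1) * coeff 0 (sLog n m (sFam n m κ A0 (n / 2)) (n / 2 - 1))

end Pool.QCurv
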