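import Pool.Agent.Lib.MP_993073_gt.Defs
import Pool.Agent.Lib.MP_993073_gt.ScalDefs

/-!
# Block data: local coordinates `Φ` with values in `S^a × S^b × ℝ` (helper file for MP_993073_gt)
-/

open scoped Manifold ContDiff Topology PowerSeries
open PowerSeries (C X coeff)

noncomputable section

namespace Pool.QCurv

variable {n : ℕ}

/-- the index set of the ambient coordinates of `S^a × S^b × ℝ ⊂ ℝ^(a+1) × ℝ^(b+1) × ℝ` -/
abbrev J (a b : ℕ) : Type := Fin (a + 1) ⊕ Fin (b + 1) ⊕ Unit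

/-- the label of a coordinate: `0` for the first sphere, `1` for the second, `2` for the line -/
def lab {a b : ℕ} : J a b → Fin 3
  | Sum.inl _ => 0
  | Sum.inr (Sum.inl _) => 1
  | Sum.inr (Sum.inr _) => 2

/-- A local diffeomorphism `Φ = (Φ^α)` from the open set `V ⊂ ℝⁿ` to `S^a × S^b × ℝ`, with the
vector fields `Xf α = ∑ i, Xf α i ∂_i` obtained by pulling back the tangential parts of the
coordinate vector fields. -/
structure BlockData (n a b : ℕ) (V : Set (E n)) where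
  /-- the map -/
  Φ : J a b → E n → ℝ
  /-- the vector fields -/
  Xf : J a b → Fin n → E n → ℝ
  smoothΦ : ∀ α, ContDiffOn ℝ ∞ (Φ α) V
  smoothX : ∀ α i, ContDiffOn ℝ ∞ (Xf α i) V
  dual : ∀ x ∈ V, ∀ α β, ∑ i, Xf β i x * pd i (Φ α) x =
    (if α = β then 1 else 0) - (if lab α = lab β ∧ lab α ≠ 2 then Φ α x * Φ β x else 0)
  complete : ∀ x ∈ V, ∀ i j, ∑ α, Xf α i x * pd j (Φ α) x = if i = j then 1 else 0
  sphere : ∀ x ∈ V, ∀ s : Fin 3, s ≠ 2 → ∑ α with lab α = s, Φ α x ^ 2 = 1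

/-- the pulled back metric of the `s`-th factor -/
def BlockData.g {a b : ℕ} {V : Set (E n)} (D : BlockData n a b V) (s : Fin 3) (x : E n) :
    Mat n ℝ :=
  Matrix.of fun i j => ∑ α with lab α = s, pd i (D.Φ α) x * pd j (D.Φ α) x

/-- the block metric `∑ A_s g_s` -/
def BlockData.G {a b : ℕ} {V : Set (E n)} (D : BlockData n a b V) (A : Fin 3 → ℝ) (x : E n) :
    Mat n ℝ := ∑ s, A s • D.g s x

end Pool.QCurv
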