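import Pool.Agent.Lib.MP_993073_gt.Smooth

/-!
# The family `fam G` solves the Fefferman-Graham equation, and the solution is unique

* `fam_solves`: `amb (fam G (n / 2))` vanishes to order `ρ^(n/2-1)` and the trace of its
  coefficient of `ρ^(n/2-1)` vanishes;
* `solution_unique`: any other family with the same initial metric and these two properties has the
  same coefficients up to order `n/2 - 1`, and the same trace of the coefficient of order `n/2`;
* `Qcurv_eq_of_solution`: the critical Q-curvature can be computed from any such family.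
-/

open scoped Manifold ContDiff Topology PowerSeries
open PowerSeries (C X coeff)
open Filter

noncomputable section

namespace Pool.QCurv

variable {n : ℕ}

/-- equality modulo `ρᵏ` -/
def CG (k : ℕ) (f g : ℝ⟦X⟧) : Prop := ∀ j < k, coeff j f = coeff j g

section CG

variable {k l : ℕ} {f f' g g' h : ℝ⟦X⟧}

theorem CG.refl (f : ℝ⟦X⟧) : CG k f f := fun _ _ => rfl

theorem CG.of_eq (e : f = g) : CG k f g := e ▸ CG.refl f

theorem CG.symm (e : CG k f g) : CG k g f := fun j hj => (e j hj).symm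

theorem CG.trans (e : CG k f g) (e' : CG k g h) : CG k f h := fun j hj =>
  (e j hj).trans (e' j hj)

theorem CG.mono (e : CG k f g) (hl : l ≤ k) : CG l f g := fun j hj => e j (hj.trans_le hl)

theorem CG.add (e : CG k f g) (e' : CG k f' g') : CG k (f + f') (g + g') := fun j hj => by
  rw [map_add, map_add, e j hj, e' j hj]

theorem CG.sub (e : CG k f g) (e' : CG k f' g') : CG k (f - f') (g - g') := fun j hj => by
  rw [map_sub, map_sub, e j hj, e' j hj]

theorem CG.mul (e : CG k f g) (e' : CG k f' g') : CG k (f * f') (g * g') := fun j hj => by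
  rw [PowerSeries.coeff_mul, PowerSeries.coeff_mul]
  refine Finset.sum_congr rfl fun p hp => ?_
  have := Finset.HasAntidiagonal.mem_antidiagonal.1 hp
  rw [e _ (by omega), e' _ (by omega)]

theorem CG.mul_left (c : ℝ⟦X⟧) (e : CG k f g) : CG k (c * f) (c * g) := (CG.refl c).mul e

theorem CG.sum {ι : Type*} (s : Finset ι) {f g : ι → ℝ⟦X⟧} (e : ∀ a ∈ s, CG k (f a) (g a)) :
    CG k (∑ a ∈ s, f a) (∑ a ∈ s, g a) := fun j hj => by
  rw [map_sum, map_sum]
  exact Finset.sum_congr rfl fun a ha => e a ha j hj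

theorem CG.X_mul (e : CG k f g) : CG (k + 1) (X * f) (X * g) := fun j hj => by
  cases j with
  | zero => simp
  | succ j =>
    rw [PowerSeries.coeff_succ_X_mul, PowerSeries.coeff_succ_X_mul]
    exact e j (by omega)

theorem coeff_dr (f : ℝ⟦X⟧) (j : ℕ) : coeff j (dr f) = coeff (j + 1) f * (j + 1) := by
  simp [dr, PowerSeries.coeff_derivative]

theorem CG.dr (e : CG (k + 1) f g) : CG k (dr f) (dr g) := fun j hj => by
  rw [coeff_dr, coeff_dr, e _ (by omega)]

theorem CG.pdS {V : Set (E n)} {f g : E n → ℝ⟦X⟧} {i : Fin n} (hV : IsOpen V)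
    (e : ∀ y ∈ V, CG k (f y) (g y)) {x : E n} (hx : x ∈ V) :
    CG k (pdS i f x) (pdS i g x) := fun j hj => by
  simp only [Pool.QCurv.pdS, PowerSeries.coeff_mk]
  exact pd_congr_on hV (fun y hy => e y hy j hj) hx

theorem coeff_X_pow_mul_C (p : ℕ) (c : ℝ) (j : ℕ) :
    coeff j (X ^ p * C c : ℝ⟦X⟧) = if j = p then c else 0 := by
  rw [PowerSeries.coeff_X_pow_mul', PowerSeries.coeff_C]
  split_ifs <;> first | rfl | omega

theorem CG_X_pow_mul (p : ℕ) (f : ℝ⟦X⟧) : CG (p + 1) (X ^ p * f) (X ^ p * C (coeff 0 f)) := by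
  intro j hj
  rw [coeff_X_pow_mul_C, PowerSeries.coeff_X_pow_mul']
  split_ifs with h1 h2 h2
  · subst h2; simp
  · omega
  · omega
  · rfl

theorem dr_X_pow_mul_C (p : ℕ) (c : ℝ) :
    dr (X ^ (p + 1) * C c : ℝ⟦X⟧) = X ^ p * C (((p : ℝ) + 1) * c) := by
  ext j
  rw [coeff_dr, coeff_X_pow_mul_C, coeff_X_pow_mul_C]
  by_cases h : j = p
  · subst h; simp; ring
  · rw [if_neg (by omega), if_neg h, zero_mul]

theorem X_mul_dr_X_pow_mul_C (p : ℕ) (c : ℝ) :
    X * dr (X ^ p * C c : ℝ⟦X⟧) = X ^ p * C ((p : ℝ) * c) := by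
  ext j
  rw [coeff_X_pow_mul_C]
  cases j with
  | zero =>
    rw [PowerSeries.coeff_zero_X_mul]
    by_cases h : 0 = p
    · subst h; simp
    · rw [if_neg h]
  | succ j =>
    rw [PowerSeries.coeff_succ_X_mul, coeff_dr, coeff_X_pow_mul_C]
    by_cases h : j + 1 = p
    · subst h
      rw [if_pos rfl, if_pos rfl]
      push_cast
      ring
    · rw [if_neg h, if_neg h, zero_mul]

theorem dr_add' (f g : ℝ⟦X⟧) : dr (f + g) = dr f + dr g := map_add (PowerSeries.derivative ℝ) f g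

end CG

/-- equality modulo `ρᵏ` of matrices -/
def MG (k : ℕ) (A B : Mat n ℝ⟦X⟧) : Prop := ∀ i j, CG k (A i j) (B i j)

section MG

variable {k l : ℕ} {A A' B B' : Mat n ℝ⟦X⟧}

theorem MG.refl (A : Mat n ℝ⟦X⟧) : MG k A A := fun _ _ => CG.refl _

theorem MG.mono (e : MG k A B) (hl : l ≤ k) : MG l A B := fun i j => (e i j).mono hl

theorem MG.mul (e : MG k A B) (e' : MG k A' B') : MG k (A * A') (B * B') := fun i j => by
  rw [Matrix.mul_apply, Matrix.mul_apply]
  exact CG.sum _ fun a _ => (e i a).mul (e' a j)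

theorem MG.dr (e : MG (k + 1) A B) : MG k (A.map dr) (B.map dr) := fun i j => by
  rw [Matrix.map_apply, Matrix.map_apply]
  exact (e i j).dr

theorem MG.trace (e : MG k A B) : CG k A.trace B.trace := by
  unfold Matrix.trace
  exact CG.sum _ fun a _ => e a a

theorem MG.inv (e : MG k A B) (hA : coeff 0 A.det ≠ 0) (hB : coeff 0 B.det ≠ 0) :
    MG k A⁻¹ B⁻¹ := by
  have hA' : A⁻¹ * A = 1 := Matrix.nonsing_inv_mul _ (isUnit_of_coeff_zero hA)
  have hB' : B * B⁻¹ = 1 := Matrix.mul_nonsing_inv _ (isUnit_of_coeff_zero hB)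
  have h1 : MG k (A⁻¹ * A * B⁻¹) (A⁻¹ * B * B⁻¹) := ((MG.refl _).mul e).mul (MG.refl _)
  rw [hA', one_mul, mul_assoc, hB', mul_one] at h1
  exact fun i j => (h1 i j).symm

theorem map_coeff_inv (hA : coeff 0 A.det ≠ 0) :
    A⁻¹.map (coeff 0) = (A.map (coeff 0))⁻¹ := by
  symm
  apply Matrix.inv_eq_right_inv
  have h1 : A * A⁻¹ = 1 := Matrix.mul_nonsing_inv _ (isUnit_of_coeff_zero hA)
  have h2 := congrArg (RingHom.mapMatrix (PowerSeries.constantCoeff (R := ℝ))) h1
  rw [map_mul, map_one] at h2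
  simpa [RingHom.mapMatrix_apply] using h2

theorem coeff_det_congr (e : MG (k + 1) A B) (hB : coeff 0 B.det ≠ 0) : coeff 0 A.det ≠ 0 := by
  rw [coeff_zero_det] at hB ⊢
  have : A.map (coeff 0) = B.map (coeff 0) := by
    ext i j
    exact e i j 0 (by omega)
  rwa [this]

end MG

section ric

variable {V : Set (E n)} {H H' : E n → Mat n ℝ⟦X⟧} {k : ℕ} {x : E n}

theorem CG_chr (hV : IsOpen V) (e : ∀ y ∈ V, MG (k + 1) (H y) (H' y))
    (h0 : ∀ y ∈ V, coeff 0 (H' y).det ≠ 0) (a b c : Fin n) {y : E n} (hy : y ∈ V) :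
    CG (k + 1) (chr H a b c y) (chr H' a b c y) := by
  unfold chr
  refine CG.mul_left _ (CG.sum _ fun l _ => CG.mul
    ((e y hy).inv (coeff_det_congr (e y hy) (h0 y hy)) (h0 y hy) a l) (CG.sub (CG.add ?_ ?_) ?_))
  · exact CG.pdS hV (fun z hz => e z hz c l) hy
  · exact CG.pdS hV (fun z hz => e z hz b l) hy
  · exact CG.pdS hV (fun z hz => e z hz b c) hy

theorem MG_ric (hV : IsOpen V) (e : ∀ y ∈ V, MG (k + 1) (H y) (H' y))
    (h0 : ∀ y ∈ V, coeff 0 (H' y).det ≠ 0) (hx : x ∈ V) :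
    MG (k + 1) (ric H x) (ric H' x) := by
  intro i j
  simp only [ric, Matrix.of_apply]
  refine CG.sum _ fun a _ => CG.add (CG.sub ?_ ?_) (CG.sum _ fun l _ => CG.sub ?_ ?_)
  · exact CG.pdS hV (fun z hz => CG_chr hV e h0 _ _ _ hz) hx
  · exact CG.pdS hV (fun z hz => CG_chr hV e h0 _ _ _ hz) hx
  · exact (CG_chr hV e h0 _ _ _ hx).mul (CG_chr hV e h0 _ _ _ hx)
  · exact (CG_chr hV e h0 _ _ _ hx).mul (CG_chr hV e h0 _ _ _ hx)

theorem CG_lap (hV : IsOpen V) (e : ∀ y ∈ V, MG (k + 1) (H y) (H' y))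
    (h0 : ∀ y ∈ V, coeff 0 (H' y).det ≠ 0) {f f' : E n → ℝ⟦X⟧}
    (ef : ∀ y ∈ V, CG (k + 1) (f y) (f' y)) (hx : x ∈ V) :
    CG (k + 1) (lap H f x) (lap H' f' x) := by
  unfold lap
  refine CG.sum _ fun i _ => CG.sum _ fun j _ => CG.mul
    ((e x hx).inv (coeff_det_congr (e x hx) (h0 x hx)) (h0 x hx) i j) (CG.sub ?_ ?_)
  · exact CG.pdS hV (fun y hy => CG.pdS hV ef hy) hx
  · exact CG.sum _ fun a _ => (CG_chr hV e h0 _ _ _ hx).mul (CG.pdS hV ef hx)

end ric

section add

variable {V : Set (E n)} {H H' : E n → Mat n ℝ⟦X⟧} {D : E n → Mat n ℝ} {p : ℕ} {x : E n}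

/-- `H' = H + ρᵖ⁺¹ D` modulo `ρᵖ⁺²` -/
def Pert (p : ℕ) (V : Set (E n)) (H H' : E n → Mat n ℝ⟦X⟧) (D : E n → Mat n ℝ) : Prop :=
  ∀ y ∈ V, ∀ i j, CG (p + 2) (H' y i j) (H y i j + X ^ (p + 1) * C (D y i j))

theorem Pert_MG (h : Pert p V H H' D) : ∀ y ∈ V, MG (p + 1) (H' y) (H y) := by
  intro y hy i j k hk
  rw [h y hy i j k (by omega), map_add, coeff_X_pow_mul_C, if_neg (by omega), add_zero]

theorem Pert_dr (h : Pert p V H H' D) (hx : x ∈ V) (i j : Fin n) :
    CG (p + 1) (dr (H' x i j)) (dr (H x i j) + X ^ p * C (((p : ℝ) + 1) * D x i j)) := by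
  have h1 := (h x hx i j).dr
  rwa [dr_add', dr_X_pow_mul_C] at h1

theorem Pert_trd (h : Pert p V H H' D) (h0 : ∀ y ∈ V, coeff 0 (H y).det ≠ 0) (hx : x ∈ V) :
    CG (p + 1) (trd (H' x)) (trd (H x) +
      X ^ p * C (((p : ℝ) + 1) * (((H x).map (coeff 0))⁻¹ * D x).trace)) := by
  have hi := (Pert_MG h x hx).inv (coeff_det_congr (Pert_MG h x hx) (h0 x hx)) (h0 x hx)
  have e1 : trd (H' x) = ∑ i, ∑ k, (H' x)⁻¹ i k * Pool.QCurv.dr (H' x k i) := by
    simp [Pool.QCurv.trd, Matrix.trace, Matrix.mul_apply]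
  have e2 : trd (H x) +
      X ^ p * C (((p : ℝ) + 1) * (((H x).map (coeff 0))⁻¹ * D x).trace) =
      ∑ i, ∑ k, ((H x)⁻¹ i k * Pool.QCurv.dr (H x k i) +
        X ^ p * C (coeff 0 ((H x)⁻¹ i k * C (((p : ℝ) + 1) * D x k i)))) := by
    rw [← map_coeff_inv (h0 x hx)]
    simp only [Pool.QCurv.trd, Matrix.trace, Matrix.diag_apply, Matrix.mul_apply, Matrix.map_apply,
      Finset.sum_add_distrib, Finset.mul_sum, map_sum]
    congr 1
    refine Finset.sum_congr rfl fun i _ => Finset.sum_congr rfl fun k _ => ?_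
    congr 2
    rw [PowerSeries.coeff_zero_eq_constantCoeff_apply, PowerSeries.coeff_zero_eq_constantCoeff_apply,
      map_mul, PowerSeries.constantCoeff_C]
    ring
  rw [e1, e2]
  refine CG.sum _ fun i _ => CG.sum _ fun k _ => ?_
  refine ((hi i k).mul (Pert_dr h hx k i)).trans ?_
  rw [mul_add]
  refine (CG.refl _).add ?_
  rw [show (H x)⁻¹ i k * (X ^ p * C (((p : ℝ) + 1) * D x k i)) =
    X ^ p * ((H x)⁻¹ i k * C (((p : ℝ) + 1) * D x k i)) by ring]
  exact CG_X_pow_mul p _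

/-- the change of the Fefferman-Graham equation under a perturbation of order `p + 1` -/
theorem Pert_amb (h : Pert p V H H' D) (hV : IsOpen V) (h0 : ∀ y ∈ V, coeff 0 (H y).det ≠ 0)
    (hx : x ∈ V) (i j : Fin n) :
    CG (p + 1) (amb H' x i j) (amb H x i j + X ^ p *
      C (((p : ℝ) + 1) * ((p : ℝ) + 1 - n / 2) * D x i j -
        ((p : ℝ) + 1) / 2 * (((H x).map (coeff 0))⁻¹ * D x).trace * coeff 0 (H x i j))) := by
  have hM := Pert_MG h x hx
  have hi := hM.inv (coeff_det_congr hM (h0 x hx)) (h0 x hx)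
  set τ : ℝ := (((H x).map (coeff 0))⁻¹ * D x).trace with hτ
  have ht := Pert_trd h h0 hx
  rw [← hτ] at ht
  have ht' : CG p (trd (H' x)) (trd (H x)) := by
    intro l hl
    rw [ht l (by omega), map_add, coeff_X_pow_mul_C, if_neg (by omega), add_zero]
  have t1 : CG (p + 1) (X * dr (dr (H' x i j)))
      (X * dr (dr (H x i j)) + X ^ p * C ((p : ℝ) * (((p : ℝ) + 1) * D x i j))) := by
    have := (Pert_dr h hx i j).dr.X_mul
    rwa [dr_add', mul_add, X_mul_dr_X_pow_mul_C] at this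
  have t2 : CG (p + 1) (X * ((H' x).map dr * (H' x)⁻¹ * (H' x).map dr) i j)
      (X * ((H x).map dr * (H x)⁻¹ * (H x).map dr) i j) :=
    ((((hM.dr).mul (hi.mono (by omega))).mul hM.dr) i j).X_mul
  have t3 : CG (p + 1) (C (1 / 2) * X * trd (H' x) * dr (H' x i j))
      (C (1 / 2) * X * trd (H x) * dr (H x i j)) := by
    have := ((ht'.mul (hM.dr i j)).mul_left (C (1 / 2))).X_mul
    simp only [Matrix.map_apply] at this
    convert this using 1 <;> ring
  have t4 : CG (p + 1) (C ((n : ℝ) / 2 - 1) * dr (H' x i j))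
      (C ((n : ℝ) / 2 - 1) * dr (H x i j) +
        X ^ p * C (((n : ℝ) / 2 - 1) * (((p : ℝ) + 1) * D x i j))) := by
    refine ((Pert_dr h hx i j).mul_left _).trans (CG.of_eq ?_)
    rw [mul_add, map_mul (C (R := ℝ)) ((n : ℝ) / 2 - 1)]
    ring
  have t5 : CG (p + 1) (C (1 / 2) * trd (H' x) * H' x i j)
      (C (1 / 2) * trd (H x) * H x i j +
        X ^ p * C ((1 / 2) * (((p : ℝ) + 1) * τ) * coeff 0 (H x i j))) := by
    refine ((ht.mul_left (C (1 / 2))).mul (hM i j)).trans ?_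
    rw [show C (1 / 2) * (trd (H x) + X ^ p * C (((p : ℝ) + 1) * τ)) * H x i j =
      C (1 / 2) * trd (H x) * H x i j + X ^ p * (C ((1 / 2) * (((p : ℝ) + 1) * τ)) * H x i j) by
        rw [map_mul (C (R := ℝ)) (1 / 2)]; ring]
    refine (CG.refl _).add ((CG_X_pow_mul p _).trans (CG.of_eq ?_))
    congr 2
    rw [PowerSeries.coeff_zero_eq_constantCoeff_apply, PowerSeries.coeff_zero_eq_constantCoeff_apply,
      map_mul, PowerSeries.constantCoeff_C]
  have t6 := MG_ric hV (Pert_MG h) h0 hx i j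
  have e1 : ∀ K : E n → Mat n ℝ⟦X⟧, Pool.QCurv.amb K x i j = X * dr (dr (K x i j))
      - X * ((K x).map dr * (K x)⁻¹ * (K x).map dr) i j
      + C (1 / 2) * X * Pool.QCurv.trd (K x) * dr (K x i j)
      - C ((n : ℝ) / 2 - 1) * dr (K x i j)
      - C (1 / 2) * Pool.QCurv.trd (K x) * K x i j + ric K x i j := by
    intro K
    simp only [Pool.QCurv.amb, Matrix.add_apply, Matrix.sub_apply, Matrix.smul_apply,
      Matrix.map_apply, smul_eq_mul]
  rw [e1, e1]
  refine (((((t1.sub t2).add t3).sub t4).sub t5).add t6).trans (CG.of_eq ?_)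
  have e2 : (C (((p : ℝ) + 1) * ((p : ℝ) + 1 - n / 2) * D x i j -
        ((p : ℝ) + 1) / 2 * τ * coeff 0 (H x i j)) : ℝ⟦X⟧) =
      C ((p : ℝ) * (((p : ℝ) + 1) * D x i j)) -
      C (((n : ℝ) / 2 - 1) * (((p : ℝ) + 1) * D x i j)) -
      C ((1 / 2) * (((p : ℝ) + 1) * τ) * coeff 0 (H x i j)) := by
    rw [← map_sub, ← map_sub]
    congr 1
    ring
  rw [e2]
  ring

end add

/-! ### The linear operator of the recursion -/

/-- `m (m - n/2) D - ½ m tr(G⁻¹ D) G` -/
def opB (m : ℕ) (G D : Mat n ℝ) : Mat n ℝ :=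
  ((m : ℝ) * (m - n / 2)) • D - ((m : ℝ) / 2 * (G⁻¹ * D).trace) • G

section opB

variable {G : Mat n ℝ} {m : ℕ}

theorem inv_mul_trace (hG : G.det ≠ 0) : (G⁻¹ * G).trace = n := by
  rw [Matrix.nonsing_inv_mul _ (Ne.isUnit hG), Matrix.trace_one, Fintype.card_fin]

theorem trace_opB (hG : G.det ≠ 0) (D : Mat n ℝ) :
    (G⁻¹ * opB m G D).trace = (m : ℝ) * (m - n) * (G⁻¹ * D).trace := by
  rw [opB, mul_sub, Matrix.mul_smul, Matrix.mul_smul, Matrix.trace_sub, Matrix.trace_smul,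
    Matrix.trace_smul, inv_mul_trace hG, smul_eq_mul, smul_eq_mul]
  ring

theorem trace_corr (hG : G.det ≠ 0) (F : Mat n ℝ) (hm : 1 ≤ m) (hmn : 2 * m ≤ n) :
    (G⁻¹ * corr m G F).trace = (G⁻¹ * F).trace / (m * (n - m)) := by
  have hm0 : (m : ℝ) ≠ 0 := by positivity
  have hmn' : (2 : ℝ) * m ≤ n := by exact_mod_cast hmn
  have hm1 : (1 : ℝ) ≤ m := by exact_mod_cast hm
  have hn0 : (n : ℝ) ≠ 0 := by linarith
  have hnm : (n : ℝ) - m ≠ 0 := by
    have : (0 : ℝ) < n - m := by linarith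
    exact this.ne'
  unfold corr
  split_ifs with h
  · have h' : (2 : ℝ) * m < n := by exact_mod_cast h
    have h2 : (n : ℝ) / 2 - m ≠ 0 := by
      have : (0 : ℝ) < n / 2 - m := by linarith
      exact this.ne'
    rw [Matrix.mul_smul, Matrix.mul_sub, Matrix.mul_smul, Matrix.trace_smul, Matrix.trace_sub,
      Matrix.trace_smul, inv_mul_trace hG, smul_eq_mul, smul_eq_mul]
    have h3 : (G⁻¹ * F).trace - (m : ℝ) / 2 * ((G⁻¹ * F).trace / (m * (n - m))) * n =
        (m * (n / 2 - m)) * ((G⁻¹ * F).trace / (m * (n - m))) := by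
      field_simp
      ring
    rw [h3, ← mul_assoc, one_div_mul_cancel (mul_ne_zero hm0 h2), one_mul]
  · rw [Matrix.mul_smul, Matrix.trace_smul, inv_mul_trace hG, smul_eq_mul]
    field_simp

theorem opB_corr (hG : G.det ≠ 0) (F : Mat n ℝ) (hm : 1 ≤ m) (hmn : 2 * m < n) :
    opB m G (corr m G F) = -F := by
  have hm0 : (m : ℝ) ≠ 0 := by positivity
  have h' : (2 : ℝ) * m < n := by exact_mod_cast hmn
  have h2 : (n : ℝ) / 2 - m ≠ 0 := by
    have : (0 : ℝ) < n / 2 - m := by linarith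
    exact this.ne'
  rw [opB, trace_corr hG F hm hmn.le, corr, if_pos hmn]
  ext i j
  simp only [Matrix.sub_apply, Matrix.smul_apply, smul_eq_mul, Matrix.neg_apply]
  have e : (m : ℝ) * (m - n / 2) * (1 / (m * (n / 2 - m))) = -1 := by
    rw [show (m : ℝ) * (m - n / 2) = -(m * (n / 2 - m)) by ring, neg_mul,
      mul_one_div_cancel (mul_ne_zero hm0 h2)]
  rw [← mul_assoc, e]
  ring

theorem trace_opB_corr (hG : G.det ≠ 0) (F : Mat n ℝ) (hm : 1 ≤ m) (hmn : 2 * m ≤ n) :
    (G⁻¹ * opB m G (corr m G F)).trace = -(G⁻¹ * F).trace := by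
  have hm0 : (m : ℝ) ≠ 0 := by positivity
  have hmn' : (2 : ℝ) * m ≤ n := by exact_mod_cast hmn
  have hm1 : (1 : ℝ) ≤ m := by exact_mod_cast hm
  have hnm : (n : ℝ) - m ≠ 0 := by
    have : (0 : ℝ) < n - m := by linarith
    exact this.ne'
  rw [trace_opB hG, trace_corr hG F hm hmn]
  field_simp
  ring

end opB

/-! ### Existence -/

section solves

variable {V : Set (E n)} {H H' : E n → Mat n ℝ⟦X⟧} {D : E n → Mat n ℝ} {G : E n → Mat n ℝ}
  {p : ℕ} {x : E n}

theorem Pert_amb_lt (h : Pert p V H H' D) (hV : IsOpen V) (h0 : ∀ y ∈ V, coeff 0 (H y).det ≠ 0)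
    (hx : x ∈ V) {l : ℕ} (hl : l < p) :
    (amb H' x).map (coeff l) = (amb H x).map (coeff l) := by
  ext i j
  rw [Matrix.map_apply, Matrix.map_apply, Pert_amb h hV h0 hx i j l (by omega), map_add,
    coeff_X_pow_mul_C, if_neg (by omega), add_zero]

theorem Pert_amb_eq (h : Pert p V H H' D) (hV : IsOpen V) (h0 : ∀ y ∈ V, coeff 0 (H y).det ≠ 0)
    (hx : x ∈ V) :
    (amb H' x).map (coeff p) = (amb H x).map (coeff p) +
      opB (p + 1) ((H x).map (coeff 0)) (D x) := by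
  ext i j
  rw [Matrix.add_apply, Matrix.map_apply, Matrix.map_apply,
    Pert_amb h hV h0 hx i j p (by omega), map_add, coeff_X_pow_mul_C, if_pos rfl]
  simp only [opB, Matrix.sub_apply, Matrix.smul_apply, Matrix.map_apply, smul_eq_mul]
  push_cast
  ring

theorem Pert_fam (V : Set (E n)) (G : E n → Mat n ℝ) (m : ℕ) :
    Pert m V (fam G m) (fam G (m + 1))
      (fun y => corr (m + 1) (G y) ((amb (fam G m) y).map (coeff m))) := fun y _ i j =>
  CG.of_eq (by simp [fam])

theorem coeff_amb_fam (hV : IsOpen V) (hdet : ∀ y ∈ V, (G y).det ≠ 0) (hx : x ∈ V) {j : ℕ}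
    (hj : 2 * j + 2 < n) {m : ℕ} (hm : j + 1 ≤ m) : (amb (fam G m) x).map (coeff j) = 0 := by
  induction m, hm using Nat.le_induction with
  | base =>
    rw [Pert_amb_eq (Pert_fam V G j) hV (coeff_zero_det_fam hdet j) hx, coeff_zero_fam,
      opB_corr (hdet x hx) _ (by omega) (by omega), add_neg_cancel]
  | succ m hm ih =>
    rw [Pert_amb_lt (Pert_fam V G m) hV (coeff_zero_det_fam hdet m) hx (by omega), ih]

/-- **The family `fam G (n / 2)` solves the Fefferman-Graham equation**: modulo `ρ^(n/2-1)` the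
left-hand side vanishes, and the trace of the coefficient of `ρ^(n/2-1)` vanishes. -/
theorem fam_solves (hn : Even n) (h2 : 2 ≤ n) (hV : IsOpen V) (hdet : ∀ y ∈ V, (G y).det ≠ 0)
    (hx : x ∈ V) :
    (∀ j, 2 * j + 2 < n → (amb (fam G (n / 2)) x).map (coeff j) = 0) ∧
      ((G x)⁻¹ * (amb (fam G (n / 2)) x).map (coeff (n / 2 - 1))).trace = 0 := by
  obtain ⟨k, hk⟩ := hn
  refine ⟨fun j hj => coeff_amb_fam hV hdet hx hj (by omega), ?_⟩
  obtain ⟨m, rfl⟩ : ∃ m, k = m + 1 := ⟨k - 1, by omega⟩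
  have e1 : n / 2 = m + 1 := by omega
  rw [e1, Nat.add_sub_cancel, Pert_amb_eq (Pert_fam V G m) hV (coeff_zero_det_fam hdet m) hx,
    coeff_zero_fam, mul_add, Matrix.trace_add, trace_opB_corr (hdet x hx) _ (by omega) (by omega),
    add_neg_cancel]

/-! ### Uniqueness -/

/-- `H` is a solution on `V` of the Fefferman-Graham equation with initial metric `G`, to the order
to which the equation determines it. -/
structure IsSol (V : Set (E n)) (G : E n → Mat n ℝ) (H : E n → Mat n ℝ⟦X⟧) : Prop where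
  init : ∀ y ∈ V, (H y).map (coeff 0) = G y
  eqn : ∀ y ∈ V, ∀ j, 2 * j + 2 < n → (amb H y).map (coeff j) = 0
  tr : ∀ y ∈ V, ((G y)⁻¹ * (amb H y).map (coeff (n / 2 - 1))).trace = 0

theorem isSol_fam (hn : Even n) (h2 : 2 ≤ n) (hV : IsOpen V) (hdet : ∀ y ∈ V, (G y).det ≠ 0) :
    IsSol V G (fam G (n / 2)) :=
  ⟨fun y _ => coeff_zero_fam G _ y, fun _ hy => (fam_solves hn h2 hV hdet hy).1,
    fun _ hy => (fam_solves hn h2 hV hdet hy).2⟩

theorem IsSol.det (h : IsSol V G H) (hdet : ∀ y ∈ V, (G y).det ≠ 0) :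
    ∀ y ∈ V, coeff 0 (H y).det ≠ 0 := fun y hy => by
  rw [coeff_zero_det, h.init y hy]
  exact hdet y hy

/-- the difference of the coefficients of order `p + 1` -/
def dif (p : ℕ) (H H' : E n → Mat n ℝ⟦X⟧) (y : E n) : Mat n ℝ :=
  (H' y).map (coeff (p + 1)) - (H y).map (coeff (p + 1))

theorem pert_dif (h : ∀ y ∈ V, MG (p + 1) (H' y) (H y)) : Pert p V H H' (dif p H H') := by
  intro y hy i j l hl
  rw [map_add, coeff_X_pow_mul_C]
  split_ifs with h1
  · subst h1
    simp [dif]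
  · rw [add_zero]
    exact h y hy i j l (by omega)

theorem IsSol.unique_aux (hV : IsOpen V) (hdet : ∀ y ∈ V, (G y).det ≠ 0)
    (h : IsSol V G H) (h' : IsSol V G H') (hp : p < n / 2) :
    ∀ y ∈ V, MG (p + 1) (H' y) (H y) := by
  induction p with
  | zero =>
    intro y hy i j l hl
    obtain rfl : l = 0 := by omega
    have := congrFun (congrFun ((h'.init y hy).trans (h.init y hy).symm) i) j
    simpa using this
  | succ p ih =>
    have hP := pert_dif (ih (by omega))
    intro y hy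
    have e1 := Pert_amb_eq hP hV (h.det hdet) hy
    rw [h.eqn y hy p (by omega), h'.eqn y hy p (by omega), zero_add, h.init y hy] at e1
    have e2 := congrArg (fun A => ((G y)⁻¹ * A).trace) e1.symm
    simp only [mul_zero, Matrix.trace_zero] at e2
    rw [trace_opB (hdet y hy)] at e2
    have hp' : (2 : ℝ) * (p + 1) < n := by
      have : 2 * (p + 1) < n := by omega
      exact_mod_cast this
    have hp0 : (0 : ℝ) ≤ p := Nat.cast_nonneg p
    have e3 : ((G y)⁻¹ * dif p H H' y).trace = 0 := by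
      rcases mul_eq_zero.1 e2 with h1 | h1
      · exfalso
        push_cast at h1
        rcases mul_eq_zero.1 h1 with h1 | h1
        · linarith
        · linarith
      · exact h1
    rw [opB, e3, mul_zero, zero_smul, sub_zero] at e1
    have e4 : dif p H H' y = 0 := by
      rcases smul_eq_zero.1 e1.symm with h1 | h1
      · exfalso
        push_cast at h1
        rcases mul_eq_zero.1 h1 with h1 | h1
        · linarith
        · linarith
      · exact h1
    intro i j l hl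
    rw [hP y hy i j l hl, map_add, coeff_X_pow_mul_C, e4]
    simp

/-- **Uniqueness**: two solutions have the same coefficients of order `< n/2` and the same trace of
the coefficient of order `n/2`. -/
theorem IsSol.unique (hn : Even n) (h2 : 2 ≤ n) (hV : IsOpen V) (hdet : ∀ y ∈ V, (G y).det ≠ 0)
    (h : IsSol V G H) (h' : IsSol V G H') (hx : x ∈ V) :
    (∀ j < n / 2, (H' x).map (coeff j) = (H x).map (coeff j)) ∧
      ((G x)⁻¹ * (H' x).map (coeff (n / 2))).trace =
        ((G x)⁻¹ * (H x).map (coeff (n / 2))).trace := by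
  obtain ⟨k, hk⟩ := id hn
  obtain ⟨m, rfl⟩ : ∃ m, k = m + 1 := ⟨k - 1, by omega⟩
  have e1 : n / 2 = m + 1 := by omega
  have hM := IsSol.unique_aux hV hdet h h' (p := m) (by omega)
  refine ⟨fun j hj => ?_, ?_⟩
  · ext a b
    exact hM x hx a b j (by omega)
  · have e2 := Pert_amb_eq (pert_dif hM) hV (h.det hdet) hx
    have e3 := congrArg (fun A => ((G x)⁻¹ * A).trace) e2
    have e4 := h.tr x hx
    have e5 := h'.tr x hx
    rw [e1, Nat.add_sub_cancel] at e4 e5
    simp only [mul_add, Matrix.trace_add] at e3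
    rw [e4, e5, zero_add, h.init x hx, trace_opB (hdet x hx)] at e3
    have hm' : ((m + 1 : ℕ) : ℝ) - n ≠ 0 := by
      have : m + 1 < n := by omega
      have : ((m + 1 : ℕ) : ℝ) < n := by exact_mod_cast this
      linarith
    have hm0 : ((m + 1 : ℕ) : ℝ) ≠ 0 := by positivity
    have e6 : ((G x)⁻¹ * dif m H H' x).trace = 0 := by
      rcases mul_eq_zero.1 e3.symm with h1 | h1
      · exact absurd h1 (mul_ne_zero hm0 hm')
      · exact h1
    rw [dif, mul_sub, Matrix.trace_sub, sub_eq_zero] at e6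
    rw [e1]
    exact e6

theorem IsSol.CG_trd (hn : Even n) (h2 : 2 ≤ n) (hV : IsOpen V) (hdet : ∀ y ∈ V, (G y).det ≠ 0)
    (h : IsSol V G H) (h' : IsSol V G H') (hx : x ∈ V) :
    CG (n / 2) (trd (H' x)) (trd (H x)) := by
  obtain ⟨k, hk⟩ := id hn
  obtain ⟨m, rfl⟩ : ∃ m, k = m + 1 := ⟨k - 1, by omega⟩
  have e1 : n / 2 = m + 1 := by omega
  have hM := IsSol.unique_aux hV hdet h h' (p := m) (by omega)
  have e2 := Pert_trd (pert_dif hM) (h.det hdet) hx
  have e3 := (IsSol.unique hn h2 hV hdet h h' hx).2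
  rw [e1] at e3 ⊢
  rw [h.init x hx, dif, mul_sub, Matrix.trace_sub, e3, sub_self, mul_zero, map_zero, mul_zero,
    add_zero] at e2
  exact e2

theorem IsSol.CG_logIter (hn : Even n) (h2 : 2 ≤ n) (hV : IsOpen V)
    (hdet : ∀ y ∈ V, (G y).det ≠ 0) (h : IsSol V G H) (h' : IsSol V G H') (k : ℕ) :
    ∀ l, k + (l + 1) = n / 2 → ∀ y ∈ V, CG (l + 1) (logIter H' k y) (logIter H k y) := by
  induction k with
  | zero =>
    intro l hl y hy
    rw [zero_add] at hl
    rw [hl]
    exact (IsSol.CG_trd hn h2 hV hdet h h' hy).mul_left _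
  | succ k ih =>
    intro l hl y hy
    have h1 := ih (l + 1) (by omega)
    have hM := IsSol.unique_aux hV hdet h h' (p := l) (by omega)
    have ht := (IsSol.CG_trd hn h2 hV hdet h h' hy).mono (show l + 1 ≤ n / 2 by omega)
    have hl1 := (h1 y hy).mono (show l + 1 ≤ l + 1 + 1 by omega)
    have hd : CG (l + 1) (dr (logIter H' k y)) (dr (logIter H k y)) := (h1 y hy).dr
    simp only [logIter, ambLap]
    refine CG.add (CG.add (CG.add ?_ ?_) ?_) ?_
    · rw [mul_assoc, mul_assoc]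
      exact (hd.dr.X_mul).mul_left _
    · refine CG.mul (CG.sub (CG.refl _) ?_) hd
      exact ht.mul_left _
    · exact (ht.mul_left _).mul hl1
    · exact CG_lap hV hM (h.det hdet) (fun z hz => (h1 z hz).mono (by omega)) hy

/-- **The critical Q-curvature can be computed from any solution of the Fefferman-Graham
equation.** -/
theorem Qcurv_eq_of_isSol (hn : Even n) (h2 : 2 ≤ n) (hV : IsOpen V)
    (hdet : ∀ y ∈ V, (G y).det ≠ 0) (h : IsSol V G H) (hx : x ∈ V) :
    Qcurv G x = (-1) ^ (n / 2 - 1) * coeff 0 (logIter H (n / 2 - 1) x) := by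
  rw [Qcurv, IsSol.CG_logIter hn h2 hV hdet h (isSol_fam hn h2 hV hdet) (n / 2 - 1) 0
    (by omega) x hx 0 (by omega)]

end solves

end Pool.QCurv
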