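import Pool.Agent.Lib.MP_993073_gt.NatCalc

/-!
# Symmetry of the Ricci tensor and of the ambient family (helper file for MP_993073_gt)
-/

open scoped Manifold ContDiff Topology PowerSeries Matrix
open PowerSeries (C X coeff)
open Filter

noncomputable section

namespace Pool.QCurv

variable {n : ℕ}

/-! ### Triple sums -/

section sums

variable {R : Type*} [AddCommMonoid R] (g : Fin n → Fin n → Fin n → R)

theorem sum3_bac : ∑ a, ∑ b, ∑ c, g b a c = ∑ a, ∑ b, ∑ c, g a b c := Finset.sum_comm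

theorem sum3_acb : ∑ a, ∑ b, ∑ c, g a c b = ∑ a, ∑ b, ∑ c, g a b c :=
  Finset.sum_congr rfl fun _ _ => Finset.sum_comm

theorem sum3_cab : ∑ a, ∑ b, ∑ c, g c a b = ∑ a, ∑ b, ∑ c, g a b c := by
  rw [← sum3_bac g, ← sum3_acb (fun a b c => g b a c)]

theorem sum3_bca : ∑ a, ∑ b, ∑ c, g b c a = ∑ a, ∑ b, ∑ c, g a b c := by
  rw [← sum3_acb g, ← sum3_bac (fun a b c => g a c b)]

end sums

/-! ### Connection matrices -/

/-- the matrices `(Γᵏᵢⱼ)_{k i}` -/
def gam (H : E n → Mat n ℝ⟦X⟧) (j : Fin n) (x : E n) : Mat n ℝ⟦X⟧ :=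
  Matrix.of fun k i => chr H k i j x

/-- the Christoffel symbols of the first kind -/
def fst (H : E n → Mat n ℝ⟦X⟧) (j : Fin n) (x : E n) : Mat n ℝ⟦X⟧ :=
  Matrix.of fun l i => C (1 / 2) * (pdM i H x j l + pdM j H x i l - pdM l H x i j)

theorem gam_eq (H : E n → Mat n ℝ⟦X⟧) (j : Fin n) (x : E n) :
    gam H j x = (H x)⁻¹ * fst H j x := by
  ext1 k i
  simp only [gam, fst, chr, Matrix.mul_apply, Matrix.of_apply, Finset.mul_sum, pdM_apply]
  exact Finset.sum_congr rfl fun l _ => by ring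

/-- symmetry on `V` -/
def SymOn (V : Set (E n)) (H : E n → Mat n ℝ⟦X⟧) : Prop := ∀ x ∈ V, (H x).IsSymm

section basic

variable {V : Set (E n)} {H : E n → Mat n ℝ⟦X⟧} {x : E n}

theorem SMM_gam (hV : IsOpen V) (hH : SMM V H) (h0 : ∀ x ∈ V, coeff 0 (H x).det ≠ 0)
    (j : Fin n) : SMM V (gam H j) := fun k i => SM_chr hV hH h0 k i j

theorem pdM_symm (hV : IsOpen V) (hs : SymOn V H) (hx : x ∈ V) (i a b : Fin n) :
    pdM i H x a b = pdM i H x b a := by
  simp only [pdM_apply]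
  exact pdS_congr_on hV (fun y hy => (hs y hy).apply b a) hx

theorem chr_symm (hV : IsOpen V) (hs : SymOn V H) (hx : x ∈ V) (k i j : Fin n) :
    chr H k i j x = chr H k j i x := by
  simp only [chr, ← pdM_apply]
  congr 1
  refine Finset.sum_congr rfl fun l _ => ?_
  rw [pdM_symm hV hs hx l i j]
  ring

/-- the curvature matrices -/
def Rm (H : E n → Mat n ℝ⟦X⟧) (i j : Fin n) (x : E n) : Mat n ℝ⟦X⟧ :=
  pdM i (gam H j) x - pdM j (gam H i) x + (gam H i x * gam H j x - gam H j x * gam H i x)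

theorem ric_eq (hV : IsOpen V) (hs : SymOn V H) (hx : x ∈ V) (i j : Fin n) :
    ric H x i j = ∑ k, Rm H k j x k i := by
  simp only [ric, Matrix.of_apply]
  refine Finset.sum_congr rfl fun k _ => ?_
  have h1 : ∑ l, (chr H k k l x * chr H l i j x - chr H k j l x * chr H l i k x)
      = (gam H k x * gam H j x - gam H j x * gam H k x) k i := by
    rw [Finset.sum_sub_distrib, Matrix.sub_apply, Matrix.mul_apply, Matrix.mul_apply]
    refine congrArg₂ _ (Finset.sum_congr rfl fun l _ => ?_) (Finset.sum_congr rfl fun l _ => ?_)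
    · rw [chr_symm hV hs hx k k l]
      rfl
    · rw [chr_symm hV hs hx k j l]
      rfl
  rw [h1]
  rfl

theorem pdS_trace (hV : IsOpen V) (hx : x ∈ V) {A : E n → Mat n ℝ⟦X⟧} (hA : SMM V A)
    (i : Fin n) : pdS i (fun y => (A y).trace) x = (pdM i A x).trace := by
  simp only [Matrix.trace, Matrix.diag_apply, pdM_apply]
  exact pdS_sum hV hx _ fun a _ => hA a a

theorem inv_symm (hs : SymOn V H) (hx : x ∈ V) (a b : Fin n) : (H x)⁻¹ a b = (H x)⁻¹ b a := by
  have h : ((H x)⁻¹)ᵀ = (H x)⁻¹ := by rw [Matrix.transpose_nonsing_inv, (hs x hx).eq]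
  conv_lhs => rw [← h]
  rfl

theorem chr_trace (hV : IsOpen V) (hs : SymOn V H) (hx : x ∈ V) (i : Fin n) :
    ∑ k, chr H k i k x = C (1 / 2) * ((H x)⁻¹ * pdM i H x).trace := by
  have h1 : ∑ k, chr H k i k x = C (1 / 2) * (∑ k, ∑ l, (H x)⁻¹ k l * pdM i H x k l)
      + C (1 / 2) * (∑ k, ∑ l, (H x)⁻¹ k l * pdM k H x i l
        - ∑ k, ∑ l, (H x)⁻¹ k l * pdM l H x i k) := by
    simp only [chr, ← pdM_apply, ← Finset.mul_sum, ← mul_add, ← Finset.sum_sub_distrib,
      ← Finset.sum_add_distrib]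
    congr 1
    refine Finset.sum_congr rfl fun k _ => Finset.sum_congr rfl fun l _ => ?_
    ring
  have h2 : ∑ k, ∑ l, (H x)⁻¹ k l * pdM k H x i l = ∑ k, ∑ l, (H x)⁻¹ k l * pdM l H x i k := by
    rw [Finset.sum_comm]
    exact Finset.sum_congr rfl fun k _ => Finset.sum_congr rfl fun l _ => by
      rw [inv_symm hs hx l k]
  rw [h1, h2, sub_self, mul_zero, add_zero]
  congr 1
  simp only [Matrix.trace, Matrix.diag_apply, Matrix.mul_apply]
  exact Finset.sum_congr rfl fun k _ => Finset.sum_congr rfl fun l _ => by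
    rw [pdM_symm hV hs hx i k l]

theorem pd_chr_trace (hV : IsOpen V) (hH : SMM V H) (h0 : ∀ x ∈ V, coeff 0 (H x).det ≠ 0)
    (hs : SymOn V H) (hx : x ∈ V) (i j : Fin n) :
    ∑ k, pdS j (chr H k i k) x = C (1 / 2) * (-((H x)⁻¹ * pdM j H x * (H x)⁻¹ * pdM i H x).trace
      + ((H x)⁻¹ * pdM j (pdM i H) x).trace) := by
  have h1 : ∑ k, pdS j (chr H k i k) x = pdS j (fun y => ∑ k, chr H k i k y) x :=
    (pdS_sum hV hx _ fun k _ => SM_chr hV hH h0 k i k).symm
  rw [h1, pdS_congr_on hV (fun y hy => chr_trace hV hs hy i) hx,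
    pdS_mul hV hx (SM.const _) ((hH.inv h0).mul (hH.pdM hV i)).trace, pdS_const,
    pdS_trace hV hx ((hH.inv h0).mul (hH.pdM hV i)),
    pdM_mul hV hx (hH.inv h0) (hH.pdM hV i), pdM_inv hV hx hH h0]
  simp only [Matrix.trace_add, neg_mul, Matrix.trace_neg, zero_mul, zero_add]

theorem ric_symm (hV : IsOpen V) (hH : SMM V H) (h0 : ∀ x ∈ V, coeff 0 (H x).det ≠ 0)
    (hs : SymOn V H) : SymOn V (ric H) := by
  intro x hx
  have key : ∀ i j, ric H x i j = ∑ k, pdS k (chr H k i j) x - ∑ k, pdS j (chr H k i k) x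
      + (∑ k, ∑ l, chr H k k l x * chr H l i j x - ∑ k, ∑ l, chr H k j l x * chr H l i k x) := by
    intro i j
    simp only [ric, Matrix.of_apply, ← Finset.sum_sub_distrib, ← Finset.sum_add_distrib]
  have h1 : ∀ i j k, pdS k (chr H k i j) x = pdS k (chr H k j i) x := fun i j k =>
    pdS_congr_on hV (fun y hy => chr_symm hV hs hy k i j) hx
  have h2 : ∀ i j, ∑ k, pdS j (chr H k i k) x = ∑ k, pdS i (chr H k j k) x := by
    intro i j
    rw [pd_chr_trace hV hH h0 hs hx, pd_chr_trace hV hH h0 hs hx, pdM_comm hV hx hH]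
    congr 3
    rw [mul_assoc, Matrix.trace_mul_comm]
    simp only [mul_assoc]
  have h3 : ∀ i j, ∑ k, ∑ l, chr H k j l x * chr H l i k x
      = ∑ k, ∑ l, chr H k i l x * chr H l j k x := by
    intro i j
    rw [Finset.sum_comm]
    exact Finset.sum_congr rfl fun k _ => Finset.sum_congr rfl fun l _ => by
      rw [mul_comm]
  ext1 i j
  have h4 : ∑ k, pdS k (chr H k j i) x = ∑ k, pdS k (chr H k i j) x :=
    Finset.sum_congr rfl fun k _ => h1 _ _ _
  have h5 : ∑ k, ∑ l, chr H k k l x * chr H l j i x = ∑ k, ∑ l, chr H k k l x * chr H l i j x :=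
    Finset.sum_congr rfl fun k _ => Finset.sum_congr rfl fun l _ => by
      rw [chr_symm hV hs hx l j i]
  rw [Matrix.transpose_apply, key j i, key i j, h2 j i, h3 j i, h4, h5]

theorem IsSymm_map_dr {A : Mat n ℝ⟦X⟧} (h : A.IsSymm) : (A.map dr).IsSymm := h.map dr

theorem amb_symm (hV : IsOpen V) (hH : SMM V H) (h0 : ∀ x ∈ V, coeff 0 (H x).det ≠ 0)
    (hs : SymOn V H) : SymOn V (amb H) := by
  intro x hx
  have h1 : (H x).IsSymm := hs x hx
  have h2 : ((H x).map dr).IsSymm := h1.map dr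
  have h3 : (((H x).map dr).map dr).IsSymm := h2.map dr
  have h4 : ((H x).map dr * (H x)⁻¹ * (H x).map dr).IsSymm := by
    unfold Matrix.IsSymm
    rw [Matrix.transpose_mul, Matrix.transpose_mul, h2.eq, Matrix.transpose_nonsing_inv, h1.eq,
      mul_assoc]
  unfold amb
  exact (((((h3.smul _).sub (h4.smul _)).add (h2.smul _)).sub (h2.smul _)).sub (h1.smul _)).add
    (ric_symm hV hH h0 hs x hx)

theorem corr_symm {G F : Mat n ℝ} (hG : G.IsSymm) (hF : F.IsSymm) (m : ℕ) :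
    (corr m G F).IsSymm := by
  unfold corr
  split_ifs
  · exact (hF.sub (hG.smul _)).smul _
  · exact hG.smul _

theorem fam_symm {G : E n → Mat n ℝ} (hV : IsOpen V)
    (hG : ∀ i j, ContDiffOn ℝ ∞ (fun x => G x i j) V)
    (hdet : ∀ x ∈ V, (G x).det ≠ 0) (hs : ∀ x ∈ V, (G x).IsSymm) (m : ℕ) :
    SymOn V (fam G m) := by
  induction m with
  | zero => exact fun x hx => (hs x hx).map C
  | succ m ih =>
    intro x hx
    have ha := amb_symm hV (SMM_fam hV hG hdet m) (coeff_zero_det_fam hdet m) ih x hx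
    exact (ih x hx).add (((corr_symm (hs x hx) (ha.map _) (m + 1)).map _).smul _)

end basic

end Pool.QCurv
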