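import Pool.Agent.Lib.MP_993073_gt.Check
import Pool.Agent.Lib.MP_993073_gt.NatSym

/-!
# The critical Q-curvature in dimension four

`Qcurv G = 2 J² - 2 |P|² - Δ J` for every smooth metric `G` in dimension four, where
`J = scal / 6`, `P = (Ric - J G) / 2` and `Δ` is the trace of the Hessian.
The proof contains the contracted Bianchi identity.
-/

open scoped Manifold ContDiff Topology PowerSeries Matrix
open PowerSeries (C X coeff)
open Filter

noncomputable section

namespace Pool.QCurv.Chk4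

open Pool.QCurv

variable {n : ℕ}

section basic

variable {V : Set (E n)} {H : E n → Mat n ℝ⟦X⟧} {x : E n}

theorem mul_gam (h0 : ∀ x ∈ V, coeff 0 (H x).det ≠ 0) (hx : x ∈ V) (j : Fin n) :
    H x * gam H j x = fst H j x := by
  rw [gam_eq, ← mul_assoc, Matrix.mul_nonsing_inv _ (isUnit_det (h0 x hx)), one_mul]

theorem sum3_cba (g : Fin n → Fin n → Fin n → ℝ⟦X⟧) :
    ∑ a, ∑ b, ∑ c, g c b a = ∑ a, ∑ b, ∑ c, g a b c := by
  rw [← sum3_acb (fun a b c => g c b a), sum3_bca g]

theorem half_add_half (f : ℝ⟦X⟧) : C (1 / 2) * f + C (1 / 2) * f = f := by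
  rw [← add_mul, ← map_add]
  norm_num

theorem compat (hV : IsOpen V) (h0 : ∀ x ∈ V, coeff 0 (H x).det ≠ 0)
    (hs : SymOn V H) (hx : x ∈ V) (i : Fin n) :
    pdM i H x = H x * gam H i x + (gam H i x)ᵀ * H x := by
  have e : (gam H i x)ᵀ * H x = (H x * gam H i x)ᵀ := by
    rw [Matrix.transpose_mul, (hs x hx).eq]
  rw [e, mul_gam h0 hx]
  ext1 a b
  simp only [Matrix.add_apply, Matrix.transpose_apply, fst, Matrix.of_apply]
  rw [pdM_symm hV hs hx a b i, pdM_symm hV hs hx b a i, pdM_symm hV hs hx i b a]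
  rw [pdM_symm hV hs hx b i a, pdM_symm hV hs hx a i b] 
  conv_lhs => rw [← half_add_half (pdM i H x a b)]
  ring

theorem compat_inv (hV : IsOpen V) (hH : SMM V H) (h0 : ∀ x ∈ V, coeff 0 (H x).det ≠ 0)
    (hs : SymOn V H) (hx : x ∈ V) (i : Fin n) :
    pdM i (fun y => (H y)⁻¹) x = - (gam H i x * (H x)⁻¹ + (H x)⁻¹ * (gam H i x)ᵀ) := by
  rw [pdM_inv hV hx hH h0, compat hV h0 hs hx]
  have h1 : (H x)⁻¹ * H x = 1 := Matrix.nonsing_inv_mul _ (isUnit_det (h0 x hx))
  have h2 : H x * (H x)⁻¹ = 1 := Matrix.mul_nonsing_inv _ (isUnit_det (h0 x hx))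
  set N := (H x)⁻¹
  set A := gam H i x
  calc -(N * (H x * A + Aᵀ * H x) * N) = -((N * H x) * A * N + N * Aᵀ * (H x * N)) := by
        noncomm_ring
    _ = _ := by rw [h1, h2, one_mul, mul_one]

/-- the curvature with the second index raised -/
def Kr (H : E n → Mat n ℝ⟦X⟧) (i j : Fin n) (x : E n) : Mat n ℝ⟦X⟧ := Rm H i j x * (H x)⁻¹

theorem SMM_Rm (hV : IsOpen V) (hH : SMM V H) (h0 : ∀ x ∈ V, coeff 0 (H x).det ≠ 0)
    (i j : Fin n) : SMM V (Rm H i j) := by
  have hg := fun j => SMM_gam hV hH h0 j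
  exact (((hg j).pdM hV i).sub ((hg i).pdM hV j)).add (((hg i).mul (hg j)).sub ((hg j).mul (hg i)))

theorem pdM_neg_fun (hV : IsOpen V) (hx : x ∈ V) {A : E n → Mat n ℝ⟦X⟧} (hA : SMM V A)
    (i : Fin n) : pdM i (fun y => - A y) x = - pdM i A x := by
  have h := pdM_sub (i := i) hV hx (A := fun _ => 0) (fun _ _ => SM.const 0) hA
  rw [pdM_const] at h
  simpa using h

theorem Kr_antisymm (hV : IsOpen V) (hH : SMM V H) (h0 : ∀ x ∈ V, coeff 0 (H x).det ≠ 0)
    (hs : SymOn V H) (hx : x ∈ V) (i j : Fin n) :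
    (Kr H i j x)ᵀ = - Kr H i j x := by
  have hN : SMM V (fun y => (H y)⁻¹) := hH.inv h0
  have hg := fun j => SMM_gam hV hH h0 j
  have hgt : ∀ j, SMM V (fun y => (gam H j y)ᵀ) := fun j => (hg j).transpose
  have key : ∀ i j, pdM i (pdM j (fun y => (H y)⁻¹)) x =
      - (pdM i (gam H j) x * (H x)⁻¹ + gam H j x * pdM i (fun y => (H y)⁻¹) x +
        (pdM i (fun y => (H y)⁻¹) x * (gam H j x)ᵀ + (H x)⁻¹ * (pdM i (gam H j) x)ᵀ)) := by
    intro i j
    rw [pdM_congr_on hV (fun y hy => compat_inv hV hH h0 hs hy j) hx,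
      pdM_neg_fun hV hx (((hg j).mul hN).add (hN.mul (hgt j))),
      pdM_add hV hx ((hg j).mul hN) (hN.mul (hgt j)),
      pdM_mul hV hx (hg j) hN, pdM_mul hV hx hN (hgt j), pdM_transpose]
  have h := pdM_comm (i := i) (j := j) hV hx hN
  rw [key, key, compat_inv hV hH h0 hs hx, compat_inv hV hH h0 hs hx] at h
  have hNs : ((H x)⁻¹)ᵀ = (H x)⁻¹ := by rw [Matrix.transpose_nonsing_inv, (hs x hx).eq]
  simp only [Kr, Rm, Matrix.transpose_mul, Matrix.transpose_add, Matrix.transpose_sub, hNs]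
  set N := (H x)⁻¹
  set A := gam H i x
  set B := gam H j x
  set A' := pdM j (gam H i) x
  set B' := pdM i (gam H j) x
  rw [← sub_eq_zero] at h ⊢
  rw [← neg_eq_zero, ← h]
  noncomm_ring

theorem eq_zero_of_eq_neg {f : ℝ⟦X⟧} (h : f = - f) : f = 0 := by
  have h1 : f + f = 0 := by linear_combination h
  rw [← half_add_half f, ← mul_add, h1, mul_zero]

/-- the covariant derivative of a bivector valued form, without the form indices -/
def DK (H : E n → Mat n ℝ⟦X⟧) (k : Fin n) (K : E n → Mat n ℝ⟦X⟧) (x : E n) : Mat n ℝ⟦X⟧ :=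
  pdM k K x + gam H k x * K x + K x * (gam H k x)ᵀ

theorem DK_mul (hV : IsOpen V) (hH : SMM V H) (h0 : ∀ x ∈ V, coeff 0 (H x).det ≠ 0)
    (hs : SymOn V H) (hx : x ∈ V) (k : Fin n) {A : E n → Mat n ℝ⟦X⟧} (hA : SMM V A) :
    DK H k (fun y => A y * (H y)⁻¹) x =
      (pdM k A x + gam H k x * A x - A x * gam H k x) * (H x)⁻¹ := by
  rw [DK, pdM_mul hV hx hA (hH.inv h0), compat_inv hV hH h0 hs hx]
  noncomm_ring

theorem bianchi (hV : IsOpen V) (hH : SMM V H) (h0 : ∀ x ∈ V, coeff 0 (H x).det ≠ 0)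
    (hs : SymOn V H) (hx : x ∈ V) (a b c : Fin n) :
    DK H a (Kr H b c) x + DK H b (Kr H c a) x + DK H c (Kr H a b) x = 0 := by
  have hg := fun j => SMM_gam hV hH h0 j
  have hR := fun i j => SMM_Rm hV hH h0 i j
  have e1 : ∀ a b c, DK H a (Kr H b c) x =
      (pdM a (Rm H b c) x + gam H a x * Rm H b c x - Rm H b c x * gam H a x) * (H x)⁻¹ :=
    fun a b c => DK_mul hV hH h0 hs hx a (hR b c)
  have e2 : ∀ a b c, pdM a (Rm H b c) x = pdM a (pdM b (gam H c)) x - pdM a (pdM c (gam H b)) x +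
      ((pdM a (gam H b) x * gam H c x + gam H b x * pdM a (gam H c) x) -
       (pdM a (gam H c) x * gam H b x + gam H c x * pdM a (gam H b) x)) := by
    intro a b c
    have h1 : pdM a (Rm H b c) x = pdM a (fun y => pdM b (gam H c) y - pdM c (gam H b) y +
      (gam H b y * gam H c y - gam H c y * gam H b y)) x := rfl
    rw [h1, pdM_add hV hx (((hg c).pdM hV b).sub ((hg b).pdM hV c))
        (((hg b).mul (hg c)).sub ((hg c).mul (hg b))),
      pdM_sub hV hx ((hg c).pdM hV b) ((hg b).pdM hV c),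
      pdM_sub hV hx ((hg b).mul (hg c)) ((hg c).mul (hg b)),
      pdM_mul hV hx (hg b) (hg c), pdM_mul hV hx (hg c) (hg b)]
  rw [e1, e1, e1, e2, e2, e2, pdM_comm (i := b) (j := a) hV hx (hg c),
    pdM_comm (i := c) (j := a) hV hx (hg b), pdM_comm (i := c) (j := b) hV hx (hg a)]
  simp only [Rm]
  noncomm_ring

/-- the Ricci tensor with the first index raised -/
def mric (H : E n → Mat n ℝ⟦X⟧) (x : E n) : Mat n ℝ⟦X⟧ := (H x)⁻¹ * ric H x

/-- the divergence of the mixed tensor `M` (first index up) -/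
def dv (H : E n → Mat n ℝ⟦X⟧) (M : E n → Mat n ℝ⟦X⟧) (l : Fin n) (x : E n) : ℝ⟦X⟧ :=
  ∑ i, pdM i M x i l + ∑ i, (gam H i x * M x) i l - (gam H l x * M x).trace

theorem mric_apply (hV : IsOpen V) (hs : SymOn V H) (hx : x ∈ V) (k l : Fin n) :
    mric H x k l = ∑ j, Kr H j l x j k := by
  simp only [mric, Kr, Matrix.mul_apply]
  rw [Finset.sum_comm]
  refine Finset.sum_congr rfl fun e _ => ?_
  rw [ric_eq hV hs hx, Finset.mul_sum]
  exact Finset.sum_congr rfl fun j _ => by rw [inv_symm hs hx k e, mul_comm]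

theorem SMM_Kr (hV : IsOpen V) (hH : SMM V H) (h0 : ∀ x ∈ V, coeff 0 (H x).det ≠ 0)
    (i j : Fin n) : SMM V (Kr H i j) := (SMM_Rm hV hH h0 i j).mul (hH.inv h0)

theorem SMM_mric (hV : IsOpen V) (hH : SMM V H) (h0 : ∀ x ∈ V, coeff 0 (H x).det ≠ 0) :
    SMM V (mric H) := (hH.inv h0).mul (SMM_ric hV hH h0)

theorem pdM_mric_apply (hV : IsOpen V) (hH : SMM V H) (h0 : ∀ x ∈ V, coeff 0 (H x).det ≠ 0)
    (hs : SymOn V H) (hx : x ∈ V) (e k l : Fin n) :
    pdM e (mric H) x k l = ∑ j, pdM e (Kr H j l) x j k := by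
  simp only [pdM_apply]
  rw [pdS_congr_on hV (fun y hy => mric_apply hV hs hy k l) hx]
  exact pdS_sum hV hx _ fun j _ => SMM_Kr hV hH h0 j l j k

theorem Kr_swap (i j : Fin n) : Kr H i j x = - Kr H j i x := by
  simp only [Kr, Rm]
  noncomm_ring

theorem Kr_anti (hV : IsOpen V) (hH : SMM V H) (h0 : ∀ x ∈ V, coeff 0 (H x).det ≠ 0)
    (hs : SymOn V H) (hx : x ∈ V) (i j a b : Fin n) :
    Kr H i j x a b = - Kr H i j x b a := by
  have h := congrFun (congrFun (Kr_antisymm hV hH h0 hs hx i j) b) a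
  simpa using h

theorem pdM_Kr_swap (hV : IsOpen V) (hH : SMM V H) (h0 : ∀ x ∈ V, coeff 0 (H x).det ≠ 0)
    (hx : x ∈ V) (e i j : Fin n) : pdM e (Kr H i j) x = - pdM e (Kr H j i) x := by
  rw [← pdM_neg_fun hV hx (SMM_Kr hV hH h0 j i)]
  exact pdM_congr_on hV (fun y _ => Kr_swap i j) hx

theorem pdM_Kr_anti (hV : IsOpen V) (hH : SMM V H) (h0 : ∀ x ∈ V, coeff 0 (H x).det ≠ 0)
    (hs : SymOn V H) (hx : x ∈ V) (e i j a b : Fin n) :
    pdM e (Kr H i j) x a b = - pdM e (Kr H i j) x b a := by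
  have h1 : pdM e (fun y => (Kr H i j y)ᵀ) x = - pdM e (Kr H i j) x := by
    rw [← pdM_neg_fun hV hx (SMM_Kr hV hH h0 i j)]
    exact pdM_congr_on hV (fun y hy => Kr_antisymm hV hH h0 hs hy i j) hx
  have h := congrFun (congrFun h1 b) a
  simpa [pdM_transpose] using h

/-- **The contracted Bianchi identity.** -/
theorem contracted (hV : IsOpen V) (hH : SMM V H) (h0 : ∀ x ∈ V, coeff 0 (H x).det ≠ 0)
    (hs : SymOn V H) (hx : x ∈ V) (l : Fin n) :
    pdS l (fun y => (mric H y).trace) x = 2 * dv H (mric H) l x := by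
  have hg : ∀ a b e, gam H e x a b = gam H b x a e := fun a b e => chr_symm hV hs hx a b e
  -- the three terms of the sum
  have T1 : ∑ k, ∑ j, DK H l (Kr H k j) x k j =
      pdS l (fun y => (mric H y).trace) x + 2 * (gam H l x * mric H x).trace := by
    have a1 : pdS l (fun y => (mric H y).trace) x = ∑ k, ∑ j, pdM l (Kr H k j) x k j := by
      rw [pdS_trace hV hx (SMM_mric hV hH h0), Matrix.trace, Finset.sum_comm]
      exact Finset.sum_congr rfl fun j _ => pdM_mric_apply hV hH h0 hs hx l j j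
    have a2 : (gam H l x * mric H x).trace = ∑ k, ∑ j, (gam H l x * Kr H k j x) k j := by
      simp only [Matrix.trace, Matrix.diag_apply, Matrix.mul_apply, mric_apply hV hs hx,
        Finset.mul_sum]
      refine Finset.sum_congr rfl fun k _ => ?_
      rw [Finset.sum_comm]
      refine Finset.sum_congr rfl fun j _ => Finset.sum_congr rfl fun m _ => ?_
      rw [Kr_anti hV hH h0 hs hx k j m j, Kr_swap k j, Matrix.neg_apply, neg_neg]
    have a3 : (gam H l x * mric H x).trace = ∑ k, ∑ j, (Kr H k j x * (gam H l x)ᵀ) k j := by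
      simp only [Matrix.trace, Matrix.diag_apply, Matrix.mul_apply, mric_apply hV hs hx,
        Finset.mul_sum, Matrix.transpose_apply]
      rw [sum3_cab (fun k j m => Kr H k j x k m * gam H l x j m) |>.symm]
      refine Finset.sum_congr rfl fun k _ => Finset.sum_congr rfl fun j _ =>
        Finset.sum_congr rfl fun m _ => ?_
      ring
    simp only [DK, Matrix.add_apply, Finset.sum_add_distrib]
    rw [← a1, ← a2, ← a3]
    ring
  have T2 : ∑ k, ∑ j, DK H k (Kr H j l) x k j =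
      - (∑ i, pdM i (mric H) x i l + ∑ i, (gam H i x * mric H x) i l) := by
    have a1 : ∑ k, ∑ j, pdM k (Kr H j l) x k j = - ∑ i, pdM i (mric H) x i l := by
      rw [← Finset.sum_neg_distrib]
      refine Finset.sum_congr rfl fun k _ => ?_
      rw [pdM_mric_apply hV hH h0 hs hx, ← Finset.sum_neg_distrib]
      exact Finset.sum_congr rfl fun j _ => pdM_Kr_anti hV hH h0 hs hx k j l k j
    have a2 : ∑ k, ∑ j, (gam H k x * Kr H j l x) k j = - ∑ i, (gam H i x * mric H x) i l := by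
      rw [← Finset.sum_neg_distrib]
      refine Finset.sum_congr rfl fun k _ => ?_
      simp only [Matrix.mul_apply, mric_apply hV hs hx, Finset.mul_sum, ← Finset.sum_neg_distrib]
      rw [Finset.sum_comm]
      refine Finset.sum_congr rfl fun m _ => Finset.sum_congr rfl fun j _ => ?_
      rw [Kr_anti hV hH h0 hs hx j l m j]
      ring
    have a3 : ∑ k, ∑ j, (Kr H j l x * (gam H k x)ᵀ) k j = 0 := by
      simp only [Matrix.mul_apply, Matrix.transpose_apply]
      refine eq_zero_of_eq_neg ?_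
      refine (sum3_cba (fun k j m => Kr H j l x k m * gam H k x j m)).symm.trans ?_
      simp only [← Finset.sum_neg_distrib]
      refine Finset.sum_congr rfl fun k _ => Finset.sum_congr rfl fun j _ =>
        Finset.sum_congr rfl fun m _ => ?_
      rw [Kr_anti hV hH h0 hs hx j l k m, hg j m k]
      ring
    simp only [DK, Matrix.add_apply, Finset.sum_add_distrib]
    rw [a1, a2, a3]
    ring
  have T3 : ∑ k, ∑ j, DK H j (Kr H l k) x k j = ∑ k, ∑ j, DK H k (Kr H j l) x k j := by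
    rw [Finset.sum_comm]
    refine Finset.sum_congr rfl fun j _ => Finset.sum_congr rfl fun k _ => ?_
    have h1 : DK H j (Kr H l k) x = - DK H j (Kr H k l) x := by
      rw [DK, DK, pdM_Kr_swap hV hH h0 hx j l k, Kr_swap l k]
      noncomm_ring
    have h2 : (DK H j (Kr H k l) x)ᵀ = - DK H j (Kr H k l) x := by
      rw [DK]
      simp only [Matrix.transpose_add, Matrix.transpose_mul, Matrix.transpose_transpose,
        Kr_antisymm hV hH h0 hs hx k l]
      have h3 : (pdM j (Kr H k l) x)ᵀ = - pdM j (Kr H k l) x := by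
        ext1 a b
        rw [Matrix.transpose_apply, Matrix.neg_apply]
        exact pdM_Kr_anti hV hH h0 hs hx j k l b a
      rw [h3]
      noncomm_ring
    have h4 := congrFun (congrFun h2 j) k
    rw [Matrix.transpose_apply, Matrix.neg_apply] at h4
    rw [h1, Matrix.neg_apply, h4, neg_neg]
  have hB : ∑ k, ∑ j, (DK H l (Kr H k j) x k j + DK H k (Kr H j l) x k j +
      DK H j (Kr H l k) x k j) = 0 := by
    refine Finset.sum_eq_zero fun k _ => Finset.sum_eq_zero fun j _ => ?_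
    have h := congrFun (congrFun (bianchi hV hH h0 hs hx l k j) k) j
    simpa using h
  simp only [Finset.sum_add_distrib] at hB
  rw [T3, T1, T2] at hB
  rw [dv]
  linear_combination hB

/-! ### The first variation of the Ricci tensor -/

theorem dr_mul (f g : ℝ⟦X⟧) : dr (f * g) = dr f * g + f * dr g := by
  simp only [dr, Derivation.leibniz, smul_eq_mul]
  ring

theorem dr_neg (f : ℝ⟦X⟧) : dr (-f) = - dr f := map_neg (PowerSeries.derivative ℝ) f

theorem dr_sub (f g : ℝ⟦X⟧) : dr (f - g) = dr f - dr g := map_sub (PowerSeries.derivative ℝ) f g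

theorem dr_add (f g : ℝ⟦X⟧) : dr (f + g) = dr f + dr g := map_add (PowerSeries.derivative ℝ) f g

theorem dr_sum {ι : Type*} (s : Finset ι) (f : ι → ℝ⟦X⟧) : dr (∑ a ∈ s, f a) = ∑ a ∈ s, dr (f a) :=
  map_sum (PowerSeries.derivative ℝ) _ _

theorem map_dr_mul (A B : Mat n ℝ⟦X⟧) : (A * B).map dr = A.map dr * B + A * B.map dr := by
  ext1 i j
  simp only [Matrix.map_apply, Matrix.mul_apply, Matrix.add_apply, dr_sum, dr_mul,
    Finset.sum_add_distrib]

theorem map_dr_add (A B : Mat n ℝ⟦X⟧) : (A + B).map dr = A.map dr + B.map dr := by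
  ext1 i j
  simp only [Matrix.map_apply, Matrix.add_apply, dr_add]

theorem map_dr_sub (A B : Mat n ℝ⟦X⟧) : (A - B).map dr = A.map dr - B.map dr := by
  ext1 i j
  simp only [Matrix.map_apply, Matrix.sub_apply, dr_sub]

theorem dr_trace (A : Mat n ℝ⟦X⟧) : dr A.trace = (A.map dr).trace := by
  simp only [Matrix.trace, Matrix.diag_apply, Matrix.map_apply, dr_sum]

theorem pdS_dr (hV : IsOpen V) (hx : x ∈ V) {f : E n → ℝ⟦X⟧} (hf : SM V f) (i : Fin n) :
    pdS i (fun y => dr (f y)) x = dr (pdS i f x) := by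
  ext k
  simp only [coeff_pdS, coeff_dr]
  rw [mul_comm, ← pd_const_mul _ (hf.diffAt hV hx (k + 1))]
  congr 1
  funext y
  ring

theorem pdM_dr (hV : IsOpen V) (hx : x ∈ V) {A : E n → Mat n ℝ⟦X⟧} (hA : SMM V A) (i : Fin n) :
    pdM i (fun y => (A y).map dr) x = (pdM i A x).map dr := by
  ext1 a b
  exact pdS_dr hV hx (hA a b) i

/-- the first variation of the connection, with the second index raised -/
def Lv (H : E n → Mat n ℝ⟦X⟧) (j : Fin n) (y : E n) : Mat n ℝ⟦X⟧ :=
  (gam H j y).map dr * (H y)⁻¹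

/-- the variation vector field `gⁱʲ δΓᵏᵢⱼ - gᵏⁱ δΓʲᵢⱼ` -/
def Wv (H : E n → Mat n ℝ⟦X⟧) (k : Fin n) (y : E n) : ℝ⟦X⟧ :=
  ∑ l, Lv H l y k l - ∑ l, Lv H l y l k

theorem SMM_Lv (hV : IsOpen V) (hH : SMM V H) (h0 : ∀ x ∈ V, coeff 0 (H x).det ≠ 0)
    (j : Fin n) : SMM V (Lv H j) :=
  (SMM_gam hV hH h0 j).mapdr.mul (hH.inv h0)

theorem var_Rm (hV : IsOpen V) (hH : SMM V H) (h0 : ∀ x ∈ V, coeff 0 (H x).det ≠ 0)
    (hs : SymOn V H) (hx : x ∈ V) (k j : Fin n) :
    (Rm H k j x).map dr * (H x)⁻¹ = DK H k (Lv H j) x - DK H j (Lv H k) x := by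
  have hg := fun j => SMM_gam hV hH h0 j
  have e : ∀ k j, DK H k (Lv H j) x = ((pdM k (gam H j) x).map dr +
      gam H k x * (gam H j x).map dr - (gam H j x).map dr * gam H k x) * (H x)⁻¹ := by
    intro k j
    have := DK_mul hV hH h0 hs hx k (hg j).mapdr
    rw [pdM_dr hV hx (hg j)] at this
    exact this
  rw [e, e, Rm, map_dr_add, map_dr_sub, map_dr_sub, map_dr_mul, map_dr_mul]
  noncomm_ring

theorem trace_var (hV : IsOpen V) (hH : SMM V H) (h0 : ∀ x ∈ V, coeff 0 (H x).det ≠ 0)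
    (hs : SymOn V H) (hx : x ∈ V) :
    ((H x)⁻¹ * (ric H x).map dr).trace =
      ∑ k, pdS k (Wv H k) x + ∑ k, ∑ m, gam H k x k m * Wv H m x := by
  have hL := fun j => SMM_Lv hV hH h0 j
  have hg : ∀ a b e, gam H e x a b = gam H b x a e := fun a b e => chr_symm hV hs hx a b e
  have e1 : ((H x)⁻¹ * (ric H x).map dr).trace =
      ∑ l, ∑ k, ((Rm H k l x).map dr * (H x)⁻¹) k l := by
    simp only [Matrix.trace, Matrix.diag_apply, Matrix.mul_apply, Matrix.map_apply,
      ric_eq hV hs hx, dr_sum, Finset.mul_sum]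
    refine Finset.sum_congr rfl fun l _ => ?_
    rw [Finset.sum_comm]
    refine Finset.sum_congr rfl fun k _ => Finset.sum_congr rfl fun i _ => ?_
    rw [inv_symm hs hx l i, mul_comm]
  have e2 : ∑ l, ∑ k, (DK H k (Lv H l) x) k l =
      ∑ k, pdS k (fun y => ∑ l, Lv H l y k l) x + ∑ k, ∑ m, gam H k x k m * ∑ l, Lv H l x m l +
        ∑ k, ∑ l, ∑ m, Lv H l x k m * gam H k x l m := by
    rw [Finset.sum_comm]
    simp only [DK, Matrix.add_apply, Finset.sum_add_distrib, Matrix.mul_apply,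
      Matrix.transpose_apply]
    congr 2
    · refine Finset.sum_congr rfl fun k _ => ?_
      rw [pdS_sum hV hx _ fun l _ => hL l k l]
      rfl
    · refine Finset.sum_congr rfl fun k _ => ?_
      rw [Finset.sum_comm]
      exact Finset.sum_congr rfl fun m _ => by rw [Finset.mul_sum]
  have e3 : ∑ l, ∑ k, (DK H l (Lv H k) x) k l =
      ∑ k, pdS k (fun y => ∑ l, Lv H l y l k) x + ∑ k, ∑ m, gam H k x k m * ∑ l, Lv H l x l m +
        ∑ k, ∑ l, ∑ m, Lv H l x k m * gam H k x l m := by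
    simp only [DK, Matrix.add_apply, Finset.sum_add_distrib, Matrix.mul_apply,
      Matrix.transpose_apply]
    have a1 : ∑ l, ∑ k, pdM l (Lv H k) x k l = ∑ k, pdS k (fun y => ∑ l, Lv H l y l k) x := by
      refine Finset.sum_congr rfl fun l _ => ?_
      rw [pdS_sum hV hx _ fun k _ => hL k k l]
      rfl
    have a2 : ∑ l, ∑ k, ∑ m, gam H l x k m * Lv H k x m l =
        ∑ k, ∑ l, ∑ m, Lv H l x k m * gam H k x l m := by
      refine Eq.trans ?_ (sum3_cba (fun k l m => Lv H l x k m * gam H k x l m))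
      refine Finset.sum_congr rfl fun l _ => Finset.sum_congr rfl fun k _ =>
        Finset.sum_congr rfl fun m _ => ?_
      rw [hg k m l, mul_comm]
    have a3 : ∑ l, ∑ k, ∑ m, Lv H k x k m * gam H l x l m =
        ∑ k, ∑ m, gam H k x k m * ∑ l, Lv H l x l m := by
      refine Finset.sum_congr rfl fun l _ => ?_
      rw [Finset.sum_comm]
      refine Finset.sum_congr rfl fun m _ => ?_
      rw [Finset.mul_sum]
      exact Finset.sum_congr rfl fun k _ => by rw [mul_comm]
    rw [a1, a2, a3]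
    ring
  have e4 : ∀ k, pdS k (Wv H k) x = pdS k (fun y => ∑ l, Lv H l y k l) x -
      pdS k (fun y => ∑ l, Lv H l y l k) x := fun k =>
    pdS_sub hV hx (SM.sum fun l _ => hL l k l) (SM.sum fun l _ => hL l l k)
  have e5 : ∀ k m, gam H k x k m * Wv H m x = gam H k x k m * ∑ l, Lv H l x m l -
      gam H k x k m * ∑ l, Lv H l x l m := fun k m => by rw [Wv, mul_sub]
  rw [e1]
  simp only [var_Rm hV hH h0 hs hx, Matrix.sub_apply, Finset.sum_sub_distrib, e4, e5]
  rw [e2, e3]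
  ring

/-- `fst` is linear: its derivative in `ρ` -/
theorem fst_dr (hV : IsOpen V) (hH : SMM V H) (hx : x ∈ V) (j : Fin n) :
    (fst H j x).map dr = fst (fun y => (H y).map dr) j x := by
  ext1 a b
  simp only [Matrix.map_apply, fst, Matrix.of_apply, pdM_dr hV hx hH, dr_mul, dr_sub, dr_add]
  have h1 : dr (C (1 / 2) : ℝ⟦X⟧) = 0 := by simp [dr]
  rw [h1, zero_mul, zero_add]

/-- `g⁻¹ g'` -/
def Mv (H : E n → Mat n ℝ⟦X⟧) (y : E n) : Mat n ℝ⟦X⟧ := (H y)⁻¹ * (H y).map dr

theorem W_lower (hV : IsOpen V) (hH : SMM V H) (h0 : ∀ x ∈ V, coeff 0 (H x).det ≠ 0)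
    (hs : SymOn V H) (hx : x ∈ V) (l : Fin n) :
    ∑ k, H x l k * Wv H k x = dv H (Mv H) l x - pdS l (fun y => (Mv H y).trace) x := by
  have hg : ∀ a b e, gam H e x a b = gam H b x a e := fun a b e => chr_symm hV hs hx a b e
  have hd : SMM V (fun y => (H y).map dr) := hH.mapdr
  have hM : SMM V (Mv H) := (hH.inv h0).mul hd
  have hds : SymOn V (fun y => (H y).map dr) := fun y hy => (hs y hy).map dr
  have hNH : (H x)⁻¹ * H x = 1 := Matrix.nonsing_inv_mul _ (isUnit_det (h0 x hx))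
  have hHN : H x * (H x)⁻¹ = 1 := Matrix.mul_nonsing_inv _ (isUnit_det (h0 x hx))
  have hNs : ((H x)⁻¹)ᵀ = (H x)⁻¹ := by rw [Matrix.transpose_nonsing_inv, (hs x hx).eq]
  have hHs : (H x)ᵀ = H x := (hs x hx).eq
  have hhs : ((H x).map dr)ᵀ = (H x).map dr := (hds x hx).eq
  -- the derivative of `h = g'`
  have dh : ∀ i, pdM i (fun y => (H y).map dr) x =
      (H x * gam H i x + (gam H i x)ᵀ * H x) * Mv H x + H x * pdM i (Mv H) x := by
    intro i
    have e : ∀ y ∈ V, (H y).map dr = H y * Mv H y := by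
      intro y hy
      rw [Mv, ← mul_assoc, Matrix.mul_nonsing_inv _ (isUnit_det (h0 y hy)), one_mul]
    rw [pdM_congr_on hV e hx, pdM_mul hV hx hH hM, compat hV h0 hs hx]
  have hHM : H x * Mv H x = (H x).map dr := by rw [Mv, ← mul_assoc, hHN, one_mul]
  -- the variation of the connection, lowered
  have low : ∀ j, H x * (gam H j x).map dr =
      fst (fun y => (H y).map dr) j x - (H x).map dr * gam H j x := by
    intro j
    have e := congrArg (fun A => A.map dr) (mul_gam h0 hx j)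
    simp only [map_dr_mul] at e
    rw [fst_dr hV hH hx] at e
    rw [← e]
    abel
  have t1 : ((H x)⁻¹ * pdM l (fun y => (H y).map dr) x).trace =
      2 * (gam H l x * Mv H x).trace + pdS l (fun y => (Mv H y).trace) x := by
    rw [dh, pdS_trace hV hx hM]
    have e1 : (H x)⁻¹ * ((H x * gam H l x + (gam H l x)ᵀ * H x) * Mv H x + H x * pdM l (Mv H) x) =
        (H x)⁻¹ * H x * (gam H l x * Mv H x) + (H x)⁻¹ * (gam H l x)ᵀ * (H x * Mv H x) +
          (H x)⁻¹ * H x * pdM l (Mv H) x := by noncomm_ring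
    have e2 : ((H x)⁻¹ * (gam H l x)ᵀ * (H x).map dr).trace = (gam H l x * Mv H x).trace := by
      rw [← Matrix.trace_transpose, Matrix.transpose_mul, Matrix.transpose_mul,
        Matrix.transpose_transpose, hNs, hhs, Matrix.trace_mul_comm, Mv, mul_assoc]
    rw [e1, hNH, one_mul, one_mul, hHM, Matrix.trace_add, Matrix.trace_add, e2]
    ring
  have hsw : ∑ i, ∑ j, (H x)⁻¹ i j * pdM i (fun y => (H y).map dr) x j l =
      ∑ i, ∑ j, (H x)⁻¹ i j * pdM j (fun y => (H y).map dr) x i l := by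
    rw [Finset.sum_comm]
    exact Finset.sum_congr rfl fun i _ => Finset.sum_congr rfl fun j _ => by
      rw [inv_symm hs hx j i]
  have htr : ((H x)⁻¹ * pdM l (fun y => (H y).map dr) x).trace =
      ∑ i, ∑ j, (H x)⁻¹ i j * pdM l (fun y => (H y).map dr) x i j := by
    simp only [Matrix.trace, Matrix.diag_apply, Matrix.mul_apply]
    exact Finset.sum_congr rfl fun i _ => Finset.sum_congr rfl fun j _ => by
      rw [pdM_symm hV hds hx l i j]
  have t2 : ∑ j, (fst (fun y => (H y).map dr) j x * (H x)⁻¹) l j =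
      ∑ i, ((H x)⁻¹ * pdM i (fun y => (H y).map dr) x) i l -
        C (1 / 2) * ((H x)⁻¹ * pdM l (fun y => (H y).map dr) x).trace := by
    have e1 : ∑ j, (fst (fun y => (H y).map dr) j x * (H x)⁻¹) l j =
        C (1 / 2) * ∑ i, ∑ j, (H x)⁻¹ i j * pdM i (fun y => (H y).map dr) x j l +
        C (1 / 2) * ∑ i, ∑ j, (H x)⁻¹ i j * pdM j (fun y => (H y).map dr) x i l -
        C (1 / 2) * ∑ i, ∑ j, (H x)⁻¹ i j * pdM l (fun y => (H y).map dr) x i j := by
      simp only [Matrix.mul_apply, fst, Matrix.of_apply, Finset.mul_sum, ← Finset.sum_add_distrib,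
        ← Finset.sum_sub_distrib]
      rw [Finset.sum_comm]
      refine Finset.sum_congr rfl fun i _ => Finset.sum_congr rfl fun j _ => ?_
      ring
    rw [e1, htr, ← hsw]
    simp only [Matrix.mul_apply]
    linear_combination half_add_half
      (∑ i, ∑ j, (H x)⁻¹ i j * pdM i (fun y => (H y).map dr) x j l)
  have t3 : ∀ i, (H x)⁻¹ * pdM i (fun y => (H y).map dr) x =
      gam H i x * Mv H x + (H x)⁻¹ * (gam H i x)ᵀ * (H x).map dr + pdM i (Mv H) x := by
    intro i
    rw [dh]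
    have e1 : (H x)⁻¹ * ((H x * gam H i x + (gam H i x)ᵀ * H x) * Mv H x + H x * pdM i (Mv H) x) =
        (H x)⁻¹ * H x * (gam H i x * Mv H x) + (H x)⁻¹ * (gam H i x)ᵀ * (H x * Mv H x) +
          (H x)⁻¹ * H x * pdM i (Mv H) x := by noncomm_ring
    rw [e1, hNH, one_mul, one_mul, hHM]
  have t4 : ∀ j, ((H x).map dr * gam H j x * (H x)⁻¹) l j =
      ((H x)⁻¹ * (gam H j x)ᵀ * (H x).map dr) j l := by
    intro j
    rw [← Matrix.transpose_apply ((H x)⁻¹ * (gam H j x)ᵀ * (H x).map dr)]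
    rw [Matrix.transpose_mul, Matrix.transpose_mul, Matrix.transpose_transpose, hNs, hhs, mul_assoc]
  have u1 : ∑ k, H x l k * ∑ j, Lv H j x k j =
      ∑ i, (gam H i x * Mv H x) i l + ∑ i, pdM i (Mv H) x i l -
        C (1 / 2) * ((H x)⁻¹ * pdM l (fun y => (H y).map dr) x).trace := by
    have e1 : ∑ k, H x l k * ∑ j, Lv H j x k j = ∑ j, (H x * Lv H j x) l j := by
      simp only [Matrix.mul_apply, Finset.mul_sum]
      exact Finset.sum_comm
    have e2 : ∀ j, H x * Lv H j x = fst (fun y => (H y).map dr) j x * (H x)⁻¹ -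
        (H x).map dr * gam H j x * (H x)⁻¹ := by
      intro j
      rw [Lv, ← mul_assoc, low, sub_mul]
    rw [e1]
    simp only [e2, Matrix.sub_apply, Finset.sum_sub_distrib]
    rw [t2]
    simp only [t3, t4, Matrix.add_apply, Finset.sum_add_distrib]
    ring
  have u2 : ∑ k, H x l k * ∑ j, Lv H j x j k =
      C (1 / 2) * pdS l (fun y => (Mv H y).trace) x := by
    have e1 : ∑ k, H x l k * ∑ j, Lv H j x j k = ∑ j, (Lv H j x * H x) j l := by
      simp only [Matrix.mul_apply, Finset.mul_sum]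
      rw [Finset.sum_comm]
      exact Finset.sum_congr rfl fun j _ => Finset.sum_congr rfl fun k _ => by
        rw [(hs x hx).apply k l, mul_comm]
    have e2 : ∀ j, Lv H j x * H x = (gam H j x).map dr := by
      intro j
      rw [Lv, mul_assoc, hNH, mul_one]
    have e3 : ∑ j, ((gam H j x).map dr) j l = ((gam H l x).map dr).trace := by
      simp only [Matrix.trace, Matrix.diag_apply, Matrix.map_apply]
      exact Finset.sum_congr rfl fun j _ => by rw [hg j l j]
    have e4 : (gam H l x).map dr = (H x)⁻¹ * fst (fun y => (H y).map dr) l x -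
        Mv H x * gam H l x := by
      rw [Mv, mul_assoc, ← mul_sub, ← low, ← mul_assoc, hNH, one_mul]
    have e5 : ((H x)⁻¹ * fst (fun y => (H y).map dr) l x).trace =
        C (1 / 2) * ((H x)⁻¹ * pdM l (fun y => (H y).map dr) x).trace := by
      have e6 : ((H x)⁻¹ * fst (fun y => (H y).map dr) l x).trace =
        C (1 / 2) * (∑ i, ∑ j, (H x)⁻¹ i j * pdM i (fun y => (H y).map dr) x j l) +
        C (1 / 2) * (∑ i, ∑ j, (H x)⁻¹ i j * pdM l (fun y => (H y).map dr) x i j) -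
        C (1 / 2) * (∑ i, ∑ j, (H x)⁻¹ i j * pdM j (fun y => (H y).map dr) x i l) := by
        simp only [Matrix.trace, Matrix.diag_apply, Matrix.mul_apply, fst, Matrix.of_apply,
          Finset.mul_sum, ← Finset.sum_add_distrib, ← Finset.sum_sub_distrib]
        refine Finset.sum_congr rfl fun i _ => Finset.sum_congr rfl fun j _ => ?_
        rw [pdM_symm hV hds hx i l j, pdM_symm hV hds hx j i l]
        ring
      rw [e6, htr, ← hsw]
      ring
    rw [e1]
    simp only [e2]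
    rw [e3, e4, Matrix.trace_sub, e5, t1, Matrix.trace_mul_comm (Mv H x)]
    linear_combination half_add_half (gam H l x * Mv H x).trace
  have e0 : ∑ k, H x l k * Wv H k x =
      ∑ k, H x l k * ∑ j, Lv H j x k j - ∑ k, H x l k * ∑ j, Lv H j x j k := by
    rw [← Finset.sum_sub_distrib]
    exact Finset.sum_congr rfl fun k _ => by rw [Wv, mul_sub]
  rw [e0, u1, u2, t1, dv]
  linear_combination - half_add_half (gam H l x * Mv H x).trace -
    half_add_half (pdS l (fun y => (Mv H y).trace) x)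

theorem dv_add_smul (hV : IsOpen V) (hs : SymOn V H) (hx : x ∈ V)
    {M : E n → Mat n ℝ⟦X⟧} (hM : SMM V M) {f : E n → ℝ⟦X⟧} (hf : SM V f) (l : Fin n) :
    dv H (fun y => M y + f y • 1) l x = dv H M l x + pdS l f x := by
  have hg : ∀ a b e, gam H e x a b = gam H b x a e := fun a b e => chr_symm hV hs hx a b e
  have h1 : SMM V (fun _ : E n => (1 : Mat n ℝ⟦X⟧)) := fun i j => SM.const _
  have e1 : ∀ i, pdM i (fun y => M y + f y • (1 : Mat n ℝ⟦X⟧)) x = pdM i M x + pdS i f x • 1 := by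
    intro i
    rw [pdM_add hV hx hM (h1.smul hf), pdM_smul hV hx hf h1, pdM_const, smul_zero, add_zero]
  have e2 : ∀ i, gam H i x * (M x + f x • 1) = gam H i x * M x + f x • gam H i x := by
    intro i
    rw [mul_add, Matrix.mul_smul, mul_one]
  have e3 : ∑ i, (pdS i f x • (1 : Mat n ℝ⟦X⟧)) i l = pdS l f x := by
    simp [Matrix.smul_apply, Matrix.one_apply]
  have e4 : ∑ i, (f x • gam H i x) i l = f x * (gam H l x).trace := by
    simp only [Matrix.smul_apply, smul_eq_mul, Matrix.trace, Matrix.diag_apply, Finset.mul_sum]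
    exact Finset.sum_congr rfl fun i _ => by rw [hg i l i]
  simp only [dv, e1, e2, Matrix.add_apply, Finset.sum_add_distrib, Matrix.trace_add]
  rw [e3, e4, Matrix.trace_smul, smul_eq_mul]
  ring

theorem dv_congr (hV : IsOpen V) (hx : x ∈ V) {M M' : E n → Mat n ℝ⟦X⟧}
    (h : ∀ y ∈ V, MG 1 (M y) (M' y)) (l : Fin n) : CG 1 (dv H M l x) (dv H M' l x) := by
  unfold dv
  refine CG.sub (CG.add (CG.sum _ fun i _ => ?_) (CG.sum _ fun i _ => ?_)) ?_
  · exact CG.pdS hV (fun y hy => h y hy i l) hx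
  · exact (MG.refl _).mul (h x hx) i l
  · exact ((MG.refl _).mul (h x hx)).trace

end basic

/-! ### Dimension four -/

/-- the Ricci tensor of the metric `G` -/
def Ric (G : E n → Mat n ℝ) (x : E n) : Mat n ℝ := (ric (fun y => (G y).map C) x).map (coeff 0)

/-- `J = scal / (2 (n - 1))` -/
def J (G : E n → Mat n ℝ) (x : E n) : ℝ := ((G x)⁻¹ * Ric G x).trace / (2 * ((n : ℝ) - 1))

/-- the Schouten tensor `P = (Ric - J G) / (n - 2)` -/
def P (G : E n → Mat n ℝ) (x : E n) : Mat n ℝ := (1 / ((n : ℝ) - 2)) • (Ric G x - J G x • G x)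

/-- `|P|²` -/
def normP (G : E n → Mat n ℝ) (x : E n) : ℝ := ((G x)⁻¹ * P G x * ((G x)⁻¹ * P G x)).trace

/-- `Δ f`, the trace of the Hessian of the function `f` -/
def Lap (G : E n → Mat n ℝ) (f : E n → ℝ) (x : E n) : ℝ :=
  coeff 0 (lap (fun y => (G y).map C) (fun y => C (f y)) x)

section coeffs

theorem coeff_zero_mul (f g : ℝ⟦X⟧) : coeff 0 (f * g) = coeff 0 f * coeff 0 g := by
  simp [PowerSeries.coeff_mul]

theorem coeff_one_mul (f g : ℝ⟦X⟧) :
    coeff 1 (f * g) = coeff 0 f * coeff 1 g + coeff 1 f * coeff 0 g := by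
  rw [PowerSeries.coeff_mul, Finset.Nat.antidiagonal_succ]
  simp

theorem map0_mul (A B : Mat n ℝ⟦X⟧) : (A * B).map (coeff 0) = A.map (coeff 0) * B.map (coeff 0) := by
  ext1 i j
  simp only [Matrix.map_apply, Matrix.mul_apply, map_sum, coeff_zero_mul]

theorem map1_mul (A B : Mat n ℝ⟦X⟧) : (A * B).map (coeff 1) =
    A.map (coeff 0) * B.map (coeff 1) + A.map (coeff 1) * B.map (coeff 0) := by
  ext1 i j
  simp only [Matrix.map_apply, Matrix.mul_apply, Matrix.add_apply, map_sum, coeff_one_mul,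
    Finset.sum_add_distrib]

theorem coeff_trace (k : ℕ) (A : Mat n ℝ⟦X⟧) : coeff k A.trace = (A.map (coeff k)).trace := by
  simp only [Matrix.trace, Matrix.diag_apply, Matrix.map_apply, map_sum]

theorem map0_dr (A : Mat n ℝ⟦X⟧) : (A.map dr).map (coeff 0) = A.map (coeff 1) := by
  ext1 i j
  simp only [Matrix.map_apply, coeff_dr]
  push_cast
  ring

theorem map1_dr (A : Mat n ℝ⟦X⟧) : (A.map dr).map (coeff 1) = (2 : ℝ) • A.map (coeff 2) := by
  ext1 i j
  simp only [Matrix.map_apply, coeff_dr, Matrix.smul_apply, smul_eq_mul]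
  push_cast
  ring

end coeffs

section four

variable {V : Set (E 4)} {G : E 4 → Mat 4 ℝ} {x : E 4}

theorem MG_fam (G : E 4 → Mat 4 ℝ) (y : E 4) : MG 1 (fam G 2 y) ((G y).map C) := by
  intro i j k hk
  obtain rfl : k = 0 := by omega
  have h := congrFun (congrFun (coeff_zero_fam G 2 y) i) j
  simpa using h

theorem coeff_zero_amb (H : E 4 → Mat 4 ℝ⟦X⟧) (x : E 4) :
    (amb H x).map (coeff 0) = - (H x).map (coeff 1) -
      (1 / 2 * coeff 0 (trd (H x))) • (H x).map (coeff 0) + (ric H x).map (coeff 0) := by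
  ext1 i j
  simp only [amb, Matrix.map_apply, Matrix.add_apply, Matrix.sub_apply, Matrix.smul_apply,
    smul_eq_mul, map_add, map_sub, coeff_zero_mul, Matrix.neg_apply, coeff_dr]
  simp
  ring

theorem coeff_one_amb (H : E 4 → Mat 4 ℝ⟦X⟧) (x : E 4) :
    (amb H x).map (coeff 1) = - ((H x).map dr * (H x)⁻¹ * (H x).map dr).map (coeff 0) -
      (1 / 2 * coeff 1 (trd (H x))) • (H x).map (coeff 0) + (ric H x).map (coeff 1) := by
  ext1 i j
  simp only [amb, Matrix.map_apply, Matrix.add_apply, Matrix.sub_apply, Matrix.smul_apply,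
    smul_eq_mul, map_add, map_sub, coeff_one_mul, coeff_zero_mul, Matrix.neg_apply, coeff_dr]
  simp
  ring

/-- everything known about the family `fam G 2` -/
theorem main (hV : IsOpen V) (hG : ∀ i j, ContDiffOn ℝ ∞ (fun x => G x i j) V)
    (hsym : ∀ x ∈ V, (G x).IsSymm) (hdet : ∀ x ∈ V, (G x).det ≠ 0) (hx : x ∈ V) :
    coeff 0 (trd (fam G 2 x)) = 2 * J G x ∧ (fam G 2 x).map (coeff 1) = (2 : ℝ) • P G x ∧
      coeff 1 (trd (fam G 2 x)) = - 2 * normP G x := by
  set H := fam G 2 with hHdef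
  have hH : SMM V H := SMM_fam hV hG hdet 2
  have h0 : ∀ y ∈ V, coeff 0 (H y).det ≠ 0 := coeff_zero_det_fam hdet 2
  have hs : SymOn V H := fam_symm hV hG hdet hsym 2
  have hsol : IsSol V G H := isSol_fam (by decide) (by norm_num) hV hdet
  have hC : ∀ y ∈ V, coeff 0 ((G y).map (C : ℝ →+* ℝ⟦X⟧)).det ≠ 0 := fun y hy => by
    have : (G y).map (C : ℝ →+* ℝ⟦X⟧) = fam G 0 y := rfl
    rw [this]
    exact coeff_zero_det_fam hdet 0 y hy
  have hG0 : ∀ y, (H y).map (coeff 0) = G y := fun y => coeff_zero_fam G 2 y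
  have hN0 : ∀ y ∈ V, (H y)⁻¹.map (coeff 0) = (G y)⁻¹ := fun y hy => by
    rw [map_coeff_inv (h0 y hy), hG0]
  have hMG : ∀ y ∈ V, MG 1 (H y) ((G y).map C) := fun y _ => MG_fam G y
  have hRic : ∀ y ∈ V, (ric H y).map (coeff 0) = Ric G y := fun y hy => by
    ext1 i j
    exact MG_ric hV hMG hC hy i j 0 (by norm_num)
  have htrd : ∀ y, trd (H y) = (Mv H y).trace := fun y => rfl
  have hM0 : ∀ y ∈ V, (Mv H y).map (coeff 0) = (G y)⁻¹ * (H y).map (coeff 1) := fun y hy => by
    rw [Mv, map0_mul, hN0 y hy, map0_dr]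
  -- the equation in order zero
  have heq : ∀ y ∈ V, Ric G y = (H y).map (coeff 1) + (1 / 2 * coeff 0 (trd (H y))) • G y := by
    intro y hy
    have h1 := hsol.eqn y hy 0 (by norm_num)
    rw [coeff_zero_amb, hRic y hy, hG0] at h1
    rw [← sub_eq_zero, ← h1]
    abel
  have hNG : ∀ y ∈ V, (G y)⁻¹ * G y = 1 := fun y hy =>
    Matrix.nonsing_inv_mul _ (Ne.isUnit (hdet y hy))
  have htr1 : ((1 : Mat 4 ℝ)).trace = 4 := by simp
  have hJ : ∀ y ∈ V, coeff 0 (trd (H y)) = 2 * J G y := by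
    intro y hy
    have h1 : coeff 0 (trd (H y)) = ((G y)⁻¹ * (H y).map (coeff 1)).trace := by
      rw [htrd, coeff_trace, hM0 y hy]
    rw [J, heq y hy, mul_add, Matrix.mul_smul, hNG y hy, Matrix.trace_add, Matrix.trace_smul,
      htr1, ← h1, smul_eq_mul]
    push_cast
    ring
  have hP : ∀ y ∈ V, (H y).map (coeff 1) = (2 : ℝ) • P G y := by
    intro y hy
    have h1 := heq y hy
    rw [hJ y hy] at h1
    rw [P, h1, smul_smul]
    ext1 i j
    simp only [Matrix.smul_apply, Matrix.sub_apply, Matrix.add_apply, smul_eq_mul]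
    push_cast
    ring
  refine ⟨hJ x hx, hP x hx, ?_⟩
  -- the divergence of `g⁻¹ g'`
  have hmr : ∀ y ∈ V, MG 1 (mric H y) (Mv H y + (C (1 / 2) * (Mv H y).trace) • 1) := by
    intro y hy
    have h1 : (mric H y).map (coeff 0) =
        (Mv H y + (C (1 / 2) * (Mv H y).trace) • 1).map (coeff 0) := by
      rw [mric, map0_mul, hN0 y hy, hRic y hy, heq y hy, mul_add, Matrix.mul_smul, hNG y hy, htrd]
      ext1 i j
      have h2 := congrFun (congrFun (hM0 y hy) i) j
      rw [Matrix.map_apply] at h2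
      rw [Matrix.map_apply, Matrix.add_apply, Matrix.add_apply, map_add, h2, Matrix.smul_apply,
        Matrix.smul_apply, smul_eq_mul, smul_eq_mul, coeff_zero_mul, coeff_zero_mul]
      congr 1
      by_cases hij : i = j
      · subst hij; simp
      · simp [Matrix.one_apply_ne hij]
    intro i j k hk
    obtain rfl : k = 0 := by omega
    exact congrFun (congrFun h1 i) j
  have hMs : SMM V (Mv H) := (hH.inv h0).mul hH.mapdr
  have hT : SM V (fun z => (Mv H z).trace) := hMs.trace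
  have hdv : ∀ y ∈ V, ∀ l, coeff 0 (dv H (Mv H) l y) =
      coeff 0 (pdS l (fun z => (Mv H z).trace) y) := by
    intro y hy l
    have hf : SM V (fun z => C (1 / 2) * (Mv H z).trace) := (SM.const _).mul hT
    have c1 := contracted hV hH h0 hs hy l
    have c2 := dv_congr (H := H) hV hy hmr l 0 (by norm_num)
    rw [dv_add_smul hV hs hy hMs hf l] at c2
    have c3 : pdS l (fun z => C (1 / 2) * (Mv H z).trace) y =
        C (1 / 2) * pdS l (fun z => (Mv H z).trace) y := by
      rw [pdS_mul hV hy (SM.const _) hT, pdS_const, zero_mul, zero_add]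
    have c4 : CG 1 (pdS l (fun z => (mric H z).trace) y)
        (pdS l (fun z => C 3 * (Mv H z).trace) y) := by
      refine CG.pdS hV (fun z hz => (hmr z hz).trace.trans (CG.of_eq ?_)) hy
      rw [Matrix.trace_add, Matrix.trace_smul, Matrix.trace_one, Fintype.card_fin, smul_eq_mul]
      have : (C 3 : ℝ⟦X⟧) = 1 + C (1 / 2) * 4 := by
        rw [show (4 : ℝ⟦X⟧) = C 4 from (map_ofNat C 4).symm, ← map_mul,
          show (1 : ℝ⟦X⟧) = C 1 from (map_one C).symm, ← map_add]
        norm_num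
      rw [this]
      push_cast
      ring
    have c5 := c4 0 (by norm_num)
    rw [pdS_mul hV hy (SM.const _) hT, pdS_const, zero_mul, zero_add, c1, coeff_zero_mul,
      coeff_zero_mul] at c5
    rw [c3, map_add, coeff_zero_mul] at c2
    have d1 : coeff 0 (2 : ℝ⟦X⟧) = (2 : ℝ) := by
      rw [show (2 : ℝ⟦X⟧) = C 2 from (map_ofNat C 2).symm]
      simp
    have d2 : coeff 0 (C 3 : ℝ⟦X⟧) = (3 : ℝ) := by simp
    have d3 : coeff 0 (C (1 / 2) : ℝ⟦X⟧) = (1 / 2 : ℝ) := by simp
    rw [c2, d1, d2, d3] at c5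
    linarith
  have hW : ∀ y ∈ V, ∀ k, coeff 0 (Wv H k y) = 0 := by
    intro y hy
    have h1 : G y *ᵥ (fun k => coeff 0 (Wv H k y)) = 0 := by
      funext l
      have h2 := congrArg (coeff 0) (W_lower hV hH h0 hs hy l)
      rw [map_sub, hdv y hy l, sub_self, map_sum] at h2
      rw [Matrix.mulVec, dotProduct, Pi.zero_apply, ← h2]
      refine Finset.sum_congr rfl fun k _ => ?_
      rw [coeff_zero_mul, ← hG0 y]
      rfl
    have h3 := Matrix.eq_zero_of_mulVec_eq_zero (hdet y hy) h1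
    intro k
    exact congrFun h3 k
  have hr1 : ((G x)⁻¹ * (ric H x).map (coeff 1)).trace = 0 := by
    have h1 := congrArg (coeff 0) (trace_var hV hH h0 hs hx)
    rw [coeff_trace, map0_mul, hN0 x hx, map0_dr] at h1
    rw [h1, map_add, map_sum, map_sum]
    have h2 : ∀ k, coeff 0 (pdS k (Wv H k) x) = 0 := by
      intro k
      rw [coeff_pdS, pd_congr_on hV (fun y hy => hW y hy k) hx]
      exact pd_const 0
    have h3 : ∀ k, coeff 0 (∑ m, gam H k x k m * Wv H m x) = 0 := by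
      intro k
      rw [map_sum]
      exact Finset.sum_eq_zero fun m _ => by rw [coeff_zero_mul, hW x hx, mul_zero]
    simp only [h2, h3, Finset.sum_const_zero, add_zero]
  -- the trace of the equation in order one
  have h2 := hsol.tr x hx
  have h3 : (4 / 2 - 1 : ℕ) = 1 := rfl
  rw [h3, coeff_one_amb, hG0, mul_add, mul_sub, Matrix.trace_add, Matrix.trace_sub, hr1,
    Matrix.mul_smul, hNG x hx, Matrix.trace_smul, htr1, mul_neg, Matrix.trace_neg, map0_mul,
    map0_mul, hN0 x hx, map0_dr, hP x hx, smul_eq_mul] at h2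
  have h4 : ((G x)⁻¹ * ((2 : ℝ) • P G x * (G x)⁻¹ * (2 : ℝ) • P G x)).trace = 4 * normP G x := by
    rw [normP]
    simp only [Matrix.smul_mul, Matrix.mul_smul, Matrix.trace_smul, smul_eq_mul]
    rw [← mul_assoc]
    congr 1
    · norm_num
    · congr 1
      simp only [mul_assoc]
  rw [h4] at h2
  linarith

/-- **The critical Q-curvature in dimension four**: `Q = 2 J² - 2 |P|² - Δ J`. -/
theorem Qcurv_four (hV : IsOpen V) (hG : ∀ i j, ContDiffOn ℝ ∞ (fun x => G x i j) V)
    (hsym : ∀ x ∈ V, (G x).IsSymm) (hdet : ∀ x ∈ V, (G x).det ≠ 0) (hx : x ∈ V) :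
    Qcurv G x = 2 * J G x ^ 2 - 2 * normP G x - Lap G (J G) x := by
  have hC : ∀ y ∈ V, coeff 0 ((G y).map (C : ℝ →+* ℝ⟦X⟧)).det ≠ 0 := fun y hy => by
    have : (G y).map (C : ℝ →+* ℝ⟦X⟧) = fam G 0 y := rfl
    rw [this]
    exact coeff_zero_det_fam hdet 0 y hy
  have hm := fun y hy => main hV hG hsym hdet (x := y) hy
  have hlap : coeff 0 (lap (fam G 2) (logIter (fam G 2) 0) x) = Lap G (J G) x := by
    refine CG_lap (k := 0) hV (fun y _ => MG_fam G y) hC (fun y hy => ?_) hx 0 (by norm_num)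
    intro k hk
    obtain rfl : k = 0 := by omega
    rw [logIter, coeff_zero_mul, (hm y hy).1]
    simp
  have h1 : Qcurv G x = - coeff 0 (ambLap (fam G 2) (-2 * ((0 : ℕ) + 1)) (logIter (fam G 2) 0) x) := by
    have e1 : (4 / 2 - 1 : ℕ) = 0 + 1 := rfl
    have e2 : (4 / 2 : ℕ) = 2 := rfl
    rw [Qcurv, e1, e2]
    have e3 : logIter (fam G 2) (0 + 1) x =
        ambLap (fam G 2) (-2 * ((0 : ℕ) + 1)) (logIter (fam G 2) 0) x := rfl
    rw [e3, zero_add, pow_one, neg_one_mul]
  have h2 : coeff 0 (dr (logIter (fam G 2) 0 x)) = 1 / 2 * coeff 1 (trd (fam G 2 x)) := by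
    rw [coeff_dr, logIter, coeff_one_mul]
    simp [PowerSeries.coeff_C]
  have h3 : coeff 0 (logIter (fam G 2) 0 x) = 1 / 2 * coeff 0 (trd (fam G 2 x)) := by
    rw [logIter, coeff_zero_mul]
    simp
  rw [h1, ambLap]
  simp only [map_add, coeff_zero_mul, map_sub, hlap, h2, h3, (hm x hx).1, (hm x hx).2.2]
  simp
  ring

end four

end Pool.QCurv.Chk4
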