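import Mathlib

/-!
# Definitions for MP_993073_gt: the critical Q-curvature through the ambient metric

Everything is written in local coordinates.  For an even dimension `n` and a Riemannian metric
`G = (G_ij(x))` on an open subset of `ℝⁿ`, the Fefferman–Graham ambient metric is
`2ρ dt² + 2 t dt dρ + t² g_ρ`, where `g_ρ = G + ρ g⁽¹⁾ + ρ² g⁽²⁾ + ...` solves
(Fefferman–Graham, The ambient metric, (3.17))
`ρ g'' - ρ g' g⁻¹ g' + ½ ρ tr(g⁻¹g') g' - (n/2 - 1) g' - ½ tr(g⁻¹ g') g + Ric(g_ρ) = 0`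
to order `ρ^(n/2-1)`, with the trace vanishing also in the next order.  The critical Q-curvature is
(Fefferman–Hirachi) `Q = (-1)^(n/2-1) Δ̃^(n/2) log t` at `ρ = 0, t = 1`, where `Δ̃` is the trace of
the Hessian of the ambient metric.
-/

open scoped Manifold ContDiff Topology PowerSeries
open PowerSeries (C X coeff)

noncomputable section

namespace Pool.QCurv

/-- Coordinate space `ℝⁿ`. -/
abbrev E (n : ℕ) : Type := EuclideanSpace ℝ (Fin n)

/-- Square matrices with entries in `R`. -/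
abbrev Mat (n : ℕ) (R : Type) : Type := Matrix (Fin n) (Fin n) R

variable {n : ℕ}

/-! ### Calculus in coordinates, with values in formal power series in `ρ` -/

/-- The coordinate derivative `∂f/∂xᵢ` of a real function. -/
def pd (i : Fin n) (f : E n → ℝ) (x : E n) : ℝ :=
  fderiv ℝ f x (EuclideanSpace.single i 1)

/-- `∂f/∂xᵢ` for a function `f` with values in formal power series in `ρ`
(coefficient by coefficient). -/
def pdS (i : Fin n) (f : E n → ℝ⟦X⟧) (x : E n) : ℝ⟦X⟧ :=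
  PowerSeries.mk fun k => pd i (fun y => coeff k (f y)) x

/-- `d/dρ` of a formal power series. -/
def dr (f : ℝ⟦X⟧) : ℝ⟦X⟧ := PowerSeries.derivative ℝ f

/-- Christoffel symbols `Γᵏᵢⱼ = ½ Hᵏˡ (∂ᵢ Hⱼₗ + ∂ⱼ Hᵢₗ - ∂ₗ Hᵢⱼ)` of the family of metrics `H`. -/
def chr (H : E n → Mat n ℝ⟦X⟧) (k i j : Fin n) (x : E n) : ℝ⟦X⟧ :=
  C (1 / 2) * ∑ l, (H x)⁻¹ k l *
    (pdS i (fun y => H y j l) x + pdS j (fun y => H y i l) x - pdS l (fun y => H y i j) x)

/-- The Ricci tensor
`Rᵢⱼ = ∂ₖ Γᵏᵢⱼ - ∂ⱼ Γᵏᵢₖ + Γᵏₖₗ Γˡᵢⱼ - Γᵏⱼₗ Γˡᵢₖ` of the family of metrics `H`. -/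
def ric (H : E n → Mat n ℝ⟦X⟧) (x : E n) : Mat n ℝ⟦X⟧ :=
  Matrix.of fun i j => ∑ k, (pdS k (chr H k i j) x - pdS j (chr H k i k) x
    + ∑ l, (chr H k k l x * chr H l i j x - chr H k j l x * chr H l i k x))

/-- The Laplacian (trace of the Hessian) `Hⁱʲ (∂ᵢ∂ⱼ f - Γᵏᵢⱼ ∂ₖ f)` of the family `H`. -/
def lap (H : E n → Mat n ℝ⟦X⟧) (f : E n → ℝ⟦X⟧) (x : E n) : ℝ⟦X⟧ :=
  ∑ i, ∑ j, (H x)⁻¹ i j * (pdS i (pdS j f) x - ∑ k, chr H k i j x * pdS k f x)

/-! ### The ambient metric -/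

/-- `tr (h⁻¹ h')`. -/
def trd (h : Mat n ℝ⟦X⟧) : ℝ⟦X⟧ := (h⁻¹ * h.map dr).trace

/-- The left-hand side of the Fefferman–Graham equation
`ρ g'' - ρ g' g⁻¹ g' + ½ ρ tr(g⁻¹g') g' - (n/2 - 1) g' - ½ tr(g⁻¹ g') g + Ric(g_ρ)`. -/
def amb (H : E n → Mat n ℝ⟦X⟧) (x : E n) : Mat n ℝ⟦X⟧ :=
  (X : ℝ⟦X⟧) • ((H x).map dr).map dr
    - (X : ℝ⟦X⟧) • ((H x).map dr * (H x)⁻¹ * (H x).map dr)
    + (C (1 / 2) * X * trd (H x)) • (H x).map dr
    - (C ((n : ℝ) / 2 - 1) : ℝ⟦X⟧) • (H x).map dr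
    - (C (1 / 2) * trd (H x)) • H x
    + ric H x

/-- The correction at order `m`: adding `d ρᵐ` to the family changes the coefficient of
`ρ^(m-1)` in the equation by `m (m - n/2) d - ½ m tr(G⁻¹ d) G`.  For `m < n/2` the matrix
`corr m G F` is the unique `d` for which this equals `-F`; for `m = n/2` it is the pure trace
`d` for which the trace of this equals the trace of `-F`. -/
def corr (m : ℕ) (G F : Mat n ℝ) : Mat n ℝ :=
  if 2 * m < n then
    (1 / (m * ((n : ℝ) / 2 - m))) • (F - (m / 2 * ((G⁻¹ * F).trace / (m * (n - m)))) • G)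
  else ((G⁻¹ * F).trace / (m * (n - m)) / n) • G

/-- The ambient family `g_ρ` modulo `ρ^(m+1)`, obtained from `G` by `m` successive corrections. -/
def fam (G : E n → Mat n ℝ) : ℕ → E n → Mat n ℝ⟦X⟧
  | 0 => fun x => (G x).map C
  | m + 1 => fun x => fam G m x + (X ^ (m + 1) : ℝ⟦X⟧) •
      (corr (m + 1) (G x) ((amb (fam G m) x).map (coeff m))).map C

/-- The ambient Laplacian on functions homogeneous of degree `w` in `t`:
`Δ̃ (t^w f) = t^(w-2) (-2ρ f'' + (2w + n - 2 - ρ tr(g⁻¹g')) f' + ½ w tr(g⁻¹g') f + Δ_{g_ρ} f)`. -/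
def ambLap (H : E n → Mat n ℝ⟦X⟧) (w : ℝ) (f : E n → ℝ⟦X⟧) (x : E n) : ℝ⟦X⟧ :=
  C (-2) * X * dr (dr (f x)) + (C (2 * w + n - 2) - X * trd (H x)) * dr (f x)
    + C (w / 2) * trd (H x) * f x + lap H f x

/-- `t^(2k+2) Δ̃^(k+1) log t`; here `Δ̃ log t = t⁻² ½ tr(g⁻¹g')`, and `Δ̃^(k+1) log t` is
homogeneous of degree `-2(k+1)` in `t`. -/
def logIter (H : E n → Mat n ℝ⟦X⟧) : ℕ → E n → ℝ⟦X⟧
  | 0 => fun x => C (1 / 2) * trd (H x)
  | k + 1 => ambLap H (-2 * (k + 1)) (logIter H k)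

/-- The critical Q-curvature of the metric `G` (in coordinates), for even `n`:
`Q = (-1)^(n/2-1) Δ̃^(n/2) log t` at `ρ = 0, t = 1`. -/
def Qcurv (G : E n → Mat n ℝ) (x : E n) : ℝ :=
  (-1) ^ (n / 2 - 1) * coeff 0 (logIter (fam G (n / 2)) (n / 2 - 1) x)

/-! ### Manifolds -/

section General

variable (F : Type) [NormedAddCommGroup F] [NormedSpace ℝ F]
  (M : Type*) [TopologicalSpace M] [ChartedSpace F M] [IsManifold 𝓘(ℝ, F) ∞ M]

/-- Smooth Riemannian metrics on the manifold `M` modelled on the vector space `F`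
(Mathlib's notion, for the tangent bundle). -/
abbrev Met : Type _ :=
  Bundle.ContMDiffRiemannianMetric 𝓘(ℝ, F) ∞ F (fun x : M => TangentSpace 𝓘(ℝ, F) x)

variable {F} {M}

/-- The inner product `g_x` on the tangent space at `x` (which is `F` by definition). -/
def Met.bil (g : Met F M) (x : M) : F →L[ℝ] F →L[ℝ] ℝ := g.inner x

omit [IsManifold 𝓘(ℝ, F) ∞ M] in
/-- The derivative of the inverse `e.symm` of the chart `e` at the point `x` of its target. -/
def dinv (e : OpenPartialHomeomorph M F) (x : F) : F →L[ℝ] F :=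
  mfderiv 𝓘(ℝ, F) 𝓘(ℝ, F) e.symm x

/-- `g (∂e⁻¹ v, ∂e⁻¹ w)`, the metric in the coordinates given by the chart `e`. -/
def Met.coord (g : Met F M) (e : OpenPartialHomeomorph M F) (x v w : F) : ℝ :=
  g.bil (e.symm x) (dinv e x v) (dinv e x w)

end General

section Manifold

variable (n) (M : Type*) [TopologicalSpace M] [ChartedSpace (E n) M] [IsManifold (𝓡 n) ∞ M]

/-- Smooth Riemannian metrics on the `n`-dimensional manifold `M`. -/
abbrev RMetric : Type _ := Met (E n) M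

/-- A finite cover of `M` by compact sets `K i`, each of them inside the domain of a chart of the
smooth structure. -/
structure ChartCover where
  /-- the number of sets -/
  size : ℕ
  /-- the charts -/
  chart : Fin size → OpenPartialHomeomorph M (E n)
  chart_mem : ∀ i, chart i ∈ IsManifold.maximalAtlas (𝓡 n) ∞ M
  /-- the compact sets -/
  K : Fin size → Set M
  isCompact : ∀ i, IsCompact (K i)
  subset : ∀ i, K i ⊆ (chart i).source
  cover : ∀ x, ∃ i, x ∈ K i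

variable {n} {M}

/-- The matrix `G_ij` of the metric `g` in the chart `e`, a function on `ℝⁿ`
(meaningful on `e.target`). -/
def gMat (g : RMetric n M) (e : OpenPartialHomeomorph M (E n)) (x : E n) : Mat n ℝ :=
  Matrix.of fun i j => g.coord e x (EuclideanSpace.single i 1) (EuclideanSpace.single j 1)

/-- The pieces `K i \ (K 0 ∪ ... ∪ K (i-1))` of the Borel partition of `M` given by the cover. -/
def ChartCover.piece (c : ChartCover n M) (i : Fin c.size) : Set M :=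
  c.K i \ ⋃ j, ⋃ _ : j < i, c.K j

/-- The total Q-curvature `∫_M Q dv_g`: the sum over the pieces `P i` of the partition of `M` of
the integrals `∫_{e_i(P i)} Q √(det G_ij) dx` in the corresponding charts `e_i`. -/
def totalQ (g : RMetric n M) (c : ChartCover n M) : ℝ :=
  ∑ i, ∫ x in c.chart i '' c.piece i,
    Qcurv (gMat g (c.chart i)) x * √(gMat g (c.chart i) x).det

end Manifold

end Pool.QCurv
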