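import Pool.Agent.Lib.MP_993073_gt.SignA

/-!
# Module A, part 2 (helper file for MP_993073_gt)

Reduction of the scalar Q-curvature to a quadratic recursion for the Taylor coefficients of the
square root of the volume ratio.
-/

open scoped PowerSeries
open PowerSeries (C X coeff)

noncomputable section

namespace Pool.QCurv

/-! ## the linear equation `v' = g v` -/

/-- coefficients of the solution of `v' = g v`, `v 0 = 1` -/
def vco (g : ℝ⟦X⟧) : ℕ → ℝ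
  | 0 => 1
  | k + 1 => (∑ i : Fin (k + 1), vco g i * coeff (k - i) g) / (k + 1)
  decreasing_by exact i.isLt

lemma vco_zero (g : ℝ⟦X⟧) : vco g 0 = 1 := by rw [vco]

lemma vco_succ (g : ℝ⟦X⟧) (k : ℕ) :
    vco g (k + 1) = (∑ i : Fin (k + 1), vco g i * coeff (k - i) g) / (k + 1) := by rw [vco]

/-- the solution of `v' = g v`, `v 0 = 1` -/
def vser (g : ℝ⟦X⟧) : ℝ⟦X⟧ := PowerSeries.mk (vco g)

lemma coeff_vser (g : ℝ⟦X⟧) (j : ℕ) : coeff j (vser g) = vco g j := PowerSeries.coeff_mk _ _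

lemma sd_vser (g : ℝ⟦X⟧) : sd (vser g) = g * vser g := by
  ext k
  rw [coeff_sd, coeff_vser, vco_succ, mul_comm g, PowerSeries.coeff_mul,
    Finset.Nat.sum_antidiagonal_eq_sum_range_succ_mk, Finset.sum_range]
  have : (k : ℝ) + 1 ≠ 0 := by positivity
  rw [div_mul_cancel₀ _ this]
  apply Finset.sum_congr rfl
  intro i _
  rw [coeff_vser]

/-! ## the iteration -/

lemma sLog_step (n : ℕ) (m : Fin 3 → ℝ) (A : Fin 3 → ℝ⟦X⟧) (v : ℝ⟦X⟧)
    (hv : sd v = C (1 / 2) * sT m A * v) (k : ℕ) :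
    v * sLog n m A (k + 1) =
      sd (C (-2 * ((k : ℝ) + 1)) * (v * sLog n m A k) - C 2 * (X * (v * sd (sLog n m A k)))) +
        C ((n : ℝ) + -2 * ((k : ℝ) + 1)) * (v * sd (sLog n m A k)) := by
  rw [sLog]
  set f := sLog n m A k
  set T := sT m A
  rw [sd_sub, sd_C_mul, sd_C_mul, sd_mul v f, sd_mul X, sd_mul v (sd f), sd_X, hv]
  have e1 : (C (2 * (-2 * ((k : ℝ) + 1)) + n - 2) : ℝ⟦X⟧) =
      C (-2 * ((k : ℝ) + 1)) + C ((n : ℝ) + -2 * ((k : ℝ) + 1)) - C 2 := by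
    rw [← map_add, ← map_sub]; congr 1; ring
  have e2 : (C ((-2 * ((k : ℝ) + 1)) / 2) : ℝ⟦X⟧) = C (-2 * ((k : ℝ) + 1)) * C (1 / 2) := by
    rw [← map_mul]; congr 1; ring
  have e3 : (C (-2) : ℝ⟦X⟧) = - C 2 := by rw [← map_neg]
  have e4 : (C 2 : ℝ⟦X⟧) * C (1 / 2) = 1 := by rw [← map_mul]; norm_num
  rw [e1, e2, e3]
  linear_combination (X * sd f * T * v) * e4

lemma coeff_sLog_step (n : ℕ) (m : Fin 3 → ℝ) (A : Fin 3 → ℝ⟦X⟧) (v : ℝ⟦X⟧)
    (hv : sd v = C (1 / 2) * sT m A * v) (k c : ℕ) (hc : n = 2 * (k + c + 2)) :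
    coeff c (v * sLog n m A (k + 1)) =
      (-2 * ((k : ℝ) + 1)) * ((c : ℝ) + 1) * coeff (c + 1) (v * sLog n m A k) := by
  rw [sLog_step n m A v hv k, map_add, coeff_sd, map_sub, PowerSeries.coeff_C_mul,
    PowerSeries.coeff_C_mul, PowerSeries.coeff_succ_X_mul, PowerSeries.coeff_C_mul, hc]
  push_cast
  ring

lemma coeff_sLog_iter (n ν : ℕ) (hν : n = 2 * ν) (m : Fin 3 → ℝ) (A : Fin 3 → ℝ⟦X⟧) (v : ℝ⟦X⟧)
    (hv : sd v = C (1 / 2) * sT m A * v) (k c : ℕ) (hc : ν = k + c + 1) :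
    coeff c (v * sLog n m A k) * (c.factorial) =
      (-2) ^ k * (k.factorial) * ((ν - 1).factorial) * coeff (ν - 1) (v * sLog n m A 0) := by
  induction k generalizing c with
  | zero =>
    have : c = ν - 1 := by omega
    rw [← this]
    simp
    ring
  | succ k ih =>
    rw [coeff_sLog_step n m A v hv k c (by omega)]
    have h := ih (c + 1) (by omega)
    rw [pow_succ, Nat.factorial_succ k]
    rw [Nat.factorial_succ c] at h
    push_cast at h ⊢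
    linear_combination (-2 * ((k : ℝ) + 1)) * h

/-- A2: the Q-curvature is a positive multiple of the Taylor coefficient `v_ν` -/
theorem sLog_eq_v (n ν : ℕ) (hν : n = 2 * ν) (h1 : 1 ≤ ν) (m : Fin 3 → ℝ) (A : Fin 3 → ℝ⟦X⟧)
    (v : ℝ⟦X⟧) (hv0 : coeff 0 v = 1) (hv : sd v = C (1 / 2) * sT m A * v) :
    (-1) ^ (n / 2 - 1) * coeff 0 (sLog n m A (n / 2 - 1)) =
      2 ^ (ν - 1) * ((ν - 1).factorial) * (ν.factorial) * coeff ν v := by
  have hn2 : n / 2 = ν := by omega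
  rw [hn2]
  have h := coeff_sLog_iter n ν hν m A v hv (ν - 1) 0 (by omega)
  rw [Nat.factorial_zero, Nat.cast_one, mul_one] at h
  have h2 : coeff 0 (v * sLog n m A (ν - 1)) = coeff 0 (sLog n m A (ν - 1)) := by
    rw [PowerSeries.coeff_zero_eq_constantCoeff_apply] at hv0
    rw [PowerSeries.coeff_zero_eq_constantCoeff_apply,
      PowerSeries.coeff_zero_eq_constantCoeff_apply, map_mul, hv0, one_mul]
  have h3 : v * sLog n m A 0 = sd v := by
    rw [hv, sLog]; ring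
  rw [h2, h3, coeff_sd] at h
  obtain ⟨μ, rfl⟩ : ∃ μ, ν = μ + 1 := ⟨ν - 1, by omega⟩
  rw [Nat.add_sub_cancel] at h ⊢
  rw [h, Nat.factorial_succ]
  push_cast
  have h4 : (-1 : ℝ) ^ μ * (-2) ^ μ = 2 ^ μ := by rw [← mul_pow]; norm_num
  rw [← h4]
  ring

/-! ## the quadratic recursion -/

/-- the logarithmic derivative `X A' / A` -/
def sAl (A : ℝ⟦X⟧) : ℝ⟦X⟧ := X * (sd A * A⁻¹)

/-- `Z = v (1 - X A' / A)` -/
def sZ (A v : ℝ⟦X⟧) : ℝ⟦X⟧ := v * (1 - sAl A)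

/-- `S = κ X v / A` -/
def sS (k : ℝ) (A v : ℝ⟦X⟧) : ℝ⟦X⟧ := C k * (X * (v * A⁻¹))

lemma sAmb_mul (n : ℕ) (m κ : Fin 3 → ℝ) (A : Fin 3 → ℝ⟦X⟧) (v : ℝ⟦X⟧)
    (hv : sd v = C (1 / 2) * sT m A * v) (s : Fin 3)
    (hA : PowerSeries.constantCoeff (A s) ≠ 0) :
    X * (v * (A s)⁻¹ * sAmb n m κ A s) =
      - (X * sd (sZ (A s) v)) + C ((n : ℝ) / 2) * sZ (A s) v - C ((n : ℝ) / 2) * v
        + sS (κ s) (A s) v := by
  have hi : A s * (A s)⁻¹ = 1 := PowerSeries.mul_inv_cancel _ hA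
  unfold sAmb sZ sS sAl
  rw [sd_mul, sd_sub, sd_mul X, sd_mul (sd (A s)), sd_inv, sd_X, hv]
  have h1 : sd (1 : ℝ⟦X⟧) = 0 := by
    rw [← map_one (C : ℝ →+* ℝ⟦X⟧), sd_C]
  rw [h1, map_sub, map_one]
  set B := (A s)⁻¹
  set T := sT m A
  set c := (C ((n : ℝ) / 2) : ℝ⟦X⟧)
  set hf := (C (1 / 2) : ℝ⟦X⟧)
  have h2 : hf + hf = 1 := by
    rw [← map_add]; norm_num
  linear_combination (-(X * v * hf * T)) * hi + (0 : ℝ⟦X⟧) * h2

lemma sum_sZ (n : ℕ) (m : Fin 3 → ℝ) (hm : ∑ s, m s = n) (A : Fin 3 → ℝ⟦X⟧) (v : ℝ⟦X⟧)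
    (hv : sd v = C (1 / 2) * sT m A * v) :
    ∑ s, C (m s) * sZ (A s) v = C (n : ℝ) * v - C 2 * (X * sd v) := by
  have h2 : (C 2 : ℝ⟦X⟧) * C (1 / 2) = 1 := by rw [← map_mul]; norm_num
  have h3 : (C (n : ℝ) : ℝ⟦X⟧) = ∑ s, C (m s) := by rw [← hm, map_sum]
  rw [hv, h3]
  unfold sZ sAl sT
  simp only [Fin.sum_univ_three]
  linear_combination (X * v * (C (m 0) * (sd (A 0) * (A 0)⁻¹) + C (m 1) * (sd (A 1) * (A 1)⁻¹)
    + C (m 2) * (sd (A 2) * (A 2)⁻¹))) * h2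

lemma v_mul_sd_sS (k : ℝ) (A v : ℝ⟦X⟧) (hA : PowerSeries.constantCoeff A ≠ 0) :
    v * (X * sd (sS k A v)) = sS k A v * (X * sd v + sZ A v) := by
  have hi : A * A⁻¹ = 1 := PowerSeries.mul_inv_cancel _ hA
  unfold sS sZ sAl
  rw [sd_C_mul, sd_mul X, sd_X, sd_mul v, sd_inv]
  ring

lemma coeff_X_mul_sd (f : ℝ⟦X⟧) (j : ℕ) : coeff j (X * sd f) = j * coeff j f := by
  cases j with
  | zero => simp
  | succ j =>
    rw [PowerSeries.coeff_succ_X_mul, coeff_sd]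
    push_cast
    ring

/-- The quadratic recursion for the coefficients. -/
structure SRec (n : ℕ) (m k : Fin 3 → ℝ) (v : ℕ → ℝ) (S Z : Fin 3 → ℕ → ℝ) : Prop where
  S1 : ∀ s, S s 1 = k s
  Sj : ∀ s j, 2 ≤ j → 2 * j ≤ n → ((j : ℝ) - 1) * S s j =
    ∑ l ∈ Finset.Ico 1 j, S s l * (Z s (j - l) - (2 * (l : ℝ) - j) * v (j - l))
  vj : ∀ j : ℕ, 1 ≤ j → 2 * j ≤ n → 2 * (j : ℝ) * (n - j) * v j = ∑ s, m s * S s j
  Zj : ∀ s (j : ℕ), 1 ≤ j → 2 * j < n → ((j : ℝ) - n / 2) * Z s j = - (n / 2) * v j + S s j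

lemma coeff_sS_zero (k : ℝ) (A v : ℝ⟦X⟧) : coeff 0 (sS k A v) = 0 := by
  unfold sS; simp

lemma coeff_sS_one (k : ℝ) (A v : ℝ⟦X⟧) (a : ℝ) (hA : PowerSeries.constantCoeff A = a)
    (hv0 : coeff 0 v = 1) : coeff 1 (sS k A v) = k / a := by
  unfold sS
  rw [PowerSeries.coeff_C_mul, show (1 : ℕ) = 0 + 1 from rfl, PowerSeries.coeff_succ_X_mul,
    PowerSeries.coeff_zero_eq_constantCoeff_apply, map_mul, PowerSeries.constantCoeff_inv, hA,
    ← PowerSeries.coeff_zero_eq_constantCoeff_apply, hv0, one_mul, div_eq_mul_inv]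

lemma coeff_sZ_zero (A v : ℝ⟦X⟧) (hv0 : coeff 0 v = 1) : coeff 0 (sZ A v) = 1 := by
  unfold sZ sAl
  rw [PowerSeries.coeff_zero_eq_constantCoeff_apply] at hv0 ⊢
  simp [hv0]

lemma coeff_sS_rec (k : ℝ) (A v : ℝ⟦X⟧) (hA : PowerSeries.constantCoeff A ≠ 0)
    (hv0 : coeff 0 v = 1) (j : ℕ) (hj : 2 ≤ j) :
    ((j : ℝ) - 1) * coeff j (sS k A v) =
      ∑ l ∈ Finset.Ico 1 j, coeff l (sS k A v) *
        (coeff (j - l) (sZ A v) - (2 * (l : ℝ) - j) * coeff (j - l) v) := by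
  have h := congrArg (coeff j) (v_mul_sd_sS k A v hA)
  rw [mul_comm v, PowerSeries.coeff_mul, PowerSeries.coeff_mul,
    Finset.Nat.sum_antidiagonal_eq_sum_range_succ_mk,
    Finset.Nat.sum_antidiagonal_eq_sum_range_succ_mk, ← sub_eq_zero, ← Finset.sum_sub_distrib,
    Finset.sum_range_succ, Finset.range_eq_Ico, Finset.sum_eq_sum_Ico_succ_bot (by omega)] at h
  simp only [coeff_X_mul_sd, coeff_sS_zero, map_add, Nat.sub_self, hv0, coeff_sZ_zero A v hv0,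
    Nat.cast_zero, zero_mul, mul_zero, sub_zero, zero_add, mul_one] at h
  have h2 : ∑ l ∈ Finset.Ico 1 j, coeff l (sS k A v) *
        (coeff (j - l) (sZ A v) - (2 * (l : ℝ) - j) * coeff (j - l) v) =
      - ∑ l ∈ Finset.Ico 1 j, ((l : ℝ) * coeff l (sS k A v) * coeff (j - l) v -
        coeff l (sS k A v) * (((j - l : ℕ) : ℝ) * coeff (j - l) v + coeff (j - l) (sZ A v))) := by
    rw [← Finset.sum_neg_distrib]
    apply Finset.sum_congr rfl
    intro l hl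
    rw [Finset.mem_Ico] at hl
    rw [Nat.cast_sub (by omega)]
    ring
  rw [h2]
  linarith

/-- A3: the Taylor coefficients attached to the ambient family satisfy the recursion -/
theorem sRec_sFam (n ν : ℕ) (hν : n = 2 * ν) (h1 : 1 ≤ ν) (m κ A0 : Fin 3 → ℝ)
    (hA0 : ∀ s, A0 s ≠ 0) (hm : ∑ s, m s = n) :
    ∃ (v : ℕ → ℝ) (S Z : Fin 3 → ℕ → ℝ), SRec n m (fun s => κ s / A0 s) v S Z ∧
      sQ n m κ A0 = 2 ^ (ν - 1) * ((ν - 1).factorial) * (ν.factorial) * v ν := by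
  set A := sFam n m κ A0 ν with hAdef
  set v := vser (C (1 / 2) * sT m A) with hvdef
  have hv0 : coeff 0 v = 1 := by rw [hvdef, coeff_vser, vco_zero]
  have hv : sd v = C (1 / 2) * sT m A * v := by rw [hvdef, sd_vser]
  have hA : ∀ s, PowerSeries.constantCoeff (A s) = A0 s := constantCoeff_sFam n m κ A0 ν
  have hA' : ∀ s, PowerSeries.constantCoeff (A s) ≠ 0 := by
    intro s; rw [hA]; exact hA0 s
  have hlow : ∀ s i, 2 * (i + 1) < n → coeff i (sAmb n m κ A s) = 0 := by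
    intro s i hi
    exact coeff_sAmb_sFam n m κ A0 hA0 hm i hi ν (by omega) s
  have htop : ∑ s, m s * (coeff (ν - 1) (sAmb n m κ A s) / A0 s) = 0 := by
    have := wtr_coeff_sAmb_last n m κ A0 hA0 hm (ν - 1) (by omega)
    rw [Nat.sub_add_cancel h1] at this
    exact this
  -- the equation multiplied by `X v / A`
  have hE : ∀ s i, 2 * (i + 1) ≤ n → coeff i (v * (A s)⁻¹ * sAmb n m κ A s) =
      coeff i (sAmb n m κ A s) / A0 s := by
    intro s i hi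
    rw [PowerSeries.coeff_mul, Finset.Nat.sum_antidiagonal_eq_sum_range_succ_mk,
      Finset.range_eq_Ico, Finset.sum_eq_sum_Ico_succ_bot (by omega)]
    have h0 : ∑ l ∈ Finset.Ico (0 + 1) (i + 1),
        coeff l (v * (A s)⁻¹) * coeff (i - l) (sAmb n m κ A s) = 0 := by
      apply Finset.sum_eq_zero
      intro l hl
      rw [Finset.mem_Ico] at hl
      rw [hlow s (i - l) (by omega), mul_zero]
    have h2 : coeff 0 (v * (A s)⁻¹) = (A0 s)⁻¹ := by
      rw [PowerSeries.coeff_zero_eq_constantCoeff_apply] at hv0 ⊢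
      rw [map_mul, hv0, PowerSeries.constantCoeff_inv, hA, one_mul]
    simp only [Nat.sub_zero]
    rw [h2]
    simp only [zero_add] at h0
    simp only [zero_add]
    rw [h0, add_zero, div_eq_mul_inv, mul_comm]
  have hI : ∀ s j, 1 ≤ j → 2 * j ≤ n → coeff (j - 1) (sAmb n m κ A s) / A0 s =
      - ((j : ℝ) * coeff j (sZ (A s) v)) + (n : ℝ) / 2 * coeff j (sZ (A s) v) -
        (n : ℝ) / 2 * coeff j v + coeff j (sS (κ s) (A s) v) := by
    intro s j hj hjn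
    have h := congrArg (coeff j) (sAmb_mul n m κ A v hv s (hA' s))
    obtain ⟨i, rfl⟩ : ∃ i, j = i + 1 := ⟨j - 1, by omega⟩
    rw [PowerSeries.coeff_succ_X_mul, hE s i (by omega)] at h
    rw [Nat.add_sub_cancel, h, map_add, map_sub, map_add, map_neg, coeff_X_mul_sd,
      PowerSeries.coeff_C_mul, PowerSeries.coeff_C_mul]
  have hZsum : ∀ j : ℕ, ∑ s, m s * coeff j (sZ (A s) v) = (n : ℝ) * coeff j v -
      2 * ((j : ℝ) * coeff j v) := by
    intro j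
    have h := congrArg (coeff j) (sum_sZ n m hm A v hv)
    rw [map_sum, map_sub, PowerSeries.coeff_C_mul, PowerSeries.coeff_C_mul, coeff_X_mul_sd] at h
    rw [← h]
    apply Finset.sum_congr rfl
    intro s _
    rw [PowerSeries.coeff_C_mul]
  refine ⟨fun j => coeff j v, fun s j => coeff j (sS (κ s) (A s) v),
    fun s j => coeff j (sZ (A s) v), ⟨?_, ?_, ?_, ?_⟩, ?_⟩
  · intro s
    exact coeff_sS_one (κ s) (A s) v (A0 s) (hA s) hv0
  · intro s j hj _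
    exact coeff_sS_rec (κ s) (A s) v (hA' s) hv0 j hj
  · intro j hj hjn
    have h3 : ∑ s, m s * (coeff (j - 1) (sAmb n m κ A s) / A0 s) = 0 := by
      by_cases hjν : 2 * j < n
      · apply Finset.sum_eq_zero
        intro s _
        rw [hlow s (j - 1) (by omega)]
        simp
      · have : j = ν := by omega
        rw [this]
        exact htop
    have h4 : ∑ s, m s * (coeff (j - 1) (sAmb n m κ A s) / A0 s) =
        ((n : ℝ) / 2 - j) * (∑ s, m s * coeff j (sZ (A s) v)) -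
          (n : ℝ) / 2 * coeff j v * (∑ s, m s) + ∑ s, m s * coeff j (sS (κ s) (A s) v) := by
      rw [Finset.mul_sum, Finset.mul_sum, ← Finset.sum_sub_distrib, ← Finset.sum_add_distrib]
      apply Finset.sum_congr rfl
      intro s _
      rw [hI s j hj hjn]
      ring
    rw [h3, hm, hZsum j] at h4
    linear_combination h4
  · intro s j hj hjn
    have h3 := hI s j hj hjn.le
    rw [hlow s (j - 1) (by omega), zero_div] at h3
    linear_combination h3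
  · unfold sQ
    have hn2 : n / 2 = ν := by omega
    have h5 := sLog_eq_v n ν hν h1 m A v hv0 hv
    rw [hn2] at h5 ⊢
    exact h5

end Pool.QCurv
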