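import Pool.Agent.Lib.MP_993073_gt.Calc

/-!
# Functions with values in formal power series with smooth coefficients; smoothness and locality
of the Q-curvature (helper file for MP_993073_gt)
-/

open scoped Manifold ContDiff Topology PowerSeries
open PowerSeries (C X coeff)
open Filter

noncomputable section

namespace Pool.QCurv

variable {n : ℕ}

/-- `f` has smooth coefficients on `V`. -/
def SM (V : Set (E n)) (f : E n → ℝ⟦X⟧) : Prop :=
  ∀ k, ContDiffOn ℝ ∞ (fun x => coeff k (f x)) V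

/-- the entries of `A` have smooth coefficients on `V` -/
def SMM (V : Set (E n)) (A : E n → Mat n ℝ⟦X⟧) : Prop :=
  ∀ i j, SM V (fun x => A x i j)

section SM

variable {V : Set (E n)} {f g : E n → ℝ⟦X⟧}

theorem SM.congr (hf : SM V f) (h : ∀ x ∈ V, g x = f x) : SM V g := fun k =>
  (hf k).congr fun x hx => by rw [h x hx]

theorem SM.mono {W : Set (E n)} (hf : SM V f) (h : W ⊆ V) : SM W f := fun k => (hf k).mono h

theorem SM.const (c : ℝ⟦X⟧) : SM V (fun _ => c) := fun _ => contDiffOn_const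

theorem SM.C {φ : E n → ℝ} (hφ : ContDiffOn ℝ ∞ φ V) : SM V (fun x => PowerSeries.C (φ x)) := by
  intro k
  by_cases hk : k = 0
  · simpa [PowerSeries.coeff_C, hk] using hφ
  · simpa [PowerSeries.coeff_C, hk] using contDiffOn_const

theorem SM.add (hf : SM V f) (hg : SM V g) : SM V (fun x => f x + g x) := fun k => by
  simpa only [map_add] using (hf k).add (hg k)

theorem SM.neg (hf : SM V f) : SM V (fun x => - f x) := fun k => by
  simpa only [map_neg] using (hf k).neg

theorem SM.sub (hf : SM V f) (hg : SM V g) : SM V (fun x => f x - g x) := fun k => by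
  simpa only [map_sub] using (hf k).sub (hg k)

theorem SM.mul (hf : SM V f) (hg : SM V g) : SM V (fun x => f x * g x) := fun k => by
  simp only [PowerSeries.coeff_mul]
  exact ContDiffOn.sum fun p _ => (hf p.1).mul (hg p.2)

theorem SM.sum {ι : Type*} {s : Finset ι} {f : ι → E n → ℝ⟦X⟧} (hf : ∀ a ∈ s, SM V (f a)) :
    SM V (fun x => ∑ a ∈ s, f a x) := fun k => by
  simp only [map_sum]
  exact ContDiffOn.sum fun a ha => hf a ha k

theorem SM.prod {ι : Type*} {s : Finset ι} {f : ι → E n → ℝ⟦X⟧} (hf : ∀ a ∈ s, SM V (f a)) :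
    SM V (fun x => ∏ a ∈ s, f a x) := by
  classical
  induction s using Finset.induction_on with
  | empty => simpa using SM.const 1
  | insert a s ha ih =>
    simp only [Finset.prod_insert ha]
    exact (hf a (Finset.mem_insert_self a s)).mul
      (ih fun b hb => hf b (Finset.mem_insert_of_mem hb))

theorem SM.pdS (hV : IsOpen V) {i : Fin n} (hf : SM V f) : SM V (Pool.QCurv.pdS i f) := fun k => by
  simp only [Pool.QCurv.pdS, PowerSeries.coeff_mk]
  exact contDiffOn_pd hV (hf k)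

theorem SM.dr (hf : SM V f) : SM V (fun x => Pool.QCurv.dr (f x)) := fun k => by
  simp only [Pool.QCurv.dr]
  have : ∀ x, coeff k ((PowerSeries.derivative ℝ) (f x)) = coeff (k + 1) (f x) * (k + 1) :=
    fun x => PowerSeries.coeff_derivative (f x) k
  simp only [this]
  exact (hf (k + 1)).mul contDiffOn_const

theorem SM.psInv (hf : SM V f) (h0 : ∀ x ∈ V, coeff 0 (f x) ≠ 0) : SM V (fun x => (f x)⁻¹) := by
  intro k
  induction k using Nat.strong_induction_on with
  | _ k ih =>
    have h0' : ContDiffOn ℝ ∞ (fun x => (coeff 0 (f x))⁻¹) V := (hf 0).inv h0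
    by_cases hk : k = 0
    · subst hk
      refine h0'.congr fun x _ => ?_
      rw [PowerSeries.coeff_inv]
      simp
    · have h1 : ContDiffOn ℝ ∞ (fun x => -(coeff 0 (f x))⁻¹ *
          ∑ p ∈ Finset.HasAntidiagonal.antidiagonal k, if p.2 < k then coeff p.1 (f x) * coeff p.2 (f x)⁻¹ else 0)
          V := by
        refine h0'.neg.mul (ContDiffOn.sum fun p _ => ?_)
        split_ifs with hp
        · exact (hf p.1).mul (ih p.2 hp)
        · exact contDiffOn_const
      refine h1.congr fun x _ => ?_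
      rw [PowerSeries.coeff_inv, if_neg hk]
      simp

theorem ringInverse_eq {φ : ℝ⟦X⟧} (h : coeff 0 φ ≠ 0) : Ring.inverse φ = φ⁻¹ := by
  have h1 : φ * φ⁻¹ = 1 := PowerSeries.mul_inv_cancel φ (by simpa using h)
  have hu : IsUnit φ := IsUnit.of_mul_eq_one _ h1
  calc Ring.inverse φ = Ring.inverse φ * (φ * φ⁻¹) := by rw [h1, mul_one]
    _ = φ⁻¹ := by rw [← mul_assoc, Ring.inverse_mul_cancel _ hu, one_mul]

theorem isUnit_of_coeff_zero {φ : ℝ⟦X⟧} (h : coeff 0 φ ≠ 0) : IsUnit φ :=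
  IsUnit.of_mul_eq_one _ (PowerSeries.mul_inv_cancel φ (by simpa using h))

theorem SM.ringInverse (hf : SM V f) (h0 : ∀ x ∈ V, coeff 0 (f x) ≠ 0) :
    SM V (fun x => Ring.inverse (f x)) :=
  (hf.psInv h0).congr fun x hx => ringInverse_eq (h0 x hx)

end SM

section SMM

variable {V : Set (E n)} {A B : E n → Mat n ℝ⟦X⟧}

theorem SMM.congr (hA : SMM V A) (h : ∀ x ∈ V, B x = A x) : SMM V B := fun i j =>
  (hA i j).congr fun x hx => by rw [h x hx]

theorem SMM.add (hA : SMM V A) (hB : SMM V B) : SMM V (fun x => A x + B x) := fun i j =>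
  (hA i j).add (hB i j)

theorem SMM.sub (hA : SMM V A) (hB : SMM V B) : SMM V (fun x => A x - B x) := fun i j =>
  (hA i j).sub (hB i j)

theorem SMM.mul (hA : SMM V A) (hB : SMM V B) : SMM V (fun x => A x * B x) := fun i j => by
  simp only [Matrix.mul_apply]
  exact SM.sum fun k _ => (hA i k).mul (hB k j)

theorem SMM.smul {f : E n → ℝ⟦X⟧} (hf : SM V f) (hA : SMM V A) : SMM V (fun x => f x • A x) :=
  fun i j => by
  simp only [Matrix.smul_apply, smul_eq_mul]
  exact hf.mul (hA i j)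

theorem SMM.transpose (hA : SMM V A) : SMM V (fun x => (A x).transpose) := fun i j => hA j i

theorem SMM.trace (hA : SMM V A) : SM V (fun x => (A x).trace) := by
  simp only [Matrix.trace, Matrix.diag_apply]
  exact SM.sum fun i _ => hA i i

theorem SMM.mapC {G : E n → Mat n ℝ} (hG : ∀ i j, ContDiffOn ℝ ∞ (fun x => G x i j) V) :
    SMM V (fun x => (G x).map C) := fun i j => by
  simp only [Matrix.map_apply]
  exact SM.C (hG i j)

theorem SMM.mapdr (hA : SMM V A) : SMM V (fun x => (A x).map dr) := fun i j => by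
  simp only [Matrix.map_apply]
  exact (hA i j).dr

theorem SM_det {m : ℕ} {A : E n → Matrix (Fin m) (Fin m) ℝ⟦X⟧} (hA : ∀ i j, SM V fun x => A x i j) :
    SM V (fun x => (A x).det) := by
  simp only [Matrix.det_apply]
  refine SM.sum fun σ _ => ?_
  have h : SM V (fun x => ∏ i, A x (σ i) i) := SM.prod fun i _ => hA _ _
  rcases Int.units_eq_one_or (Equiv.Perm.sign σ) with hs | hs
  · simpa [hs] using h
  · simpa [hs] using h.neg

theorem SMM.det (hA : SMM V A) : SM V (fun x => (A x).det) := SM_det hA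

theorem SMM.adjugate (hA : SMM V A) : SMM V (fun x => (A x).adjugate) := fun i j => by
  simp only [Matrix.adjugate_apply]
  refine SM_det fun a b => ?_
  by_cases h : a = j
  · subst h
    simpa [Matrix.updateRow_self] using SM.const _
  · simpa [Matrix.updateRow_ne h] using hA a b

theorem SMM.inv (hA : SMM V A) (h0 : ∀ x ∈ V, coeff 0 (A x).det ≠ 0) :
    SMM V (fun x => (A x)⁻¹) := by
  simp only [Matrix.inv_def]
  exact SMM.smul (hA.det.ringInverse h0) hA.adjugate

theorem SMM.coeff (hA : SMM V A) (k : ℕ) (i j : Fin n) :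
    ContDiffOn ℝ ∞ (fun x => ((A x).map (PowerSeries.coeff k)) i j) V := hA i j k

end SMM

/-! ### Smoothness of real matrix operations -/

section real

variable {V : Set (E n)} {G F : E n → Mat n ℝ}

theorem contDiffOn_det' {m : ℕ} {A : E n → Matrix (Fin m) (Fin m) ℝ}
    (hA : ∀ i j, ContDiffOn ℝ ∞ (fun x => A x i j) V) :
    ContDiffOn ℝ ∞ (fun x => (A x).det) V := by
  simp only [Matrix.det_apply]
  refine ContDiffOn.sum fun σ _ => ?_
  have h : ContDiffOn ℝ ∞ (fun x => ∏ i, A x (σ i) i) V := contDiffOn_prod fun i _ => hA _ _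
  rcases Int.units_eq_one_or (Equiv.Perm.sign σ) with hs | hs
  · simpa [hs] using h
  · simpa [hs] using h.neg

theorem contDiffOn_inv_entry (hG : ∀ i j, ContDiffOn ℝ ∞ (fun x => G x i j) V)
    (hdet : ∀ x ∈ V, (G x).det ≠ 0) (i j : Fin n) :
    ContDiffOn ℝ ∞ (fun x => (G x)⁻¹ i j) V := by
  simp only [Matrix.inv_def, Matrix.smul_apply, smul_eq_mul, Ring.inverse_eq_inv',
    Matrix.adjugate_apply]
  refine ((contDiffOn_det' hG).inv hdet).mul (contDiffOn_det' fun a b => ?_)
  by_cases h : a = j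
  · subst h
    simpa [Matrix.updateRow_self] using contDiffOn_const
  · simpa [Matrix.updateRow_ne h] using hG a b

theorem contDiffOn_corr (hG : ∀ i j, ContDiffOn ℝ ∞ (fun x => G x i j) V)
    (hF : ∀ i j, ContDiffOn ℝ ∞ (fun x => F x i j) V)
    (hdet : ∀ x ∈ V, (G x).det ≠ 0) (m : ℕ) (i j : Fin n) :
    ContDiffOn ℝ ∞ (fun x => corr m (G x) (F x) i j) V := by
  have ht : ContDiffOn ℝ ∞ (fun x => ((G x)⁻¹ * F x).trace) V := by
    simp only [Matrix.trace, Matrix.diag_apply, Matrix.mul_apply]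
    exact ContDiffOn.sum fun a _ => ContDiffOn.sum fun b _ =>
      (contDiffOn_inv_entry hG hdet a b).mul (hF b a)
  unfold corr
  split_ifs with h
  · simp only [Matrix.smul_apply, Matrix.sub_apply, smul_eq_mul]
    exact contDiffOn_const.mul ((hF i j).sub
      ((contDiffOn_const.mul (ht.div_const _)).mul (hG i j)))
  · simp only [Matrix.smul_apply, smul_eq_mul]
    exact ((ht.div_const _).div_const _).mul (hG i j)

end real

/-! ### The ambient construction -/

section ambient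

variable {V : Set (E n)} {H : E n → Mat n ℝ⟦X⟧} {G : E n → Mat n ℝ}

theorem SM_chr (hV : IsOpen V) (hH : SMM V H) (h0 : ∀ x ∈ V, coeff 0 (H x).det ≠ 0)
    (k i j : Fin n) : SM V (chr H k i j) := by
  unfold chr
  exact (SM.const _).mul (SM.sum fun l _ => (hH.inv h0 k l).mul
    ((((hH j l).pdS hV).add ((hH i l).pdS hV)).sub ((hH i j).pdS hV)))

theorem SMM_ric (hV : IsOpen V) (hH : SMM V H) (h0 : ∀ x ∈ V, coeff 0 (H x).det ≠ 0) :
    SMM V (ric H) := by
  intro i j
  have hc := SM_chr hV hH h0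
  simp only [ric, Matrix.of_apply]
  exact SM.sum fun k _ => (((hc k i j).pdS hV).sub ((hc k i k).pdS hV)).add
    (SM.sum fun l _ => ((hc k k l).mul (hc l i j)).sub ((hc k j l).mul (hc l i k)))

theorem SM_lap (hV : IsOpen V) (hH : SMM V H) (h0 : ∀ x ∈ V, coeff 0 (H x).det ≠ 0)
    {f : E n → ℝ⟦X⟧} (hf : SM V f) : SM V (lap H f) := by
  have hc := SM_chr hV hH h0
  unfold lap
  exact SM.sum fun i _ => SM.sum fun j _ => (hH.inv h0 i j).mul
    (((hf.pdS hV).pdS hV).sub (SM.sum fun k _ => (hc k i j).mul (hf.pdS hV)))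

theorem SM_trd (hH : SMM V H) (h0 : ∀ x ∈ V, coeff 0 (H x).det ≠ 0) :
    SM V (fun x => trd (H x)) := by
  unfold trd
  exact ((hH.inv h0).mul hH.mapdr).trace

theorem SMM_amb (hV : IsOpen V) (hH : SMM V H) (h0 : ∀ x ∈ V, coeff 0 (H x).det ≠ 0) :
    SMM V (amb H) := by
  have ht := SM_trd hH h0
  unfold amb
  refine SMM.add (SMM.sub (SMM.sub (SMM.add (SMM.sub ?_ ?_) ?_) ?_) ?_) (SMM_ric hV hH h0)
  · exact SMM.smul (SM.const _) hH.mapdr.mapdr
  · exact SMM.smul (SM.const _) ((hH.mapdr.mul (hH.inv h0)).mul hH.mapdr)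
  · exact SMM.smul ((SM.const _).mul ht) hH.mapdr
  · exact SMM.smul (SM.const _) hH.mapdr
  · exact SMM.smul ((SM.const _).mul ht) hH

theorem coeff_zero_fam (G : E n → Mat n ℝ) (m : ℕ) (x : E n) :
    (fam G m x).map (coeff 0) = G x := by
  induction m with
  | zero =>
    ext i j
    simp [fam]
  | succ m ih =>
    rw [← ih]
    ext i j
    simp [fam]

theorem coeff_zero_det (A : Mat n ℝ⟦X⟧) : coeff 0 A.det = (A.map (coeff 0)).det := by
  have h := RingHom.map_det (PowerSeries.constantCoeff (R := ℝ)) A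
  simpa [RingHom.mapMatrix_apply] using h

theorem coeff_zero_det_fam (hdet : ∀ x ∈ V, (G x).det ≠ 0) (m : ℕ) :
    ∀ x ∈ V, coeff 0 (fam G m x).det ≠ 0 := fun x hx => by
  rw [coeff_zero_det, coeff_zero_fam]
  exact hdet x hx

theorem SMM_fam (hV : IsOpen V) (hG : ∀ i j, ContDiffOn ℝ ∞ (fun x => G x i j) V)
    (hdet : ∀ x ∈ V, (G x).det ≠ 0) (m : ℕ) : SMM V (fam G m) := by
  induction m with
  | zero => exact SMM.mapC hG
  | succ m ih =>
    have ha := SMM_amb hV ih (coeff_zero_det_fam hdet m)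
    exact ih.add (SMM.smul (SM.const _) (SMM.mapC fun i j =>
      contDiffOn_corr hG (fun a b => ha.coeff m a b) hdet (m + 1) i j))

theorem SM_ambLap (hV : IsOpen V) (hH : SMM V H) (h0 : ∀ x ∈ V, coeff 0 (H x).det ≠ 0)
    (w : ℝ) {f : E n → ℝ⟦X⟧} (hf : SM V f) : SM V (ambLap H w f) := by
  have ht := SM_trd hH h0
  unfold ambLap
  exact (((((SM.const _).mul hf.dr.dr)).add (((SM.const _).sub ((SM.const _).mul ht)).mul
    hf.dr)).add (((SM.const _).mul ht).mul hf)).add (SM_lap hV hH h0 hf)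

theorem SM_logIter (hV : IsOpen V) (hH : SMM V H) (h0 : ∀ x ∈ V, coeff 0 (H x).det ≠ 0)
    (k : ℕ) : SM V (logIter H k) := by
  induction k with
  | zero => exact (SM.const _).mul (SM_trd hH h0)
  | succ k ih => exact SM_ambLap hV hH h0 _ ih

end ambient

theorem contDiffOn_Qcurv {n : ℕ} {V : Set (E n)} (hV : IsOpen V) {G : E n → Mat n ℝ}
    (hG : ∀ i j, ContDiffOn ℝ ∞ (fun x => G x i j) V) (hdet : ∀ x ∈ V, (G x).det ≠ 0) :
    ContDiffOn ℝ ∞ (Qcurv G) V := by
  unfold Qcurv
  exact contDiffOn_const.mul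
    (SM_logIter hV (SMM_fam hV hG hdet _) (coeff_zero_det_fam hdet _) _ 0)

/-! ### Locality -/

section locality

variable {x : E n}

theorem pdS_congr_nhds {i : Fin n} {f g : E n → ℝ⟦X⟧} (h : f =ᶠ[𝓝 x] g) :
    pdS i f =ᶠ[𝓝 x] pdS i g := by
  filter_upwards [h.eventually_nhds] with y hy
  unfold pdS
  ext k
  simp only [PowerSeries.coeff_mk]
  exact pd_congr (hy.mono fun z hz => by simp only [hz])

theorem chr_congr {H H' : E n → Mat n ℝ⟦X⟧} (h : H =ᶠ[𝓝 x] H') (k i j : Fin n) :
    chr H k i j =ᶠ[𝓝 x] chr H' k i j := by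
  have h1 : ∀ a b c : Fin n, pdS a (fun y => H y b c) =ᶠ[𝓝 x] pdS a (fun y => H' y b c) :=
    fun a b c => pdS_congr_nhds (h.mono fun y hy => by simp only [hy])
  have h2 : ∀ᶠ y in 𝓝 x, ∀ a b c : Fin n,
      pdS a (fun y => H y b c) y = pdS a (fun y => H' y b c) y :=
    eventually_all.2 fun a => eventually_all.2 fun b => eventually_all.2 fun c => h1 a b c
  filter_upwards [h, h2] with y hy h2y
  simp only [chr, hy, h2y]

theorem ric_congr {H H' : E n → Mat n ℝ⟦X⟧} (h : H =ᶠ[𝓝 x] H') : ric H =ᶠ[𝓝 x] ric H' := by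
  have h1 : ∀ᶠ y in 𝓝 x, ∀ a b c : Fin n, chr H a b c y = chr H' a b c y :=
    eventually_all.2 fun a => eventually_all.2 fun b => eventually_all.2 fun c => chr_congr h a b c
  have h2 : ∀ᶠ y in 𝓝 x, ∀ d a b c : Fin n,
      pdS d (chr H a b c) y = pdS d (chr H' a b c) y :=
    eventually_all.2 fun d => eventually_all.2 fun a => eventually_all.2 fun b =>
      eventually_all.2 fun c => pdS_congr_nhds (chr_congr h a b c)
  filter_upwards [h1, h2] with y h1y h2y
  simp only [ric, h1y, h2y]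

theorem amb_congr {H H' : E n → Mat n ℝ⟦X⟧} (h : H =ᶠ[𝓝 x] H') : amb H =ᶠ[𝓝 x] amb H' := by
  filter_upwards [h, ric_congr h] with y hy h1y
  simp only [amb, hy, h1y]

theorem fam_congr {G G' : E n → Mat n ℝ} (h : G =ᶠ[𝓝 x] G') (m : ℕ) :
    fam G m =ᶠ[𝓝 x] fam G' m := by
  induction m with
  | zero =>
    filter_upwards [h] with y hy
    simp only [fam, hy]
  | succ m ih =>
    filter_upwards [h, ih, amb_congr ih] with y hy h1y h2y
    simp only [fam, hy, h1y, h2y]

theorem lap_congr {H H' : E n → Mat n ℝ⟦X⟧} (h : H =ᶠ[𝓝 x] H') {f f' : E n → ℝ⟦X⟧}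
    (hf : f =ᶠ[𝓝 x] f') : lap H f =ᶠ[𝓝 x] lap H' f' := by
  have h1 : ∀ᶠ y in 𝓝 x, ∀ a b c : Fin n, chr H a b c y = chr H' a b c y :=
    eventually_all.2 fun a => eventually_all.2 fun b => eventually_all.2 fun c => chr_congr h a b c
  have h2 : ∀ᶠ y in 𝓝 x, ∀ a : Fin n, pdS a f y = pdS a f' y :=
    eventually_all.2 fun a => pdS_congr_nhds hf
  have h3 : ∀ᶠ y in 𝓝 x, ∀ a b : Fin n, pdS a (pdS b f) y = pdS a (pdS b f') y :=
    eventually_all.2 fun a => eventually_all.2 fun b => pdS_congr_nhds (pdS_congr_nhds hf)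
  filter_upwards [h, h1, h2, h3] with y hy h1y h2y h3y
  simp only [lap, hy, h1y, h2y, h3y]

theorem logIter_congr {H H' : E n → Mat n ℝ⟦X⟧} (h : H =ᶠ[𝓝 x] H') (k : ℕ) :
    logIter H k =ᶠ[𝓝 x] logIter H' k := by
  induction k with
  | zero =>
    filter_upwards [h] with y hy
    simp only [logIter, hy]
  | succ k ih =>
    filter_upwards [h, ih, lap_congr h ih] with y hy h1y h2y
    simp only [logIter, ambLap, hy, h1y, h2y]

end locality

theorem Qcurv_congr {n : ℕ} {G G' : E n → Mat n ℝ} {x : E n} (h : G =ᶠ[𝓝 x] G') :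
    Qcurv G x = Qcurv G' x := by
  unfold Qcurv
  rw [(logIter_congr (fam_congr h (n / 2)) (n / 2 - 1)).self_of_nhds]

end Pool.QCurv
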