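import Pool.Agent.Lib.MP_993073_gt.Block2
import Pool.Agent.Lib.MP_993073_gt.SignRec
import Pool.Agent.Lib.MP_993073_gt.Smooth

/-!
# The Q-curvature of Einstein metrics (helper file for MP_993073_gt)

If `Ric(G) = (n - 1) c G` then `g_ρ = (1 + c ρ / 2)² G` and `Q = (n - 1)! c^(n/2)`; for the round
unit sphere `c = 1` and `Q = (n - 1)!`.
-/

open scoped Manifold ContDiff Topology PowerSeries
open PowerSeries (C X coeff)
open Filter

noncomputable section

namespace Pool.QCurv.Ein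

variable {n : ℕ} {V : Set (E n)} {G : E n → Mat n ℝ} {H : E n → Mat n ℝ⟦X⟧} {u : ℝ⟦X⟧}

theorem pdS_mul_C {i : Fin n} {x : E n} (A : ℝ⟦X⟧) {f : E n → ℝ} (hf : DifferentiableAt ℝ f x) :
    pdS i (fun y => A * C (f y)) x = A * C (pd i f x) := by
  ext k
  simp only [pdS, PowerSeries.coeff_mk, PowerSeries.coeff_mul_C]
  exact pd_const_mul _ hf

theorem inv_map_C {A : Mat n ℝ} (hA : A.det ≠ 0) :
    (A.map (C : ℝ → ℝ⟦X⟧))⁻¹ = (A⁻¹).map C := by
  apply Matrix.inv_eq_right_inv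
  rw [← Matrix.map_mul, Matrix.mul_nonsing_inv _ (isUnit_iff_ne_zero.2 hA),
    Matrix.map_one _ (map_zero _) (map_one _)]

theorem inv_smul_map_C {A : Mat n ℝ} (hA : A.det ≠ 0) (hu : PowerSeries.constantCoeff u ≠ 0) :
    (u • A.map (C : ℝ → ℝ⟦X⟧))⁻¹ = u⁻¹ • (A⁻¹).map C := by
  apply Matrix.inv_eq_right_inv
  rw [Matrix.smul_mul, Matrix.mul_smul, smul_smul, ← Matrix.map_mul,
    Matrix.mul_nonsing_inv _ (isUnit_iff_ne_zero.2 hA),
    Matrix.map_one _ (map_zero _) (map_one _), PowerSeries.mul_inv_cancel _ hu, one_smul]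

/-- The Christoffel symbols do not change under multiplication with a function of `ρ`. -/
theorem chr_scale (hV : IsOpen V) (hG : ∀ i j, ContDiffOn ℝ ∞ (fun y => G y i j) V)
    (hdet : ∀ y ∈ V, (G y).det ≠ 0) (hu : PowerSeries.constantCoeff u ≠ 0)
    (hH : ∀ y ∈ V, H y = u • (G y).map C) (k i j : Fin n) {x : E n} (hx : x ∈ V) :
    chr H k i j x = chr (fun y => (G y).map C) k i j x := by
  have hd : ∀ i j, DifferentiableAt ℝ (fun y => G y i j) x := fun i j =>
    ((hG i j).contDiffAt (hV.mem_nhds hx)).differentiableAt (by simp)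
  have hp : ∀ k i j : Fin n, pdS k (fun y => H y i j) x = u * C (pd k (fun y => G y i j) x) := by
    intro k i j
    rw [pdSb_congr_on hV (g := fun y => u * C (G y i j)) (fun y hy => by
      rw [hH y hy]; rfl) hx]
    exact pdS_mul_C _ (hd i j)
  have hp0 : ∀ k i j : Fin n, pdS k (fun y => (G y).map (C : ℝ → ℝ⟦X⟧) i j) x
      = C (pd k (fun y => G y i j) x) := fun k i j => pdSb_C _
  unfold chr
  simp only [hp, hp0, hH x hx, inv_smul_map_C (hdet x hx) hu, inv_map_C (hdet x hx)]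
  congr 1
  refine Finset.sum_congr rfl fun l _ => ?_
  rw [Matrix.smul_apply, smul_eq_mul]
  have h1 : u⁻¹ * u = 1 := PowerSeries.inv_mul_cancel _ hu
  linear_combination ((G x)⁻¹.map (C : ℝ → ℝ⟦X⟧) k l * (C (pd i (fun y => G y j l) x)
    + C (pd j (fun y => G y i l) x) - C (pd l (fun y => G y i j) x))) * h1

theorem ric_scale (hV : IsOpen V) (hG : ∀ i j, ContDiffOn ℝ ∞ (fun y => G y i j) V)
    (hdet : ∀ y ∈ V, (G y).det ≠ 0) (hu : PowerSeries.constantCoeff u ≠ 0)
    (hH : ∀ y ∈ V, H y = u • (G y).map C) {x : E n} (hx : x ∈ V) :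
    ric H x = ric (fun y => (G y).map C) x := by
  ext1 i j
  have h1 : ∀ k i j, ∀ y ∈ V, chr H k i j y = chr (fun y => (G y).map C) k i j y :=
    fun k i j y hy => chr_scale hV hG hdet hu hH k i j hy
  simp only [ric, Matrix.of_apply]
  refine Finset.sum_congr rfl fun k _ => ?_
  rw [pdSb_congr_on hV (h1 k i j) hx, pdSb_congr_on hV (h1 k i k) hx]
  congr 1
  refine Finset.sum_congr rfl fun l _ => ?_
  rw [h1 k k l x hx, h1 l i j x hx, h1 k j l x hx, h1 l i k x hx]

theorem map_dr_scale {A : Mat n ℝ} (w : ℝ⟦X⟧) :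
    (w • A.map (C : ℝ → ℝ⟦X⟧)).map dr = dr w • A.map C := by
  ext1 i j
  simp only [Matrix.map_apply, Matrix.smul_apply, smul_eq_mul, drb_C_mul]

theorem trd_scale {A : Mat n ℝ} (hA : A.det ≠ 0) (hu : PowerSeries.constantCoeff u ≠ 0) :
    trd (u • A.map C) = C (n : ℝ) * (dr u * u⁻¹) := by
  unfold trd
  rw [inv_smul_map_C hA hu, map_dr_scale, Matrix.smul_mul, Matrix.mul_smul, ← Matrix.map_mul,
    Matrix.nonsing_inv_mul _ (isUnit_iff_ne_zero.2 hA), Matrix.map_one _ (map_zero _) (map_one _),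
    smul_smul, Matrix.trace_smul, Matrix.trace_one, Fintype.card_fin, smul_eq_mul]
  have : ((n : ℝ⟦X⟧)) = C (n : ℝ) := by simp
  rw [this]
  ring

/-- the scalar equation -/
def eq (n : ℕ) (c : ℝ) (u : ℝ⟦X⟧) : ℝ⟦X⟧ :=
  X * dr (dr u) - X * (dr u * u⁻¹ * dr u) + C (1 / 2) * X * (C (n : ℝ) * (dr u * u⁻¹)) * dr u
    - C ((n : ℝ) / 2 - 1) * dr u - C (1 / 2) * (C (n : ℝ) * (dr u * u⁻¹)) * u
    + C (((n : ℝ) - 1) * c)

variable {c : ℝ}

theorem amb_scale (hV : IsOpen V) (hG : ∀ i j, ContDiffOn ℝ ∞ (fun y => G y i j) V)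
    (hdet : ∀ y ∈ V, (G y).det ≠ 0)
    (hric : ∀ y ∈ V, ric (fun y => (G y).map C) y = ((((n : ℝ) - 1) * c) • G y).map C)
    (hu : PowerSeries.constantCoeff u ≠ 0)
    (hH : ∀ y ∈ V, H y = u • (G y).map C) {x : E n} (hx : x ∈ V) :
    amb H x = eq n c u • (G x).map C := by
  have hquad : (dr u • (G x).map (C : ℝ → ℝ⟦X⟧)) * (u⁻¹ • ((G x)⁻¹).map C) * (dr u • (G x).map C)
      = (dr u * u⁻¹ * dr u) • (G x).map C := by
    have hMN : (G x).map (C : ℝ → ℝ⟦X⟧) * ((G x)⁻¹).map C = 1 := by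
      rw [← Matrix.map_mul, Matrix.mul_nonsing_inv _ (isUnit_iff_ne_zero.2 (hdet x hx)),
        Matrix.map_one _ (map_zero _) (map_one _)]
    simp only [Matrix.smul_mul, Matrix.mul_smul, hMN, one_mul, smul_smul]
    congr 1
    ring
  unfold amb
  rw [ric_scale hV hG hdet hu hH hx, hric x hx, hH x hx, trd_scale (hdet x hx) hu, map_dr_scale,
    map_dr_scale, inv_smul_map_C (hdet x hx) hu, hquad]
  ext1 i j
  simp only [Matrix.add_apply, Matrix.sub_apply, Matrix.smul_apply, Matrix.map_apply, smul_eq_mul,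
    map_mul, eq]
  ring

theorem corr_scale {A : Mat n ℝ} (hA : A.det ≠ 0) (f : ℝ) {m : ℕ} (hm : 0 < m) (hmn : m < n) :
    corr m A (f • A) = (f / (m * (n - m))) • A := by
  have hm0 : (m : ℝ) ≠ 0 := by exact_mod_cast hm.ne'
  have hn0 : (n : ℝ) ≠ 0 := by exact_mod_cast (by omega : n ≠ 0)
  have hmn0 : (n : ℝ) - m ≠ 0 := by
    have : (m : ℝ) < n := by exact_mod_cast hmn
    intro h
    linarith
  have htr : (A⁻¹ * (f • A)).trace = f * n := by
    rw [Matrix.mul_smul, Matrix.nonsing_inv_mul _ (isUnit_iff_ne_zero.2 hA), Matrix.trace_smul,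
      Matrix.trace_one, Fintype.card_fin, smul_eq_mul]
  unfold corr
  rw [htr]
  split_ifs with h
  · rw [← sub_smul, smul_smul]
    congr 1
    obtain ⟨q, hq⟩ : ∃ q : ℝ, q = (n : ℝ) / 2 - m := ⟨_, rfl⟩
    have hq0 : q ≠ 0 := by
      have : 2 * (m : ℝ) < n := by exact_mod_cast h
      intro h'
      rw [hq] at h'
      linarith
    rw [← hq]
    field_simp
    rw [hq]
    ring
  · congr 1
    field_simp

/-- the scalar family `(1 + c ρ / 2)²` modulo `ρ^(m+1)` -/
def w (c : ℝ) : ℕ → ℝ⟦X⟧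
  | 0 => 1
  | 1 => 1 + X * C c
  | _ + 2 => 1 + X * C c + X ^ 2 * C (c ^ 2 / 4)

theorem w_const (c : ℝ) (m : ℕ) : PowerSeries.constantCoeff (w c m) = 1 := by
  rcases m with _ | _ | m <;> simp [w]

theorem dr_X_mul_C (c : ℝ) : dr (X * C c) = C c := by
  rw [drb_C_mul]
  simp [dr]

theorem C_two : (C (2 : ℝ) : ℝ⟦X⟧) = 2 := map_ofNat C 2

theorem dr_X_sq_mul_C (c : ℝ) : dr (X ^ 2 * C c) = C 2 * X * C c := by
  rw [drb_C_mul, C_two]
  simp [dr]

theorem dr_one : dr (1 : ℝ⟦X⟧) = 0 := by simp [dr]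

theorem eq_w_zero (n : ℕ) (c : ℝ) : coeff 0 (eq n c (w c 0)) = ((n : ℝ) - 1) * c := by
  unfold eq w
  simp [dr_one]

theorem eq_w_one (n : ℕ) (c : ℝ) : coeff 1 (eq n c (w c 1)) = ((n : ℝ) / 2 - 1) * c ^ 2 := by
  have hu : PowerSeries.constantCoeff (w c 1) ≠ 0 := by rw [w_const]; exact one_ne_zero
  have h1 : w c 1 * (w c 1)⁻¹ = 1 := PowerSeries.mul_inv_cancel _ hu
  have hd : dr (w c 1) = C c := by
    unfold w
    rw [drb_add, dr_one, dr_X_mul_C, zero_add]
  have h2 : eq n c (w c 1) = X * (C (((n : ℝ) / 2 - 1) * c ^ 2) * (w c 1)⁻¹) := by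
    unfold eq
    rw [hd, drb_C]
    have e1 : (C (((n : ℝ) / 2 - 1) * c ^ 2) : ℝ⟦X⟧) = (C (n : ℝ) * C (1 / 2) - 1) * C c ^ 2 := by
      rw [← map_one C, ← map_mul, ← map_sub, ← map_pow, ← map_mul]
      congr 1
      ring
    have e2 : (C (((n : ℝ) - 1) * c) : ℝ⟦X⟧) = (C (n : ℝ) - 1) * C c := by
      rw [← map_one C, ← map_sub, ← map_mul]
    have e3 : (C ((n : ℝ) / 2 - 1) : ℝ⟦X⟧) = C (n : ℝ) * C (1 / 2) - 1 := by
      rw [← map_one C, ← map_mul, ← map_sub]
      congr 1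
      ring
    have e4 : (C (1 / 2) + C (1 / 2) : ℝ⟦X⟧) = 1 := by
      rw [← map_add, ← map_one C]
      norm_num
    rw [e1, e2, e3]
    linear_combination (- C (1 / 2) * C (n : ℝ) * C c) * h1 - (C (n : ℝ) * C c) * e4
  rw [h2]
  refine (PowerSeries.coeff_succ_X_mul 0 _).trans ?_
  rw [PowerSeries.coeff_C_mul,
    PowerSeries.coeff_zero_eq_constantCoeff_apply, PowerSeries.constantCoeff_inv, w_const, inv_one,
    mul_one]

theorem eq_w_two (n : ℕ) (c : ℝ) (m : ℕ) : eq n c (w c (m + 2)) = 0 := by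
  have hu : PowerSeries.constantCoeff (w c (m + 2)) ≠ 0 := by rw [w_const]; exact one_ne_zero
  have h1 : w c (m + 2) * (w c (m + 2))⁻¹ = 1 := PowerSeries.mul_inv_cancel _ hu
  have hd : dr (w c (m + 2)) = C c + X * C (c ^ 2 / 2) := by
    unfold w
    rw [drb_add, drb_add, dr_one, dr_X_mul_C, zero_add, dr_X_sq_mul_C, mul_comm (C 2), mul_assoc,
      ← map_mul]
    congr 3
    ring
  have hdd : dr (dr (w c (m + 2))) = C (c ^ 2 / 2) := by
    rw [hd, drb_add, drb_C, dr_X_mul_C, zero_add]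
  have hsq : dr (w c (m + 2)) * (w c (m + 2))⁻¹ * dr (w c (m + 2)) = C (c ^ 2) := by
    have e : dr (w c (m + 2)) * dr (w c (m + 2)) = C (c ^ 2) * w c (m + 2) := by
      rw [hd]
      have e1 : (C (c ^ 2 / 2) : ℝ⟦X⟧) = C c ^ 2 * C (1 / 2) := by
        rw [← map_pow, ← map_mul]
        congr 1
        ring
      have e2 : (C (c ^ 2) : ℝ⟦X⟧) = C c ^ 2 := by rw [← map_pow]
      have e3 : (C (c ^ 2 / 4) : ℝ⟦X⟧) = C c ^ 2 * (C (1 / 2) * C (1 / 2)) := by
        rw [← map_pow, ← map_mul, ← map_mul]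
        congr 1
        ring
      have e4 : (C (1 / 2) + C (1 / 2) : ℝ⟦X⟧) = 1 := by
        rw [← map_add, ← map_one C]
        norm_num
      unfold w
      rw [e1, e2, e3]
      linear_combination (C c ^ 3 * X) * e4
    calc dr (w c (m + 2)) * (w c (m + 2))⁻¹ * dr (w c (m + 2))
        = (dr (w c (m + 2)) * dr (w c (m + 2))) * (w c (m + 2))⁻¹ := by ring
      _ = C (c ^ 2) * (w c (m + 2) * (w c (m + 2))⁻¹) := by rw [e]; ring
      _ = C (c ^ 2) := by rw [h1, mul_one]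
  have hq : eq n c (w c (m + 2)) = X * C (c ^ 2 / 2) - X * C (c ^ 2)
      + C (1 / 2) * X * C (n : ℝ) * C (c ^ 2) - C ((n : ℝ) / 2 - 1) * (C c + X * C (c ^ 2 / 2))
      - C (1 / 2) * C (n : ℝ) * (C c + X * C (c ^ 2 / 2)) + C (((n : ℝ) - 1) * c) := by
    unfold eq
    rw [hdd]
    rw [hd] at hsq ⊢
    linear_combination (- X + C (1 / 2) * X * C (n : ℝ)) * hsq
      - (C (1 / 2) * C (n : ℝ) * (C c + X * C (c ^ 2 / 2))) * h1
  rw [hq]
  have : ∀ a b : ℝ, (C (1 / 2) : ℝ⟦X⟧) * X * C a * C b = X * C (1 / 2 * a * b) := by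
    intro a b
    rw [map_mul, map_mul]
    ring
  rw [this]
  have h3 : ∀ a b d : ℝ, (C a : ℝ⟦X⟧) * (C b + X * C d) = C (a * b) + X * C (a * d) := by
    intro a b d
    rw [map_mul, map_mul]
    ring
  rw [h3, ← map_mul C (1 / 2) (n : ℝ), h3]
  ext k
  simp only [map_add, map_sub]
  rcases k with _ | _ | k
  · simp
    ring
  · simp only [map_add, PowerSeries.coeff_succ_X_mul, PowerSeries.coeff_C, map_zero]
    norm_num
    ring
  · simp only [map_add, PowerSeries.coeff_succ_X_mul, PowerSeries.coeff_C, map_zero]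
    norm_num

theorem fam_scale (hV : IsOpen V) (hG : ∀ i j, ContDiffOn ℝ ∞ (fun y => G y i j) V)
    (hdet : ∀ y ∈ V, (G y).det ≠ 0)
    (hric : ∀ y ∈ V, ric (fun y => (G y).map C) y = ((((n : ℝ) - 1) * c) • G y).map C)
    (m : ℕ) (hm : m < n) : ∀ x ∈ V, fam G m x = w c m • (G x).map C := by
  induction m with
  | zero =>
    intro x _
    rw [w, one_smul]
    rfl
  | succ m ih =>
    intro x hx
    have ih' := ih (by omega)
    have hu : PowerSeries.constantCoeff (w c m) ≠ 0 := by rw [w_const]; exact one_ne_zero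
    show fam G m x + (X ^ (m + 1) : ℝ⟦X⟧) •
      (corr (m + 1) (G x) ((amb (fam G m) x).map (coeff m))).map C = _
    have h1 : (amb (fam G m) x).map (coeff m) = (coeff m (eq n c (w c m))) • G x := by
      rw [amb_scale hV hG hdet hric hu ih' hx]
      ext i j
      simp [PowerSeries.coeff_mul_C]
    rw [h1, corr_scale (hdet x hx) _ (Nat.succ_pos m) hm, ih' x hx]
    have h2 : w c (m + 1) = w c m + X ^ (m + 1) * C (coeff m (eq n c (w c m)) /
        (((m + 1 : ℕ) : ℝ) * ((n : ℝ) - ((m + 1 : ℕ) : ℝ)))) := by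
      rcases m with _ | _ | m
      · rw [eq_w_zero]
        have h0 : (n : ℝ) - 1 ≠ 0 := sub_ne_zero.2 (by exact_mod_cast (by omega : n ≠ 1))
        have h3 : ((n : ℝ) - 1) * c / (((0 + 1 : ℕ) : ℝ) * ((n : ℝ) - ((0 + 1 : ℕ) : ℝ))) = c := by
          push_cast
          field_simp
        rw [h3]
        simp [w]
      · rw [eq_w_one]
        have h0 : (n : ℝ) - 2 ≠ 0 := sub_ne_zero.2 (by exact_mod_cast (by omega : n ≠ 2))
        have h3 : ((n : ℝ) / 2 - 1) * c ^ 2 /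
            (((0 + 1 + 1 : ℕ) : ℝ) * ((n : ℝ) - ((0 + 1 + 1 : ℕ) : ℝ))) = c ^ 2 / 4 := by
          push_cast
          have : (n : ℝ) - (0 + 1 + 1) ≠ 0 := by
            intro h
            apply h0
            linarith
          field_simp
          ring
        rw [h3]
        rfl
      · rw [eq_w_two, map_zero, zero_div, map_zero, mul_zero, add_zero]
        rfl
    rw [h2]
    ext1 i j
    simp only [Matrix.add_apply, Matrix.smul_apply, Matrix.map_apply, smul_eq_mul, map_mul]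
    ring

theorem logIter_scale (hV : IsOpen V) (hdet : ∀ y ∈ V, (G y).det ≠ 0)
    (hu : PowerSeries.constantCoeff u ≠ 0) (hH : ∀ y ∈ V, H y = u • (G y).map C) (k : ℕ) :
    ∀ x ∈ V, logIter H k x = sLog n (fun _ => (n : ℝ) / 3) (fun _ => u) k := by
  have htrd : ∀ x ∈ V, trd (H x) = sT (fun _ => (n : ℝ) / 3) (fun _ => u) := by
    intro x hx
    rw [hH x hx, trd_scale (hdet x hx) hu]
    unfold sT
    rw [Fin.sum_univ_three]
    have : (C (n : ℝ) : ℝ⟦X⟧) = C ((n : ℝ) / 3) + C ((n : ℝ) / 3) + C ((n : ℝ) / 3) := by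
      rw [← map_add, ← map_add]
      congr 1
      ring
    rw [this]
    show _ * (sd u * u⁻¹) = _
    ring
  induction k with
  | zero =>
    intro x hx
    simp only [logIter, sLog]
    rw [htrd x hx]
  | succ k ih =>
    intro x hx
    have h1 : ∀ y ∈ V, ∀ j, pdS j (logIter H k) y = 0 := by
      intro y hy j
      rw [pdSb_congr_on hV (g := fun _ => sLog n (fun _ => (n : ℝ) / 3) (fun _ => u) k)
        (fun y hy => ih y hy) hy, pdSb_const]
    have h2 : ∀ i j, pdS i (pdS j (logIter H k)) x = 0 := by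
      intro i j
      rw [pdSb_congr_on hV (g := fun _ => 0) (fun y hy => h1 y hy j) hx, pdSb_const]
    have h3 : lap H (logIter H k) x = 0 := by
      unfold lap
      simp [h1 x hx, h2]
    show ambLap H (-2 * (k + 1)) (logIter H k) x = _
    unfold ambLap
    rw [h3, ih x hx, htrd x hx, add_zero]
    rfl

theorem coeff_pow_one_add (a : ℝ) (N k : ℕ) :
    coeff k ((1 + X * C a : ℝ⟦X⟧) ^ N) = a ^ k * (N.choose k : ℝ) := by
  rw [add_comm, add_pow]
  simp only [one_pow, mul_one, map_sum, mul_pow]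
  have : ∀ i, coeff k ((X : ℝ⟦X⟧) ^ i * C a ^ i * ((N.choose i : ℕ) : ℝ⟦X⟧))
      = if k = i then a ^ i * (N.choose i : ℝ) else 0 := by
    intro i
    have e : ((N.choose i : ℕ) : ℝ⟦X⟧) = C ((N.choose i : ℕ) : ℝ) := by simp
    rw [e, ← map_pow, mul_assoc, ← map_mul, PowerSeries.coeff_mul_C, PowerSeries.coeff_X_pow]
    split_ifs <;> simp
  simp only [this]
  rw [Finset.sum_ite_eq]
  split_ifs with h
  · rfl
  · rw [Finset.mem_range] at h
    rw [Nat.choose_eq_zero_of_lt (by omega)]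
    simp

/-- **Einstein metrics.**  If `Ric(G) = (n - 1) c G` on the open set `V`, then
`Q = (n - 1)! c^(n/2)` on `V`. -/
theorem Qcurv_einstein (hn : Even n) (h1 : 2 ≤ n) (hV : IsOpen V)
    (hG : ∀ i j, ContDiffOn ℝ ∞ (fun y => G y i j) V) (hdet : ∀ y ∈ V, (G y).det ≠ 0)
    (hric : ∀ y ∈ V, ric (fun y => (G y).map C) y = ((((n : ℝ) - 1) * c) • G y).map C)
    {x : E n} (hx : x ∈ V) : Qcurv G x = ((n - 1).factorial : ℝ) * c ^ (n / 2) := by
  obtain ⟨ν, hν'⟩ := hn
  have hν : n = 2 * ν := by omega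
  have hn2 : n / 2 = ν := by omega
  have hfam := fam_scale hV hG hdet hric (n / 2) (by omega)
  have hu : PowerSeries.constantCoeff (w c (n / 2)) ≠ 0 := by rw [w_const]; exact one_ne_zero
  unfold Qcurv
  rw [logIter_scale hV hdet hu hfam _ x hx]
  rw [hn2] at hfam hu ⊢
  rcases Nat.lt_or_ge ν 2 with hν2 | hν2
  · -- `n = 2`
    have hν1 : ν = 1 := by omega
    subst hν1
    subst hν
    simp only [Nat.sub_self, sLog, sT, w]
    have hd : sd (1 + X * C c) = C c := by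
      show dr _ = _
      rw [drb_add, dr_one, dr_X_mul_C, zero_add]
    rw [Fin.sum_univ_three, hd]
    simp
    ring
  · obtain ⟨m, rfl⟩ : ∃ m, ν = m + 2 := ⟨ν - 2, by omega⟩
    set s : ℝ⟦X⟧ := 1 + X * C (c / 2) with hs
    have hs2 : w c (m + 2) = s ^ 2 := by
      rw [hs, w]
      have e1 : (C c : ℝ⟦X⟧) = C (c / 2) + C (c / 2) := by
        rw [← map_add]
        congr 1
        ring
      have e2 : (C (c ^ 2 / 4) : ℝ⟦X⟧) = C (c / 2) ^ 2 := by
        rw [← map_pow]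
        congr 1
        ring
      rw [e1, e2]
      ring
    have hs0 : PowerSeries.constantCoeff s = 1 := by simp [hs]
    have hds : sd s = C (c / 2) := by
      show dr _ = _
      rw [hs, drb_add, dr_one, dr_X_mul_C, zero_add]
    have hsi : s * s⁻¹ = 1 := PowerSeries.mul_inv_cancel _ (by rw [hs0]; exact one_ne_zero)
    have hdpow : ∀ N : ℕ, sd (s ^ (N + 1)) = C ((N + 1 : ℝ) * (c / 2)) * s ^ N := by
      intro N
      show PowerSeries.derivative ℝ (s ^ (N + 1)) = _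
      rw [Derivation.leibniz_pow]
      have : PowerSeries.derivative ℝ s = C (c / 2) := hds
      rw [this, map_mul]
      simp
      ring
    have hinv : (s ^ 2)⁻¹ = s⁻¹ * s⁻¹ := by
      have h3 : (s ^ 2) * (s ^ 2)⁻¹ = 1 := PowerSeries.mul_inv_cancel _ (by
        rw [map_pow, hs0, one_pow]; exact one_ne_zero)
      calc (s ^ 2)⁻¹ = (s ^ 2)⁻¹ * ((s * s⁻¹) * (s * s⁻¹)) := by rw [hsi]; ring
        _ = ((s ^ 2) * (s ^ 2)⁻¹) * (s⁻¹ * s⁻¹) := by ring
        _ = s⁻¹ * s⁻¹ := by rw [h3, one_mul]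
    have hv := sLog_eq_v n (m + 2) hν (by omega) (fun _ => (n : ℝ) / 3) (fun _ => w c (m + 2)) (s ^ n)
      (by
        rw [PowerSeries.coeff_zero_eq_constantCoeff_apply, map_pow, hs0, one_pow])
      (by
        obtain ⟨N, rfl⟩ : ∃ N, n = N + 1 := ⟨n - 1, by omega⟩
        rw [hdpow N, hs2]
        unfold sT
        rw [Fin.sum_univ_three]
        have e2 : sd (s ^ 2) = C ((1 + 1 : ℝ) * (c / 2)) * s := by
          have := hdpow 1
          simpa using this
        rw [e2, hinv]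
        have e3 : (C (((N + 1 : ℕ) : ℝ) / 3) : ℝ⟦X⟧) * (C ((1 + 1 : ℝ) * (c / 2)))
            = C (((N : ℝ) + 1) * c / 3) := by
          rw [← map_mul]
          congr 1
          push_cast
          ring
        have e4 : (C (((N : ℝ) + 1) * (c / 2)) : ℝ⟦X⟧)
            = C (1 / 2) * (C (((N : ℝ) + 1) * c / 3) + C (((N : ℝ) + 1) * c / 3)
              + C (((N : ℝ) + 1) * c / 3)) := by
          rw [← map_add, ← map_add, ← map_mul]
          congr 1
          ring
        rw [e4, ← e3, pow_succ]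
        linear_combination (-(C (1 / 2) * 3 * C (((N + 1 : ℕ) : ℝ) / 3) * C ((1 + 1 : ℝ) * (c / 2))
          * s ^ N * (1 + s * s⁻¹))) * hsi)
    rw [hn2] at hv
    rw [hv, hs, coeff_pow_one_add]
    have hch : (n.choose (m + 2) : ℝ) * ((m + 2).factorial : ℝ) * ((m + 2).factorial : ℝ)
        = (n.factorial : ℝ) := by
      have := Nat.choose_mul_factorial_mul_factorial (n := n) (k := m + 2) (by omega)
      have h5 : n - (m + 2) = m + 2 := by omega
      rw [h5] at this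
      exact_mod_cast this
    have hfac : (n.factorial : ℝ) = n * ((n - 1).factorial : ℝ) := by
      have := Nat.mul_factorial_pred (n := n) (by omega)
      exact_mod_cast this.symm
    have hfac2 : ((m + 2).factorial : ℝ) = ((m : ℝ) + 2) * ((m + 1).factorial : ℝ) := by
      rw [Nat.factorial_succ]
      push_cast
      ring
    have hnc : (n : ℝ) = 2 * ((m : ℝ) + 2) := by
      rw [hν]
      push_cast
      ring
    have hm2 : ((m : ℝ) + 2) ≠ 0 := by positivity
    have hf : ((m + 2 - 1).factorial : ℝ) = ((m + 1).factorial : ℝ) := rfl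
    have key : (n.choose (m + 2) : ℝ) * ((m + 2).factorial : ℝ) * ((m + 1).factorial : ℝ)
        = 2 * ((n - 1).factorial : ℝ) := by
      have h6 : ((m : ℝ) + 2) * ((n.choose (m + 2) : ℝ) * ((m + 2).factorial : ℝ)
          * ((m + 1).factorial : ℝ)) = ((m : ℝ) + 2) * (2 * ((n - 1).factorial : ℝ)) := by
        calc _ = (n.choose (m + 2) : ℝ) * ((m + 2).factorial : ℝ)
              * (((m : ℝ) + 2) * ((m + 1).factorial : ℝ)) := by ring
          _ = (n.factorial : ℝ) := by rw [← hfac2, hch]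
          _ = _ := by rw [hfac, hnc]; ring
      exact mul_left_cancel₀ hm2 h6
    rw [hf]
    have h7 : (2 : ℝ) ^ (m + 2 - 1) * (c / 2) ^ (m + 2) = c ^ (m + 2) / 2 := by
      rw [show m + 2 - 1 = m + 1 by omega, div_pow, pow_succ (2 : ℝ) (m + 1)]
      field_simp
    calc _ = ((2 : ℝ) ^ (m + 2 - 1) * (c / 2) ^ (m + 2)) *
          ((n.choose (m + 2) : ℝ) * ((m + 2).factorial : ℝ) * ((m + 1).factorial : ℝ)) := by ring
      _ = _ := by rw [h7, key]; ring

end Pool.QCurv.Ein
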