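import Pool.Agent.Lib.MP_993073_gt.NatCalc

/-!
# The coordinate matrix of a metric (helper file for MP_993073_gt)

`gMat g e` is smooth and positive definite on the target of a chart `e` of the smooth structure,
and transforms by the Jacobian matrix under a change of charts.
-/

open scoped Manifold ContDiff Topology
open Bundle

noncomputable section

namespace Pool.QCurv

variable {n : ℕ} {M : Type*} [TopologicalSpace M] [ChartedSpace (E n) M]
  [IsManifold (𝓡 n) ∞ M]

/-- the coordinate frame of a chart is smooth -/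
theorem contMDiffOn_frame {e : OpenPartialHomeomorph M (E n)}
    (he : e ∈ IsManifold.maximalAtlas (𝓡 n) ∞ M) (v : E n) :
    ContMDiffOn (𝓡 n) ((𝓡 n).prod 𝓘(ℝ, E n)) ∞
      (fun x : E n => TotalSpace.mk' (E n) (E := fun y : M => TangentSpace (𝓡 n) y) (e.symm x)
        (mfderiv (𝓡 n) (𝓡 n) e.symm x v)) e.target := by
  have h0 : ContMDiffOn (𝓡 n) (𝓡 n) ∞ e.symm e.target :=
    contMDiffOn_symm_of_mem_maximalAtlas he
  have : IsManifold (𝓡 n) 1 M := IsManifold.of_le (n := ∞) (by simp)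
  have h1 := h0.contMDiffOn_tangentMapWithin (m := ∞) (by simp)
    e.open_target.uniqueMDiffOn
  have h2 : ContMDiffOn (𝓡 n) (𝓡 n).tangent ∞
      (fun x : E n => (⟨x, v⟩ : TangentBundle (𝓡 n) (E n))) e.target :=
    contMDiffOn_vectorSpace_iff_contDiffOn.2 contDiffOn_const
  have h3 := h1.comp h2 (fun x hx => hx)
  refine h3.congr ?_
  intro x hx
  simp only [Function.comp, tangentMapWithin]
  rw [mfderivWithin_of_isOpen e.open_target hx]

theorem contDiffOn_gMat (g : RMetric n M) {e : OpenPartialHomeomorph M (E n)}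
    (he : e ∈ IsManifold.maximalAtlas (𝓡 n) ∞ M) (i j : Fin n) :
    ContDiffOn ℝ ∞ (fun x => gMat g e x i j) e.target := by
  rw [← contMDiffOn_iff_contDiffOn]
  have hi := contMDiffOn_frame he (EuclideanSpace.single i 1 : E n)
  have hj := contMDiffOn_frame he (EuclideanSpace.single j 1 : E n)
  have h0 : ContMDiffOn (𝓡 n) (𝓡 n) ∞ e.symm e.target :=
    contMDiffOn_symm_of_mem_maximalAtlas he
  have hg : ContMDiffOn (𝓡 n) ((𝓡 n).prod 𝓘(ℝ, E n →L[ℝ] E n →L[ℝ] ℝ)) ∞
      (fun x : E n => TotalSpace.mk' (E n →L[ℝ] E n →L[ℝ] ℝ)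
        (E := fun y : M => TangentSpace (𝓡 n) y →L[ℝ] TangentSpace (𝓡 n) y →L[ℝ] ℝ) (e.symm x)
        (g.inner (e.symm x))) e.target :=
    g.contMDiff.comp_contMDiffOn h0
  intro x hx
  have h := ContMDiffWithinAt.clm_bundle_apply₂ (F₁ := E n) (F₂ := E n) (F₃ := ℝ)
    (E₃ := Bundle.Trivial M ℝ) (hg x hx) (hi x hx) (hj x hx)
  simp only [contMDiffWithinAt_totalSpace] at h
  exact h.2

theorem eq_sum_single (v : E n) : v = ∑ i, v i • (EuclideanSpace.single i 1 : E n) := by
  ext k
  simp [Finset.sum_apply, Pi.single_apply]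

theorem bilin_expand (D : E n →L[ℝ] E n) (B : E n →L[ℝ] E n →L[ℝ] ℝ) (v w : E n) :
    B (D v) (D w) = ∑ i, ∑ j, v i * B (D (EuclideanSpace.single i 1))
      (D (EuclideanSpace.single j 1)) * w j := by
  have h1 : D v = ∑ i, v i • D (EuclideanSpace.single i 1 : E n) := by
    conv_lhs => rw [eq_sum_single v]
    rw [map_sum]
    simp only [map_smul]
  have h2 : D w = ∑ i, w i • D (EuclideanSpace.single i 1 : E n) := by
    conv_lhs => rw [eq_sum_single w]
    rw [map_sum]
    simp only [map_smul]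
  have h3 : B (D v) (D w) = ∑ i, v i * B (D (EuclideanSpace.single i 1)) (D w) := by
    rw [h1, map_sum]
    simp only [map_smul, FunLike.coe_sum, Finset.sum_apply, FunLike.coe_smul, Pi.smul_apply,
      smul_eq_mul]
  rw [h3]
  apply Finset.sum_congr rfl
  intro i _
  rw [h2, map_sum, Finset.mul_sum]
  apply Finset.sum_congr rfl
  intro j _
  rw [map_smul, smul_eq_mul]
  ring

/-- the coordinate matrix is the matrix of the pulled back quadratic form -/
theorem gMat_quad (g : RMetric n M) (e : OpenPartialHomeomorph M (E n)) (x v w : E n) :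
    g.inner (e.symm x) (mfderiv (𝓡 n) (𝓡 n) e.symm x v) (mfderiv (𝓡 n) (𝓡 n) e.symm x w) =
      ∑ i, ∑ j, v i * gMat g e x i j * w j :=
  bilin_expand (mfderiv (𝓡 n) (𝓡 n) e.symm x) (g.inner (e.symm x)) v w

omit [IsManifold (𝓡 n) ∞ M] in
theorem mdiff_of_mem {e : OpenPartialHomeomorph M (E n)}
    (he : e ∈ IsManifold.maximalAtlas (𝓡 n) ∞ M) : e.MDifferentiable (𝓡 n) (𝓡 n) :=
  ⟨(contMDiffOn_of_mem_maximalAtlas he).mdifferentiableOn (by simp),
    (contMDiffOn_symm_of_mem_maximalAtlas he).mdifferentiableOn (by simp)⟩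

theorem gMat_isSymm (g : RMetric n M) (e : OpenPartialHomeomorph M (E n)) (x : E n) :
    (gMat g e x).IsSymm := by
  ext i j
  simp only [Matrix.transpose_apply, gMat, Matrix.of_apply]
  exact g.symm _ _ _

theorem gMat_posDef (g : RMetric n M) {e : OpenPartialHomeomorph M (E n)}
    (he : e ∈ IsManifold.maximalAtlas (𝓡 n) ∞ M) {x : E n} (hx : x ∈ e.target) :
    (gMat g e x).PosDef := by
  rw [Matrix.posDef_iff_dotProduct_mulVec]
  refine ⟨?_, ?_⟩
  · have := gMat_isSymm g e x
    rw [Matrix.IsHermitian, Matrix.conjTranspose_eq_transpose_of_trivial]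
    exact this
  · intro v hv
    have hw : (WithLp.toLp 2 v : E n) ≠ 0 := by
      intro h; apply hv
      have := congrArg (WithLp.ofLp) h
      simpa using this
    have hinj := (mdiff_of_mem he).symm.mfderiv_injective (x := x) hx
    have hne : mfderiv (𝓡 n) (𝓡 n) e.symm x (WithLp.toLp 2 v : E n) ≠ 0 := by
      intro h; apply hw
      apply hinj
      rw [h]; exact (map_zero _).symm
    have h1 := g.pos _ _ hne
    rw [gMat_quad] at h1
    refine h1.trans_le (le_of_eq ?_)
    rw [dotProduct]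
    apply Finset.sum_congr rfl
    intro i _
    rw [Matrix.mulVec, dotProduct, Finset.mul_sum]
    apply Finset.sum_congr rfl
    intro j _
    simp
    ring

theorem gMat_det_pos (g : RMetric n M) {e : OpenPartialHomeomorph M (E n)}
    (he : e ∈ IsManifold.maximalAtlas (𝓡 n) ∞ M) {x : E n} (hx : x ∈ e.target) :
    0 < (gMat g e x).det := (gMat_posDef g he hx).det_pos

/-! ## change of charts -/

omit [IsManifold (𝓡 n) ∞ M] in
/-- the transition map is smooth -/
theorem contDiffOn_transition {e e' : OpenPartialHomeomorph M (E n)}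
    (he : e ∈ IsManifold.maximalAtlas (𝓡 n) ∞ M) (he' : e' ∈ IsManifold.maximalAtlas (𝓡 n) ∞ M) :
    ContDiffOn ℝ ∞ (e' ∘ e.symm) (e.symm.trans e').source := by
  rw [← contMDiffOn_iff_contDiffOn]
  have h1 : ContMDiffOn (𝓡 n) (𝓡 n) ∞ e' e'.source := contMDiffOn_of_mem_maximalAtlas he'
  have h2 : ContMDiffOn (𝓡 n) (𝓡 n) ∞ e.symm e.target := contMDiffOn_symm_of_mem_maximalAtlas he
  refine h1.comp (h2.mono ?_) ?_
  · intro x hx
    rw [OpenPartialHomeomorph.trans_source] at hx
    exact hx.1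
  · intro x hx
    rw [OpenPartialHomeomorph.trans_source] at hx
    exact hx.2

theorem fderiv_apply_coord {ψ : E n → E n} {x : E n} (hψ : DifferentiableAt ℝ ψ x) (i j : Fin n) :
    (fderiv ℝ ψ x (EuclideanSpace.single j 1)) i = jac ψ x i j := by
  have h := (EuclideanSpace.proj (𝕜 := ℝ) i : E n →L[ℝ] ℝ).hasFDerivAt.comp x hψ.hasFDerivAt
  simp only [jac, Matrix.of_apply, pd]
  have h2 : (fun y => ψ y i) = (EuclideanSpace.proj (𝕜 := ℝ) i : E n →L[ℝ] ℝ) ∘ ψ := rfl
  rw [h2, h.fderiv]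
  rfl

theorem gMat_transition (g : RMetric n M) {e e' : OpenPartialHomeomorph M (E n)}
    (he : e ∈ IsManifold.maximalAtlas (𝓡 n) ∞ M) (he' : e' ∈ IsManifold.maximalAtlas (𝓡 n) ∞ M)
    {x : E n} (hx : x ∈ (e.symm.trans e').source) :
    gMat g e x = (jac (e' ∘ e.symm) x).transpose * gMat g e' (e' (e.symm x)) *
      jac (e' ∘ e.symm) x := by
  have hopen : IsOpen (e.symm.trans e').source := (e.symm.trans e').open_source
  rw [OpenPartialHomeomorph.trans_source] at hx
  have hx1 : x ∈ e.target := hx.1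
  have hx2 : e.symm x ∈ e'.source := hx.2
  have hψ : DifferentiableAt ℝ (e' ∘ e.symm) x := by
    have h := contDiffOn_transition he he'
    refine (h.contDiffAt (hopen.mem_nhds ?_)).differentiableAt (by simp)
    rw [OpenPartialHomeomorph.trans_source]; exact hx
  -- chain rule
  have hD : ∀ v : E n, mfderiv (𝓡 n) (𝓡 n) e.symm x v =
      mfderiv (𝓡 n) (𝓡 n) e'.symm (e' (e.symm x)) (fderiv ℝ (e' ∘ e.symm) x v) := by
    intro v
    have hm1 : MDifferentiableAt (𝓡 n) (𝓡 n) e'.symm (e' (e.symm x)) :=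
      (mdiff_of_mem he').mdifferentiableAt_symm (e'.map_source hx2)
    have hm2 : MDifferentiableAt (𝓡 n) (𝓡 n) (e' ∘ e.symm) x := hψ.mdifferentiableAt
    have h3 := mfderiv_comp x hm1 hm2
    have h4 : (e'.symm ∘ (e' ∘ e.symm)) =ᶠ[nhds x] e.symm := by
      refine Filter.eventuallyEq_of_mem (hopen.mem_nhds (x := x) ?_) ?_
      · rw [OpenPartialHomeomorph.trans_source]; exact hx
      · intro y hy
        rw [OpenPartialHomeomorph.trans_source] at hy
        exact e'.left_inv hy.2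
    rw [h4.mfderiv_eq, mfderiv_eq_fderiv] at h3
    rw [h3]
    rfl
  ext i j
  have h5 : gMat g e x i j = g.inner (e.symm x)
    (mfderiv (𝓡 n) (𝓡 n) e'.symm (e' (e.symm x)) (fderiv ℝ (e' ∘ e.symm) x
      (EuclideanSpace.single i 1)))
    (mfderiv (𝓡 n) (𝓡 n) e'.symm (e' (e.symm x)) (fderiv ℝ (e' ∘ e.symm) x
      (EuclideanSpace.single j 1))) := by
    have h50 : gMat g e x i j = g.inner (e.symm x)
        (mfderiv (𝓡 n) (𝓡 n) e.symm x (EuclideanSpace.single i 1 : E n))
        (mfderiv (𝓡 n) (𝓡 n) e.symm x (EuclideanSpace.single j 1 : E n)) := rfl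
    rw [h50, hD, hD]
  have h6 : ∀ (p q : M) (_ : p = q) (v w : E n), (g.inner p : E n →L[ℝ] E n →L[ℝ] ℝ) v w =
      (g.inner q : E n →L[ℝ] E n →L[ℝ] ℝ) v w := by
    intro p q hpq v w
    rw [hpq]
  have h7 : e.symm x = e'.symm (e' (e.symm x)) := (e'.left_inv hx2).symm
  have h8 : gMat g e x i j = ∑ k, ∑ l, (fderiv ℝ (e' ∘ e.symm) x (EuclideanSpace.single i 1)) k *
      gMat g e' (e' (e.symm x)) k l *
        (fderiv ℝ (e' ∘ e.symm) x (EuclideanSpace.single j 1)) l := by
    rw [← gMat_quad, h5]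
    exact h6 _ _ h7 _ _
  rw [h8]
  simp only [fderiv_apply_coord hψ, Matrix.mul_apply, Matrix.transpose_apply, Finset.sum_mul]
  rw [Finset.sum_comm]

end Pool.QCurv
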