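import Pool.Agent.Lib.MP_993073_gt.NatSym

/-!
# Naturality of the Q-curvature under changes of coordinates (helper file for MP_993073_gt)
-/

open scoped Manifold ContDiff Topology PowerSeries Matrix
open PowerSeries (C X coeff)
open Filter

noncomputable section

namespace Pool.QCurv

variable {n : ℕ}

/-- the pull-back of a family of metrics -/
def pull (ψ : E n → E n) (H : E n → Mat n ℝ⟦X⟧) (x : E n) : Mat n ℝ⟦X⟧ :=
  (jacS ψ x)ᵀ * H (ψ x) * jacS ψ x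

/-- pulled back connection matrices -/
def pgam (ψ : E n → E n) (H : E n → Mat n ℝ⟦X⟧) (j : Fin n) (x : E n) : Mat n ℝ⟦X⟧ :=
  ∑ c, jacS ψ x c j • gam H c (ψ x)

section pull

variable {U V : Set (E n)} {ψ : E n → E n} {H : E n → Mat n ℝ⟦X⟧} {x : E n}

theorem SMM_pull (hU : IsOpen U) (hψ : ContDiffOn ℝ ∞ ψ U) (hm : Set.MapsTo ψ U V)
    (hH : SMM V H) : SMM U (pull ψ H) :=
  ((SMM_jacS hU hψ).transpose.mul (hH.comp hψ hm)).mul (SMM_jacS hU hψ)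

theorem coeff_zero_det_pull (hm : Set.MapsTo ψ U V) (h0 : ∀ x ∈ V, coeff 0 (H x).det ≠ 0)
    (hinv : ∀ x ∈ U, (jac ψ x).det ≠ 0) : ∀ x ∈ U, coeff 0 (pull ψ H x).det ≠ 0 := by
  intro x hx
  have h1 := coeff_zero_det_jacS (hinv x hx)
  have h2 := h0 _ (hm hx)
  rw [PowerSeries.coeff_zero_eq_constantCoeff] at *
  rw [pull, Matrix.det_mul, Matrix.det_mul, Matrix.det_transpose, map_mul, map_mul]
  exact mul_ne_zero (mul_ne_zero h1 h2) h1

theorem SymOn_pull (hm : Set.MapsTo ψ U V) (hs : SymOn V H) : SymOn U (pull ψ H) := by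
  intro x hx
  unfold pull Matrix.IsSymm
  rw [Matrix.transpose_mul, Matrix.transpose_mul, Matrix.transpose_transpose, (hs _ (hm hx)).eq,
    mul_assoc]

theorem pdM_pull (hU : IsOpen U) (hV : IsOpen V) (hψ : ContDiffOn ℝ ∞ ψ U)
    (hm : Set.MapsTo ψ U V) (hH : SMM V H) (hx : x ∈ U) (i : Fin n) :
    pdM i (pull ψ H) x = (pdM i (jacS ψ) x)ᵀ * H (ψ x) * jacS ψ x
      + (jacS ψ x)ᵀ * (∑ c, jacS ψ x c i • pdM c H (ψ x)) * jacS ψ x
      + (jacS ψ x)ᵀ * H (ψ x) * pdM i (jacS ψ) x := by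
  have hJ := SMM_jacS hU hψ
  have h1 : pdM i (pull ψ H) x = pdM i (fun y => ((jacS ψ y)ᵀ * H (ψ y)) * jacS ψ y) x := rfl
  rw [h1, pdM_mul hU hx (hJ.transpose.mul (hH.comp hψ hm)) hJ,
    pdM_mul hU hx hJ.transpose (hH.comp hψ hm), pdM_transpose, pdM_comp hU hV hH hψ hm hx]
  noncomm_ring

theorem triple_apply (A B D : Mat n ℝ⟦X⟧) (i j : Fin n) :
    (Aᵀ * B * D) i j = ∑ a, ∑ b, A a i * B a b * D b j := by
  simp only [Matrix.mul_apply, Matrix.transpose_apply, Finset.sum_mul]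
  exact Finset.sum_comm

theorem quad_apply (J : Mat n ℝ⟦X⟧) (T : Fin n → Mat n ℝ⟦X⟧) (i j k : Fin n) :
    (Jᵀ * (∑ c, J c k • T c) * J) i j = ∑ a, ∑ b, ∑ c, J a i * J b j * J c k * T c a b := by
  rw [triple_apply]
  refine Finset.sum_congr rfl fun a _ => Finset.sum_congr rfl fun b _ => ?_
  simp only [Matrix.sum_apply, Matrix.smul_apply, smul_eq_mul, Finset.mul_sum, Finset.sum_mul]
  exact Finset.sum_congr rfl fun c _ => by ring

theorem fst_pull (hU : IsOpen U) (hV : IsOpen V) (hψ : ContDiffOn ℝ ∞ ψ U)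
    (hm : Set.MapsTo ψ U V) (hH : SMM V H) (hs : SymOn V H) (hx : x ∈ U) (j : Fin n) :
    fst (pull ψ H) j x = (jacS ψ x)ᵀ * (∑ c, jacS ψ x c j • fst H c (ψ x)) * jacS ψ x
      + (jacS ψ x)ᵀ * H (ψ x) * pdM j (jacS ψ) x := by
  set J := jacS ψ x with hJ
  set K := fun i => pdM i (jacS ψ) x with hK
  set P := fun i => Jᵀ * H (ψ x) * K i with hP
  set Q := fun i => Jᵀ * (∑ c, J c i • pdM c H (ψ x)) * J with hQ
  have hKs : ∀ i j a, K i a j = K j a i := fun i j a => pdM_jacS_symm hU hψ hx a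
  have hPs : ∀ i j l, P i l j = P j l i := by
    intro i j l
    simp only [hP, triple_apply]
    exact Finset.sum_congr rfl fun a _ => Finset.sum_congr rfl fun b _ => by rw [hKs i j b]
  have hPt : ∀ i, (K i)ᵀ * H (ψ x) * J = (P i)ᵀ := by
    intro i
    simp only [hP, Matrix.transpose_mul, Matrix.transpose_transpose, (hs _ (hm hx)).eq, mul_assoc]
  have hD : ∀ i, pdM i (pull ψ H) x = (P i)ᵀ + Q i + P i := by
    intro i
    rw [pdM_pull hU hV hψ hm hH hx i, ← hPt]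
  have hQs : ∀ i l, Q i j l + Q j i l - Q l i j
      = 2 * (Jᵀ * (∑ c, J c j • fst H c (ψ x)) * J) l i := by
    intro i l
    have e0 : (2 : ℝ⟦X⟧) * C (1 / 2) = 1 := by
      have : (2 : ℝ⟦X⟧) = C 2 := (map_ofNat C 2).symm
      rw [this, ← map_mul]
      norm_num
    have e1 : 2 * (Jᵀ * (∑ c, J c j • fst H c (ψ x)) * J) l i
        = ∑ a, ∑ b, ∑ c, J a l * J b i * J c j * (pdM b H (ψ x) c a + pdM c H (ψ x) b a
          - pdM a H (ψ x) b c) := by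
      rw [quad_apply]
      simp only [Finset.mul_sum, fst, Matrix.of_apply]
      refine Finset.sum_congr rfl fun a _ => Finset.sum_congr rfl fun b _ =>
        Finset.sum_congr rfl fun c _ => ?_
      linear_combination (J a l * J b i * J c j * (pdM b H (ψ x) c a + pdM c H (ψ x) b a
          - pdM a H (ψ x) b c)) * e0
    have e2 : ∀ u v w, Q w u v = ∑ a, ∑ b, ∑ c, J a u * J b v * J c w * pdM c H (ψ x) a b :=
      fun u v w => quad_apply J (fun c => pdM c H (ψ x)) u v w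
    rw [e1, e2, e2, e2,
      ← sum3_cab (fun a b c => J a j * J b l * J c i * pdM c H (ψ x) a b),
      ← sum3_bac (fun a b c => J a i * J b l * J c j * pdM c H (ψ x) a b),
      ← sum3_bca (fun a b c => J a i * J b j * J c l * pdM c H (ψ x) a b)]
    simp only [← Finset.sum_add_distrib, ← Finset.sum_sub_distrib]
    refine Finset.sum_congr rfl fun a _ => Finset.sum_congr rfl fun b _ =>
        Finset.sum_congr rfl fun c _ => ?_
    ring
  ext1 l i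
  have e3 : ((Jᵀ * (∑ c, J c j • fst H c (ψ x)) * J) + P j) l i
      = (Jᵀ * (∑ c, J c j • fst H c (ψ x)) * J) l i + P j l i := rfl
  have e4 : fst (pull ψ H) j x l i = C (1 / 2) * (((P i)ᵀ + Q i + P i) j l
      + ((P j)ᵀ + Q j + P j) i l - ((P l)ᵀ + Q l + P l) i j) := by
    simp only [fst, Matrix.of_apply, hD]
  have e5 : (2 : ℝ⟦X⟧) * C (1 / 2) = 1 := by
    have : (2 : ℝ⟦X⟧) = C 2 := (map_ofNat C 2).symm
    rw [this, ← map_mul]
    norm_num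
  refine e4.trans (Eq.trans ?_ e3.symm)
  simp only [Matrix.add_apply, Matrix.transpose_apply]
  have e6 := hQs i l
  have e7 := hPs i j l
  have e8 := hPs i l j
  have e9 := hPs j l i
  linear_combination (C (1 / 2)) * (e6 + e7 + e8 + e9)
    + ((Jᵀ * (∑ c, J c j • fst H c (ψ x)) * J) l i + P j l i) * e5

theorem gam_pull (hU : IsOpen U) (hV : IsOpen V) (hψ : ContDiffOn ℝ ∞ ψ U)
    (hm : Set.MapsTo ψ U V) (hH : SMM V H) (h0 : ∀ x ∈ V, coeff 0 (H x).det ≠ 0)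
    (hinv : ∀ x ∈ U, (jac ψ x).det ≠ 0) (hs : SymOn V H) (hx : x ∈ U) (j : Fin n) :
    gam (pull ψ H) j x = (jacS ψ x)⁻¹ * pgam ψ H j x * jacS ψ x
      + (jacS ψ x)⁻¹ * pdM j (jacS ψ) x := by
  have hJu : IsUnit (jacS ψ x).det := isUnit_det (coeff_zero_det_jacS (hinv x hx))
  have hHu : IsUnit (H (ψ x)).det := isUnit_det (h0 _ (hm hx))
  have hJt : ((jacS ψ x)ᵀ)⁻¹ * (jacS ψ x)ᵀ = 1 :=
    Matrix.nonsing_inv_mul _ (by rwa [Matrix.det_transpose])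
  have hHi : (H (ψ x))⁻¹ * H (ψ x) = 1 := Matrix.nonsing_inv_mul _ hHu
  have h1 : pgam ψ H j x = (H (ψ x))⁻¹ * ∑ c, jacS ψ x c j • fst H c (ψ x) := by
    simp only [pgam, gam_eq, Finset.mul_sum, Matrix.mul_smul]
  rw [gam_eq, fst_pull hU hV hψ hm hH hs hx j, h1, pull, Matrix.mul_inv_rev, Matrix.mul_inv_rev]
  set J := jacS ψ x
  set S := ∑ c, J c j • fst H c (ψ x)
  calc J⁻¹ * ((H (ψ x))⁻¹ * (Jᵀ)⁻¹) * (Jᵀ * S * J + Jᵀ * H (ψ x) * pdM j (jacS ψ) x)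
      = J⁻¹ * (H (ψ x))⁻¹ * ((Jᵀ)⁻¹ * Jᵀ) * S * J
        + J⁻¹ * ((H (ψ x))⁻¹ * ((Jᵀ)⁻¹ * Jᵀ) * H (ψ x)) * pdM j (jacS ψ) x := by noncomm_ring
    _ = _ := by rw [hJt, mul_one, mul_one, hHi, mul_one]; noncomm_ring

/-! ### Curvature -/

theorem SMM_pgam (hU : IsOpen U) (hV : IsOpen V) (hψ : ContDiffOn ℝ ∞ ψ U)
    (hm : Set.MapsTo ψ U V) (hH : SMM V H) (h0 : ∀ x ∈ V, coeff 0 (H x).det ≠ 0) (j : Fin n) :
    SMM U (pgam ψ H j) :=
  SMM.sum fun c _ => SMM.smul (SMM_jacS hU hψ c j) ((SMM_gam hV hH h0 c).comp hψ hm)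

theorem pdM_pgam (hU : IsOpen U) (hV : IsOpen V) (hψ : ContDiffOn ℝ ∞ ψ U)
    (hm : Set.MapsTo ψ U V) (hH : SMM V H) (h0 : ∀ x ∈ V, coeff 0 (H x).det ≠ 0) (hx : x ∈ U)
    (i j : Fin n) :
    pdM i (pgam ψ H j) x = ∑ c, pdM i (jacS ψ) x c j • gam H c (ψ x)
      + ∑ c, ∑ b, (jacS ψ x b i * jacS ψ x c j) • pdM b (gam H c) (ψ x) := by
  have hJ := SMM_jacS hU hψ
  unfold pgam
  rw [pdM_sum hU hx _ fun c _ => SMM.smul (hJ c j) ((SMM_gam hV hH h0 c).comp hψ hm),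
    ← Finset.sum_add_distrib]
  refine Finset.sum_congr rfl fun c _ => ?_
  rw [pdM_smul hU hx (hJ c j) ((SMM_gam hV hH h0 c).comp hψ hm),
    pdM_comp hU hV (SMM_gam hV hH h0 c) hψ hm hx, Finset.smul_sum]
  refine congrArg₂ _ rfl (Finset.sum_congr rfl fun b _ => ?_)
  rw [smul_smul, mul_comm]

theorem Rm_pull (hU : IsOpen U) (hV : IsOpen V) (hψ : ContDiffOn ℝ ∞ ψ U)
    (hm : Set.MapsTo ψ U V) (hH : SMM V H) (h0 : ∀ x ∈ V, coeff 0 (H x).det ≠ 0)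
    (hinv : ∀ x ∈ U, (jac ψ x).det ≠ 0) (hs : SymOn V H) (hx : x ∈ U) (i j : Fin n) :
    Rm (pull ψ H) i j x = (jacS ψ x)⁻¹ *
      (∑ a, ∑ b, (jacS ψ x a i * jacS ψ x b j) • Rm H a b (ψ x)) * jacS ψ x := by
  have hJ := SMM_jacS hU hψ
  have hJ0 : ∀ y ∈ U, coeff 0 (jacS ψ y).det ≠ 0 := fun y hy => coeff_zero_det_jacS (hinv y hy)
  have hJu : IsUnit (jacS ψ x).det := isUnit_det (hJ0 x hx)
  have hJP : jacS ψ x * (jacS ψ x)⁻¹ = 1 := Matrix.mul_nonsing_inv _ hJu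
  have hA := fun j => SMM_pgam hU hV hψ hm hH h0 j
  have hd : ∀ i j, pdM i (gam (pull ψ H) j) x
      = -((jacS ψ x)⁻¹ * pdM i (jacS ψ) x * (jacS ψ x)⁻¹) * pgam ψ H j x * jacS ψ x
        + (jacS ψ x)⁻¹ * pdM i (pgam ψ H j) x * jacS ψ x
        + (jacS ψ x)⁻¹ * pgam ψ H j x * pdM i (jacS ψ) x
        + (-((jacS ψ x)⁻¹ * pdM i (jacS ψ) x * (jacS ψ x)⁻¹) * pdM j (jacS ψ) x
        + (jacS ψ x)⁻¹ * pdM i (pdM j (jacS ψ)) x) := by
    intro i j
    rw [pdM_congr_on hU (fun y hy => gam_pull hU hV hψ hm hH h0 hinv hs hy j) hx,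
      pdM_add hU hx (((hJ.inv hJ0).mul (hA j)).mul hJ) ((hJ.inv hJ0).mul (hJ.pdM hU j)),
      pdM_mul hU hx ((hJ.inv hJ0).mul (hA j)) hJ, pdM_mul hU hx (hJ.inv hJ0) (hA j),
      pdM_mul hU hx (hJ.inv hJ0) (hJ.pdM hU j), pdM_inv hU hx hJ hJ0, add_mul]
  have hprod : ∀ i j, gam (pull ψ H) i x * gam (pull ψ H) j x
      = (jacS ψ x)⁻¹ * (pgam ψ H i x * pgam ψ H j x) * jacS ψ x
        + (jacS ψ x)⁻¹ * pgam ψ H i x * pdM j (jacS ψ) x
        + (jacS ψ x)⁻¹ * pdM i (jacS ψ) x * (jacS ψ x)⁻¹ * pgam ψ H j x * jacS ψ x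
        + (jacS ψ x)⁻¹ * pdM i (jacS ψ) x * (jacS ψ x)⁻¹ * pdM j (jacS ψ) x := by
    intro i j
    rw [gam_pull hU hV hψ hm hH h0 hinv hs hx i, gam_pull hU hV hψ hm hH h0 hinv hs hx j]
    set J := jacS ψ x
    set P := J⁻¹
    calc (P * pgam ψ H i x * J + P * pdM i (jacS ψ) x) * (P * pgam ψ H j x * J
          + P * pdM j (jacS ψ) x)
        = P * pgam ψ H i x * (J * P) * pgam ψ H j x * J
          + P * pgam ψ H i x * (J * P) * pdM j (jacS ψ) x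
          + P * pdM i (jacS ψ) x * P * pgam ψ H j x * J
          + P * pdM i (jacS ψ) x * P * pdM j (jacS ψ) x := by noncomm_ring
      _ = _ := by rw [hJP]; noncomm_ring
  have hcomm : pdM i (pdM j (jacS ψ)) x = pdM j (pdM i (jacS ψ)) x := pdM_comm hU hx hJ
  have hR : ∑ a, ∑ b, (jacS ψ x a i * jacS ψ x b j) • Rm H a b (ψ x)
      = pdM i (pgam ψ H j) x - pdM j (pgam ψ H i) x
        + (pgam ψ H i x * pgam ψ H j x - pgam ψ H j x * pgam ψ H i x) := by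
    have e1 : ∑ a, ∑ b, (jacS ψ x a i * jacS ψ x b j) • Rm H a b (ψ x)
        = ∑ a, ∑ b, (jacS ψ x a i * jacS ψ x b j) • pdM a (gam H b) (ψ x)
          - ∑ a, ∑ b, (jacS ψ x a i * jacS ψ x b j) • pdM b (gam H a) (ψ x)
          + (∑ a, ∑ b, (jacS ψ x a i * jacS ψ x b j) • (gam H a (ψ x) * gam H b (ψ x))
          - ∑ a, ∑ b, (jacS ψ x a i * jacS ψ x b j) • (gam H b (ψ x) * gam H a (ψ x))) := by
      simp only [Rm, smul_add, smul_sub, Finset.sum_add_distrib, Finset.sum_sub_distrib]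
    have e2 : ∑ c, ∑ b, (jacS ψ x b i * jacS ψ x c j) • pdM b (gam H c) (ψ x)
        = ∑ a, ∑ b, (jacS ψ x a i * jacS ψ x b j) • pdM a (gam H b) (ψ x) := Finset.sum_comm
    have e3 : ∑ c, ∑ b, (jacS ψ x b j * jacS ψ x c i) • pdM b (gam H c) (ψ x)
        = ∑ a, ∑ b, (jacS ψ x a i * jacS ψ x b j) • pdM b (gam H a) (ψ x) :=
      Finset.sum_congr rfl fun a _ => Finset.sum_congr rfl fun b _ => by rw [mul_comm]
    have e4 : pgam ψ H i x * pgam ψ H j x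
        = ∑ a, ∑ b, (jacS ψ x a i * jacS ψ x b j) • (gam H a (ψ x) * gam H b (ψ x)) := by
      simp only [pgam, Finset.sum_mul_sum, smul_mul_smul_comm]
    have e5 : pgam ψ H j x * pgam ψ H i x
        = ∑ a, ∑ b, (jacS ψ x a i * jacS ψ x b j) • (gam H b (ψ x) * gam H a (ψ x)) := by
      simp only [pgam, Finset.sum_mul_sum, smul_mul_smul_comm]
      rw [Finset.sum_comm]
      exact Finset.sum_congr rfl fun a _ => Finset.sum_congr rfl fun b _ => by rw [mul_comm]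
    have e6 : ∑ c, pdM i (jacS ψ) x c j • gam H c (ψ x)
        = ∑ c, pdM j (jacS ψ) x c i • gam H c (ψ x) :=
      Finset.sum_congr rfl fun c _ => by rw [pdM_jacS_symm hU hψ hx c]
    rw [pdM_pgam hU hV hψ hm hH h0 hx i j, pdM_pgam hU hV hψ hm hH h0 hx j i, e1, e2, e3, e4, e5,
      e6]
    abel
  rw [hR, Rm, hd i j, hd j i, hprod i j, hprod j i, hcomm]
  noncomm_ring

theorem ric_pull (hU : IsOpen U) (hV : IsOpen V) (hψ : ContDiffOn ℝ ∞ ψ U)
    (hm : Set.MapsTo ψ U V) (hH : SMM V H) (h0 : ∀ x ∈ V, coeff 0 (H x).det ≠ 0)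
    (hinv : ∀ x ∈ U, (jac ψ x).det ≠ 0) (hs : SymOn V H) (hx : x ∈ U) :
    ric (pull ψ H) x = (jacS ψ x)ᵀ * ric H (ψ x) * jacS ψ x := by
  have hJu : IsUnit (jacS ψ x).det := isUnit_det (coeff_zero_det_jacS (hinv x hx))
  have hJP : jacS ψ x * (jacS ψ x)⁻¹ = 1 := Matrix.mul_nonsing_inv _ hJu
  ext1 i j
  rw [ric_eq hU (SymOn_pull hm hs) hx, triple_apply]
  set J := jacS ψ x
  have e1 : ∀ k, Rm (pull ψ H) k j x k i = ∑ a, ∑ b, J a k * J b j * (J⁻¹ * Rm H a b (ψ x) * J) k i := by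
    intro k
    rw [Rm_pull hU hV hψ hm hH h0 hinv hs hx]
    simp only [Finset.mul_sum, Finset.sum_mul, Matrix.mul_smul, Matrix.smul_mul, Matrix.sum_apply,
      Matrix.smul_apply, smul_eq_mul]
    rfl
  have e2 : ∀ a b, ∑ k, J a k * (J⁻¹ * Rm H a b (ψ x) * J) k i = ∑ d, Rm H a b (ψ x) a d * J d i := by
    intro a b
    rw [← Matrix.mul_apply, ← Matrix.mul_apply, mul_assoc, ← mul_assoc J, hJP, one_mul]
  calc ∑ k, Rm (pull ψ H) k j x k i
      = ∑ k, ∑ a, ∑ b, J a k * J b j * (J⁻¹ * Rm H a b (ψ x) * J) k i :=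
        Finset.sum_congr rfl fun k _ => e1 k
    _ = ∑ a, ∑ b, ∑ k, J a k * J b j * (J⁻¹ * Rm H a b (ψ x) * J) k i := by
        rw [Finset.sum_comm]
        exact Finset.sum_congr rfl fun a _ => Finset.sum_comm
    _ = ∑ a, ∑ b, J b j * ∑ k, J a k * (J⁻¹ * Rm H a b (ψ x) * J) k i := by
        refine Finset.sum_congr rfl fun a _ => Finset.sum_congr rfl fun b _ => ?_
        rw [Finset.mul_sum]
        exact Finset.sum_congr rfl fun k _ => by ring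
    _ = ∑ a, ∑ b, ∑ d, J d i * Rm H a b (ψ x) a d * J b j := by
        refine Finset.sum_congr rfl fun a _ => Finset.sum_congr rfl fun b _ => ?_
        rw [e2, Finset.mul_sum]
        exact Finset.sum_congr rfl fun k _ => by ring
    _ = ∑ d, ∑ b, ∑ a, J d i * Rm H a b (ψ x) a d * J b j := by
        refine (Finset.sum_congr rfl fun a _ => Finset.sum_comm).trans ?_
        exact Finset.sum_comm.trans (Finset.sum_congr rfl fun d _ => Finset.sum_comm)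
    _ = ∑ d, ∑ b, J d i * ric H (ψ x) d b * J b j := by
        refine Finset.sum_congr rfl fun d _ => Finset.sum_congr rfl fun b _ => ?_
        rw [ric_eq hV hs (hm hx), Finset.mul_sum, Finset.sum_mul]

/-! ### The ambient equation -/

theorem dr_C_mul (c : ℝ) (f : ℝ⟦X⟧) : dr (C c * f) = C c * dr f := by
  have h : C c * f = c • f := by rw [PowerSeries.smul_eq_C_mul]
  have h' : C c * dr f = c • dr f := by rw [PowerSeries.smul_eq_C_mul]
  rw [h, h']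
  exact (PowerSeries.derivative ℝ).map_smul c f

theorem dr_add (f g : ℝ⟦X⟧) : dr (f + g) = dr f + dr g := map_add (PowerSeries.derivative ℝ) f g

theorem dr_sum {ι : Type*} (s : Finset ι) (f : ι → ℝ⟦X⟧) : dr (∑ a ∈ s, f a) = ∑ a ∈ s, dr (f a) :=
  map_sum (PowerSeries.derivative ℝ) f s

theorem map_dr_conj (J : Mat n ℝ) (A : Mat n ℝ⟦X⟧) :
    ((J.map C)ᵀ * A * J.map C).map dr = (J.map C)ᵀ * A.map dr * J.map C := by
  ext1 i j
  simp only [Matrix.map_apply, triple_apply, dr_sum]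
  refine Finset.sum_congr rfl fun a _ => Finset.sum_congr rfl fun b _ => ?_
  have h1 : C (J a i) * A a b * C (J b j) = C (J a i) * (C (J b j) * A a b) := by ring
  rw [h1, dr_C_mul, dr_C_mul]
  ring

theorem map_coeff_conj (J : Mat n ℝ) (A : Mat n ℝ⟦X⟧) (m : ℕ) :
    ((J.map C)ᵀ * A * J.map C).map (coeff m) = Jᵀ * A.map (coeff m) * J := by
  ext1 i j
  have h0 : (Jᵀ * A.map (coeff m) * J) i j = ∑ a, ∑ b, J a i * coeff m (A a b) * J b j := by
    simp only [Matrix.mul_apply, Matrix.transpose_apply, Finset.sum_mul, Matrix.map_apply]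
    exact Finset.sum_comm
  rw [h0]
  simp only [Matrix.map_apply, triple_apply, map_sum]
  refine Finset.sum_congr rfl fun a _ => Finset.sum_congr rfl fun b _ => ?_
  rw [PowerSeries.coeff_mul_C, PowerSeries.coeff_C_mul]

theorem trd_conj {J : Mat n ℝ} (hJ : J.det ≠ 0) (A : Mat n ℝ⟦X⟧) :
    trd ((J.map C)ᵀ * A * J.map C) = trd A := by
  have hJu : IsUnit (J.map (C : ℝ →+* ℝ⟦X⟧)).det := by
    refine isUnit_det ?_
    rw [coeff_zero_det]
    convert hJ using 2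
    ext a b
    simp
  have hJt : (((J.map C)ᵀ)⁻¹ : Mat n ℝ⟦X⟧) * (J.map C)ᵀ = 1 :=
    Matrix.nonsing_inv_mul _ (by rwa [Matrix.det_transpose])
  have hJ1 : (J.map C : Mat n ℝ⟦X⟧) * (J.map C)⁻¹ = 1 := Matrix.mul_nonsing_inv _ hJu
  unfold trd
  rw [map_dr_conj, Matrix.mul_inv_rev, Matrix.mul_inv_rev]
  calc ((J.map C)⁻¹ * (A⁻¹ * ((J.map C)ᵀ)⁻¹) * ((J.map C)ᵀ * A.map dr * J.map C)).trace
      = ((J.map C)⁻¹ * (A⁻¹ * (((J.map C)ᵀ)⁻¹ * (J.map C)ᵀ) * A.map dr * J.map C)).trace := by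
        congr 1
        simp only [mul_assoc]
    _ = ((A⁻¹ * A.map dr * J.map C) * (J.map C)⁻¹).trace := by
        rw [hJt, mul_one, Matrix.trace_mul_comm]
    _ = (A⁻¹ * A.map dr).trace := by rw [mul_assoc, hJ1, mul_one]

theorem amb_pull (hU : IsOpen U) (hV : IsOpen V) (hψ : ContDiffOn ℝ ∞ ψ U)
    (hm : Set.MapsTo ψ U V) (hH : SMM V H) (h0 : ∀ x ∈ V, coeff 0 (H x).det ≠ 0)
    (hinv : ∀ x ∈ U, (jac ψ x).det ≠ 0) (hs : SymOn V H) (hx : x ∈ U) :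
    amb (pull ψ H) x = (jacS ψ x)ᵀ * amb H (ψ x) * jacS ψ x := by
  have hJu : IsUnit (jacS ψ x).det := isUnit_det (coeff_zero_det_jacS (hinv x hx))
  have hJt : ((jacS ψ x)ᵀ)⁻¹ * (jacS ψ x)ᵀ = 1 :=
    Matrix.nonsing_inv_mul _ (by rwa [Matrix.det_transpose])
  have hJ1 : jacS ψ x * (jacS ψ x)⁻¹ = 1 := Matrix.mul_nonsing_inv _ hJu
  have e1 : (pull ψ H x).map dr = (jacS ψ x)ᵀ * (H (ψ x)).map dr * jacS ψ x :=
    map_dr_conj _ _
  have e2 : ((pull ψ H x).map dr).map dr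
      = (jacS ψ x)ᵀ * ((H (ψ x)).map dr).map dr * jacS ψ x := by
    rw [e1]
    exact map_dr_conj _ _
  have e3 : trd (pull ψ H x) = trd (H (ψ x)) := trd_conj (hinv x hx) _
  have e4 : (pull ψ H x).map dr * (pull ψ H x)⁻¹ * (pull ψ H x).map dr
      = (jacS ψ x)ᵀ * ((H (ψ x)).map dr * (H (ψ x))⁻¹ * (H (ψ x)).map dr) * jacS ψ x := by
    rw [e1, pull, Matrix.mul_inv_rev, Matrix.mul_inv_rev]
    set J := jacS ψ x
    set D := (H (ψ x)).map dr
    calc Jᵀ * D * J * (J⁻¹ * ((H (ψ x))⁻¹ * (Jᵀ)⁻¹)) * (Jᵀ * D * J)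
        = Jᵀ * D * (J * J⁻¹) * (H (ψ x))⁻¹ * ((Jᵀ)⁻¹ * Jᵀ) * D * J := by noncomm_ring
      _ = _ := by rw [hJ1, hJt]; noncomm_ring
  unfold amb
  rw [ric_pull hU hV hψ hm hH h0 hinv hs hx, e2, e4, e3, e1, pull]
  simp only [Matrix.mul_add, Matrix.mul_sub, Matrix.add_mul, Matrix.sub_mul, Matrix.mul_smul,
    Matrix.smul_mul]

theorem corr_conj {J : Mat n ℝ} (hJ : J.det ≠ 0) (G F : Mat n ℝ) (m : ℕ) :
    corr m (Jᵀ * G * J) (Jᵀ * F * J) = Jᵀ * corr m G F * J := by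
  have hJu : IsUnit J.det := isUnit_iff_ne_zero.2 hJ
  have hJt : (Jᵀ)⁻¹ * Jᵀ = 1 := Matrix.nonsing_inv_mul _ (by rwa [Matrix.det_transpose])
  have hJ1 : J * J⁻¹ = 1 := Matrix.mul_nonsing_inv _ hJu
  have ht : ((Jᵀ * G * J)⁻¹ * (Jᵀ * F * J)).trace = (G⁻¹ * F).trace := by
    rw [Matrix.mul_inv_rev, Matrix.mul_inv_rev]
    calc (J⁻¹ * (G⁻¹ * (Jᵀ)⁻¹) * (Jᵀ * F * J)).trace
        = (J⁻¹ * (G⁻¹ * ((Jᵀ)⁻¹ * Jᵀ) * F * J)).trace := by
          congr 1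
          simp only [mul_assoc]
      _ = ((G⁻¹ * F * J) * J⁻¹).trace := by rw [hJt, mul_one, Matrix.trace_mul_comm]
      _ = (G⁻¹ * F).trace := by rw [mul_assoc, hJ1, mul_one]
  unfold corr
  rw [ht]
  split_ifs
  · simp only [Matrix.mul_sub, Matrix.sub_mul, Matrix.mul_smul, Matrix.smul_mul, smul_sub]
  · simp only [Matrix.mul_smul, Matrix.smul_mul]

/-- the pull-back of a metric -/
def pullR (ψ : E n → E n) (G : E n → Mat n ℝ) (x : E n) : Mat n ℝ :=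
  (jac ψ x)ᵀ * G (ψ x) * jac ψ x

theorem map_C_conj (J A : Mat n ℝ) :
    (Jᵀ * A * J).map (C : ℝ →+* ℝ⟦X⟧) = (J.map C)ᵀ * A.map C * J.map C := by
  rw [Matrix.map_mul, Matrix.map_mul, Matrix.transpose_map]

theorem fam_pull {G : E n → Mat n ℝ} (hU : IsOpen U) (hV : IsOpen V) (hψ : ContDiffOn ℝ ∞ ψ U)
    (hm : Set.MapsTo ψ U V) (hG : ∀ i j, ContDiffOn ℝ ∞ (fun x => G x i j) V)
    (hsymm : ∀ x ∈ V, (G x).IsSymm) (hdet : ∀ x ∈ V, (G x).det ≠ 0)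
    (hinv : ∀ x ∈ U, (jac ψ x).det ≠ 0) (m : ℕ) :
    ∀ x ∈ U, fam (pullR ψ G) m x = pull ψ (fam G m) x := by
  induction m with
  | zero => exact fun x _ => map_C_conj _ _
  | succ m ih =>
    intro x hx
    have h1 : amb (fam (pullR ψ G) m) x = (jacS ψ x)ᵀ * amb (fam G m) (ψ x) * jacS ψ x := by
      rw [(amb_congr (Filter.eventuallyEq_of_mem (hU.mem_nhds hx) ih)).self_of_nhds]
      exact amb_pull hU hV hψ hm (SMM_fam hV hG hdet m) (coeff_zero_det_fam hdet m) hinv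
        (fam_symm hV hG hdet hsymm m) hx
    have h2 : (amb (fam (pullR ψ G) m) x).map (coeff m)
        = (jac ψ x)ᵀ * (amb (fam G m) (ψ x)).map (coeff m) * jac ψ x := by
      rw [h1]
      exact map_coeff_conj _ _ m
    have h3 : (corr (m + 1) (pullR ψ G x) ((amb (fam (pullR ψ G) m) x).map (coeff m))).map C
        = (jacS ψ x)ᵀ * (corr (m + 1) (G (ψ x)) ((amb (fam G m) (ψ x)).map (coeff m))).map C
          * jacS ψ x := by
      rw [h2, pullR, corr_conj (hinv x hx), map_C_conj]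
      rfl
    have h4 : fam (pullR ψ G) (m + 1) x = fam (pullR ψ G) m x + (X ^ (m + 1) : ℝ⟦X⟧) •
      (corr (m + 1) (pullR ψ G x) ((amb (fam (pullR ψ G) m) x).map (coeff m))).map C := rfl
    have h5 : fam G (m + 1) (ψ x) = fam G m (ψ x) + (X ^ (m + 1) : ℝ⟦X⟧) •
      (corr (m + 1) (G (ψ x)) ((amb (fam G m) (ψ x)).map (coeff m))).map C := rfl
    rw [h4, h3, ih x hx, pull, pull, h5]
    simp only [Matrix.mul_add, Matrix.add_mul, Matrix.mul_smul, Matrix.smul_mul]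

/-! ### The Laplacian -/

/-- the Hessian -/
def hess (H : E n → Mat n ℝ⟦X⟧) (f : E n → ℝ⟦X⟧) (x : E n) : Mat n ℝ⟦X⟧ :=
  Matrix.of fun i j => pdS i (pdS j f) x - ∑ k, chr H k i j x * pdS k f x

theorem lap_eq (H : E n → Mat n ℝ⟦X⟧) (f : E n → ℝ⟦X⟧) (x : E n) :
    lap H f x = ((H x)⁻¹ * (hess H f x)ᵀ).trace := by
  simp only [lap, hess, Matrix.trace, Matrix.diag_apply, Matrix.mul_apply, Matrix.transpose_apply,
    Matrix.of_apply]

theorem hess_pull (hU : IsOpen U) (hV : IsOpen V) (hψ : ContDiffOn ℝ ∞ ψ U)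
    (hm : Set.MapsTo ψ U V) (hH : SMM V H) (h0 : ∀ x ∈ V, coeff 0 (H x).det ≠ 0)
    (hinv : ∀ x ∈ U, (jac ψ x).det ≠ 0) (hs : SymOn V H) {f : E n → ℝ⟦X⟧} (hf : SM V f)
    (hx : x ∈ U) :
    hess (pull ψ H) (fun y => f (ψ y)) x = (jacS ψ x)ᵀ * hess H f (ψ x) * jacS ψ x := by
  have hJ := SMM_jacS hU hψ
  have hJu : IsUnit (jacS ψ x).det := isUnit_det (coeff_zero_det_jacS (hinv x hx))
  have hJ1 : jacS ψ x * (jacS ψ x)⁻¹ = 1 := Matrix.mul_nonsing_inv _ hJu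
  ext1 i j
  rw [triple_apply]
  have e1 : pdS i (pdS j (fun y => f (ψ y))) x
      = ∑ a, pdM i (jacS ψ) x a j * pdS a f (ψ x)
        + ∑ a, ∑ b, jacS ψ x a i * jacS ψ x b j * pdS a (pdS b f) (ψ x) := by
    rw [pdS_congr_on hU (fun y hy => pdS_comp hU hV hf hψ hm hy) hx,
      pdS_sum hU hx _ fun a _ => (hJ a j).mul ((hf.pdS hV).comp hψ hm)]
    have e2 : ∀ a, pdS i (fun y => jacS ψ y a j * pdS a f (ψ y)) x
        = pdM i (jacS ψ) x a j * pdS a f (ψ x)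
          + ∑ b, jacS ψ x b i * jacS ψ x a j * pdS b (pdS a f) (ψ x) := by
      intro a
      rw [pdS_mul hU hx (hJ a j) ((hf.pdS hV).comp hψ hm), pdS_comp hU hV (hf.pdS hV) hψ hm hx,
        Finset.mul_sum]
      refine congrArg₂ _ rfl (Finset.sum_congr rfl fun b _ => by ring)
    rw [Finset.sum_congr rfl fun a _ => e2 a, Finset.sum_add_distrib]
    exact congrArg₂ _ rfl Finset.sum_comm
  have e3 : ∑ k, chr (pull ψ H) k i j x * pdS k (fun y => f (ψ y)) x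
      = ∑ a, (jacS ψ x * gam (pull ψ H) j x) a i * pdS a f (ψ x) := by
    have e4 : ∀ k, chr (pull ψ H) k i j x * pdS k (fun y => f (ψ y)) x
        = ∑ a, jacS ψ x a k * gam (pull ψ H) j x k i * pdS a f (ψ x) := by
      intro k
      rw [pdS_comp hU hV hf hψ hm hx, Finset.mul_sum]
      exact Finset.sum_congr rfl fun a _ => by
        have : gam (pull ψ H) j x k i = chr (pull ψ H) k i j x := rfl
        rw [this]
        ring
    rw [Finset.sum_congr rfl fun k _ => e4 k, Finset.sum_comm]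
    simp only [Matrix.mul_apply, Finset.sum_mul]
  have e5 : jacS ψ x * gam (pull ψ H) j x = pgam ψ H j x * jacS ψ x + pdM j (jacS ψ) x := by
    rw [gam_pull hU hV hψ hm hH h0 hinv hs hx j]
    set J := jacS ψ x
    calc J * (J⁻¹ * pgam ψ H j x * J + J⁻¹ * pdM j (jacS ψ) x)
        = (J * J⁻¹) * pgam ψ H j x * J + (J * J⁻¹) * pdM j (jacS ψ) x := by noncomm_ring
      _ = _ := by rw [hJ1, one_mul, one_mul]
  have e6 : ∀ a, (pgam ψ H j x * jacS ψ x + pdM j (jacS ψ) x) a i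
      = ∑ b, ∑ c, jacS ψ x b i * jacS ψ x c j * chr H a b c (ψ x) + pdM i (jacS ψ) x a j := by
    intro a
    rw [Matrix.add_apply, pdM_jacS_symm hU hψ hx a (i := j) (j := i), Matrix.mul_apply]
    refine congrArg₂ _ (Finset.sum_congr rfl fun b _ => ?_) rfl
    simp only [pgam, Matrix.sum_apply, Matrix.smul_apply, smul_eq_mul, Finset.sum_mul]
    exact Finset.sum_congr rfl fun c _ => by
      have : gam H c (ψ x) a b = chr H a b c (ψ x) := rfl
      rw [this]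
      ring
  have e7 : hess (pull ψ H) (fun y => f (ψ y)) x i j = pdS i (pdS j (fun y => f (ψ y))) x
      - ∑ k, chr (pull ψ H) k i j x * pdS k (fun y => f (ψ y)) x := rfl
  have e8 : ∀ a b, hess H f (ψ x) a b = pdS a (pdS b f) (ψ x)
      - ∑ c, chr H c a b (ψ x) * pdS c f (ψ x) := fun a b => rfl
  rw [e7, e1, e3, e5]
  simp only [e6, e8, add_mul, Finset.sum_add_distrib, mul_sub, sub_mul, Finset.sum_sub_distrib]
  have e9 : ∑ a, (∑ b, ∑ c, jacS ψ x b i * jacS ψ x c j * chr H a b c (ψ x)) * pdS a f (ψ x)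
      = ∑ a, ∑ b, jacS ψ x a i * (∑ c, chr H c a b (ψ x) * pdS c f (ψ x)) * jacS ψ x b j := by
    simp only [Finset.sum_mul, Finset.mul_sum]
    rw [sum3_bca (fun a b c => jacS ψ x a i * (chr H c a b (ψ x) * pdS c f (ψ x)) * jacS ψ x b j) |>.symm]
    exact Finset.sum_congr rfl fun a _ => Finset.sum_congr rfl fun b _ =>
      Finset.sum_congr rfl fun c _ => by ring
  have e10 : ∑ a, ∑ b, jacS ψ x a i * jacS ψ x b j * pdS a (pdS b f) (ψ x)
      = ∑ a, ∑ b, jacS ψ x a i * pdS a (pdS b f) (ψ x) * jacS ψ x b j :=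
    Finset.sum_congr rfl fun a _ => Finset.sum_congr rfl fun b _ => by ring
  rw [e9, e10]
  ring

theorem lap_pull (hU : IsOpen U) (hV : IsOpen V) (hψ : ContDiffOn ℝ ∞ ψ U)
    (hm : Set.MapsTo ψ U V) (hH : SMM V H) (h0 : ∀ x ∈ V, coeff 0 (H x).det ≠ 0)
    (hinv : ∀ x ∈ U, (jac ψ x).det ≠ 0) (hs : SymOn V H) {f : E n → ℝ⟦X⟧} (hf : SM V f)
    (hx : x ∈ U) :
    lap (pull ψ H) (fun y => f (ψ y)) x = lap H f (ψ x) := by
  have hJu : IsUnit (jacS ψ x).det := isUnit_det (coeff_zero_det_jacS (hinv x hx))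
  have hJt : ((jacS ψ x)ᵀ)⁻¹ * (jacS ψ x)ᵀ = 1 :=
    Matrix.nonsing_inv_mul _ (by rwa [Matrix.det_transpose])
  have hJ1 : jacS ψ x * (jacS ψ x)⁻¹ = 1 := Matrix.mul_nonsing_inv _ hJu
  rw [lap_eq, lap_eq, hess_pull hU hV hψ hm hH h0 hinv hs hf hx, pull, Matrix.mul_inv_rev,
    Matrix.mul_inv_rev, Matrix.transpose_mul, Matrix.transpose_mul, Matrix.transpose_transpose]
  set J := jacS ψ x
  set D := (hess H f (ψ x))ᵀ
  calc (J⁻¹ * ((H (ψ x))⁻¹ * (Jᵀ)⁻¹) * (Jᵀ * (D * J))).trace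
      = (J⁻¹ * ((H (ψ x))⁻¹ * ((Jᵀ)⁻¹ * Jᵀ) * D * J)).trace := by
        congr 1
        simp only [mul_assoc]
    _ = (((H (ψ x))⁻¹ * D * J) * J⁻¹).trace := by rw [hJt, mul_one, Matrix.trace_mul_comm]
    _ = ((H (ψ x))⁻¹ * D).trace := by rw [mul_assoc, hJ1, mul_one]

theorem logIter_pull (hU : IsOpen U) (hV : IsOpen V) (hψ : ContDiffOn ℝ ∞ ψ U)
    (hm : Set.MapsTo ψ U V) (hH : SMM V H) (h0 : ∀ x ∈ V, coeff 0 (H x).det ≠ 0)
    (hinv : ∀ x ∈ U, (jac ψ x).det ≠ 0) (hs : SymOn V H) (k : ℕ) :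
    ∀ x ∈ U, logIter (pull ψ H) k x = logIter H k (ψ x) := by
  have htrd : ∀ x ∈ U, trd (pull ψ H x) = trd (H (ψ x)) := fun x hx => trd_conj (hinv x hx) _
  induction k with
  | zero =>
    intro x hx
    simp only [logIter, htrd x hx]
  | succ k ih =>
    intro x hx
    have h1 : lap (pull ψ H) (logIter (pull ψ H) k) x = lap H (logIter H k) (ψ x) := by
      rw [(lap_congr (x := x) (Filter.EventuallyEq.refl _ (pull ψ H))
        (Filter.eventuallyEq_of_mem (hU.mem_nhds hx) ih)).self_of_nhds]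
      exact lap_pull hU hV hψ hm hH h0 hinv hs (SM_logIter hV hH h0 k) hx
    simp only [logIter, ambLap, htrd x hx, ih x hx, h1]

end pull

/-- naturality of the Q-curvature under coordinate changes -/
theorem Qcurv_pullback {n : ℕ} {U V : Set (E n)} (hU : IsOpen U) (hV : IsOpen V)
    {G : E n → Mat n ℝ} (hG : ∀ i j, ContDiffOn ℝ ∞ (fun x => G x i j) V)
    (hsymm : ∀ x ∈ V, (G x).IsSymm)
    (hdet : ∀ x ∈ V, (G x).det ≠ 0) (ψ : E n → E n) (hψ : ContDiffOn ℝ ∞ ψ U)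
    (hmaps : Set.MapsTo ψ U V)
    (hinv : ∀ x ∈ U, (Matrix.of fun i j => pd j (fun y => ψ y i) x : Mat n ℝ).det ≠ 0)
    {x : E n} (hx : x ∈ U) :
    Qcurv (fun y => (Matrix.of fun i j => pd j (fun z => ψ z i) y : Mat n ℝ).transpose * G (ψ y) *
      (Matrix.of fun i j => pd j (fun z => ψ z i) y : Mat n ℝ)) x = Qcurv G (ψ x) := by
  have h1 : Qcurv (pullR ψ G) x = Qcurv G (ψ x) := by
    unfold Qcurv
    have h2 := fam_pull hU hV hψ hmaps hG hsymm hdet hinv (n / 2)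
    rw [(logIter_congr (Filter.eventuallyEq_of_mem (hU.mem_nhds hx) h2) (n / 2 - 1)).self_of_nhds,
      logIter_pull hU hV hψ hmaps (SMM_fam hV hG hdet _) (coeff_zero_det_fam hdet _) hinv
        (fam_symm hV hG hdet hsymm _) _ x hx]
  exact h1

end Pool.QCurv
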