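import Pool.Agent.Lib.MP_993073_gt.GMat
import Pool.Agent.Lib.MP_993073_gt.Natural

/-!
# The total Q-curvature does not depend on the chart cover (helper file for MP_993073_gt)

Change of variables on the common refinement of two Borel partitions.
-/

open scoped Manifold ContDiff Topology
open Bundle MeasureTheory

noncomputable section

namespace Pool.QCurv

variable {n : ℕ} {M : Type*} [TopologicalSpace M] [ChartedSpace (E n) M]
  [IsManifold (𝓡 n) ∞ M]

/-- naturality of the Q-curvature under coordinate changes, as a statement -/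
def QNatural (n : ℕ) : Prop :=
  ∀ {U V : Set (E n)} (_ : IsOpen U) (_ : IsOpen V)
    {G : E n → Mat n ℝ} (_ : ∀ i j, ContDiffOn ℝ ∞ (fun x => G x i j) V)
    (_ : ∀ x ∈ V, (G x).IsSymm)
    (_ : ∀ x ∈ V, (G x).det ≠ 0) (ψ : E n → E n) (_ : ContDiffOn ℝ ∞ ψ U)
    (_ : Set.MapsTo ψ U V)
    (_ : ∀ x ∈ U, (Matrix.of fun i j => pd j (fun y => ψ y i) x : Mat n ℝ).det ≠ 0)
    {x : E n} (_ : x ∈ U),
    Qcurv (fun y => (Matrix.of fun i j => pd j (fun z => ψ z i) y : Mat n ℝ).transpose * G (ψ y) *
      (Matrix.of fun i j => pd j (fun z => ψ z i) y : Mat n ℝ)) x = Qcurv G (ψ x)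

/-- the density of the total Q-curvature in a chart -/
def dens (g : RMetric n M) (e : OpenPartialHomeomorph M (E n)) (x : E n) : ℝ :=
  Qcurv (gMat g e) x * √(gMat g e x).det

theorem continuousOn_dens (g : RMetric n M) {e : OpenPartialHomeomorph M (E n)}
    (he : e ∈ IsManifold.maximalAtlas (𝓡 n) ∞ M) : ContinuousOn (dens g e) e.target := by
  have h1 : ContDiffOn ℝ ∞ (Qcurv (gMat g e)) e.target :=
    contDiffOn_Qcurv e.open_target (fun i j => contDiffOn_gMat g he i j)
      (fun x hx => (gMat_det_pos g he hx).ne')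
  have h2 : ContDiffOn ℝ ∞ (fun x => (gMat g e x).det) e.target :=
    contDiffOn_det' (fun i j => contDiffOn_gMat g he i j)
  exact h1.continuousOn.mul (Real.continuous_sqrt.comp_continuousOn h2.continuousOn)

theorem integrableOn_dens (g : RMetric n M) {e : OpenPartialHomeomorph M (E n)}
    (he : e ∈ IsManifold.maximalAtlas (𝓡 n) ∞ M) {K : Set M} (hK : IsCompact K)
    (hKe : K ⊆ e.source) : IntegrableOn (dens g e) (e '' K) := by
  have hc : IsCompact (e '' K) := hK.image_of_continuousOn (e.continuousOn.mono hKe)
  apply ContinuousOn.integrableOn_compact hc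
  apply (continuousOn_dens g he).mono
  rintro _ ⟨p, hp, rfl⟩
  exact e.map_source (hKe hp)

omit [IsManifold (𝓡 n) ∞ M] [ChartedSpace (E n) M] in
theorem measurableSet_image_diff {e : OpenPartialHomeomorph M (E n)} {K L : Set M}
    (hK : IsCompact K) (hL : IsClosed L) (hKe : K ⊆ e.source) :
    MeasurableSet (e '' (K \ L)) := by
  have h1 : K \ L = K \ (K ∩ L) := by
    ext p; simp
  rw [h1, (e.injOn.mono hKe).image_sdiff_subset Set.inter_subset_left]
  have c1 : IsCompact (e '' K) := hK.image_of_continuousOn (e.continuousOn.mono hKe)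
  have c2 : IsCompact (e '' (K ∩ L)) := (hK.inter_right hL).image_of_continuousOn
    (e.continuousOn.mono (Set.inter_subset_left.trans hKe))
  exact c1.measurableSet.diff c2.measurableSet

theorem fderiv_det_eq_jac {ψ : E n → E n} {x : E n} (hψ : DifferentiableAt ℝ ψ x) :
    (fderiv ℝ ψ x).det = (jac ψ x).det := by
  rw [ContinuousLinearMap.det, ← LinearMap.det_toMatrix (EuclideanSpace.basisFun (Fin n) ℝ).toBasis]
  congr 1
  ext i j
  rw [LinearMap.toMatrix_apply]
  simp only [OrthonormalBasis.coe_toBasis, EuclideanSpace.basisFun_apply,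
    OrthonormalBasis.coe_toBasis_repr_apply, EuclideanSpace.basisFun_repr]
  exact fderiv_apply_coord hψ i j

section transition

variable {e e' : OpenPartialHomeomorph M (E n)}
  (he : e ∈ IsManifold.maximalAtlas (𝓡 n) ∞ M) (he' : e' ∈ IsManifold.maximalAtlas (𝓡 n) ∞ M)

include he he' in
theorem sqrt_det_transition (g : RMetric n M) {x : E n} (hx : x ∈ (e.symm.trans e').source) :
    √(gMat g e x).det = |(jac (e' ∘ e.symm) x).det| * √(gMat g e' (e' (e.symm x))).det := by
  rw [gMat_transition g he he' hx, Matrix.det_mul, Matrix.det_mul, Matrix.det_transpose]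
  have h : (jac (e' ∘ e.symm) x).det * (gMat g e' (e' (e.symm x))).det *
      (jac (e' ∘ e.symm) x).det = (jac (e' ∘ e.symm) x).det ^ 2 *
        (gMat g e' (e' (e.symm x))).det := by ring
  rw [h, Real.sqrt_mul (sq_nonneg _), Real.sqrt_sq_eq_abs]

include he he' in
theorem jac_det_ne_zero (g : RMetric n M) {x : E n} (hx : x ∈ (e.symm.trans e').source) :
    (jac (e' ∘ e.symm) x).det ≠ 0 := by
  intro h0
  have h1 := sqrt_det_transition he he' g hx
  rw [h0, abs_zero, zero_mul] at h1
  rw [OpenPartialHomeomorph.trans_source] at hx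
  have h2 := gMat_det_pos g he hx.1
  have h3 := Real.sqrt_pos.2 h2
  rw [h1] at h3
  exact lt_irrefl _ h3

include he he' in
theorem Qcurv_transition (hnat : QNatural n) (g : RMetric n M) {x : E n}
    (hx : x ∈ (e.symm.trans e').source) :
    Qcurv (gMat g e) x = Qcurv (gMat g e') (e' (e.symm x)) := by
  have hopen : IsOpen (e.symm.trans e').source := (e.symm.trans e').open_source
  have h1 := hnat hopen e'.open_target (G := gMat g e') (fun i j => contDiffOn_gMat g he' i j)
    (fun y _ => gMat_isSymm g e' y) (fun y hy => (gMat_det_pos g he' hy).ne') (e' ∘ e.symm)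
    (contDiffOn_transition he he') (by
      intro y hy
      rw [OpenPartialHomeomorph.trans_source] at hy
      exact e'.map_source hy.2)
    (fun y hy => jac_det_ne_zero he he' g hy) hx
  rw [Function.comp] at h1
  rw [← h1]
  apply Qcurv_congr
  refine Filter.eventuallyEq_of_mem (hopen.mem_nhds hx) ?_
  intro y hy
  exact gMat_transition g he he' hy

include he he' in
/-- change of variables -/
theorem integral_dens_transition (hnat : QNatural n) (g : RMetric n M) {P : Set M}
    (hP : P ⊆ e.source) (hP' : P ⊆ e'.source) (hmeas : MeasurableSet (e '' P)) :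
    ∫ x in e' '' P, dens g e' x = ∫ x in e '' P, dens g e x := by
  have hsub : e '' P ⊆ (e.symm.trans e').source := by
    rintro _ ⟨p, hp, rfl⟩
    rw [OpenPartialHomeomorph.trans_source]
    refine ⟨e.map_source (hP hp), ?_⟩
    rw [Set.mem_preimage, e.left_inv (hP hp)]
    exact hP' hp
  have himg : e' '' P = (e' ∘ e.symm) '' (e '' P) := by
    rw [Set.image_image]
    apply Set.image_congr
    intro p hp
    rw [Function.comp, e.left_inv (hP hp)]
  have hdiff : ∀ x ∈ e '' P, DifferentiableAt ℝ (e' ∘ e.symm) x := by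
    intro x hx
    exact ((contDiffOn_transition he he').contDiffAt
      ((e.symm.trans e').open_source.mem_nhds (hsub hx))).differentiableAt (by simp)
  rw [himg, integral_image_eq_integral_abs_det_fderiv_smul volume hmeas
    (fun x hx => (hdiff x hx).hasFDerivAt.hasFDerivWithinAt)
    ((e.symm.trans e').injOn.mono hsub)]
  apply setIntegral_congr_fun hmeas
  intro x hx
  simp only [dens, smul_eq_mul]
  rw [fderiv_det_eq_jac (hdiff x hx), Qcurv_transition he he' hnat g (hsub hx),
    sqrt_det_transition he he' g (hsub hx)]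
  simp only [Function.comp]
  ring

end transition

section pieces

variable (c : ChartCover n M)

omit [IsManifold (𝓡 n) ∞ M] in
theorem piece_subset (i : Fin c.size) : c.piece i ⊆ c.K i := Set.sdiff_subset

omit [IsManifold (𝓡 n) ∞ M] in
theorem disjoint_piece {i j : Fin c.size} (h : i ≠ j) : Disjoint (c.piece i) (c.piece j) := by
  rw [Set.disjoint_left]
  intro p hp hp'
  rcases lt_or_gt_of_ne h with h1 | h1
  · apply hp'.2
    simp only [Set.mem_iUnion]
    exact ⟨i, h1, hp.1⟩
  · apply hp.2
    simp only [Set.mem_iUnion]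
    exact ⟨j, h1, hp'.1⟩

omit [IsManifold (𝓡 n) ∞ M] in
theorem exists_mem_piece (p : M) : ∃ i, p ∈ c.piece i := by
  classical
  obtain ⟨i0, hi0⟩ := c.cover p
  have hne : (Finset.univ.filter fun i => p ∈ c.K i).Nonempty :=
    ⟨i0, by simp [hi0]⟩
  refine ⟨(Finset.univ.filter fun i => p ∈ c.K i).min' hne, ?_, ?_⟩
  · have := Finset.min'_mem _ hne
    simpa using this
  · simp only [Set.mem_iUnion, not_exists]
    intro j hj hpj
    have := Finset.min'_le (Finset.univ.filter fun i => p ∈ c.K i) j (by simp [hpj])
    exact absurd hj (not_lt.2 this)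

end pieces

omit [IsManifold (𝓡 n) ∞ M] in
theorem isClosed_lower [T2Space M] (c : ChartCover n M) (i : Fin c.size) :
    IsClosed (⋃ j, ⋃ _ : j < i, c.K j) := by
  apply isClosed_iUnion_of_finite
  intro j
  apply isClosed_iUnion_of_finite
  intro _
  exact (c.isCompact j).isClosed

/-- splitting a piece along another cover -/
theorem integral_piece_split [T2Space M] (g : RMetric n M) (c c' : ChartCover n M)
    (i : Fin c.size) :
    ∫ x in c.chart i '' c.piece i, dens g (c.chart i) x =
      ∑ j, ∫ x in c.chart i '' (c.piece i ∩ c'.piece j), dens g (c.chart i) x := by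
  have hU : c.chart i '' c.piece i = ⋃ j, c.chart i '' (c.piece i ∩ c'.piece j) := by
    rw [← Set.image_iUnion, ← Set.inter_iUnion]
    congr 1
    rw [Set.iUnion_eq_univ_iff.2 (exists_mem_piece c'), Set.inter_univ]
  rw [hU]
  apply integral_iUnion_fintype
  · intro j
    have h1 : c.piece i ∩ c'.piece j = (c.K i ∩ c'.K j) \
        ((⋃ k, ⋃ _ : k < i, c.K k) ∪ ⋃ k, ⋃ _ : k < j, c'.K k) := by
      unfold ChartCover.piece
      ext p
      simp only [Set.mem_inter_iff, Set.mem_sdiff, Set.mem_union]
      tauto
    rw [h1]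
    apply measurableSet_image_diff
    · exact (c.isCompact i).inter (c'.isCompact j)
    · exact (isClosed_lower c i).union (isClosed_lower c' j)
    · exact Set.inter_subset_left.trans (c.subset i)
  · intro j k hjk
    rw [Function.onFun, Set.disjoint_left]
    rintro _ ⟨p, hp, rfl⟩ ⟨q, hq, hpq⟩
    have hps := c.subset i (piece_subset c i hp.1)
    have hqs := c.subset i (piece_subset c i hq.1)
    have : q = p := (c.chart i).injOn hqs hps hpq
    subst this
    exact Set.disjoint_left.1 (disjoint_piece c' hjk) hp.2 hq.2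
  · intro j
    apply (integrableOn_dens g (c.chart_mem i) (c.isCompact i) (c.subset i)).mono_set
    exact Set.image_mono (Set.inter_subset_left.trans (piece_subset c i))

theorem totalQ_indep_of_natural [T2Space M] (hnat : QNatural n) (g : RMetric n M)
    (c c' : ChartCover n M) : totalQ g c = totalQ g c' := by
  have e1 : totalQ g c = ∑ i, ∫ x in c.chart i '' c.piece i, dens g (c.chart i) x := rfl
  have e2 : totalQ g c' = ∑ j, ∫ x in c'.chart j '' c'.piece j, dens g (c'.chart j) x := rfl
  rw [e1, e2]
  simp only [integral_piece_split g c c', integral_piece_split g c' c]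
  rw [Finset.sum_comm]
  apply Finset.sum_congr rfl
  intro j _
  apply Finset.sum_congr rfl
  intro i _
  rw [Set.inter_comm (c'.piece j)]
  symm
  apply integral_dens_transition (c.chart_mem i) (c'.chart_mem j) hnat g
  · exact Set.inter_subset_left.trans ((piece_subset c i).trans (c.subset i))
  · exact Set.inter_subset_right.trans ((piece_subset c' j).trans (c'.subset j))
  · have h1 : c.piece i ∩ c'.piece j = (c.K i ∩ c'.K j) \
        ((⋃ k, ⋃ _ : k < i, c.K k) ∪ ⋃ k, ⋃ _ : k < j, c'.K k) := by
      unfold ChartCover.piece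
      ext p
      simp only [Set.mem_inter_iff, Set.mem_sdiff, Set.mem_union]
      tauto
    rw [h1]
    apply measurableSet_image_diff
    · exact (c.isCompact i).inter (c'.isCompact j)
    · exact (isClosed_lower c i).union (isClosed_lower c' j)
    · exact Set.inter_subset_left.trans (c.subset i)

/-- The total Q-curvature does not depend on the chart cover. -/
theorem totalQ_indep (n : ℕ) (M : Type*) [TopologicalSpace M] [ChartedSpace (E n) M]
    [IsManifold (𝓡 n) ∞ M] [CompactSpace M] [T2Space M] (g : RMetric n M)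
    (c c' : ChartCover n M) : totalQ g c = totalQ g c' :=
  totalQ_indep_of_natural (fun hU hV _ hG hs hd ψ hψ hm hi _ hx =>
    Qcurv_pullback hU hV hG hs hd ψ hψ hm hi hx) g c c'

end Pool.QCurv
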