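import Pool.Agent.Lib.MP_993073_gt.Defs

/-!
# Stretchable necks (helper file for MP_993073_gt)
-/

open scoped Manifold ContDiff Topology PowerSeries
open MeasureTheory

noncomputable section

namespace Pool.QCurv

/-- A stretchable neck inside the open set `W`: metrics `G L` on `V ⊆ W` which only differ inside
the compact set `K`, with total Q-curvature of `K` growing linearly. -/
def HasNeck (n : ℕ) (W : Set (E n)) : Prop :=
  ∃ (V K : Set (E n)) (G : ℝ → E n → Mat n ℝ) (α β : ℝ),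
    IsOpen V ∧ V ⊆ W ∧ IsCompact K ∧ K ⊆ V ∧ 0 < β ∧
    (∀ L, 0 ≤ L → ∀ i j, ContDiffOn ℝ ∞ (fun x => G L x i j) V) ∧
    (∀ L, 0 ≤ L → ∀ x ∈ V, (G L x).PosDef) ∧
    (∀ L, 0 ≤ L → ∀ x ∈ V \ K, G L x = G 0 x) ∧
    ∀ L, 0 ≤ L → ∫ x in K, Qcurv (G L) x * √(G L x).det = α + β * L

end Pool.QCurv
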