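import Pool.Agent.Lib.MP_993073_gt.MfdC
import Pool.Agent.Lib.MP_993073_gt.NeckDefs

/-!
# Total Q-curvature on manifolds (helper file for MP_993073_gt)
-/

set_option linter.unusedSectionVars false

open scoped Manifold ContDiff Topology PowerSeries
open Filter MeasureTheory Bundle

noncomputable section

namespace Pool.QCurv.Mf

section cover

variable (n : ℕ) (M : Type*) [TopologicalSpace M] [ChartedSpace (E n) M] [IsManifold (𝓡 n) ∞ M]

theorem nonempty_chartCover [CompactSpace M] [T2Space M] : Nonempty (ChartCover n M) := by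
  have : LocallyCompactSpace M := ChartedSpace.locallyCompactSpace (E n) M
  have h : ∀ x : M, ∃ K : Set M, IsCompact K ∧ K ∈ 𝓝 x ∧ K ⊆ (chartAt (E n) x).source := by
    intro x
    obtain ⟨K, hK1, hK2, hK3⟩ := local_compact_nhds
      ((chartAt (E n) x).open_source.mem_nhds (mem_chart_source (E n) x))
    exact ⟨K, hK3, hK1, hK2⟩
  choose K hK1 hK2 hK3 using h
  obtain ⟨t, -, ht⟩ := isCompact_univ.elim_nhds_subcover K (fun x _ => hK2 x)
  let f := t.equivFin.symm
  refine ⟨⟨t.card, fun i => chartAt (E n) (f i).1,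
    fun i => IsManifold.chart_mem_maximalAtlas (f i).1,
    fun i => K (f i).1, fun i => hK1 (f i).1, fun i => hK3 (f i).1, fun x => ?_⟩⟩
  have hx := ht (Set.mem_univ x)
  simp only [Set.mem_iUnion] at hx
  obtain ⟨y, hy, hxy⟩ := hx
  refine ⟨f.symm ⟨y, hy⟩, ?_⟩
  simpa using hxy

end cover

variable {n : ℕ} {M : Type*} [TopologicalSpace M] [ChartedSpace (E n) M] [IsManifold (𝓡 n) ∞ M]

theorem exists_good_piece [Nonempty M] (c : ChartCover n M) :
    ∃ i : Fin c.size, (c.piece i).Nonempty ∧ c.piece i = (⋃ j, ⋃ _ : j < i, c.K j)ᶜ := by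
  classical
  let p : ℕ → Prop := fun k => ∀ x : M, ∃ j : Fin c.size, j.val < k ∧ x ∈ c.K j
  have hp : ∃ k, p k := ⟨c.size, fun x => by
    obtain ⟨i, hi⟩ := c.cover x
    exact ⟨i, i.isLt, hi⟩⟩
  have h1 := Nat.find_spec hp
  set k := Nat.find hp with hk
  have hk0 : k ≠ 0 := by
    intro h0
    rw [h0] at h1
    obtain ⟨x⟩ := ‹Nonempty M›
    obtain ⟨j, hj, -⟩ := h1 x
    exact absurd hj (Nat.not_lt_zero _)
  have h2 : ¬ p (k - 1) := Nat.find_min hp (by omega)
  have hksize : k ≤ c.size := Nat.find_min' hp (fun x => by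
    obtain ⟨i, hi⟩ := c.cover x
    exact ⟨i, i.isLt, hi⟩)
  refine ⟨⟨k - 1, by omega⟩, ?_, ?_⟩
  · have h3 : ∃ x : M, ∀ j : Fin c.size, j.val < k - 1 → x ∉ c.K j := by
      by_contra hcon
      apply h2
      intro x
      by_contra h4
      apply hcon
      exact ⟨x, fun j hj hx => h4 ⟨j, hj, hx⟩⟩
    obtain ⟨x, hx⟩ := h3
    refine ⟨x, ?_, ?_⟩
    · obtain ⟨j, hj, hxj⟩ := h1 x
      have : j.val = k - 1 := by
        by_contra hne
        exact hx j (by omega) hxj
      have : j = ⟨k - 1, by omega⟩ := Fin.ext this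
      rw [← this]
      exact hxj
    · simp only [Set.mem_iUnion, not_exists]
      intro j hj
      exact hx j (by simpa [Fin.lt_def] using hj)
  · unfold ChartCover.piece
    ext x
    simp only [Set.mem_sdiff, Set.mem_compl_iff, and_iff_right_iff_imp, Set.mem_iUnion, not_exists]
    intro hx
    obtain ⟨j, hj, hxj⟩ := h1 x
    have : j.val = k - 1 := by
      by_contra hne
      exact hx j (by rw [Fin.lt_def]; show j.val < k - 1; omega) hxj
    have : j = ⟨k - 1, by omega⟩ := Fin.ext this
    rw [← this]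
    exact hxj


/-- the integrand of the total Q-curvature in the chart `e` -/
def qd (g : RMetric n M) (e : OpenPartialHomeomorph M (E n)) (x : E n) : ℝ :=
  Qcurv (gMat g e) x * √(gMat g e x).det

theorem continuousOn_qd (g : RMetric n M) {e : OpenPartialHomeomorph M (E n)}
    (he : e ∈ IsManifold.maximalAtlas (𝓡 n) ∞ M) : ContinuousOn (qd g e) e.target :=
  (contDiffOn_Qcurv e.open_target (contDiffOn_gMat g he)
    (fun _ hx => (gMat_posDef g he hx).det_pos.ne')).continuousOn.mul
    ((contDiffOn_det' (contDiffOn_gMat g he)).continuousOn.sqrt)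

theorem qd_congr {g g' : RMetric n M} {e : OpenPartialHomeomorph M (E n)} {x : E n}
    (h : gMat g e =ᶠ[𝓝 x] gMat g' e) : qd g e x = qd g' e x := by
  unfold qd
  rw [Qcurv_congr h, h.self_of_nhds]

theorem totalQ_eq (g : RMetric n M) (c : ChartCover n M) :
    totalQ g c = ∑ i, ∫ x in c.chart i '' c.piece i, qd g (c.chart i) x := rfl

theorem isClosed_before [T2Space M] (c : ChartCover n M) (i : Fin c.size) :
    IsClosed (⋃ j, ⋃ _ : j < i, c.K j) :=
  isClosed_iUnion_of_finite fun j => isClosed_iUnion_of_finite fun _ => (c.isCompact j).isClosed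

theorem piece_subset (c : ChartCover n M) (i : Fin c.size) : c.piece i ⊆ c.K i :=
  Set.sdiff_subset

theorem piece_disjoint (c : ChartCover n M) {i j : Fin c.size} (h : i ≠ j) {y : M}
    (hi : y ∈ c.piece i) : y ∉ c.piece j := by
  intro hj
  rcases lt_or_gt_of_ne h with h | h
  · exact hj.2 (Set.mem_iUnion₂.2 ⟨i, h, hi.1⟩)
  · exact hi.2 (Set.mem_iUnion₂.2 ⟨j, h, hj.1⟩)

theorem compact_image (c : ChartCover n M) (i : Fin c.size) : IsCompact (c.chart i '' c.K i) :=
  (c.isCompact i).image_of_continuousOn ((c.chart i).continuousOn.mono (c.subset i))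

theorem image_subset_target (c : ChartCover n M) (i : Fin c.size) :
    c.chart i '' c.K i ⊆ (c.chart i).target := by
  rintro _ ⟨y, hy, rfl⟩
  exact (c.chart i).map_source (c.subset i hy)

theorem measurable_piece [T2Space M] (c : ChartCover n M) (i : Fin c.size) :
    MeasurableSet (c.chart i '' c.piece i) := by
  have h1 : c.chart i '' c.piece i = c.chart i '' c.K i \
      c.chart i '' (c.K i ∩ ⋃ j, ⋃ _ : j < i, c.K j) := by
    ext x
    constructor
    · rintro ⟨y, hy, rfl⟩
      refine ⟨⟨y, hy.1, rfl⟩, ?_⟩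
      rintro ⟨z, hz, hzy⟩
      have := (c.chart i).injOn (c.subset i hz.1) (c.subset i hy.1) hzy
      exact hy.2 (this ▸ hz.2)
    · rintro ⟨⟨y, hy, rfl⟩, h2⟩
      exact ⟨y, ⟨hy, fun h => h2 ⟨y, ⟨hy, h⟩, rfl⟩⟩, rfl⟩
  rw [h1]
  refine (compact_image c i).measurableSet.diff (IsCompact.measurableSet ?_)
  exact ((c.isCompact i).inter_right (isClosed_before c i)).image_of_continuousOn
    ((c.chart i).continuousOn.mono (Set.inter_subset_left.trans (c.subset i)))

theorem integrableOn_qd (g : RMetric n M) (c : ChartCover n M) (i : Fin c.size) :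
    IntegrableOn (qd g (c.chart i)) (c.chart i '' c.K i) :=
  ((continuousOn_qd g (c.chart_mem i)).mono (image_subset_target c i)).integrableOn_compact
    (compact_image c i)

theorem unbounded_of_neck [CompactSpace M] [T2Space M] [Nonempty M]
    (hneck : ∀ W : Set (E n), IsOpen W → W.Nonempty → HasNeck n W) (c : ChartCover n M) :
    ∃ g : ℕ → RMetric n M, Tendsto (fun k => totalQ (g k) c) atTop atTop := by
  obtain ⟨i, hne, hpiece⟩ := exists_good_piece c
  set e := c.chart i with he_def
  have he : e ∈ IsManifold.maximalAtlas (𝓡 n) ∞ M := c.chart_mem i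
  have hOopen : IsOpen (c.piece i) := by
    rw [hpiece]
    exact (isClosed_before c i).isOpen_compl
  have hOsrc : c.piece i ⊆ e.source := (piece_subset c i).trans (c.subset i)
  have hWopen : IsOpen (e '' c.piece i) := e.isOpen_image_of_subset_source hOopen hOsrc
  obtain ⟨V, K, G, α, β, hV, hVW, hK, hKV, hβ, hsm, hpos, hoff, hint⟩ :=
    hneck (e '' c.piece i) hWopen (hne.image e)
  have hWt : e '' c.piece i ⊆ e.target := by
    rintro _ ⟨y, hy, rfl⟩
    exact e.map_source (hOsrc hy)
  have hVt : V ⊆ e.target := hVW.trans hWt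
  obtain ⟨K', hK', hKK', hK'V⟩ := exists_compact_between hK hV hKV
  obtain ⟨g0, hg0⟩ := exists_metric_extending he hV hVt hK' hK'V (hsm 0 le_rfl) (hpos 0 le_rfl)
  have hex : ∀ k : ℕ, ∃ g1 : RMetric n M,
      (∀ y ∈ e.symm '' interior K', g1.inner y = pull e (G k) y) ∧
      ∀ y, y ∉ e.symm '' K → g1.inner y = g0.inner y := fun k =>
    exists_glued he hV hVt hK hKK' hK'V hg0 (hsm k (Nat.cast_nonneg k)) (hpos k (Nat.cast_nonneg k))
      (hoff k (Nat.cast_nonneg k))
  choose g hg1 hg2 using hex
  refine ⟨g, ?_⟩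
  have hKM : IsClosed (e.symm '' K) :=
    (hK.image_of_continuousOn (e.continuousOn_symm.mono (hKV.trans hVt))).isClosed
  have hKMO : e.symm '' K ⊆ c.piece i := by
    rintro _ ⟨z, hz, rfl⟩
    obtain ⟨y, hy, hyz⟩ := hVW (hKV hz)
    rw [← hyz, e.left_inv (hOsrc hy)]
    exact hy
  -- the other pieces
  have hother : ∀ k : ℕ, ∀ j ∈ Finset.univ.erase i,
      ∫ x in c.chart j '' c.piece j, qd (g k) (c.chart j) x
        = ∫ x in c.chart j '' c.piece j, qd g0 (c.chart j) x := by
    intro k j hj
    rw [Finset.mem_erase] at hj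
    refine setIntegral_congr_fun (measurable_piece c j) ?_
    rintro _ ⟨y, hy, rfl⟩
    have hys : y ∈ (c.chart j).source := c.subset j hy.1
    refine qd_congr (gMat_congr hKM (hg2 k) ((c.chart j).map_source hys) ?_)
    rw [(c.chart j).left_inv hys]
    intro h
    exact piece_disjoint c hj.1 hy (hKMO h)
  -- the neck piece
  have hmain : ∀ k : ℕ, ∫ x in e '' c.piece i, qd (g k) e x
      = (α + β * k) + ∫ x in e '' c.piece i \ K, qd g0 e x := by
    intro k
    have hint1 : IntegrableOn (qd (g k) e) (e '' c.piece i) :=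
      (integrableOn_qd (g k) c i).mono_set (Set.image_mono (piece_subset c i))
    rw [← integral_inter_add_sdiff hK.measurableSet hint1]
    congr 1
    · rw [Set.inter_eq_self_of_subset_right (hKV.trans hVW), ← hint k (Nat.cast_nonneg k)]
      refine setIntegral_congr_fun hK.measurableSet fun x hx => ?_
      have hev : gMat (g k) e =ᶠ[𝓝 x] G k := by
        filter_upwards [isOpen_interior.mem_nhds (hKK' hx)] with z hz
        exact gMat_of_pull he (hVt (hK'V (interior_subset hz))) (hg1 k _ ⟨z, hz, rfl⟩)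
      show Qcurv (gMat (g k) e) x * √(gMat (g k) e x).det = _
      rw [Qcurv_congr hev, hev.self_of_nhds]
    · refine setIntegral_congr_fun ((measurable_piece c i).diff hK.measurableSet) ?_
      intro x hx
      refine qd_congr (gMat_congr hKM (hg2 k) (hWt hx.1) ?_)
      rintro ⟨z, hz, hzx⟩
      have : z = x := e.symm.injOn (hVt (hKV hz)) (hWt hx.1) hzx
      exact hx.2 (this ▸ hz)
  have htot : ∀ k : ℕ, totalQ (g k) c
      = β * k + (α + (∫ x in e '' c.piece i \ K, qd g0 e x)
        + ∑ j ∈ Finset.univ.erase i, ∫ x in c.chart j '' c.piece j, qd g0 (c.chart j) x) := by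
    intro k
    rw [totalQ_eq, ← Finset.add_sum_erase _ _ (Finset.mem_univ i),
      Finset.sum_congr rfl (hother k)]
    have := hmain k
    rw [← he_def, this]
    ring
  simp only [htot]
  exact tendsto_atTop_add_const_right _ _ (tendsto_natCast_atTop_atTop.const_mul_atTop hβ)

end Pool.QCurv.Mf
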