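import Pool.Agent.Lib.MP_993073_gt.Smooth
import Pool.Agent.Lib.MP_993073_gt.NeckDefs

/-!
# Metrics on manifolds in charts (helper file for MP_993073_gt)
-/

open scoped Manifold ContDiff Topology PowerSeries
open Filter MeasureTheory Bundle

noncomputable section

namespace Pool.QCurv.Mf

variable {n : ℕ} {M : Type*} [TopologicalSpace M] [ChartedSpace (E n) M] [IsManifold (𝓡 n) ∞ M]

/-- the elementary bilinear forms `(v, w) ↦ v i * w j` -/
def bas (i j : Fin n) : E n →L[ℝ] E n →L[ℝ] ℝ :=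
  ContinuousLinearMap.smulRight (EuclideanSpace.proj i : E n →L[ℝ] ℝ) (EuclideanSpace.proj j : E n →L[ℝ] ℝ)

theorem bas_apply (i j : Fin n) (v w : E n) : bas i j v w = v i * w j := by
  simp [bas]

theorem bilin_expand (T : E n →L[ℝ] E n →L[ℝ] ℝ) :
    T = ∑ i, ∑ j, T (EuclideanSpace.single i 1) (EuclideanSpace.single j 1) • bas i j := by
  ext v w
  have hv : ∀ v : E n, v = ∑ i, v i • (EuclideanSpace.single i 1 : E n) := by
    intro v
    ext k
    simp [Pi.single_apply]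
  conv_lhs => rw [hv v, hv w]
  simp only [map_sum, map_smul, sum_apply, smul_apply, smul_eq_mul, bas_apply, Finset.mul_sum]
  rw [Finset.sum_comm]
  refine Finset.sum_congr rfl fun i _ => Finset.sum_congr rfl fun j _ => by ring

theorem inCoord_eq (x0 x : M) (φ : TangentSpace (𝓡 n) x →L[ℝ] TangentSpace (𝓡 n) x →L[ℝ] ℝ)
    (v w : E n) (hx : x ∈ (trivializationAt (E n) (TangentSpace (𝓡 n)) x0).baseSet) :
    (ContinuousLinearMap.inCoordinates (E n) (TangentSpace (𝓡 n) : M → Type _) (E n →L[ℝ] ℝ)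
      (fun y : M => TangentSpace (𝓡 n) y →L[ℝ] (Bundle.Trivial M ℝ) y) x0 x x0 x φ) v w
      = φ ((trivializationAt (E n) (TangentSpace (𝓡 n)) x0).symmL ℝ x v)
        ((trivializationAt (E n) (TangentSpace (𝓡 n)) x0).symmL ℝ x w) := by
  have hx2 : x ∈ (trivializationAt (E n →L[ℝ] ℝ)
      (fun y : M => TangentSpace (𝓡 n) y →L[ℝ] (Bundle.Trivial M ℝ) y) x0).baseSet :=
    ⟨hx, Set.mem_univ _⟩
  simp only [ContinuousLinearMap.inCoordinates, ContinuousLinearMap.comp_apply,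
    Trivialization.continuousLinearMapAt_apply]
  rw [Trivialization.coe_linearMapAt_of_mem _ hx2]
  simp [hom_trivializationAt_apply, ContinuousLinearMap.inCoordinates]
  


/-- A field of bilinear forms is smooth if its values on the local frames are. -/
theorem contMDiffAt_form {φ : ∀ x : M, TangentSpace (𝓡 n) x →L[ℝ] TangentSpace (𝓡 n) x →L[ℝ] ℝ}
    {x0 : M}
    (h : ∀ v w : E n, ContMDiffAt (𝓡 n) 𝓘(ℝ) ∞ (fun x => φ x
      ((trivializationAt (E n) (TangentSpace (𝓡 n)) x0).symmL ℝ x v)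
      ((trivializationAt (E n) (TangentSpace (𝓡 n)) x0).symmL ℝ x w)) x0) :
    ContMDiffAt (𝓡 n) ((𝓡 n).prod 𝓘(ℝ, E n →L[ℝ] E n →L[ℝ] ℝ)) ∞
      (fun x => TotalSpace.mk' (E n →L[ℝ] E n →L[ℝ] ℝ) x (φ x)) x0 := by
  rw [contMDiffAt_hom_bundle]
  refine ⟨contMDiffAt_id, ?_⟩
  have hb : ∀ᶠ x in 𝓝 x0, x ∈ (trivializationAt (E n) (TangentSpace (𝓡 n)) x0).baseSet :=
    (trivializationAt (E n) (TangentSpace (𝓡 n)) x0).open_baseSet.mem_nhds
      (FiberBundle.mem_baseSet_trivializationAt' x0)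
  have h1 : ContMDiffAt (𝓡 n) 𝓘(ℝ, E n →L[ℝ] E n →L[ℝ] ℝ) ∞
      (fun x => ∑ i, ∑ j, (φ x
      ((trivializationAt (E n) (TangentSpace (𝓡 n)) x0).symmL ℝ x (EuclideanSpace.single i 1))
      ((trivializationAt (E n) (TangentSpace (𝓡 n)) x0).symmL ℝ x (EuclideanSpace.single j 1)))
      • (bas i j : E n →L[ℝ] E n →L[ℝ] ℝ)) x0 := by
    refine ContMDiffAt.sum fun i _ => ContMDiffAt.sum fun j _ => ?_
    exact (h _ _).smul contMDiffAt_const
  refine h1.congr_of_eventuallyEq ?_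
  filter_upwards [hb] with x hx
  rw [bilin_expand (ContinuousLinearMap.inCoordinates (E n) (TangentSpace (𝓡 n) : M → Type _)
    (E n →L[ℝ] ℝ)
      (fun y : M => TangentSpace (𝓡 n) y →L[ℝ] (Bundle.Trivial M ℝ) y) x0 x x0 x (φ x))]
  simp only [inCoord_eq x0 x (φ x) _ _ hx]

/-- the derivative of the coordinate map `e` -/
def dco (e : OpenPartialHomeomorph M (E n)) (x : M) : TangentSpace (𝓡 n) x →L[ℝ] E n :=
  mfderiv (𝓡 n) (𝓡 n) e x

/-- the differential of the `i`-th coordinate of `e` -/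
def dcoi (e : OpenPartialHomeomorph M (E n)) (i : Fin n) (x : M) : TangentSpace (𝓡 n) x →L[ℝ] ℝ :=
  (EuclideanSpace.proj i : E n →L[ℝ] ℝ).comp (dco e x)

omit [IsManifold (𝓡 n) ∞ M] in
theorem dcoi_apply (e : OpenPartialHomeomorph M (E n)) (i : Fin n) (x : M)
    (v : TangentSpace (𝓡 n) x) : dcoi e i x v = (dco e x v) i := rfl

/-- The matrix `G` at `e x`, pulled back to the tangent space at `x` by the derivative of `e`. -/
def pull (e : OpenPartialHomeomorph M (E n)) (G : E n → Mat n ℝ) (x : M) :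
    TangentSpace (𝓡 n) x →L[ℝ] TangentSpace (𝓡 n) x →L[ℝ] ℝ :=
  ∑ i, ∑ j, G (e x) i j • (dcoi e i x).smulRight (dcoi e j x)

omit [IsManifold (𝓡 n) ∞ M] in
theorem pull_apply (e : OpenPartialHomeomorph M (E n)) (G : E n → Mat n ℝ) (x : M)
    (v w : TangentSpace (𝓡 n) x) :
    pull e G x v w = ∑ i, ∑ j, G (e x) i j * ((dco e x v) i * (dco e x w) j) := by
  simp only [pull, sum_apply, smul_apply, ContinuousLinearMap.smulRight_apply, smul_eq_mul,
    dcoi_apply]

/-- smoothness of `dco e x` applied to a local frame -/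
theorem contMDiffAt_dco {e : OpenPartialHomeomorph M (E n)}
    (he : e ∈ IsManifold.maximalAtlas (𝓡 n) ∞ M) {x0 : M} (hx0 : x0 ∈ e.source) (v : E n) :
    ContMDiffAt (𝓡 n) 𝓘(ℝ, E n) ∞ (fun x => dco e x
      ((trivializationAt (E n) (TangentSpace (𝓡 n)) x0).symmL ℝ x v)) x0 := by
  have he' : ContMDiffAt (𝓡 n) (𝓡 n) ∞ e x0 := contMDiffAt_of_mem_maximalAtlas he hx0
  have : IsManifold (𝓡 n) 1 M := IsManifold.of_le (n := ∞) (by simp)
  have h1 := (ContMDiffAt.mfderiv_const (m := ∞) he' (by simp)).clm_apply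
    (contMDiffAt_const (c := v))
  refine h1.congr_of_eventuallyEq ?_
  refine Filter.Eventually.of_forall fun x => ?_
  simp only [inTangentCoordinates, ContinuousLinearMap.inCoordinates,
    ContinuousLinearMap.comp_apply, id]
  rw [TangentBundle.continuousLinearMapAt_model_space]
  rfl

theorem contMDiffAt_pull {e : OpenPartialHomeomorph M (E n)}
    (he : e ∈ IsManifold.maximalAtlas (𝓡 n) ∞ M) {V : Set (E n)} (hV : IsOpen V)
    {G : E n → Mat n ℝ} (hG : ∀ i j, ContDiffOn ℝ ∞ (fun x => G x i j) V)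
    {x0 : M} (hx0 : x0 ∈ e.source) (hx0V : e x0 ∈ V) :
    ContMDiffAt (𝓡 n) ((𝓡 n).prod 𝓘(ℝ, E n →L[ℝ] E n →L[ℝ] ℝ)) ∞
      (fun x => TotalSpace.mk' (E n →L[ℝ] E n →L[ℝ] ℝ) x (pull e G x)) x0 := by
  refine contMDiffAt_form fun v w => ?_
  simp only [pull_apply]
  have he' : ContMDiffAt (𝓡 n) (𝓡 n) ∞ e x0 := contMDiffAt_of_mem_maximalAtlas he hx0
  have hproj : ∀ (v : E n) (i : Fin n), ContMDiffAt (𝓡 n) 𝓘(ℝ) ∞ (fun x => (dco e x
      ((trivializationAt (E n) (TangentSpace (𝓡 n)) x0).symmL ℝ x v)) i) x0 := by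
    intro v i
    exact ((EuclideanSpace.proj i : E n →L[ℝ] ℝ).contDiff.contMDiff.contMDiffAt).comp x0
      (contMDiffAt_dco he hx0 v)
  refine ContMDiffAt.sum fun i _ => ContMDiffAt.sum fun j _ => ?_
  refine ContMDiffAt.mul ?_ ((hproj v i).mul (hproj w j))
  have h1 : ContMDiffAt 𝓘(ℝ, E n) 𝓘(ℝ) ∞ (fun x => G x i j) (e x0) :=
    ((hG i j).contDiffAt (hV.mem_nhds hx0V)).contMDiffAt
  exact h1.comp x0 he'


/-- the coordinate vector field of the chart `e` in the direction `v`, along `e.symm` -/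
def cvf (e : OpenPartialHomeomorph M (E n)) (v : E n) (x : E n) :
    TangentSpace (𝓡 n) (e.symm x) :=
  mfderiv (𝓡 n) (𝓡 n) e.symm x v

theorem contMDiffAt_cvf {e : OpenPartialHomeomorph M (E n)}
    (he : e ∈ IsManifold.maximalAtlas (𝓡 n) ∞ M) {x0 : E n} (hx0 : x0 ∈ e.target) (v : E n) :
    ContMDiffAt (𝓡 n) ((𝓡 n).prod 𝓘(ℝ, E n)) ∞
      (fun x => (⟨e.symm x, cvf e v x⟩ : TotalSpace (E n) (TangentSpace (𝓡 n) : M → Type _))) x0 := by
  have he' : ContMDiffAt (𝓡 n) (𝓡 n) ∞ e.symm x0 := contMDiffAt_symm_of_mem_maximalAtlas he hx0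
  have : IsManifold (𝓡 n) 1 M := IsManifold.of_le (n := ∞) (by simp)
  rw [contMDiffAt_totalSpace]
  refine ⟨he', ?_⟩
  have h1 := (ContMDiffAt.mfderiv_const (m := ∞) he' (by simp)).clm_apply
    (contMDiffAt_const (c := v))
  refine h1.congr_of_eventuallyEq ?_
  have hb : ∀ᶠ x in 𝓝 x0, e.symm x ∈
      (trivializationAt (E n) (TangentSpace (𝓡 n)) (e.symm x0)).baseSet :=
    he'.continuousAt.eventually ((trivializationAt (E n) (TangentSpace (𝓡 n))
      (e.symm x0)).open_baseSet.mem_nhds (FiberBundle.mem_baseSet_trivializationAt' (e.symm x0)))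
  filter_upwards [hb] with x hx
  simp only [inTangentCoordinates, ContinuousLinearMap.inCoordinates,
    ContinuousLinearMap.comp_apply, id]
  rw [TangentBundle.symmL_model_space, Trivialization.continuousLinearMapAt_apply,
    Trivialization.coe_linearMapAt_of_mem _ hx]
  rfl

theorem contDiffOn_gMat (g : RMetric n M) {e : OpenPartialHomeomorph M (E n)}
    (he : e ∈ IsManifold.maximalAtlas (𝓡 n) ∞ M) (i j : Fin n) :
    ContDiffOn ℝ ∞ (fun x => gMat g e x i j) e.target := by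
  intro x hx
  refine ContDiffAt.contDiffWithinAt ?_
  rw [← contMDiffAt_iff_contDiffAt]
  have he' : ContMDiffAt (𝓡 n) (𝓡 n) ∞ e.symm x := contMDiffAt_symm_of_mem_maximalAtlas he hx
  have h2 : ContMDiffAt (𝓡 n) ((𝓡 n).prod 𝓘(ℝ)) ∞
      (fun y => TotalSpace.mk' ℝ (E := Bundle.Trivial M ℝ) (e.symm y)
        (g.inner (e.symm y) (cvf e (EuclideanSpace.single i 1) y)
          (cvf e (EuclideanSpace.single j 1) y))) x := by
    apply ContMDiffAt.clm_bundle_apply₂ (F₁ := E n) (F₂ := E n)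
    · exact ContMDiffAt.comp x g.contMDiff.contMDiffAt he'
    · exact contMDiffAt_cvf he hx _
    · exact contMDiffAt_cvf he hx _
  rw [contMDiffAt_totalSpace] at h2
  exact h2.2

end Pool.QCurv.Mf
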