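import Pool.Agent.Lib.MP_993073_gt.MfdA

/-!
# Positivity of metrics in charts (helper file for MP_993073_gt)
-/

set_option linter.unusedSectionVars false

open scoped Manifold ContDiff Topology PowerSeries
open Filter MeasureTheory Bundle

noncomputable section

namespace Pool.QCurv.Mf

variable {n : ℕ} {M : Type*} [TopologicalSpace M] [ChartedSpace (E n) M] [IsManifold (𝓡 n) ∞ M]

omit [IsManifold (𝓡 n) ∞ M] in
theorem mdiff_of_mem {e : OpenPartialHomeomorph M (E n)}
    (he : e ∈ IsManifold.maximalAtlas (𝓡 n) ∞ M) : e.MDifferentiable (𝓡 n) (𝓡 n) :=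
  ⟨(contMDiffOn_of_mem_maximalAtlas he).mdifferentiableOn (by simp),
    (contMDiffOn_symm_of_mem_maximalAtlas he).mdifferentiableOn (by simp)⟩

theorem dco_cvf {e : OpenPartialHomeomorph M (E n)}
    (he : e ∈ IsManifold.maximalAtlas (𝓡 n) ∞ M) {x : E n} (hx : x ∈ e.target) (v : E n) :
    dco e (e.symm x) (cvf e v x) = v := by
  have := (mdiff_of_mem he).comp_symm_deriv hx
  exact congrArg (fun T : E n →L[ℝ] E n => T v) this

theorem dco_injective {e : OpenPartialHomeomorph M (E n)}
    (he : e ∈ IsManifold.maximalAtlas (𝓡 n) ∞ M) {x : M} (hx : x ∈ e.source) :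
    Function.Injective (dco e x) :=
  (mdiff_of_mem he).mfderiv_injective hx

theorem cvf_ne_zero {e : OpenPartialHomeomorph M (E n)}
    (he : e ∈ IsManifold.maximalAtlas (𝓡 n) ∞ M) {x : E n} (hx : x ∈ e.target) {v : E n}
    (hv : v ≠ 0) : cvf e v x ≠ 0 := by
  intro h
  apply hv
  rw [← dco_cvf he hx v, h, map_zero]

theorem gMat_apply (g : RMetric n M) (e : OpenPartialHomeomorph M (E n)) (x : E n) (i j : Fin n) :
    gMat g e x i j = g.inner (e.symm x) (cvf e (EuclideanSpace.single i 1) x)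
      (cvf e (EuclideanSpace.single j 1) x) := rfl

/-- the derivative of `e.symm` -/
def dsym (e : OpenPartialHomeomorph M (E n)) (x : E n) :
    E n →L[ℝ] TangentSpace (𝓡 n) (e.symm x) := mfderiv (𝓡 n) (𝓡 n) e.symm x

omit [IsManifold (𝓡 n) ∞ M] in
theorem cvf_sum (e : OpenPartialHomeomorph M (E n)) (x : E n) (v : Fin n → ℝ) :
    cvf e (WithLp.toLp 2 v) x = ∑ i, v i • cvf e (EuclideanSpace.single i 1) x := by
  have hv : (WithLp.toLp 2 v : E n) = ∑ i, v i • (EuclideanSpace.single i 1 : E n) := by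
    ext k
    simp [Pi.single_apply]
  rw [hv]
  show dsym e x _ = ∑ i, v i • dsym e x _
  rw [map_sum]
  simp only [map_smul]

theorem gMat_quad (g : RMetric n M) (e : OpenPartialHomeomorph M (E n)) (x : E n)
    (v : Fin n → ℝ) :
    v ⬝ᵥ (gMat g e x).mulVec v = g.inner (e.symm x) (cvf e (WithLp.toLp 2 v) x)
      (cvf e (WithLp.toLp 2 v) x) := by
  rw [cvf_sum]
  simp only [map_sum, map_smul, sum_apply, smul_apply, smul_eq_mul, dotProduct, Matrix.mulVec,
    gMat_apply, Finset.mul_sum]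
  rw [Finset.sum_comm]
  refine Finset.sum_congr rfl fun i _ => Finset.sum_congr rfl fun j _ => by ring

theorem gMat_posDef (g : RMetric n M) {e : OpenPartialHomeomorph M (E n)}
    (he : e ∈ IsManifold.maximalAtlas (𝓡 n) ∞ M) {x : E n} (hx : x ∈ e.target) :
    (gMat g e x).PosDef := by
  refine Matrix.PosDef.of_dotProduct_mulVec_pos ?_ ?_
  · ext i j
    rw [Matrix.conjTranspose_apply, star_trivial, gMat_apply, gMat_apply, g.symm]
  · intro v hv
    rw [star_trivial, gMat_quad]
    refine g.pos _ _ (cvf_ne_zero he hx ?_)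
    intro h
    apply hv
    exact congrArg (WithLp.ofLp) h

theorem pull_cvf {e : OpenPartialHomeomorph M (E n)}
    (he : e ∈ IsManifold.maximalAtlas (𝓡 n) ∞ M) {x : E n} (hx : x ∈ e.target)
    (G : E n → Mat n ℝ) (i j : Fin n) :
    pull e G (e.symm x) (cvf e (EuclideanSpace.single i 1) x) (cvf e (EuclideanSpace.single j 1) x)
      = G x i j := by
  rw [pull_apply, dco_cvf he hx, dco_cvf he hx, e.right_inv hx]
  simp

omit [IsManifold (𝓡 n) ∞ M] in
theorem pull_symm {e : OpenPartialHomeomorph M (E n)} {G : E n → Mat n ℝ} {y : M}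
    (hG : (G (e y)).PosDef) (v w : TangentSpace (𝓡 n) y) : pull e G y v w = pull e G y w v := by
  rw [pull_apply, pull_apply, Finset.sum_comm]
  refine Finset.sum_congr rfl fun i _ => Finset.sum_congr rfl fun j _ => ?_
  have := hG.1.apply i j
  rw [star_trivial] at this
  rw [← this]
  ring

theorem pull_pos {e : OpenPartialHomeomorph M (E n)}
    (he : e ∈ IsManifold.maximalAtlas (𝓡 n) ∞ M) {G : E n → Mat n ℝ} {y : M} (hy : y ∈ e.source)
    (hG : (G (e y)).PosDef) {v : TangentSpace (𝓡 n) y} (hv : v ≠ 0) : 0 < pull e G y v v := by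
  have h1 : dco e y v ≠ 0 := by
    intro h
    apply hv
    apply dco_injective he hy
    rw [h, map_zero]
  have h2 := hG.dotProduct_mulVec_pos (x := (dco e y v).ofLp) (by
    intro h
    apply h1
    ext k
    exact congrFun h k)
  rw [pull_apply]
  simp only [star_trivial, dotProduct, Matrix.mulVec, Finset.mul_sum] at h2
  refine lt_of_lt_of_eq h2 ?_
  refine Finset.sum_congr rfl fun i _ => Finset.sum_congr rfl fun j _ => ?_
  ring

/-- a positive form on a finite dimensional space has bounded unit ball -/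
theorem vonN (T : E n →L[ℝ] E n →L[ℝ] ℝ) (hpos : ∀ v, v ≠ 0 → 0 < T v v) :
    Bornology.IsVonNBounded ℝ {v : E n | T v v < 1} := by
  rw [NormedSpace.isVonNBounded_iff]
  rcases (Metric.sphere (0 : E n) 1).eq_empty_or_nonempty with hemp | hne
  · have hz : ∀ v : E n, v = 0 := by
      intro v
      by_contra hv
      have : (‖v‖⁻¹ • v) ∈ Metric.sphere (0 : E n) 1 := by
        rw [mem_sphere_zero_iff_norm, norm_smul, norm_inv, norm_norm,
          inv_mul_cancel₀ (norm_ne_zero_iff.2 hv)]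
      rw [hemp] at this
      exact this
    exact Bornology.IsBounded.subset (Bornology.isBounded_singleton (x := (0 : E n)))
      (fun v _ => hz v)
  · have hc : Continuous fun v : E n => T v v := by
      exact (T.continuous.clm_apply continuous_id)
    obtain ⟨u, hu, humin⟩ := (isCompact_sphere (0 : E n) 1).exists_isMinOn hne hc.continuousOn
    have hu0 : u ≠ 0 := by
      intro h
      rw [h, mem_sphere_zero_iff_norm, norm_zero] at hu
      exact zero_ne_one hu
    have hm := hpos u hu0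
    refine (Metric.isBounded_closedBall (x := (0 : E n)) (r := (T u u)⁻¹ + 1)).subset ?_
    intro v hv
    rw [Metric.mem_closedBall, dist_zero_right]
    by_cases hv0 : v = 0
    · rw [hv0, norm_zero]
      positivity
    have hvn : 0 < ‖v‖ := norm_pos_iff.2 hv0
    have h1 : (‖v‖⁻¹ • v) ∈ Metric.sphere (0 : E n) 1 := by
      rw [mem_sphere_zero_iff_norm, norm_smul, norm_inv, norm_norm,
        inv_mul_cancel₀ hvn.ne']
    have h2 : T u u ≤ T (‖v‖⁻¹ • v) (‖v‖⁻¹ • v) := humin h1
    have h3 : T (‖v‖⁻¹ • v) (‖v‖⁻¹ • v) = ‖v‖⁻¹ * (‖v‖⁻¹ * T v v) := by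
      simp
    rw [h3] at h2
    have h4 : T u u * ‖v‖ ^ 2 ≤ T v v := by
      have : T u u * ‖v‖ ^ 2 ≤ (‖v‖⁻¹ * (‖v‖⁻¹ * T v v)) * ‖v‖ ^ 2 :=
        mul_le_mul_of_nonneg_right h2 (by positivity)
      have e : (‖v‖⁻¹ * (‖v‖⁻¹ * T v v)) * ‖v‖ ^ 2 = T v v := by
        field_simp
      linarith
    have h5 : T u u * ‖v‖ ^ 2 < 1 := lt_of_le_of_lt h4 hv
    by_contra hcon
    push Not at hcon
    have h6 : T u u * ((T u u)⁻¹ + 1) ^ 2 ≤ T u u * ‖v‖ ^ 2 := by
      gcongr
    have h7 : T u u * ((T u u)⁻¹ + 1) ^ 2 = (T u u)⁻¹ + 2 + T u u := by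
      field_simp
      ring
    have h8 : 0 < (T u u)⁻¹ := inv_pos.2 hm
    linarith

end Pool.QCurv.Mf
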