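import Pool.Agent.Lib.MP_993073_gt.MfdB

/-!
# Gluing metrics (helper file for MP_993073_gt)
-/

set_option linter.unusedSectionVars false

open scoped Manifold ContDiff Topology PowerSeries
open Filter MeasureTheory Bundle

noncomputable section

namespace Pool.QCurv.Mf

variable {n : ℕ} {M : Type*} [TopologicalSpace M] [ChartedSpace (E n) M] [IsManifold (𝓡 n) ∞ M]

/-- build a metric from a smooth field of positive forms -/
def mkMetric (φ : ∀ x : M, TangentSpace (𝓡 n) x →L[ℝ] TangentSpace (𝓡 n) x →L[ℝ] ℝ)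
    (hsymm : ∀ x v w, φ x v w = φ x w v) (hpos : ∀ x v, v ≠ 0 → 0 < φ x v v)
    (hsm : ContMDiff (𝓡 n) ((𝓡 n).prod 𝓘(ℝ, E n →L[ℝ] E n →L[ℝ] ℝ)) ∞
      (fun x => TotalSpace.mk' (E n →L[ℝ] E n →L[ℝ] ℝ) x (φ x))) : RMetric n M where
  inner := φ
  symm := hsymm
  pos := hpos
  isVonNBounded x := vonN (φ x) (hpos x)
  contMDiff := hsm

theorem exists_metric_extending [CompactSpace M] [T2Space M] {e : OpenPartialHomeomorph M (E n)}
    (he : e ∈ IsManifold.maximalAtlas (𝓡 n) ∞ M) {V K' : Set (E n)} (hV : IsOpen V)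
    (hVt : V ⊆ e.target) (hK' : IsCompact K') (hK'V : K' ⊆ V) {G : E n → Mat n ℝ}
    (hG : ∀ i j, ContDiffOn ℝ ∞ (fun x => G x i j) V) (hpos : ∀ x ∈ V, (G x).PosDef) :
    ∃ g : RMetric n M, ∀ y ∈ e.symm '' K', g.inner y = pull e G y := by
  have hKM : IsClosed (e.symm '' K') :=
    (hK'.image_of_continuousOn (e.continuousOn_symm.mono (hK'V.trans hVt))).isClosed
  let t : ∀ y : M, Set (TangentSpace (𝓡 n) y →L[ℝ] TangentSpace (𝓡 n) y →L[ℝ] ℝ) := fun y =>
    {φ | (∀ v w, φ v w = φ w v) ∧ (∀ v, v ≠ 0 → 0 < φ v v) ∧ (y ∈ e.symm '' K' → φ = pull e G y)}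
  have htconv : ∀ y, Convex ℝ (t y) := by
    intro y φ hφ ψ hψ a b ha hb hab
    refine ⟨fun v w => ?_, fun v hv => ?_, fun hy => ?_⟩
    · simp only [add_apply, smul_apply, smul_eq_mul, hφ.1 v w, hψ.1 v w]
    · have h1 := hφ.2.1 v hv
      have h2 := hψ.2.1 v hv
      simp only [add_apply, smul_apply, smul_eq_mul]
      rcases ha.eq_or_lt with h | h
      · have : b = 1 := by linarith
        rw [← h, this]
        simpa using h2
      · have := mul_pos h h1
        have := mul_nonneg hb h2.le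
        linarith
    · rw [hφ.2.2 hy, hψ.2.2 hy]
      ext v w
      simp only [add_apply, smul_apply, smul_eq_mul]
      rw [← add_mul, hab, one_mul]
  obtain ⟨s, hs⟩ := exists_contMDiffSection_forall_mem_convex_of_local (𝓡 n) (n := ⊤)
    (F_fiber := E n →L[ℝ] E n →L[ℝ] ℝ)
    (fun x : M => TangentSpace (𝓡 n) x →L[ℝ] TangentSpace (𝓡 n) x →L[ℝ] ℝ) t htconv (by
      intro x0
      by_cases hx0 : x0 ∈ e.source ∩ e ⁻¹' V
      · refine ⟨e.source ∩ e ⁻¹' V, (e.isOpen_inter_preimage hV).mem_nhds hx0, pull e G, ?_, ?_⟩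
        · intro y hy
          exact (contMDiffAt_pull he hV hG hy.1 hy.2).contMDiffWithinAt
        · intro y hy
          exact ⟨fun v w => pull_symm (hpos _ hy.2) v w, fun v hv => pull_pos he hy.1 (hpos _ hy.2) hv,
            fun _ => rfl⟩
      · have hx0' : x0 ∉ e.symm '' K' := by
          rintro ⟨z, hz, rfl⟩
          apply hx0
          refine ⟨e.map_target (hVt (hK'V hz)), ?_⟩
          rw [Set.mem_preimage, e.right_inv (hVt (hK'V hz))]
          exact hK'V hz
        refine ⟨(chartAt (E n) x0).source ∩ (e.symm '' K')ᶜ,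
          Filter.inter_mem ((chartAt (E n) x0).open_source.mem_nhds (mem_chart_source _ x0))
            (hKM.isOpen_compl.mem_nhds hx0'), pull (chartAt (E n) x0) (fun _ => 1), ?_, ?_⟩
        · intro y hy
          have hone : ∀ i j : Fin n, ContDiffOn ℝ ∞ (fun _ : E n => (1 : Mat n ℝ) i j) Set.univ :=
            fun i j => contDiffOn_const
          exact (contMDiffAt_pull (G := fun _ => 1) (IsManifold.chart_mem_maximalAtlas x0)
            isOpen_univ hone hy.1 (Set.mem_univ _)).contMDiffWithinAt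
        · intro y hy
          exact ⟨fun v w => pull_symm Matrix.PosDef.one v w,
            fun v hv => pull_pos (IsManifold.chart_mem_maximalAtlas x0) hy.1 Matrix.PosDef.one hv,
            fun h => absurd h hy.2⟩)
  exact ⟨mkMetric s (fun x => (hs x).1) (fun x => (hs x).2.1) s.contMDiff, fun y hy => (hs y).2.2 hy⟩


theorem pull_congr {e : OpenPartialHomeomorph M (E n)} {G G' : E n → Mat n ℝ} {y : M}
    (h : G (e y) = G' (e y)) : pull e G y = pull e G' y := by
  unfold pull
  rw [h]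

theorem exists_glued [T2Space M] {e : OpenPartialHomeomorph M (E n)}
    (he : e ∈ IsManifold.maximalAtlas (𝓡 n) ∞ M) {V K K' : Set (E n)} (hV : IsOpen V)
    (hVt : V ⊆ e.target) (hK : IsCompact K) (hKK' : K ⊆ interior K') (hK'V : K' ⊆ V)
    {G0 G1 : E n → Mat n ℝ} {g0 : RMetric n M} (hg0 : ∀ y ∈ e.symm '' K', g0.inner y = pull e G0 y)
    (hG : ∀ i j, ContDiffOn ℝ ∞ (fun x => G1 x i j) V) (hpos : ∀ x ∈ V, (G1 x).PosDef)
    (hoff : ∀ x ∈ V \ K, G1 x = G0 x) :
    ∃ g1 : RMetric n M, (∀ y ∈ e.symm '' interior K', g1.inner y = pull e G1 y) ∧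
      ∀ y, y ∉ e.symm '' K → g1.inner y = g0.inner y := by
  classical
  have hiV : interior K' ⊆ V := interior_subset.trans hK'V
  have hKM : IsClosed (e.symm '' K) :=
    (hK.image_of_continuousOn (e.continuousOn_symm.mono
      (((hKK'.trans interior_subset).trans hK'V).trans hVt))).isClosed
  have hS : IsOpen (e.symm '' interior K') :=
    e.symm.isOpen_image_of_subset_source isOpen_interior (hiV.trans hVt)
  have hSsrc : ∀ y ∈ e.symm '' interior K', y ∈ e.source ∧ e y ∈ V := by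
    rintro _ ⟨z, hz, rfl⟩
    refine ⟨e.map_target (hVt (hiV hz)), ?_⟩
    rw [e.right_inv (hVt (hiV hz))]
    exact hiV hz
  have key : ∀ y, y ∉ e.symm '' K → y ∈ e.symm '' interior K' → pull e G1 y = g0.inner y := by
    rintro _ h1 ⟨z, hz, rfl⟩
    have hzK : z ∉ K := fun h => h1 ⟨z, h, rfl⟩
    rw [hg0 _ ⟨z, interior_subset hz, rfl⟩]
    apply pull_congr
    rw [e.right_inv (hVt (hiV hz))]
    exact hoff z ⟨hiV hz, hzK⟩
  let φ : ∀ y : M, TangentSpace (𝓡 n) y →L[ℝ] TangentSpace (𝓡 n) y →L[ℝ] ℝ := fun y =>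
    if y ∈ e.symm '' interior K' then pull e G1 y else g0.inner y
  have hφ1 : ∀ y ∈ e.symm '' interior K', φ y = pull e G1 y := fun y hy => if_pos hy
  have hφ2 : ∀ y, y ∉ e.symm '' K → φ y = g0.inner y := by
    intro y hy
    by_cases h : y ∈ e.symm '' interior K'
    · rw [hφ1 y h, key y hy h]
    · exact if_neg h
  have hcases : ∀ y, y ∈ e.symm '' interior K' ∨ y ∉ e.symm '' K := by
    intro y
    by_cases h : y ∈ e.symm '' interior K'
    · exact Or.inl h
    · exact Or.inr fun h' => h (Set.image_mono hKK' h')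
  refine ⟨mkMetric φ ?_ ?_ ?_, hφ1, hφ2⟩
  · intro y v w
    rcases hcases y with h | h
    · rw [hφ1 y h]
      exact pull_symm (hpos _ (hSsrc y h).2) v w
    · rw [hφ2 y h]
      exact g0.symm y v w
  · intro y v hv
    rcases hcases y with h | h
    · rw [hφ1 y h]
      exact pull_pos he (hSsrc y h).1 (hpos _ (hSsrc y h).2) hv
    · rw [hφ2 y h]
      exact g0.pos y v hv
  · intro y
    rcases hcases y with h | h
    · refine (contMDiffAt_pull he hV hG (hSsrc y h).1 (hSsrc y h).2).congr_of_eventuallyEq ?_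
      filter_upwards [hS.mem_nhds h] with z hz
      rw [hφ1 z hz]
    · refine (g0.contMDiff y).congr_of_eventuallyEq ?_
      filter_upwards [hKM.isOpen_compl.mem_nhds h] with z hz
      rw [hφ2 z hz]

theorem gMat_of_pull {e : OpenPartialHomeomorph M (E n)}
    (he : e ∈ IsManifold.maximalAtlas (𝓡 n) ∞ M) {g : RMetric n M} {G : E n → Mat n ℝ}
    {x : E n} (hx : x ∈ e.target) (h : g.inner (e.symm x) = pull e G (e.symm x)) :
    gMat g e x = G x := by
  ext i j
  rw [gMat_apply, h, pull_cvf he hx]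

theorem gMat_congr {e : OpenPartialHomeomorph M (E n)} {g g' : RMetric n M} {A : Set M}
    (hA : IsClosed A) (h : ∀ y, y ∉ A → g.inner y = g'.inner y) {x : E n} (hx : x ∈ e.target)
    (hxA : e.symm x ∉ A) : gMat g e =ᶠ[𝓝 x] gMat g' e := by
  have h1 : ∀ᶠ z in 𝓝 x, e.symm z ∈ Aᶜ :=
    (e.continuousAt_symm hx).eventually (hA.isOpen_compl.mem_nhds hxA)
  filter_upwards [h1] with z hz
  ext i j
  rw [gMat_apply, gMat_apply, h _ hz]

end Pool.QCurv.Mf
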