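import Pool.Agent.Lib.MP_993073_gt.BlockDefs
import Pool.Agent.Lib.MP_993073_gt.Calc

/-!
# The explicit model `S^a × S^b × ℝ` inside `ℝ^(a+b+1)` (module D of MP_993073_gt)

Coordinates `x = (x', y)`, `x' ∈ ℝ^(a+1)`, `y ∈ ℝ^b`; `R = |x'|²`, `z = (R - 4, y) ∈ ℝ^(b+1)`,
`s = |z|²`; `Φ = (x'/|x'|, z/|z|, τ_L(s))`.
-/

open scoped Manifold ContDiff Topology PowerSeries
open PowerSeries (C X coeff)
open Filter

noncomputable section

namespace Pool.QCurv

namespace Model

variable {n : ℕ} {ι : Type} (ix : ι ≃ Fin n)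

/-! ### derivatives -/

/-- `f` is differentiable at `x` with coordinate derivatives `f'`. -/
def HP (f : E n → ℝ) (f' : ι → ℝ) (x : E n) : Prop :=
  DifferentiableAt ℝ f x ∧ ∀ m, pd (ix m) f x = f' m

variable {ix} {f g : E n → ℝ} {f' g' : ι → ℝ} {x : E n}

theorem HP.congr' (hf : HP ix f f' x) (h : ∀ m, f' m = g' m) : HP ix f g' x :=
  ⟨hf.1, fun m => by rw [hf.2, h]⟩

theorem HP.add (hf : HP ix f f' x) (hg : HP ix g g' x) :
    HP ix (fun y => f y + g y) (fun m => f' m + g' m) x :=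
  ⟨hf.1.add hg.1, fun m => by rw [pd_add hf.1 hg.1, hf.2, hg.2]⟩

theorem HP.mul (hf : HP ix f f' x) (hg : HP ix g g' x) :
    HP ix (fun y => f y * g y) (fun m => f' m * g x + f x * g' m) x :=
  ⟨hf.1.mul hg.1, fun m => by rw [pd_mul hf.1 hg.1, hf.2, hg.2]⟩

theorem HP.const (c : ℝ) : HP ix (fun _ => c) (fun _ => 0) x :=
  ⟨differentiableAt_const c, fun _ => pd_const c⟩

theorem HP.sum {κ : Type*} (s : Finset κ) {f : κ → E n → ℝ} {f' : κ → ι → ℝ}
    (h : ∀ a, HP ix (f a) (f' a) x) :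
    HP ix (fun y => ∑ a ∈ s, f a y) (fun m => ∑ a ∈ s, f' a m) x :=
  ⟨DifferentiableAt.fun_sum fun a _ => (h a).1, fun m => by
    rw [pd_sum s fun a _ => (h a).1]
    exact Finset.sum_congr rfl fun a _ => (h a).2 m⟩

theorem HP.comp (hf : HP ix f f' x) {φ : ℝ → ℝ} {φ' : ℝ} (hφ : HasDerivAt φ φ' (f x)) :
    HP ix (fun y => φ (f y)) (fun m => φ' * f' m) x := by
  have h := hφ.comp_hasFDerivAt x hf.1.hasFDerivAt
  refine ⟨h.differentiableAt, fun m => ?_⟩
  change pd (ix m) (fun y => φ (f y)) x = φ' * f' m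
  rw [← hf.2 m]
  unfold pd
  rw [show (fun y => φ (f y)) = φ ∘ f from rfl, h.fderiv]
  simp

theorem HP.pow2 (hf : HP ix f f' x) : HP ix (fun y => f y ^ 2) (fun m => 2 * f x * f' m) x := by
  have h := hf.comp (hasDerivAt_pow 2 (f x))
  simpa using h

theorem HP.sqrt (hf : HP ix f f' x) (h0 : 0 < f x) :
    HP ix (fun y => √(f y)) (fun m => f' m / (2 * √(f x))) x := by
  have h := hf.comp (Real.hasDerivAt_sqrt h0.ne')
  exact h.congr' fun m => by ring

theorem HP.inv (hf : HP ix f f' x) (h0 : f x ≠ 0) :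
    HP ix (fun y => (f y)⁻¹) (fun m => - f' m / f x ^ 2) x := by
  have h := hf.comp (hasDerivAt_inv h0)
  exact h.congr' fun m => by ring

theorem HP.div (hf : HP ix f f' x) (hg : HP ix g g' x) (h0 : g x ≠ 0) :
    HP ix (fun y => f y / g y) (fun m => (f' m - f x / g x * g' m) / g x) x := by
  have h := hf.mul (hg.inv h0)
  exact h.congr' fun m => by field_simp; ring

theorem HP.coord [DecidableEq ι] (k : ι) :
    HP ix (fun y : E n => y (ix k)) (fun m => if m = k then 1 else 0) x := by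
  have h : HasFDerivAt (fun y : E n => y (ix k))
      (EuclideanSpace.proj (ix k) : E n →L[ℝ] ℝ) x :=
    (EuclideanSpace.proj (ix k) : E n →L[ℝ] ℝ).hasFDerivAt
  refine ⟨h.differentiableAt, fun m => ?_⟩
  unfold pd
  rw [h.fderiv]
  simp [eq_comm]

/-! ### the functions -/

section Fun

variable {a b : ℕ} (ix : Fin (a + 1) ⊕ Fin b ≃ Fin n)

/-- `x'` -/
def xp (k : Fin (a + 1)) (x : E n) : ℝ := x (ix (Sum.inl k))
/-- `|x'|²` -/
def RR (x : E n) : ℝ := ∑ k, xp ix k x ^ 2
/-- `z` -/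
def zz (β : Fin (b + 1)) (x : E n) : ℝ :=
  Fin.cases (RR ix x - 4) (fun l => x (ix (Sum.inr l))) β
/-- `|z|²` -/
def ss (x : E n) : ℝ := ∑ β, zz ix β x ^ 2
/-- `|x'|` -/
def rr (x : E n) : ℝ := √(RR ix x)
/-- `|z|` -/
def qq (x : E n) : ℝ := √(ss ix x)
/-- `ω` -/
def om (k : Fin (a + 1)) (x : E n) : ℝ := xp ix k x / rr ix x
/-- `θ` -/
def th (β : Fin (b + 1)) (x : E n) : ℝ := zz ix β x / qq ix x
/-- the stretching function -/
def psi (L t : ℝ) : ℝ := t + L * Real.smoothTransition (t - 2)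
/-- its derivative -/
def psi' (L t : ℝ) : ℝ := 1 + L * deriv Real.smoothTransition (t - 2)

/-- `dz` -/
def dz (x : E n) (β : Fin (b + 1)) (m : Fin (a + 1) ⊕ Fin b) : ℝ :=
  Fin.cases (Sum.elim (fun k => 2 * xp ix k x) (fun _ => 0) m)
    (fun l => if m = Sum.inr l then 1 else 0) β
/-- dual fields -/
def lf (x : E n) (β : Fin (b + 1)) (m : Fin (a + 1) ⊕ Fin b) : ℝ :=
  Fin.cases (Sum.elim (fun k => xp ix k x / (2 * RR ix x)) (fun _ => 0) m)
    (fun l => if m = Sum.inr l then 1 else 0) β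

/-- tangential projection -/
def pO (x : E n) (j k : Fin (a + 1)) : ℝ := (if j = k then 1 else 0) - om ix j x * om ix k x
/-- tangential projection -/
def pT (x : E n) (β γ : Fin (b + 1)) : ℝ := (if β = γ then 1 else 0) - th ix β x * th ix γ x

/-- the vector fields -/
def Xi (L : ℝ) (x : E n) : J a b → Fin (a + 1) ⊕ Fin b → ℝ
  | Sum.inl j => Sum.elim (fun k => rr ix x * pO ix x j k) (fun _ => 0)
  | Sum.inr (Sum.inl β) => fun m => ∑ γ, (qq ix x * pT ix x β γ) * lf ix x γ m
  | Sum.inr (Sum.inr _) => fun m =>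
      ∑ γ, (zz ix γ x / (2 * ss ix x * psi' L (ss ix x))) * lf ix x γ m

/-- the map -/
def Phi (L : ℝ) : J a b → E n → ℝ
  | Sum.inl j => om ix j
  | Sum.inr (Sum.inl β) => th ix β
  | Sum.inr (Sum.inr _) => fun x => psi L (ss ix x)

/-- its differential -/
def dPhi (L : ℝ) (x : E n) : J a b → Fin (a + 1) ⊕ Fin b → ℝ
  | Sum.inl j => Sum.elim (fun k => pO ix x j k / rr ix x) (fun _ => 0)
  | Sum.inr (Sum.inl β) => fun m => ∑ γ, (pT ix x β γ / qq ix x) * dz ix x γ m
  | Sum.inr (Sum.inr _) => fun m => ∑ γ, (2 * psi' L (ss ix x) * zz ix γ x) * dz ix x γ m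

variable {ix}

theorem zz_zero (x : E n) : zz ix 0 x = RR ix x - 4 := rfl
theorem zz_succ (l : Fin b) (x : E n) : zz ix l.succ x = x (ix (Sum.inr l)) := rfl
theorem dz_zero (x : E n) (m) : dz ix x 0 m =
    Sum.elim (fun k => 2 * xp ix k x) (fun _ => 0) m := rfl
theorem dz_succ (x : E n) (l : Fin b) (m) : dz ix x l.succ m =
    if m = Sum.inr l then 1 else 0 := rfl
theorem lf_zero (x : E n) (m) : lf ix x 0 m =
    Sum.elim (fun k => xp ix k x / (2 * RR ix x)) (fun _ => 0) m := rfl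
theorem lf_succ (x : E n) (l : Fin b) (m) : lf ix x l.succ m =
    if m = Sum.inr l then 1 else 0 := rfl

/-! ### differentials -/

theorem hp_xp (k : Fin (a + 1)) : HP ix (xp ix k) (fun m => if m = Sum.inl k then 1 else 0) x :=
  HP.coord _

theorem hp_RR : HP ix (RR ix) (Sum.elim (fun k => 2 * xp ix k x) (fun _ => 0)) x := by
  have h := HP.sum Finset.univ (fun k : Fin (a + 1) => (hp_xp (ix := ix) (x := x) k).pow2)
  refine h.congr' fun m => ?_
  rcases m with k | l
  · simp
  · simp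

theorem hp_zz (β : Fin (b + 1)) : HP ix (zz ix β) (dz ix x β) x := by
  refine Fin.cases ?_ (fun l => ?_) β
  · have h := (hp_RR (ix := ix) (x := x)).add (HP.const (-4))
    have h2 := h.congr' (g' := dz ix x 0) fun m => by rw [dz_zero]; ring
    have e : (fun y : E n => RR ix y + -4) = zz ix 0 := by
      funext y; rw [zz_zero]; ring
    rwa [e] at h2
  · exact HP.coord _

theorem hp_ss : HP ix (ss ix) (fun m => ∑ γ, (2 * zz ix γ x) * dz ix x γ m) x :=
  HP.sum Finset.univ (fun β : Fin (b + 1) => (hp_zz (ix := ix) (x := x) β).pow2)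

theorem hasDerivAt_psi (L t : ℝ) : HasDerivAt (psi L) (psi' L t) t := by
  have h1 : DifferentiableAt ℝ Real.smoothTransition (t - 2) :=
    (Real.smoothTransition.contDiff (n := 1)).differentiable (by simp) _
  have h2 : HasDerivAt (fun t : ℝ => Real.smoothTransition (t - 2))
      (deriv Real.smoothTransition (t - 2)) t := by
    have := h1.hasDerivAt.comp_sub_const t 2
    exact this
  exact (hasDerivAt_id t).add (h2.const_mul L)

theorem hp_rr (hR : 0 < RR ix x) :
    HP ix (rr ix) (Sum.elim (fun k => om ix k x) (fun _ => 0)) x := by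
  have h := (hp_RR (ix := ix) (x := x)).sqrt hR
  refine h.congr' fun m => ?_
  rcases m with k | l
  · simp only [Sum.elim_inl, om, rr]
    rw [mul_div_mul_left _ _ (by norm_num)]
  · simp

theorem hp_qq (hs : 0 < ss ix x) :
    HP ix (qq ix) (fun m => ∑ γ, th ix γ x * dz ix x γ m) x := by
  have h := (hp_ss (ix := ix) (x := x)).sqrt hs
  refine h.congr' fun m => ?_
  rw [Finset.sum_div]
  refine Finset.sum_congr rfl fun γ _ => ?_
  simp only [th, qq]
  field_simp

theorem rr_pos (hR : 0 < RR ix x) : 0 < rr ix x := Real.sqrt_pos.2 hR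
theorem qq_pos (hs : 0 < ss ix x) : 0 < qq ix x := Real.sqrt_pos.2 hs

theorem hp_Phi (L : ℝ) (hR : 0 < RR ix x) (hs : 0 < ss ix x) (α : J a b) :
    HP ix (Phi ix L α) (dPhi ix L x α) x := by
  rcases α with j | β | u
  · have h := (hp_xp (ix := ix) (x := x) j).div (hp_rr hR) (rr_pos hR).ne'
    refine h.congr' fun m => ?_
    rcases m with k | l
    · simp only [dPhi, Sum.elim_inl, pO, Sum.inl.injEq]
      congr 1
      congr 1
      by_cases hjk : k = j
      · simp [hjk]
      · simp [hjk, Ne.symm hjk]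
    · simp [dPhi]
  · have h := (hp_zz (ix := ix) (x := x) β).div (hp_qq hs) (qq_pos hs).ne'
    refine h.congr' fun m => ?_
    simp only [dPhi, pT]
    have h1 : ∀ γ, ((if β = γ then (1:ℝ) else 0) - th ix β x * th ix γ x) / qq ix x * dz ix x γ m =
        (if β = γ then dz ix x γ m else 0) / qq ix x
          - zz ix β x / qq ix x * (th ix γ x * dz ix x γ m) / qq ix x := by
      intro γ
      by_cases h : β = γ
      · simp only [h, if_true, th]; ring
      · simp only [h, if_false, th]; ring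
    rw [Finset.sum_congr rfl fun γ _ => h1 γ, Finset.sum_sub_distrib, ← Finset.sum_div,
      ← Finset.sum_div, Finset.sum_ite_eq, if_pos (Finset.mem_univ _), ← Finset.mul_sum]
    ring
  · have h := (hp_ss (ix := ix) (x := x)).comp (hasDerivAt_psi L (ss ix x))
    refine h.congr' fun m => ?_
    simp only [dPhi]
    rw [Finset.mul_sum]
    refine Finset.sum_congr rfl fun γ _ => ?_
    ring

/-! ### algebra -/

theorem sum_om_sq (hR : 0 < RR ix x) : ∑ k, om ix k x ^ 2 = 1 := by
  have h : ∀ k, om ix k x ^ 2 = xp ix k x ^ 2 / RR ix x := by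
    intro k
    rw [om, div_pow, rr, Real.sq_sqrt hR.le]
  rw [Finset.sum_congr rfl fun k _ => h k, ← Finset.sum_div]
  exact div_self hR.ne'

theorem sum_th_sq (hs : 0 < ss ix x) : ∑ k, th ix k x ^ 2 = 1 := by
  have h : ∀ k, th ix k x ^ 2 = zz ix k x ^ 2 / ss ix x := by
    intro k
    rw [th, div_pow, qq, Real.sq_sqrt hs.le]
  rw [Finset.sum_congr rfl fun k _ => h k, ← Finset.sum_div]
  exact div_self hs.ne'

theorem xp_eq (hR : 0 < RR ix x) (k : Fin (a + 1)) : xp ix k x = rr ix x * om ix k x := by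
  rw [om, mul_div_cancel₀ _ (rr_pos hR).ne']

theorem zz_eq (hs : 0 < ss ix x) (k : Fin (b + 1)) : zz ix k x = qq ix x * th ix k x := by
  rw [th, mul_div_cancel₀ _ (qq_pos hs).ne']

theorem rr_sq (hR : 0 < RR ix x) : rr ix x ^ 2 = RR ix x := Real.sq_sqrt hR.le
theorem qq_sq (hs : 0 < ss ix x) : qq ix x ^ 2 = ss ix x := Real.sq_sqrt hs.le

/-- a projection applied to a vector -/
theorem proj_mul {κ : Type} [Fintype κ] [DecidableEq κ] (w : κ → ℝ) (hw : ∑ k, w k ^ 2 = 1)
    (i j : κ) : ∑ k, ((if i = k then (1:ℝ) else 0) - w i * w k) *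
      ((if j = k then (1:ℝ) else 0) - w j * w k) = (if i = j then 1 else 0) - w i * w j := by
  have h : ∀ k, ((if i = k then (1:ℝ) else 0) - w i * w k) *
      ((if j = k then (1:ℝ) else 0) - w j * w k) =
      (if i = k then ((if j = k then (1:ℝ) else 0) - w j * w k) else 0)
        - (if j = k then w i * w k else 0) + w i * w j * w k ^ 2 := by
    intro k
    by_cases h1 : i = k <;> by_cases h2 : j = k <;> simp [h1, h2] <;> ring
  rw [Finset.sum_congr rfl fun k _ => h k, Finset.sum_add_distrib, Finset.sum_sub_distrib,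
    Finset.sum_ite_eq, Finset.sum_ite_eq, ← Finset.mul_sum, hw]
  simp only [Finset.mem_univ, if_true]
  by_cases h1 : i = j
  · simp [h1]
  · simp [h1, Ne.symm h1]; ring

theorem proj_vec {κ : Type} [Fintype κ] [DecidableEq κ] (w : κ → ℝ) (hw : ∑ k, w k ^ 2 = 1)
    (i : κ) : ∑ k, ((if i = k then (1:ℝ) else 0) - w i * w k) * w k = 0 := by
  have h : ∀ k, ((if i = k then (1:ℝ) else 0) - w i * w k) * w k =
      (if i = k then w k else 0) - w i * w k ^ 2 := by
    intro k
    by_cases h1 : i = k <;> simp [h1] <;> ring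
  rw [Finset.sum_congr rfl fun k _ => h k, Finset.sum_sub_distrib,
    Finset.sum_ite_eq, ← Finset.mul_sum, hw]
  simp

theorem sum_pO_mul (hR : 0 < RR ix x) (i j : Fin (a + 1)) :
    ∑ k, pO ix x i k * pO ix x j k = pO ix x i j :=
  proj_mul (fun k => om ix k x) (sum_om_sq hR) i j

theorem sum_pT_mul (hs : 0 < ss ix x) (i j : Fin (b + 1)) :
    ∑ k, pT ix x i k * pT ix x j k = pT ix x i j :=
  proj_mul (fun k => th ix k x) (sum_th_sq hs) i j

theorem sum_pO_om (hR : 0 < RR ix x) (i : Fin (a + 1)) :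
    ∑ k, pO ix x i k * om ix k x = 0 :=
  proj_vec (fun k => om ix k x) (sum_om_sq hR) i

theorem sum_pT_th (hs : 0 < ss ix x) (i : Fin (b + 1)) :
    ∑ k, pT ix x i k * th ix k x = 0 :=
  proj_vec (fun k => th ix k x) (sum_th_sq hs) i

theorem pO_comm (i j : Fin (a + 1)) : pO ix x i j = pO ix x j i := by
  simp only [pO, eq_comm]; ring

theorem pT_comm (i j : Fin (b + 1)) : pT ix x i j = pT ix x j i := by
  simp only [pT, eq_comm]; ring

theorem sum_lf_dz (hR : 0 < RR ix x) (γ β : Fin (b + 1)) :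
    ∑ m, lf ix x γ m * dz ix x β m = if γ = β then 1 else 0 := by
  rw [Fintype.sum_sum_type]
  refine Fin.cases ?_ (fun l => ?_) γ
  · refine Fin.cases ?_ (fun l' => ?_) β
    · simp only [lf_zero, dz_zero, Sum.elim_inl, Sum.elim_inr, mul_zero, Finset.sum_const_zero,
        add_zero, if_true]
      have h : ∀ k, xp ix k x / (2 * RR ix x) * (2 * xp ix k x) = xp ix k x ^ 2 / RR ix x := by
        intro k; field_simp
      rw [Finset.sum_congr rfl fun k _ => h k, ← Finset.sum_div]
      exact div_self hR.ne'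
    · simp [lf_zero, dz_succ, (Fin.succ_ne_zero l').symm]
  · refine Fin.cases ?_ (fun l' => ?_) β
    · simp [lf_succ, dz_zero, (Fin.succ_ne_zero l)]
    · simp only [lf_succ, dz_succ, reduceCtorEq, if_false, mul_zero, Finset.sum_const_zero,
        zero_add, Sum.inr.injEq, Fin.succ_inj]
      simp [eq_comm]

/-- pairing of combinations -/
theorem sum_comb (hR : 0 < RR ix x) (u v : Fin (b + 1) → ℝ) :
    ∑ m, (∑ γ, u γ * lf ix x γ m) * (∑ β, v β * dz ix x β m) = ∑ γ, u γ * v γ := by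
  have h : ∀ m, (∑ γ, u γ * lf ix x γ m) * (∑ β, v β * dz ix x β m) =
      ∑ γ, ∑ β, u γ * v β * (lf ix x γ m * dz ix x β m) := by
    intro m
    rw [Finset.sum_mul_sum]
    refine Finset.sum_congr rfl fun γ _ => Finset.sum_congr rfl fun β _ => ?_
    ring
  rw [Finset.sum_congr rfl fun m _ => h m, Finset.sum_comm]
  refine Finset.sum_congr rfl fun γ _ => ?_
  rw [Finset.sum_comm]
  simp only [← Finset.mul_sum, sum_lf_dz hR, mul_ite, mul_one, mul_zero]
  simp

theorem sum_X_dz (hR : 0 < RR ix x) (j : Fin (a + 1)) (v : Fin (b + 1) → ℝ) :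
    ∑ m, Sum.elim (fun k => rr ix x * pO ix x j k) (fun _ => (0:ℝ)) m *
      (∑ β, v β * dz ix x β m) = 0 := by
  rw [Fintype.sum_sum_type]
  simp only [Sum.elim_inl, Sum.elim_inr, zero_mul, Finset.sum_const_zero, add_zero]
  have h : ∀ k : Fin (a + 1), ∑ β, v β * dz ix x β (Sum.inl k) = v 0 * (2 * xp ix k x) := by
    intro k
    rw [Fin.sum_univ_succ]
    simp [dz_zero, dz_succ]
  simp only [h]
  have h2 : ∀ k, rr ix x * pO ix x j k * (v 0 * (2 * xp ix k x)) =
      2 * v 0 * rr ix x ^ 2 * (pO ix x j k * om ix k x) := by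
    intro k; rw [xp_eq hR]; ring
  rw [Finset.sum_congr rfl fun k _ => h2 k, ← Finset.mul_sum, sum_pO_om hR, mul_zero]

theorem sum_lf_dom (hR : 0 < RR ix x) (j : Fin (a + 1)) (u : Fin (b + 1) → ℝ) :
    ∑ m, (∑ γ, u γ * lf ix x γ m) *
      Sum.elim (fun k => pO ix x j k / rr ix x) (fun _ => (0:ℝ)) m = 0 := by
  rw [Fintype.sum_sum_type]
  simp only [Sum.elim_inl, Sum.elim_inr, mul_zero, Finset.sum_const_zero, add_zero]
  have h : ∀ k : Fin (a + 1), ∑ β, u β * lf ix x β (Sum.inl k) =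
      u 0 * (xp ix k x / (2 * RR ix x)) := by
    intro k
    rw [Fin.sum_univ_succ]
    simp [lf_zero, lf_succ]
  simp only [h]
  have hr := (rr_pos hR).ne'
  have h2 : ∀ k, u 0 * (xp ix k x / (2 * RR ix x)) * (pO ix x j k / rr ix x) =
      u 0 / (2 * RR ix x) * (pO ix x j k * om ix k x) := by
    intro k; rw [xp_eq hR]; field_simp
  rw [Finset.sum_congr rfl fun k _ => h2 k, ← Finset.mul_sum, sum_pO_om hR, mul_zero]

theorem dual_std (L : ℝ) (hR : 0 < RR ix x) (hs : 0 < ss ix x) (hψ : psi' L (ss ix x) ≠ 0)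
    (α β : J a b) :
    ∑ m, Xi ix L x β m * dPhi ix L x α m =
      (if α = β then 1 else 0) -
        (if lab α = lab β ∧ lab α ≠ 2 then Phi ix L α x * Phi ix L β x else 0) := by
  have hr := (rr_pos hR).ne'
  have hq := (qq_pos hs).ne'
  have hs0 := hs.ne'
  rcases β with j | β | u
  · rcases α with i | α | u'
    · simp only [Xi, dPhi, Phi, lab]
      rw [Fintype.sum_sum_type]
      simp only [Sum.elim_inl, Sum.elim_inr, mul_zero, Finset.sum_const_zero, add_zero,
        Sum.inl.injEq]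
      have h : ∀ k, rr ix x * pO ix x j k * (pO ix x i k / rr ix x) =
          pO ix x i k * pO ix x j k := by
        intro k; field_simp
      rw [Finset.sum_congr rfl fun k _ => h k, sum_pO_mul hR]
      simp [pO]
    · simp only [Xi, dPhi, Phi, lab]
      rw [sum_X_dz hR]
      simp
    · simp only [Xi, dPhi, Phi, lab]
      rw [sum_X_dz hR]
      simp
  · rcases α with i | α | u'
    · simp only [Xi, dPhi, Phi, lab]
      rw [sum_lf_dom hR]
      simp
    · simp only [Xi, dPhi, Phi, lab]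
      rw [sum_comb hR]
      have h : ∀ k, qq ix x * pT ix x β k * (pT ix x α k / qq ix x) =
          pT ix x α k * pT ix x β k := by
        intro k; field_simp
      rw [Finset.sum_congr rfl fun k _ => h k, sum_pT_mul hs]
      simp [pT]
    · simp only [Xi, dPhi, Phi, lab]
      rw [sum_comb hR]
      have h : ∀ k, qq ix x * pT ix x β k * (2 * psi' L (ss ix x) * zz ix k x) =
          2 * psi' L (ss ix x) * qq ix x ^ 2 * (pT ix x β k * th ix k x) := by
        intro k; rw [zz_eq hs k]; ring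
      rw [Finset.sum_congr rfl fun k _ => h k, ← Finset.mul_sum, sum_pT_th hs]
      simp
  · rcases α with i | α | u'
    · simp only [Xi, dPhi, Phi, lab]
      rw [sum_lf_dom hR]
      simp
    · simp only [Xi, dPhi, Phi, lab]
      rw [sum_comb hR]
      have h : ∀ k, zz ix k x / (2 * ss ix x * psi' L (ss ix x)) * (pT ix x α k / qq ix x) =
          1 / (2 * ss ix x * psi' L (ss ix x)) * (pT ix x α k * th ix k x) := by
        intro k; rw [zz_eq hs k]; field_simp
      rw [Finset.sum_congr rfl fun k _ => h k, ← Finset.mul_sum, sum_pT_th hs]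
      simp
    · simp only [Xi, dPhi, Phi, lab]
      rw [sum_comb hR]
      have h : ∀ k, zz ix k x / (2 * ss ix x * psi' L (ss ix x)) *
          (2 * psi' L (ss ix x) * zz ix k x) = zz ix k x ^ 2 / ss ix x := by
        intro k; field_simp
      rw [Finset.sum_congr rfl fun k _ => h k, ← Finset.sum_div]
      rw [show ∑ k, zz ix k x ^ 2 = ss ix x from rfl, div_self hs0]
      simp

theorem sum_lf_dz' (m m' : Fin (a + 1) ⊕ Fin b) :
    ∑ γ, lf ix x γ m * dz ix x γ m' =
      Sum.elim (fun k => Sum.elim (fun k' => xp ix k x * xp ix k' x / RR ix x) (fun _ => 0) m')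
        (fun l => Sum.elim (fun _ => 0) (fun l' => if l = l' then 1 else 0) m') m := by
  rw [Fin.sum_univ_succ]
  rcases m with k | l <;> rcases m' with k' | l'
  · simp only [lf_zero, dz_zero, lf_succ, dz_succ, Sum.elim_inl, reduceCtorEq, if_false, mul_zero,
      Finset.sum_const_zero, add_zero]
    rw [div_mul_eq_mul_div, show xp ix k x * (2 * xp ix k' x) = 2 * (xp ix k x * xp ix k' x) by ring,
      mul_div_mul_left _ _ (by norm_num)]
  · simp [lf_zero, dz_zero, lf_succ, dz_succ]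
  · simp [lf_zero, dz_zero, lf_succ, dz_succ]
  · simp [lf_zero, dz_zero, lf_succ, dz_succ, eq_comm]

theorem complete_std (L : ℝ) (hR : 0 < RR ix x) (hs : 0 < ss ix x) (hψ : psi' L (ss ix x) ≠ 0)
    (m m' : Fin (a + 1) ⊕ Fin b) :
    ∑ α, Xi ix L x α m * dPhi ix L x α m' = if m = m' then 1 else 0 := by
  have hr := (rr_pos hR).ne'
  have hq := (qq_pos hs).ne'
  have hs0 := hs.ne'
  rw [Fintype.sum_sum_type, Fintype.sum_sum_type]
  simp only [Finset.univ_unique, Finset.sum_singleton]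
  have h2 : ∑ β : Fin (b + 1), Xi ix L x (Sum.inr (Sum.inl β)) m *
        dPhi ix L x (Sum.inr (Sum.inl β)) m' +
      Xi ix L x (Sum.inr (Sum.inr default)) m * dPhi ix L x (Sum.inr (Sum.inr default)) m' =
      ∑ γ, lf ix x γ m * dz ix x γ m' := by
    simp only [Xi, dPhi]
    have e1 : ∀ β : Fin (b + 1), (∑ γ, qq ix x * pT ix x β γ * lf ix x γ m) *
        (∑ δ, pT ix x β δ / qq ix x * dz ix x δ m') =
        ∑ γ, ∑ δ, (pT ix x γ β * pT ix x δ β) * (lf ix x γ m * dz ix x δ m') := by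
      intro β
      rw [Finset.sum_mul_sum]
      refine Finset.sum_congr rfl fun γ _ => Finset.sum_congr rfl fun δ _ => ?_
      rw [pT_comm γ β, pT_comm δ β]
      field_simp
    have e2 : (∑ γ, zz ix γ x / (2 * ss ix x * psi' L (ss ix x)) * lf ix x γ m) *
        (∑ δ, 2 * psi' L (ss ix x) * zz ix δ x * dz ix x δ m') =
        ∑ γ, ∑ δ, (th ix γ x * th ix δ x) * (lf ix x γ m * dz ix x δ m') := by
      rw [Finset.sum_mul_sum]
      refine Finset.sum_congr rfl fun γ _ => Finset.sum_congr rfl fun δ _ => ?_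
      rw [zz_eq hs γ, zz_eq hs δ, ← qq_sq hs]
      rw [← qq_sq hs] at hψ
      field_simp
    rw [Finset.sum_congr rfl fun β _ => e1 β, e2, Finset.sum_comm, ← Finset.sum_add_distrib]
    refine Finset.sum_congr rfl fun γ _ => ?_
    rw [Finset.sum_comm, ← Finset.sum_add_distrib]
    have e3 : ∀ δ, ∑ β, (pT ix x γ β * pT ix x δ β) * (lf ix x γ m * dz ix x δ m') +
        (th ix γ x * th ix δ x) * (lf ix x γ m * dz ix x δ m') =
        if γ = δ then lf ix x γ m * dz ix x δ m' else 0 := by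
      intro δ
      rw [← Finset.sum_mul, sum_pT_mul hs, pT]
      by_cases h : γ = δ
      · simp [h]; ring
      · simp [h]
    rw [Finset.sum_congr rfl fun δ _ => e3 δ, Finset.sum_ite_eq, if_pos (Finset.mem_univ _)]
  rw [h2, sum_lf_dz']
  rcases m with k | l <;> rcases m' with k' | l'
  · simp only [Xi, dPhi, Sum.elim_inl, Sum.inl.injEq]
    have e4 : ∀ j, rr ix x * pO ix x j k * (pO ix x j k' / rr ix x) =
        pO ix x k j * pO ix x k' j := by
      intro j
      rw [pO_comm k j, pO_comm k' j]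
      field_simp
    rw [Finset.sum_congr rfl fun j _ => e4 j, sum_pO_mul hR, xp_eq hR, xp_eq hR, ← rr_sq hR, pO]
    field_simp
    ring
  · simp [Xi, dPhi]
  · simp [Xi, dPhi]
  · simp [Xi, dPhi]

/-! ### smoothness -/

theorem cd_xp (k : Fin (a + 1)) : ContDiff ℝ ∞ (xp ix k : E n → ℝ) :=
  (EuclideanSpace.proj (ix (Sum.inl k)) : E n →L[ℝ] ℝ).contDiff

theorem cd_RR : ContDiff ℝ ∞ (RR ix : E n → ℝ) :=
  ContDiff.sum fun k _ => (cd_xp k).pow 2

theorem cd_zz (β : Fin (b + 1)) : ContDiff ℝ ∞ (zz ix β : E n → ℝ) := by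
  refine Fin.cases ?_ (fun l => ?_) β
  · exact cd_RR.sub contDiff_const
  · exact (EuclideanSpace.proj (ix (Sum.inr l)) : E n →L[ℝ] ℝ).contDiff

theorem cd_ss : ContDiff ℝ ∞ (ss ix : E n → ℝ) :=
  ContDiff.sum fun k _ => (cd_zz k).pow 2

variable (ix) in
/-- the domain of the standard model -/
def V0 : Set (E n) := {x | 0 < ss ix x ∧ ss ix x < 9}

theorem isOpen_V0 : IsOpen (V0 ix) :=
  (isOpen_lt continuous_const cd_ss.continuous).inter (isOpen_lt cd_ss.continuous continuous_const)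

theorem bound_of_ss {t : ℝ} (ht : ss ix x < t ^ 2) (h0 : 0 < t) :
    4 - t < RR ix x ∧ RR ix x < 4 + t ∧ ∑ l : Fin b, x (ix (Sum.inr l)) ^ 2 < t ^ 2 := by
  unfold ss at ht
  rw [Fin.sum_univ_succ] at ht
  simp only [zz_zero, zz_succ] at ht
  have h1 : 0 ≤ ∑ l : Fin b, x (ix (Sum.inr l)) ^ 2 := Finset.sum_nonneg fun l _ => sq_nonneg _
  have h2 : (RR ix x - 4) ^ 2 < t ^ 2 := by linarith
  have h3 := abs_lt_of_sq_lt_sq h2 h0.le
  rw [abs_lt] at h3
  refine ⟨by linarith [h3.1], by linarith [h3.2], ?_⟩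
  have := sq_nonneg (RR ix x - 4)
  linarith

theorem RR_pos_of_mem (hx : x ∈ V0 ix) : 0 < RR ix x := by
  have h := bound_of_ss (t := 3) (by have := hx.2; linarith) (by norm_num)
  linarith [h.1]

theorem cd_rr : ContDiffOn ℝ ∞ (rr ix) (V0 ix) :=
  cd_RR.contDiffOn.sqrt fun _ hx => (RR_pos_of_mem hx).ne'

theorem cd_qq : ContDiffOn ℝ ∞ (qq ix) (V0 ix) :=
  cd_ss.contDiffOn.sqrt fun _ hx => hx.1.ne'

theorem cd_om (k : Fin (a + 1)) : ContDiffOn ℝ ∞ (om ix k) (V0 ix) :=
  (cd_xp k).contDiffOn.div cd_rr fun _ hx => (rr_pos (RR_pos_of_mem hx)).ne'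

theorem cd_th (k : Fin (b + 1)) : ContDiffOn ℝ ∞ (th ix k) (V0 ix) :=
  (cd_zz k).contDiffOn.div cd_qq fun _ hx => (qq_pos hx.1).ne'

theorem cd_dst : ContDiff ℝ ∞ (deriv Real.smoothTransition) :=
  (contDiff_infty_iff_deriv.1 (Real.smoothTransition.contDiff (n := ⊤))).2

variable (ix) in
/-- the bump function of the standard model -/
def ch (x : E n) : ℝ := deriv Real.smoothTransition (ss ix x - 2)

theorem cd_ch : ContDiff ℝ ∞ (ch ix) :=
  cd_dst.comp (cd_ss.sub contDiff_const)

theorem ch_nonneg (x : E n) : 0 ≤ ch ix x := Real.smoothTransition.monotone.deriv_nonneg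

theorem psi'_eq (L : ℝ) (x : E n) : psi' L (ss ix x) = 1 + L * ch ix x := rfl

theorem psi'_pos {L : ℝ} (hL : 0 ≤ L) (x : E n) : 0 < psi' L (ss ix x) := by
  rw [psi'_eq]
  have := mul_nonneg hL (ch_nonneg (ix := ix) x)
  linarith

theorem cd_pO (j k : Fin (a + 1)) : ContDiffOn ℝ ∞ (fun x => pO ix x j k) (V0 ix) :=
  contDiffOn_const.sub ((cd_om j).mul (cd_om k))

theorem cd_pT (j k : Fin (b + 1)) : ContDiffOn ℝ ∞ (fun x => pT ix x j k) (V0 ix) :=
  contDiffOn_const.sub ((cd_th j).mul (cd_th k))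

theorem cd_lf (β : Fin (b + 1)) (m) : ContDiffOn ℝ ∞ (fun x => lf ix x β m) (V0 ix) := by
  refine Fin.cases ?_ (fun l => ?_) β
  · rcases m with k | l
    · exact (cd_xp k).contDiffOn.div (contDiffOn_const.mul cd_RR.contDiffOn)
        fun x hx => mul_ne_zero (by norm_num) (RR_pos_of_mem hx).ne'
    · exact contDiffOn_const
  · simp only [lf_succ]
    exact contDiffOn_const

theorem cd_Phi (L : ℝ) (α : J a b) : ContDiffOn ℝ ∞ (Phi ix L α) (V0 ix) := by
  rcases α with j | β | u
  · exact cd_om j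
  · exact cd_th β
  · have h1 : ContDiff ℝ ∞ (psi L) :=
      contDiff_id.add (contDiff_const.mul ((Real.smoothTransition.contDiff (n := ⊤)).comp
        (contDiff_id.sub contDiff_const)))
    exact (h1.comp cd_ss).contDiffOn

theorem cd_Xi {L : ℝ} (hL : 0 ≤ L) (α : J a b) (m) :
    ContDiffOn ℝ ∞ (fun x => Xi ix L x α m) (V0 ix) := by
  rcases α with j | β | u
  · rcases m with k | l
    · exact cd_rr.mul (cd_pO j k)
    · exact contDiffOn_const
  · exact ContDiffOn.sum fun γ _ => (cd_qq.mul (cd_pT β γ)).mul (cd_lf γ m)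
  · refine ContDiffOn.sum fun γ _ => ContDiffOn.mul ?_ (cd_lf γ m)
    refine (cd_zz γ).contDiffOn.div ?_ ?_
    · refine (contDiffOn_const.mul cd_ss.contDiffOn).mul ?_
      exact contDiffOn_const.add (contDiffOn_const.mul cd_ch.contDiffOn)
    · intro x hx
      exact mul_ne_zero (mul_ne_zero (by norm_num) hx.1.ne') (psi'_pos hL x).ne'

variable (ix) in
/-- the standard model -/
def std (L : ℝ) (hL : 0 ≤ L) : BlockData n a b (V0 ix) where
  Φ := Phi ix L
  Xf := fun α i x => Xi ix L x α (ix.symm i)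
  smoothΦ := cd_Phi L
  smoothX := fun α i => cd_Xi hL α (ix.symm i)
  dual := by
    intro x hx α β
    have hR := RR_pos_of_mem hx
    rw [← dual_std L hR hx.1 (psi'_pos hL x).ne' α β, ← ix.sum_comp]
    refine Finset.sum_congr rfl fun m _ => ?_
    rw [ix.symm_apply_apply, (hp_Phi L hR hx.1 α).2 m]
  complete := by
    intro x hx i j
    have hR := RR_pos_of_mem hx
    obtain ⟨m, rfl⟩ := ix.surjective i
    obtain ⟨m', rfl⟩ := ix.surjective j
    simp only [ix.symm_apply_apply, ix.apply_eq_iff_eq]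
    rw [← complete_std L hR hx.1 (psi'_pos hL x).ne' m m']
    refine Finset.sum_congr rfl fun α _ => ?_
    rw [(hp_Phi L hR hx.1 α).2 m']
  sphere := by
    intro x hx s hs
    have hR := RR_pos_of_mem hx
    fin_cases s
    · rw [Finset.sum_filter, Fintype.sum_sum_type, Fintype.sum_sum_type]
      simp only [lab, Phi]
      simpa using sum_om_sq hR
    · rw [Finset.sum_filter, Fintype.sum_sum_type, Fintype.sum_sum_type]
      simp only [lab, Phi]
      simpa using sum_th_sq hx.1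
    · exact absurd rfl hs

theorem pd_tau (L : ℝ) {y : E n} (hy : y ∈ V0 ix) (i : Fin n) (u : Unit) :
    pd i (Phi ix L (Sum.inr (Sum.inr u) : J a b)) y =
      (1 + L * ch ix y) * pd i (Phi ix 0 (Sum.inr (Sum.inr u) : J a b)) y := by
  obtain ⟨m, rfl⟩ := ix.surjective i
  rw [(hp_Phi L (RR_pos_of_mem hy) hy.1 _).2 m, (hp_Phi 0 (RR_pos_of_mem hy) hy.1 _).2 m]
  simp only [dPhi, psi'_eq, zero_mul, add_zero]
  rw [Finset.mul_sum]
  refine Finset.sum_congr rfl fun γ _ => ?_
  ring

theorem norm_sq_eq' (x : E n) :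
    ‖x‖ ^ 2 = RR ix x + ∑ l : Fin b, x (ix (Sum.inr l)) ^ 2 := by
  rw [EuclideanSpace.norm_sq_eq, ← ix.sum_comp, Fintype.sum_sum_type]
  simp only [Real.norm_eq_abs, sq_abs]
  rfl

theorem norm_lt_of_ss (hx : ss ix x < 9) : ‖x‖ < 4 := by
  have h := bound_of_ss (ix := ix) (x := x) (t := 3) (by linarith) (by norm_num)
  have h2 := norm_sq_eq' (ix := ix) x
  have h3 : ‖x‖ ^ 2 < 4 ^ 2 := by
    rw [h2]; linarith [h.2.1, h.2.2]
  exact lt_of_pow_lt_pow_left₀ 2 (by norm_num) h3

theorem ch_eq_zero (h : ss ix x < 1 ∨ 4 < ss ix x) : ch ix x = 0 := by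
  unfold ch
  rcases h with h | h
  · have : Real.smoothTransition =ᶠ[𝓝 (ss ix x - 2)] fun _ => 0 := by
      filter_upwards [Iio_mem_nhds (show ss ix x - 2 < 0 by linarith)] with t ht
      exact Real.smoothTransition.zero_of_nonpos (le_of_lt ht)
    rw [this.deriv_eq]
    simp
  · have : Real.smoothTransition =ᶠ[𝓝 (ss ix x - 2)] fun _ => 1 := by
      filter_upwards [Ioi_mem_nhds (show 1 < ss ix x - 2 by linarith)] with t ht
      exact Real.smoothTransition.one_of_one_le (le_of_lt ht)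
    rw [this.deriv_eq]
    simp

variable (ix) in
theorem exists_pt : ∃ p : E n, 2 < ss ix p ∧ ss ix p < 3 ∧ 0 < ch ix p := by
  obtain ⟨t, ht, hd⟩ := exists_deriv_eq_slope Real.smoothTransition (a := 0) (b := 1) one_pos
    Real.smoothTransition.continuous.continuousOn
    ((Real.smoothTransition.contDiff (n := 1)).differentiable (by simp)).differentiableOn
  have hd' : deriv Real.smoothTransition t = 1 := by
    rw [hd, Real.smoothTransition.one, Real.smoothTransition.zero]; norm_num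
  set p : E n := EuclideanSpace.single (ix (Sum.inl 0)) (√(4 + √(2 + t))) with hp
  have h1 : ∀ k : Fin (a + 1), xp ix k p = if k = 0 then √(4 + √(2 + t)) else 0 := by
    intro k
    simp [xp, hp]
  have h2 : ∀ l : Fin b, p (ix (Sum.inr l)) = 0 := by
    intro l
    simp [hp]
  have hpos : 0 ≤ √(2 + t) := Real.sqrt_nonneg _
  have h3 : RR ix p = 4 + √(2 + t) := by
    unfold RR
    simp only [h1, ite_pow, ne_eq, OfNat.ofNat_ne_zero, not_false_eq_true, zero_pow,
      Finset.sum_ite_eq', Finset.mem_univ, if_true]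
    exact Real.sq_sqrt (by positivity)
  have h4 : ss ix p = 2 + t := by
    unfold ss
    rw [Fin.sum_univ_succ]
    simp only [zz_zero, zz_succ, h2, h3, ne_eq, OfNat.ofNat_ne_zero, not_false_eq_true, zero_pow,
      Finset.sum_const_zero, add_zero]
    rw [show 4 + √(2 + t) - 4 = √(2 + t) by ring]
    exact Real.sq_sqrt (by have := ht.1; linarith)
  refine ⟨p, by rw [h4]; have := ht.1; linarith, by rw [h4]; have := ht.2; linarith, ?_⟩
  unfold ch
  rw [h4, show 2 + t - 2 = t by ring, hd']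
  exact one_pos

end Fun

/-! ### transport -/

theorem pd_affine {f : E n → ℝ} {c : E n} {r : ℝ} {x : E n} {i : Fin n}
    (hf : DifferentiableAt ℝ f (r • (x - c))) :
    pd i (fun y => f (r • (y - c))) x = r * pd i f (r • (x - c)) := by
  have h1 : HasFDerivAt (fun y : E n => r • (y - c)) (r • ContinuousLinearMap.id ℝ (E n)) x :=
    ((hasFDerivAt_id x).sub_const c).const_smul r
  have h2 := hf.hasFDerivAt.comp x h1
  unfold pd
  rw [show (fun y => f (r • (y - c))) = f ∘ (fun y : E n => r • (y - c)) from rfl, h2.fderiv]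
  simp

theorem cd_affine {V : Set (E n)} {f : E n → ℝ} (hf : ContDiffOn ℝ ∞ f V) (c : E n) (r : ℝ) :
    ContDiffOn ℝ ∞ (fun y => f (r • (y - c))) ((fun y : E n => r • (y - c)) ⁻¹' V) := by
  have h1 : ContDiff ℝ ∞ (fun y : E n => r • (y - c)) :=
    (contDiff_id.sub contDiff_const).const_smul r
  exact hf.comp h1.contDiffOn fun x hx => hx

/-- transport of block data by a homothety -/
def transport {a b : ℕ} {V : Set (E n)} (hV : IsOpen V) (D : BlockData n a b V) (c : E n) (r : ℝ)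
    (hr : r ≠ 0) : BlockData n a b ((fun y : E n => r • (y - c)) ⁻¹' V) where
  Φ := fun α y => D.Φ α (r • (y - c))
  Xf := fun α i y => r⁻¹ * D.Xf α i (r • (y - c))
  smoothΦ := fun α => cd_affine (D.smoothΦ α) c r
  smoothX := fun α i => contDiffOn_const.mul (cd_affine (D.smoothX α i) c r)
  dual := by
    intro x hx α β
    rw [← D.dual _ hx α β]
    refine Finset.sum_congr rfl fun i _ => ?_
    rw [pd_affine (((D.smoothΦ α).contDiffAt (hV.mem_nhds hx)).differentiableAt (by simp))]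
    field_simp
  complete := by
    intro x hx i j
    rw [← D.complete _ hx i j]
    refine Finset.sum_congr rfl fun α _ => ?_
    rw [pd_affine (((D.smoothΦ α).contDiffAt (hV.mem_nhds hx)).differentiableAt (by simp))]
    field_simp
  sphere := fun x hx s hs => D.sphere _ hx s hs

theorem transport_pd_tau {a b : ℕ} {ix : Fin (a + 1) ⊕ Fin b ≃ Fin n} (c : E n) {r : ℝ}
    (hr : r ≠ 0) {M : ℝ} (hM : 0 ≤ M) {x : E n} (hx : r • (x - c) ∈ V0 ix) (i : Fin n)
    (u : Unit) :
    pd i ((transport isOpen_V0 (std ix M hM) c r hr).Φ (Sum.inr (Sum.inr u))) x =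
      (1 + M * ch ix (r • (x - c))) *
        (r * pd i (Phi ix 0 (Sum.inr (Sum.inr u) : J a b)) (r • (x - c))) := by
  have h0 : DifferentiableAt ℝ (Phi ix M (Sum.inr (Sum.inr u) : J a b)) (r • (x - c)) :=
    ((cd_Phi M _).contDiffAt (isOpen_V0.mem_nhds hx)).differentiableAt (by simp)
  have h1 : pd i ((transport isOpen_V0 (std ix M hM) c r hr).Φ (Sum.inr (Sum.inr u))) x
      = r * pd i (Phi ix M (Sum.inr (Sum.inr u) : J a b)) (r • (x - c)) :=
    pd_affine h0
  rw [h1, pd_tau M hx]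
  ring

end Model

open Model

theorem exists_model {n : ℕ} (a b : ℕ) (ha : 1 ≤ a) (hb : 1 ≤ b) (hn : a + b + 1 = n)
    (W : Set (E n)) (hW : IsOpen W) (hne : W.Nonempty) :
    ∃ (V K : Set (E n)) (χ : E n → ℝ) (D : ℝ → BlockData n a b V),
      IsOpen V ∧ V ⊆ W ∧ IsCompact K ∧ K ⊆ V ∧ ContDiffOn ℝ ∞ χ V ∧ (∀ x, 0 ≤ χ x) ∧
      (∀ x ∈ V \ K, χ x = 0) ∧ (∃ x ∈ interior K, 0 < χ x) ∧
      ∀ L : ℝ, 0 ≤ L → ∀ x ∈ V, (D L).g 0 x = (D 0).g 0 x ∧ (D L).g 1 x = (D 0).g 1 x ∧
        (D L).g 2 x = (1 + L * χ x) ^ 2 • (D 0).g 2 x := by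
  have _ := ha
  have _ := hb
  obtain ⟨c, hc⟩ := hne
  obtain ⟨ε, hε, hball⟩ := Metric.isOpen_iff.1 hW c hc
  set ix : Fin (a + 1) ⊕ Fin b ≃ Fin n :=
    finSumFinEquiv.trans (finCongr (by omega)) with hix
  set r : ℝ := 4 / ε with hrdef
  have hr : 0 < r := by positivity
  set A : E n → E n := fun y => r • (y - c) with hA
  have hAc : Continuous A := by fun_prop
  have hsA : Continuous fun x => ss ix (A x) := cd_ss.continuous.comp hAc
  have hdist : ∀ x, ss ix (A x) < 9 → dist x c < ε := by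
    intro x hx
    have h1 := norm_lt_of_ss hx
    rw [hA] at h1
    simp only [norm_smul, Real.norm_eq_abs, abs_of_pos hr] at h1
    rw [hrdef, div_mul_eq_mul_div, div_lt_iff₀ hε] at h1
    rw [dist_eq_norm]
    linarith
  refine ⟨A ⁻¹' V0 ix, {x | 1 ≤ ss ix (A x) ∧ ss ix (A x) ≤ 4}, fun x => ch ix (A x),
    fun L => transport isOpen_V0 (std ix |L| (abs_nonneg L)) c r hr.ne',
    isOpen_V0.preimage hAc, ?_, ?_, ?_, ?_, ?_, ?_, ?_, ?_⟩
  · intro x hx
    exact hball (hdist x hx.2)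
  · refine Metric.isCompact_of_isClosed_isBounded ?_ ?_
    · exact (isClosed_le continuous_const hsA).inter (isClosed_le hsA continuous_const)
    · refine (Metric.isBounded_ball (x := c) (r := ε)).subset ?_
      intro x hx
      exact hdist x (by have := hx.2; linarith)
  · intro x hx
    exact ⟨by have := hx.1; linarith, by have := hx.2; linarith⟩
  · exact cd_affine cd_ch.contDiffOn c r
  · intro x
    exact ch_nonneg _
  · intro x hx
    apply ch_eq_zero
    by_contra hcon
    push Not at hcon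
    exact hx.2 hcon
  · obtain ⟨p, hp1, hp2, hp3⟩ := exists_pt ix
    have hAp : A (r⁻¹ • p + c) = p := by
      rw [hA]
      simp [smul_smul, hr.ne']
    refine ⟨r⁻¹ • p + c, ?_, by change 0 < ch ix (A (r⁻¹ • p + c)); rw [hAp]; exact hp3⟩
    have ho : IsOpen {x | 1 < ss ix (A x) ∧ ss ix (A x) < 4} :=
      (isOpen_lt continuous_const hsA).inter (isOpen_lt hsA continuous_const)
    refine interior_maximal (fun x hx => ?_) ho ?_
    · exact ⟨le_of_lt hx.1, le_of_lt hx.2⟩
    · change 1 < ss ix (A (r⁻¹ • p + c)) ∧ ss ix (A (r⁻¹ • p + c)) < 4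
      rw [hAp]
      exact ⟨by linarith, by linarith⟩
  · intro L hL x hx
    refine ⟨?_, ?_, ?_⟩
    · ext i j
      simp only [BlockData.g, Matrix.of_apply]
      refine Finset.sum_congr rfl fun α hα => ?_
      rw [Finset.mem_filter] at hα
      rcases α with k | β | u
      · rfl
      · exact absurd hα.2 (by simp [lab])
      · exact absurd hα.2 (by simp [lab])
    · ext i j
      simp only [BlockData.g, Matrix.of_apply]
      refine Finset.sum_congr rfl fun α hα => ?_
      rw [Finset.mem_filter] at hα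
      rcases α with k | β | u
      · exact absurd hα.2 (by simp [lab])
      · rfl
      · exact absurd hα.2 (by simp [lab])
    · ext i j
      simp only [BlockData.g, Matrix.of_apply, Matrix.smul_apply, smul_eq_mul]
      rw [Finset.mul_sum]
      refine Finset.sum_congr rfl fun α hα => ?_
      rw [Finset.mem_filter] at hα
      rcases α with k | β | u
      · exact absurd hα.2 (by simp [lab])
      · exact absurd hα.2 (by simp [lab])
      · have hx' : r • (x - c) ∈ V0 ix := hx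
        rw [transport_pd_tau c hr.ne' (abs_nonneg L) hx', transport_pd_tau c hr.ne' (abs_nonneg L) hx',
          transport_pd_tau c hr.ne' (abs_nonneg 0) hx', transport_pd_tau c hr.ne' (abs_nonneg 0) hx',
          abs_of_nonneg hL, abs_zero]
        ring

end Pool.QCurv
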