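import Pool.Agent.Lib.MP_993073_gt.Smooth

/-!
# Product and chain rules for power series valued functions and matrices (helper file for
MP_993073_gt)
-/

open scoped Manifold ContDiff Topology PowerSeries Matrix
open PowerSeries (C X coeff)
open Filter

noncomputable section

namespace Pool.QCurv

variable {n : ℕ}

section pdS

variable {V : Set (E n)} {f g : E n → ℝ⟦X⟧} {x : E n} {i j : Fin n}

theorem SM.diffAt (hf : SM V f) (hV : IsOpen V) (hx : x ∈ V) (k : ℕ) :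
    DifferentiableAt ℝ (fun y => coeff k (f y)) x :=
  ((hf k).contDiffAt (hV.mem_nhds hx)).differentiableAt (by simp)

theorem coeff_pdS (k : ℕ) : coeff k (pdS i f x) = pd i (fun y => coeff k (f y)) x := by
  simp [pdS]

theorem pdS_add (hV : IsOpen V) (hx : x ∈ V) (hf : SM V f) (hg : SM V g) :
    pdS i (fun y => f y + g y) x = pdS i f x + pdS i g x := by
  ext k
  simp only [coeff_pdS, map_add]
  exact pd_add (hf.diffAt hV hx k) (hg.diffAt hV hx k)

theorem pdS_sub (hV : IsOpen V) (hx : x ∈ V) (hf : SM V f) (hg : SM V g) :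
    pdS i (fun y => f y - g y) x = pdS i f x - pdS i g x := by
  ext k
  simp only [coeff_pdS, map_sub]
  exact pd_sub (hf.diffAt hV hx k) (hg.diffAt hV hx k)

theorem pdS_mul (hV : IsOpen V) (hx : x ∈ V) (hf : SM V f) (hg : SM V g) :
    pdS i (fun y => f y * g y) x = pdS i f x * g x + f x * pdS i g x := by
  ext k
  simp only [coeff_pdS, map_add, PowerSeries.coeff_mul]
  rw [pd_sum _ fun p _ => (hf.diffAt hV hx p.1).mul (hg.diffAt hV hx p.2),
    ← Finset.sum_add_distrib]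
  exact Finset.sum_congr rfl fun p _ => pd_mul (hf.diffAt hV hx p.1) (hg.diffAt hV hx p.2)

theorem pdS_sum (hV : IsOpen V) (hx : x ∈ V) {ι : Type*} (s : Finset ι) {f : ι → E n → ℝ⟦X⟧}
    (hf : ∀ a ∈ s, SM V (f a)) :
    pdS i (fun y => ∑ a ∈ s, f a y) x = ∑ a ∈ s, pdS i (f a) x := by
  ext k
  simp only [coeff_pdS, map_sum]
  exact pd_sum s fun a ha => (hf a ha).diffAt hV hx k

theorem pdS_const (c : ℝ⟦X⟧) : pdS i (fun _ : E n => c) x = 0 := by
  ext k
  simp only [coeff_pdS, map_zero]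
  exact pd_const _

theorem pdS_C (φ : E n → ℝ) : pdS i (fun y => C (φ y)) x = C (pd i φ x) := by
  ext k
  simp only [coeff_pdS, PowerSeries.coeff_C]
  split_ifs with h
  · rfl
  · exact pd_const _

theorem pdS_congr_on (hV : IsOpen V) (h : ∀ y ∈ V, f y = g y) (hx : x ∈ V) :
    pdS i f x = pdS i g x :=
  (pdS_congr_nhds (Filter.eventuallyEq_of_mem (hV.mem_nhds hx) h)).self_of_nhds

theorem pdS_comm (hV : IsOpen V) (hx : x ∈ V) (hf : SM V f) :
    pdS i (pdS j f) x = pdS j (pdS i f) x := by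
  ext k
  simp only [coeff_pdS]
  exact pd_comm ((hf k).contDiffAt (hV.mem_nhds hx))

end pdS

/-! ### Matrices -/

/-- entrywise partial derivative -/
def pdM (i : Fin n) (A : E n → Mat n ℝ⟦X⟧) (x : E n) : Mat n ℝ⟦X⟧ :=
  Matrix.of fun a b => pdS i (fun y => A y a b) x

section pdM

variable {V : Set (E n)} {A B : E n → Mat n ℝ⟦X⟧} {x : E n} {i j : Fin n}

theorem pdM_apply (a b : Fin n) : pdM i A x a b = pdS i (fun y => A y a b) x := rfl

theorem SMM.pdM (hV : IsOpen V) (hA : SMM V A) (i : Fin n) : SMM V (pdM i A) := fun a b =>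
  (hA a b).pdS hV

theorem SMM.sum {ι : Type*} {s : Finset ι} {A : ι → E n → Mat n ℝ⟦X⟧}
    (hA : ∀ a ∈ s, SMM V (A a)) : SMM V (fun x => ∑ a ∈ s, A a x) := fun i j => by
  simp only [Matrix.sum_apply]
  exact SM.sum fun a ha => hA a ha i j

theorem pdM_add (hV : IsOpen V) (hx : x ∈ V) (hA : SMM V A) (hB : SMM V B) :
    pdM i (fun y => A y + B y) x = pdM i A x + pdM i B x := by
  ext1 a b
  simp only [pdM_apply, Matrix.add_apply]
  exact pdS_add hV hx (hA a b) (hB a b)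

theorem pdM_sub (hV : IsOpen V) (hx : x ∈ V) (hA : SMM V A) (hB : SMM V B) :
    pdM i (fun y => A y - B y) x = pdM i A x - pdM i B x := by
  ext1 a b
  simp only [pdM_apply, Matrix.sub_apply]
  exact pdS_sub hV hx (hA a b) (hB a b)

theorem pdM_mul (hV : IsOpen V) (hx : x ∈ V) (hA : SMM V A) (hB : SMM V B) :
    pdM i (fun y => A y * B y) x = pdM i A x * B x + A x * pdM i B x := by
  ext1 a b
  simp only [pdM_apply, Matrix.mul_apply, Matrix.add_apply]
  rw [pdS_sum hV hx _ fun c _ => (hA a c).mul (hB c b), ← Finset.sum_add_distrib]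
  exact Finset.sum_congr rfl fun c _ => pdS_mul hV hx (hA a c) (hB c b)

theorem pdM_smul (hV : IsOpen V) (hx : x ∈ V) {f : E n → ℝ⟦X⟧} (hf : SM V f) (hA : SMM V A) :
    pdM i (fun y => f y • A y) x = pdS i f x • A x + f x • pdM i A x := by
  ext1 a b
  simp only [pdM_apply, Matrix.smul_apply, Matrix.add_apply, smul_eq_mul]
  exact pdS_mul hV hx hf (hA a b)

theorem pdM_sum (hV : IsOpen V) (hx : x ∈ V) {ι : Type*} (s : Finset ι)
    {A : ι → E n → Mat n ℝ⟦X⟧} (hA : ∀ a ∈ s, SMM V (A a)) :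
    pdM i (fun y => ∑ a ∈ s, A a y) x = ∑ a ∈ s, pdM i (A a) x := by
  ext1 a b
  simp only [pdM_apply, Matrix.sum_apply]
  exact pdS_sum hV hx s fun c hc => hA c hc a b

theorem pdM_const (A : Mat n ℝ⟦X⟧) : pdM i (fun _ : E n => A) x = 0 := by
  ext1 a b
  simp only [pdM_apply, Matrix.zero_apply]
  exact pdS_const _

theorem pdM_transpose : pdM i (fun y => (A y)ᵀ) x = (pdM i A x)ᵀ := rfl

theorem pdM_congr_on (hV : IsOpen V) (h : ∀ y ∈ V, A y = B y) (hx : x ∈ V) :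
    pdM i A x = pdM i B x := by
  ext1 a b
  simp only [pdM_apply]
  exact pdS_congr_on hV (fun y hy => by simp only [h y hy]) hx

theorem pdM_comm (hV : IsOpen V) (hx : x ∈ V) (hA : SMM V A) :
    pdM i (pdM j A) x = pdM j (pdM i A) x := by
  ext1 a b
  exact pdS_comm hV hx (hA a b)

theorem isUnit_det {M : Mat n ℝ⟦X⟧} (h : coeff 0 M.det ≠ 0) : IsUnit M.det :=
  isUnit_of_coeff_zero h

theorem pdM_inv (hV : IsOpen V) (hx : x ∈ V) (hA : SMM V A)
    (h0 : ∀ x ∈ V, coeff 0 (A x).det ≠ 0) :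
    pdM i (fun y => (A y)⁻¹) x = - ((A x)⁻¹ * pdM i A x * (A x)⁻¹) := by
  have h1 : pdM i (fun y => (A y)⁻¹ * A y) x = 0 := by
    rw [pdM_congr_on hV (B := fun _ => 1)
      (fun y hy => Matrix.nonsing_inv_mul _ (isUnit_det (h0 y hy))) hx]
    exact pdM_const _
  rw [pdM_mul hV hx (hA.inv h0) hA] at h1
  have h2 : A x * (A x)⁻¹ = 1 := Matrix.mul_nonsing_inv _ (isUnit_det (h0 x hx))
  calc pdM i (fun y => (A y)⁻¹) x
      = pdM i (fun y => (A y)⁻¹) x * (A x * (A x)⁻¹) := by rw [h2, mul_one]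
    _ = (pdM i (fun y => (A y)⁻¹) x * A x + (A x)⁻¹ * pdM i A x) * (A x)⁻¹
          - (A x)⁻¹ * pdM i A x * (A x)⁻¹ := by noncomm_ring
    _ = - ((A x)⁻¹ * pdM i A x * (A x)⁻¹) := by rw [h1]; noncomm_ring

end pdM

/-! ### Change of coordinates -/

/-- the Jacobian matrix -/
def jac (ψ : E n → E n) (x : E n) : Mat n ℝ := Matrix.of fun i j => pd j (fun y => ψ y i) x

/-- the Jacobian matrix with constant power series entries -/
def jacS (ψ : E n → E n) (x : E n) : Mat n ℝ⟦X⟧ := (jac ψ x).map C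

section chain

variable {U V : Set (E n)} {ψ : E n → E n} {x : E n} {i j : Fin n}

theorem E_decomp (v : E n) : v = ∑ k, v k • (EuclideanSpace.single k (1 : ℝ) : E n) := by
  ext l
  simp [Pi.single_apply]

theorem contDiffOn_comp_apply (hψ : ContDiffOn ℝ ∞ ψ U) (k : Fin n) :
    ContDiffOn ℝ ∞ (fun y => ψ y k) U :=
  (EuclideanSpace.proj k : E n →L[ℝ] ℝ).contDiff.comp_contDiffOn hψ

theorem pd_comp {f : E n → ℝ} (hf : DifferentiableAt ℝ f (ψ x)) (hψ : DifferentiableAt ℝ ψ x) :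
    pd i (fun y => f (ψ y)) x = ∑ k, jac ψ x k i * pd k f (ψ x) := by
  have h1 : ∀ k, jac ψ x k i = (fderiv ℝ ψ x (EuclideanSpace.single i 1)) k := by
    intro k
    have h2 : HasFDerivAt (fun y => ψ y k)
        ((EuclideanSpace.proj k : E n →L[ℝ] ℝ).comp (fderiv ℝ ψ x)) x :=
      (EuclideanSpace.proj k : E n →L[ℝ] ℝ).hasFDerivAt.comp x
        hψ.hasFDerivAt
    simp only [jac, Matrix.of_apply, pd, h2.fderiv]
    rfl
  have h3 : fderiv ℝ (fun y => f (ψ y)) x = (fderiv ℝ f (ψ x)).comp (fderiv ℝ ψ x) :=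
    fderiv_comp x hf hψ
  have h4 : pd i (fun y => f (ψ y)) x
      = fderiv ℝ f (ψ x) (fderiv ℝ ψ x (EuclideanSpace.single i 1)) := by
    unfold pd
    rw [h3]
    rfl
  rw [h4]
  conv_lhs => rw [E_decomp (fderiv ℝ ψ x (EuclideanSpace.single i 1))]
  simp only [map_sum, map_smul, smul_eq_mul, h1, pd]

theorem SM.comp {f : E n → ℝ⟦X⟧} (hf : SM V f) (hψ : ContDiffOn ℝ ∞ ψ U)
    (hm : Set.MapsTo ψ U V) : SM U (fun y => f (ψ y)) := fun k => (hf k).comp hψ hm

theorem SMM.comp {A : E n → Mat n ℝ⟦X⟧} (hA : SMM V A) (hψ : ContDiffOn ℝ ∞ ψ U)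
    (hm : Set.MapsTo ψ U V) : SMM U (fun y => A (ψ y)) := fun a b => (hA a b).comp hψ hm

theorem pdS_comp {f : E n → ℝ⟦X⟧} (hU : IsOpen U) (hV : IsOpen V) (hf : SM V f)
    (hψ : ContDiffOn ℝ ∞ ψ U) (hm : Set.MapsTo ψ U V) (hx : x ∈ U) :
    pdS i (fun y => f (ψ y)) x = ∑ k, jacS ψ x k i * pdS k f (ψ x) := by
  ext m
  simp only [coeff_pdS, map_sum, jacS, Matrix.map_apply, PowerSeries.coeff_C_mul]
  exact pd_comp (hf.diffAt hV (hm hx) m)
    ((hψ.contDiffAt (hU.mem_nhds hx)).differentiableAt (by simp))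

theorem pdM_comp {A : E n → Mat n ℝ⟦X⟧} (hU : IsOpen U) (hV : IsOpen V) (hA : SMM V A)
    (hψ : ContDiffOn ℝ ∞ ψ U) (hm : Set.MapsTo ψ U V) (hx : x ∈ U) :
    pdM i (fun y => A (ψ y)) x = ∑ k, jacS ψ x k i • pdM k A (ψ x) := by
  ext1 a b
  simp only [pdM_apply, Matrix.sum_apply, Matrix.smul_apply, smul_eq_mul]
  exact pdS_comp hU hV (hA a b) hψ hm hx

theorem contDiffOn_jac (hU : IsOpen U) (hψ : ContDiffOn ℝ ∞ ψ U) (a b : Fin n) :
    ContDiffOn ℝ ∞ (fun x => jac ψ x a b) U :=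
  contDiffOn_pd hU (contDiffOn_comp_apply hψ a)

theorem SMM_jacS (hU : IsOpen U) (hψ : ContDiffOn ℝ ∞ ψ U) : SMM U (jacS ψ) :=
  SMM.mapC (contDiffOn_jac hU hψ)

theorem pdM_jacS_symm (hU : IsOpen U) (hψ : ContDiffOn ℝ ∞ ψ U) (hx : x ∈ U) (a : Fin n) :
    pdM i (jacS ψ) x a j = pdM j (jacS ψ) x a i := by
  simp only [pdM_apply, jacS, Matrix.map_apply, pdS_C]
  congr 1
  exact pd_comm ((contDiffOn_comp_apply hψ a).contDiffAt (hU.mem_nhds hx))

theorem coeff_zero_det_jacS (h : (jac ψ x).det ≠ 0) : coeff 0 (jacS ψ x).det ≠ 0 := by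
  rw [coeff_zero_det]
  convert h using 2
  ext a b
  simp [jacS]

end chain

end Pool.QCurv
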