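import Pool.Agent.Lib.MP_993073_gt.Block2
import Pool.Agent.Lib.MP_993073_gt.Smooth
import Pool.Agent.Lib.MP_993073_gt.NeckDefs

/-!
# Stretchable necks from block data (helper file for MP_993073_gt)
-/

open scoped Manifold ContDiff Topology PowerSeries Matrix
open PowerSeries (C X coeff)
open Filter MeasureTheory

noncomputable section

namespace Pool.QCurv

variable {n a b : ℕ} {V : Set (E n)}

namespace BlockData

variable {D : BlockData n a b V} {x : E n}

theorem G_symm (D : BlockData n a b V) (A0 : Fin 3 → ℝ) (x : E n) (i j : Fin n) :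
    D.G A0 x i j = D.G A0 x j i := by
  simp only [BlockData.G, Matrix.sum_apply, Matrix.smul_apply]
  exact Finset.sum_congr rfl fun s _ => by rw [g_symm D s x i j]

theorem G_quad (D : BlockData n a b V) (A0 : Fin 3 → ℝ) (x : E n) (v : Fin n → ℝ) :
    v ⬝ᵥ (D.G A0 x *ᵥ v) = ∑ α, A0 (lab α) * (∑ i, pd i (D.Φ α) x * v i) ^ 2 := by
  have e1 : v ⬝ᵥ (D.G A0 x *ᵥ v) = ∑ i, ∑ j, v i * D.G A0 x i j * v j := by
    simp only [dotProduct, Matrix.mulVec, Finset.mul_sum, mul_assoc]
  have e2 : ∀ i j, v i * D.G A0 x i j * v j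
      = ∑ α, A0 (lab α) * (pd i (D.Φ α) x * v i) * (pd j (D.Φ α) x * v j) := by
    intro i j
    simp only [BlockData.G, Matrix.sum_apply, Matrix.smul_apply, smul_eq_mul, BlockData.g,
      Matrix.of_apply]
    rw [← sum_lab (f := fun α => A0 (lab α) * (pd i (D.Φ α) x * v i) * (pd j (D.Φ α) x * v j)),
      Finset.mul_sum, Finset.sum_mul]
    refine Finset.sum_congr rfl fun s _ => ?_
    rw [Finset.mul_sum, Finset.mul_sum, Finset.sum_mul]
    refine Finset.sum_congr rfl fun α hα => ?_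
    rw [Finset.mem_filter] at hα
    rw [hα.2]
    ring
  rw [e1]
  simp only [e2]
  have e3 : ∀ i, ∑ j, ∑ α, A0 (lab α) * (pd i (D.Φ α) x * v i) * (pd j (D.Φ α) x * v j)
      = ∑ α, A0 (lab α) * (pd i (D.Φ α) x * v i) * ∑ j, (pd j (D.Φ α) x * v j) := by
    intro i
    rw [Finset.sum_comm]
    exact Finset.sum_congr rfl fun α _ => by rw [Finset.mul_sum]
  simp only [e3]
  rw [Finset.sum_comm]
  refine Finset.sum_congr rfl fun α _ => ?_
  rw [← Finset.sum_mul, ← Finset.mul_sum]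
  ring

theorem G_posDef (D : BlockData n a b V) {A0 : Fin 3 → ℝ} (hA : ∀ s, 0 < A0 s) (hx : x ∈ V) :
    (D.G A0 x).PosDef := by
  refine Matrix.PosDef.of_dotProduct_mulVec_pos ?_ ?_
  · ext i j
    rw [Matrix.conjTranspose_apply, star_trivial, G_symm]
  · intro v hv
    rw [star_trivial, G_quad]
    by_contra hneg
    have h0 : ∀ α ∈ Finset.univ, 0 ≤ A0 (lab α) * (∑ i, pd i (D.Φ α) x * v i) ^ 2 :=
      fun α _ => mul_nonneg (hA _).le (sq_nonneg _)
    have h1 : ∑ α, A0 (lab α) * (∑ i, pd i (D.Φ α) x * v i) ^ 2 = 0 :=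
      le_antisymm (not_lt.1 hneg) (Finset.sum_nonneg h0)
    have h2 : ∀ α, ∑ i, pd i (D.Φ α) x * v i = 0 := by
      intro α
      have := (Finset.sum_eq_zero_iff_of_nonneg h0).1 h1 α (Finset.mem_univ α)
      rcases mul_eq_zero.1 this with h | h
      · exact absurd h (hA _).ne'
      · exact pow_eq_zero_iff (two_ne_zero) |>.1 h
    apply hv
    ext i
    have h3 : v i = ∑ j, (∑ α, D.Xf α i x * pd j (D.Φ α) x) * v j := by
      simp only [D.complete x hx]
      simp
    rw [h3]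
    simp only [Finset.sum_mul]
    rw [Finset.sum_comm]
    refine Finset.sum_eq_zero fun α _ => ?_
    calc ∑ j, D.Xf α i x * pd j (D.Φ α) x * v j = D.Xf α i x * ∑ j, pd j (D.Φ α) x * v j := by
          rw [Finset.mul_sum]
          exact Finset.sum_congr rfl fun j _ => by ring
      _ = 0 := by rw [h2 α, mul_zero]

theorem det_one_add_Q2 (D : BlockData n a b V) (hx : x ∈ V) (c : ℝ) :
    (1 + c • D.Q 2 x).det = 1 + c := by
  have hf : (Finset.univ.filter fun α : J a b => lab α = 2) = {Sum.inr (Sum.inr ())} := by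
    ext α
    rcases α with α | α | α <;> simp [lab]
  have e1 : c • D.Q 2 x = Matrix.replicateCol Unit (fun i => c * pd i (D.Φ (Sum.inr (Sum.inr ()))) x)
      * Matrix.replicateRow Unit (fun j => D.Xf (Sum.inr (Sum.inr ())) j x) := by
    ext i j
    simp [Q, hf, Matrix.mul_apply, mul_assoc]
  rw [e1, Matrix.det_one_add_replicateCol_mul_replicateRow]
  congr 1
  have := dual' D hx (Sum.inr (Sum.inr ())) (Sum.inr (Sum.inr ()))
  simp only [if_true, lab, ep, zero_mul, sub_zero] at this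
  simp only [dotProduct]
  calc _ = c * ∑ i, D.Xf (Sum.inr (Sum.inr ())) i x * pd i (D.Φ (Sum.inr (Sum.inr ()))) x := by
        rw [Finset.mul_sum]
        exact Finset.sum_congr rfl fun i _ => by ring
    _ = c := by rw [this, mul_one]

end BlockData

open BlockData

theorem hasNeck_of_model {W K : Set (E n)} {χ : E n → ℝ}
    {D : ℝ → BlockData n a b V} (hV : IsOpen V) (hVW : V ⊆ W) (hK : IsCompact K) (hKV : K ⊆ V)
    (hχ : ContDiffOn ℝ ∞ χ V) (hχ0 : ∀ x, 0 ≤ χ x) (hχK : ∀ x ∈ V \ K, χ x = 0)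
    (hpos : ∃ x ∈ interior K, 0 < χ x)
    (hD : ∀ L : ℝ, 0 ≤ L → ∀ x ∈ V, (D L).g 0 x = (D 0).g 0 x ∧ (D L).g 1 x = (D 0).g 1 x ∧
        (D L).g 2 x = (1 + L * χ x) ^ 2 • (D 0).g 2 x)
    {l : ℝ} (hl : 0 < l) (hQ : 0 < sQ n (mult a b) (kap a b) ![1, l, 1]) :
    HasNeck n W := by
  set A0 : Fin 3 → ℝ := ![1, l, 1] with hA0
  have hApos : ∀ s, 0 < A0 s := by
    intro s
    fin_cases s <;> simp [hA0, hl]
  have hGL : ∀ L : ℝ, 0 ≤ L → ∀ x ∈ V,
      (D L).G A0 x = (1 + ((1 + L * χ x) ^ 2 - 1) • (D 0).Q 2 x) * (D 0).G A0 x := by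
    intro L hL x hx
    obtain ⟨h0, h1, h2⟩ := hD L hL x hx
    rw [add_mul, one_mul, Matrix.smul_mul]
    have e : (D 0).Q 2 x * (D 0).G A0 x = (D 0).g 2 x := by
      simp only [BlockData.G, Finset.mul_sum, Matrix.mul_smul, Q_mul_g hV (D 0) hx]
      rw [Fin.sum_univ_three]
      simp [hA0]
    rw [e]
    simp only [BlockData.G, Fin.sum_univ_three, h0, h1, h2]
    ext i j
    simp [hA0]
    ring
  have hdet : ∀ L : ℝ, 0 ≤ L → ∀ x ∈ V,
      ((D L).G A0 x).det = (1 + L * χ x) ^ 2 * ((D 0).G A0 x).det := by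
    intro L hL x hx
    rw [hGL L hL x hx, Matrix.det_mul, det_one_add_Q2 (D 0) hx]
    ring
  have hdet0 : ∀ x ∈ V, 0 < ((D 0).G A0 x).det := fun x hx => (G_posDef (D 0) hApos hx).det_pos
  have hsm : ∀ L i j, ContDiffOn ℝ ∞ (fun x => (D L).G A0 x i j) V := by
    intro L i j
    simp only [BlockData.G, Matrix.sum_apply, Matrix.smul_apply, smul_eq_mul]
    exact ContDiffOn.sum fun s _ => contDiffOn_const.mul (smooth_g hV (D L) s i j)
  have hsq : ∀ L : ℝ, 0 ≤ L → ∀ x ∈ V,
      √((D L).G A0 x).det = (1 + L * χ x) * √((D 0).G A0 x).det := by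
    intro L hL x hx
    rw [hdet L hL x hx, Real.sqrt_mul (sq_nonneg _), Real.sqrt_sq]
    have := mul_nonneg hL (hχ0 x)
    linarith
  have hc0 : ContinuousOn (fun x => √((D 0).G A0 x).det) K :=
    ((contDiffOn_det' (hsm 0)).continuousOn.mono hKV).sqrt
  have hcχ : ContinuousOn χ K := hχ.continuousOn.mono hKV
  have hi0 : IntegrableOn (fun x => √((D 0).G A0 x).det) K := hc0.integrableOn_compact hK
  have hi1 : IntegrableOn (fun x => χ x * √((D 0).G A0 x).det) K :=
    (hcχ.mul hc0).integrableOn_compact hK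
  set q := sQ n (mult a b) (kap a b) A0 with hq
  refine ⟨V, K, fun L => (D L).G A0, q * ∫ x in K, √((D 0).G A0 x).det,
    q * ∫ x in K, χ x * √((D 0).G A0 x).det, hV, hVW, hK, hKV, ?_, fun L _ => hsm L, ?_, ?_, ?_⟩
  · refine mul_pos hQ ?_
    rw [setIntegral_pos_iff_support_of_nonneg_ae]
    · obtain ⟨x0, hx0, hx0'⟩ := hpos
      have hopen : IsOpen (interior K ∩ χ ⁻¹' Set.Ioi 0) :=
        (hcχ.mono interior_subset).isOpen_inter_preimage isOpen_interior isOpen_Ioi
      refine lt_of_lt_of_le (hopen.measure_pos volume ⟨x0, hx0, hx0'⟩) (measure_mono ?_)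
      rintro x ⟨hx, hx'⟩
      refine ⟨?_, interior_subset hx⟩
      rw [Function.mem_support]
      exact (mul_pos hx' (Real.sqrt_pos.2 (hdet0 x (hKV (interior_subset hx))))).ne'
    · exact Filter.Eventually.of_forall fun x => mul_nonneg (hχ0 x) (Real.sqrt_nonneg _)
    · exact hi1
  · intro L hL x hx
    exact G_posDef (D L) hApos hx
  · intro L hL x hx
    show (D L).G A0 x = (D 0).G A0 x
    rw [hGL L hL x hx.1, hχK x hx]
    simp
  · intro L hL
    have e : ∀ x ∈ K, Qcurv ((D L).G A0) x * √((D L).G A0 x).det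
        = q * √((D 0).G A0 x).det + q * L * (χ x * √((D 0).G A0 x).det) := by
      intro x hx
      rw [Qcurv_block hV (D L) A0 (fun s => (hApos s).ne') (hKV hx), hsq L hL x (hKV hx)]
      ring
    rw [setIntegral_congr_fun hK.measurableSet e, integral_add (hi0.const_mul _) (hi1.const_mul _),
      integral_const_mul, integral_const_mul]
    ring

end Pool.QCurv
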