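import Pool.Agent.Lib.MP_993073_gt.SignB

/-!
# Module A, part 4 (helper file for MP_993073_gt)

The one-factor sequence and its signs.
-/

noncomputable section

namespace Pool.QCurv

/-- the factor `z_k` -/
def zc (n a k : ℝ) : ℝ := (n / 2 - 2 * k * (n - k) / a) / (n / 2 - k)

/-- the one-factor sequence, normalised by `w 1 = -1` -/
def wseq (n a : ℝ) : ℕ → ℝ
  | j => if j < 2 then -1 else
    (∑ l : Fin j, if h : 0 < l.1 then ((l.1 : ℝ) * (n - (l.1 : ℝ))) * (wseq n a l.1 *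
      wseq n a (j - l.1)) * (zc n a ((j - l.1 : ℕ) : ℝ) - (2 * (l.1 : ℝ) - (j : ℝ))) else 0) /
      ((j : ℝ) * ((j : ℝ) - 1) * (n - j))
  decreasing_by
    · exact l.isLt
    · have := l.isLt; omega

lemma wseq_one (n a : ℝ) : wseq n a 1 = -1 := by
  rw [wseq]; simp

lemma wseq_rec (n a : ℝ) (j : ℕ) (hj : 2 ≤ j) (hn : (j : ℝ) < n) :
    (j : ℝ) * ((j : ℝ) - 1) * (n - j) * wseq n a j =
      ∑ l ∈ Finset.Ico 1 j, ((l : ℝ) * (n - l)) * (wseq n a l * wseq n a (j - l)) *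
        (zc n a ((j - l : ℕ) : ℝ) - (2 * (l : ℝ) - j)) := by
  have hj' : (2 : ℝ) ≤ j := by exact_mod_cast hj
  have hne : (j : ℝ) * ((j : ℝ) - 1) * (n - j) ≠ 0 := by
    have h1 : 0 < (j : ℝ) - 1 := by linarith
    have h2 : 0 < n - (j : ℝ) := by linarith
    have h3 : 0 < (j : ℝ) := by linarith
    positivity
  conv_lhs => rw [wseq]
  rw [if_neg (by omega), mul_div_cancel₀ _ hne]
  have e := Finset.sum_range (n := j) (fun l : ℕ => if 0 < l then ((l : ℝ) * (n - l)) *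
    (wseq n a l * wseq n a (j - l)) * (zc n a ((j - l : ℕ) : ℝ) - (2 * (l : ℝ) - j)) else 0)
  have e2 : (∑ l : Fin j, if h : 0 < l.1 then ((l.1 : ℝ) * (n - (l.1 : ℝ))) * (wseq n a l.1 *
      wseq n a (j - l.1)) * (zc n a ((j - l.1 : ℕ) : ℝ) - (2 * (l.1 : ℝ) - (j : ℝ))) else 0) =
      ∑ l : Fin j, if 0 < l.1 then ((l.1 : ℝ) * (n - (l.1 : ℝ))) * (wseq n a l.1 *
      wseq n a (j - l.1)) * (zc n a ((j - l.1 : ℕ) : ℝ) - (2 * (l.1 : ℝ) - (j : ℝ))) else 0 := by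
    apply Finset.sum_congr rfl
    intro l _
    split_ifs <;> rfl
  rw [e2, ← e, Finset.range_eq_Ico, Finset.sum_eq_sum_Ico_succ_bot (by omega)]
  rw [if_neg (lt_irrefl 0), zero_add]
  apply Finset.sum_congr rfl
  intro l hl
  rw [Finset.mem_Ico] at hl
  rw [if_pos (by omega)]

/-- the symmetric coefficient -/
def nco (n a i k : ℝ) : ℝ :=
  i * (n - i) * zc n a k + k * (n - k) * zc n a i - (i - k) ^ 2 * (n - i - k)

lemma wseq_rec_symm (n a : ℝ) (j : ℕ) (hj : 2 ≤ j) (hn : (j : ℝ) < n) :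
    (j : ℝ) * ((j : ℝ) - 1) * (n - j) * wseq n a j =
      (1 / 2) * ∑ l ∈ Finset.Ico 1 j, nco n a l ((j - l : ℕ) : ℝ) *
        (wseq n a l * wseq n a (j - l)) := by
  rw [wseq_rec n a j hj hn]
  obtain ⟨b, rfl⟩ : ∃ b, j = b + 1 := ⟨j - 1, by omega⟩
  have h2 := sum_Ico_reflect' 1 b (fun l k => ((l : ℝ) * (n - l)) * (wseq n a l * wseq n a k) *
        (zc n a (k : ℝ) - ((l : ℝ) - k)))
  have e : 1 + b = b + 1 := by ring
  rw [e] at h2
  have h3 : ∑ l ∈ Finset.Ico 1 (b + 1), ((l : ℝ) * (n - l)) * (wseq n a l *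
      wseq n a (b + 1 - l)) * (zc n a ((b + 1 - l : ℕ) : ℝ) - (2 * (l : ℝ) - ((b + 1 : ℕ) : ℝ))) =
      ∑ l ∈ Finset.Ico 1 (b + 1), ((l : ℝ) * (n - l)) * (wseq n a l * wseq n a (b + 1 - l)) *
        (zc n a ((b + 1 - l : ℕ) : ℝ) - ((l : ℝ) - ((b + 1 - l : ℕ) : ℝ))) := by
    apply Finset.sum_congr rfl
    intro l hl
    rw [Finset.mem_Ico] at hl
    have hk : ((b + 1 - l : ℕ) : ℝ) = ((b + 1 : ℕ) : ℝ) - l := by rw [Nat.cast_sub (by omega)]
    rw [hk]
    ring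
  rw [h3]
  have h4 : (1 / 2 : ℝ) * ∑ l ∈ Finset.Ico 1 (b + 1), nco n a l ((b + 1 - l : ℕ) : ℝ) *
        (wseq n a l * wseq n a (b + 1 - l)) = (1 / 2) *
      (∑ l ∈ Finset.Ico 1 (b + 1), ((l : ℝ) * (n - l)) * (wseq n a l * wseq n a (b + 1 - l)) *
        (zc n a ((b + 1 - l : ℕ) : ℝ) - ((l : ℝ) - ((b + 1 - l : ℕ) : ℝ))) +
      ∑ l ∈ Finset.Ico 1 (b + 1), (((b + 1 - l : ℕ) : ℝ) * (n - ((b + 1 - l : ℕ) : ℝ))) *
        (wseq n a (b + 1 - l) * wseq n a l) *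
        (zc n a (l : ℝ) - (((b + 1 - l : ℕ) : ℝ) - (l : ℝ)))) := by
    congr 1
    rw [← Finset.sum_add_distrib]
    apply Finset.sum_congr rfl
    intro l _
    unfold nco
    ring
  rw [h4, ← h2]
  ring

/-- odd case: a two-dimensional Einstein factor -/
theorem wseq_two_neg (ν : ℕ) (n : ℝ) (hn : n = 2 * ν) :
    ∀ j : ℕ, 1 ≤ j → j ≤ ν → wseq n 2 j < 0 := by
  intro j
  induction j using Nat.strong_induction_on with
  | _ j ih =>
  intro hj1 hjν
  have hjνR : (j : ℝ) ≤ ν := by exact_mod_cast hjν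
  rcases eq_or_lt_of_le hj1 with hj | hj
  · rw [← hj, wseq_one]; norm_num
  · have hj2 : (2 : ℝ) ≤ j := by exact_mod_cast hj
    have hr := wseq_rec_symm n 2 j hj (by rw [hn]; linarith)
    have hz : ∀ k : ℕ, 1 ≤ k → k < j → zc n 2 k < 0 := by
      intro k hk1 hkj
      have h1 : (1 : ℝ) ≤ k := by exact_mod_cast hk1
      have h2 : (k : ℝ) + 1 ≤ j := by exact_mod_cast hkj
      unfold zc
      apply div_neg_of_neg_of_pos
      · have : 2 * (k : ℝ) * (n - k) / 2 = k * (n - k) := by ring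
        rw [this]
        nlinarith [mul_nonneg (show (0 : ℝ) ≤ k - 1 by linarith)
          (show (0 : ℝ) ≤ n - k - 1 by rw [hn]; linarith)]
      · rw [hn]; linarith
    have hsum : ∑ l ∈ Finset.Ico 1 j, nco n 2 l ((j - l : ℕ) : ℝ) *
        (wseq n 2 l * wseq n 2 (j - l)) < 0 := by
      apply Finset.sum_neg
      · intro l hl
        rw [Finset.mem_Ico] at hl
        have h1 : (1 : ℝ) ≤ l := by exact_mod_cast hl.1
        have h2 : (l : ℝ) + 1 ≤ j := by exact_mod_cast hl.2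
        have hk : ((j - l : ℕ) : ℝ) = j - l := by rw [Nat.cast_sub (by omega)]
        have hw := mul_pos_of_neg_of_neg (ih l hl.2 hl.1 (by omega))
          (ih (j - l) (by omega) (by omega) (by omega))
        apply mul_neg_of_neg_of_pos _ hw
        have hz1 := hz l hl.1 hl.2
        have hz2 := hz (j - l) (by omega) (by omega)
        unfold nco
        rw [hk] at hz2 ⊢
        have a1 : (l : ℝ) * (n - l) * zc n 2 ((j : ℝ) - l) < 0 := by
          apply mul_neg_of_pos_of_neg _ hz2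
          apply mul_pos (by linarith)
          rw [hn]; linarith
        have a2 : ((j : ℝ) - l) * (n - ((j : ℝ) - l)) * zc n 2 l < 0 := by
          apply mul_neg_of_pos_of_neg _ hz1
          apply mul_pos (by linarith)
          rw [hn]; linarith
        have a3 : 0 ≤ ((l : ℝ) - ((j : ℝ) - l)) ^ 2 * (n - l - ((j : ℝ) - l)) := by
          apply mul_nonneg (sq_nonneg _)
          rw [hn]; linarith
        linarith
      · exact ⟨1, by rw [Finset.mem_Ico]; omega⟩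
    have hpos : 0 < (j : ℝ) * ((j : ℝ) - 1) * (n - j) := by
      have h1 : 0 < (j : ℝ) - 1 := by linarith
      have h2 : 0 < n - (j : ℝ) := by rw [hn]; linarith
      have h3 : 0 < (j : ℝ) := by linarith
      positivity
    have : (j : ℝ) * ((j : ℝ) - 1) * (n - j) * wseq n 2 j < 0 := by
      rw [hr]; linarith
    by_contra hcon
    rw [not_lt] at hcon
    have := mul_nonneg hpos.le hcon
    linarith

lemma zc_four (n k : ℝ) (h : n - 2 * k ≠ 0) :
    zc n 4 k = 1 - k * (n - k - 2) / (n - 2 * k) := by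
  unfold zc
  have h2 : n / 2 - k ≠ 0 := by
    intro h3; apply h; linarith
  rw [div_eq_iff h2]
  field_simp
  ring

lemma nco_four (n i k : ℝ) (hi : 2 ≤ i) (hk : 2 ≤ k) (hn : 2 * (i + k) ≤ n) :
    - nco n 4 i k = (i * (i - 1)) * (k * (k - 1)) * (hco n i k + hco n k i) := by
  have h1 : n - 2 * i ≠ 0 := by
    have : 0 < n - 2 * i := by linarith
    exact this.ne'
  have h2 : n - 2 * k ≠ 0 := by
    have : 0 < n - 2 * k := by linarith
    exact this.ne'
  have h3 : i - 1 ≠ 0 := by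
    have : 0 < i - 1 := by linarith
    exact this.ne'
  have h4 : k - 1 ≠ 0 := by
    have : 0 < k - 1 := by linarith
    exact this.ne'
  have h5 : i ≠ 0 := by linarith
  have h6 : k ≠ 0 := by linarith
  unfold nco hco
  rw [zc_four n k h2, zc_four n i h1]
  obtain ⟨P, hP⟩ : ∃ P : ℝ, P = n - 2 * i := ⟨_, rfl⟩
  obtain ⟨Q, hQ⟩ : ∃ Q : ℝ, Q = n - 2 * k := ⟨_, rfl⟩
  rw [← hP] at h1 ⊢
  rw [← hQ] at h2 ⊢
  field_simp
  rw [hP, hQ]
  ring

lemma nco_four_one (n k : ℝ) (h0 : n - 2 ≠ 0) (hk : n - 2 * k ≠ 0) :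
    - nco n 4 1 k = k * (k - 1) * (n - k) + k * ((n - 1) * (k - 2) / (n - 2 * k) -
      (n - k) / (n - 2)) := by
  unfold nco
  have h1 : n - 2 * 1 ≠ 0 := by rwa [mul_one]
  rw [zc_four n k hk, zc_four n 1 h1, mul_one]
  obtain ⟨Q, hQ⟩ : ∃ Q : ℝ, Q = n - 2 * k := ⟨_, rfl⟩
  obtain ⟨P, hP⟩ : ∃ P : ℝ, P = n - 2 := ⟨_, rfl⟩
  rw [← hQ] at hk ⊢
  rw [← hP] at h0 ⊢
  field_simp
  rw [hP, hQ]
  ring

lemma nco_symm (n a i k : ℝ) : nco n a i k = nco n a k i := by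
  unfold nco; ring

lemma wseq_four_two (n : ℝ) (hn : 2 < n) :
    2 * wseq n 4 2 = (n - 1) / (n - 2) ^ 2 := by
  have h := wseq_rec_symm n 4 2 le_rfl (by exact_mod_cast hn)
  have h0 : n - 2 ≠ 0 := by
    have : 0 < n - 2 := by linarith
    exact this.ne'
  have h1 := nco_four_one n 1 h0 (by rwa [mul_one])
  rw [Finset.sum_Ico_succ_top (by norm_num)] at h
  simp only [Finset.Ico_self, Finset.sum_empty, zero_add] at h
  have e : (2 - 1 : ℕ) = 1 := rfl
  rw [e, wseq_one] at h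
  push_cast at h
  have h2 : nco n 4 1 1 = 2 * (n - 1) / (n - 2) := by
    have : nco n 4 1 1 = - (1 * (1 - 1) * (n - 1) + 1 * ((n - 1) * (1 - 2) / (n - 2 * 1) -
      (n - 1) / (n - 2))) := by rw [← h1]; ring
    rw [this, mul_one]
    field_simp
    ring
  rw [h2] at h
  rw [eq_div_iff (pow_ne_zero 2 h0)]
  have h3 : 2 * (2 - 1) * (n - 2) * wseq n 4 2 * (n - 2) =
      1 / 2 * (2 * (n - 1) / (n - 2) * (-1 * -1)) * (n - 2) := by rw [h]
  have h4 : 1 / 2 * (2 * (n - 1) / (n - 2) * (-1 * -1)) * (n - 2) = n - 1 := by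
    field_simp
  rw [h4] at h3
  linear_combination h3

/-- even case: a four-dimensional Einstein factor -/
theorem wseq_four_pos (ν : ℕ) (n : ℝ) (hn : n = 2 * ν) (hν : 2 ≤ ν) (j : ℕ) (hj2 : 2 ≤ j)
    (hjν : j ≤ ν) : 0 < wseq n 4 j := by
  have hνR : (2 : ℝ) ≤ ν := by exact_mod_cast hν
  have hn4 : 4 ≤ n := by rw [hn]; linarith
  set W : ℝ := (n - 1) / (n - 2) ^ 2 with hW
  have hW0 : 0 < W := by
    have : 0 < n - 1 := by linarith
    have : 0 < n - 2 := by linarith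
    positivity
  have hw2 : 2 * wseq n 4 2 = W := wseq_four_two n (by linarith)
  have hn2 : n - 2 ≠ 0 := by
    have : 0 < n - 2 := by linarith
    exact this.ne'
  set u : ℕ → ℝ := fun j => (j : ℝ) * ((j : ℝ) - 1) * wseq n 4 j / W with hu
  have hWu : ∀ j : ℕ, (j : ℝ) * ((j : ℝ) - 1) * wseq n 4 j = W * u j := by
    intro j
    simp only [hu]
    field_simp
  have hb := u_bounds ν n hn u ?_ ?_ j hj2 hjν
  · have h1 := hb.1
    have hj2R : (2 : ℝ) ≤ j := by exact_mod_cast hj2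
    have h2 := hWu j
    have h3 : 0 < (j : ℝ) * ((j : ℝ) - 1) * wseq n 4 j := by
      rw [h2]
      have : 0 < u j := by linarith
      positivity
    have h4 : 0 < (j : ℝ) * ((j : ℝ) - 1) := by
      have : 0 < (j : ℝ) - 1 := by linarith
      have : 0 < (j : ℝ) := by linarith
      positivity
    exact (mul_pos_iff_of_pos_left h4).mp h3
  · simp only [hu]
    push_cast
    rw [show (2 : ℝ) * (2 - 1) * wseq n 4 2 = 2 * wseq n 4 2 by ring, hw2, div_self hW0.ne']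
  · intro t ht
    have htR : (t : ℝ) + 3 ≤ ν := by exact_mod_cast ht
    have ht0 : (0 : ℝ) ≤ t := by positivity
    have h := wseq_rec_symm n 4 (t + 3) (by omega) (by push_cast; rw [hn]; linarith)
    rw [Finset.sum_Ico_succ_top (by omega), Finset.sum_eq_sum_Ico_succ_bot (by omega)] at h
    have e1 : t + 3 - 1 = t + 2 := rfl
    have e2 : t + 3 - (t + 2) = 1 := by omega
    rw [e1, e2, wseq_one, Nat.cast_one] at h
    have e3 : (1 + 1 : ℕ) = 2 := rfl
    rw [e3] at h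
    have hmid : (1 / 2 : ℝ) * ∑ l ∈ Finset.Ico 2 (t + 2), nco n 4 l ((t + 3 - l : ℕ) : ℝ) *
        (wseq n 4 l * wseq n 4 (t + 3 - l)) = - (W ^ 2 * ∑ i ∈ Finset.Ico 2 (t + 2),
          hco n i ((t + 3 - i : ℕ) : ℝ) * (u i * u (t + 3 - i))) := by
      have hsy := sum_Ico_reflect' 2 (t + 1) (fun i k => hco n i (k : ℝ) * (u i * u k))
      have e : 2 + (t + 1) = t + 3 := by ring
      rw [e] at hsy
      have hsy' : ∑ i ∈ Finset.Ico 2 (t + 2), hco n i ((t + 3 - i : ℕ) : ℝ) *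
          (u i * u (t + 3 - i)) = (1 / 2) * (∑ i ∈ Finset.Ico 2 (t + 2),
          (hco n i ((t + 3 - i : ℕ) : ℝ) + hco n ((t + 3 - i : ℕ) : ℝ) i) *
            (u i * u (t + 3 - i))) := by
        have h5 : ∑ i ∈ Finset.Ico 2 (t + 2),
          (hco n i ((t + 3 - i : ℕ) : ℝ) + hco n ((t + 3 - i : ℕ) : ℝ) i) *
            (u i * u (t + 3 - i)) = ∑ i ∈ Finset.Ico 2 (t + 2), hco n i ((t + 3 - i : ℕ) : ℝ) *
          (u i * u (t + 3 - i)) + ∑ i ∈ Finset.Ico 2 (t + 2), hco n ((t + 3 - i : ℕ) : ℝ) i *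
            (u (t + 3 - i) * u i) := by
          rw [← Finset.sum_add_distrib]
          apply Finset.sum_congr rfl
          intro i _
          ring
        rw [h5, ← hsy]
        ring
      rw [hsy', Finset.mul_sum, Finset.mul_sum, Finset.mul_sum, ← Finset.sum_neg_distrib]
      apply Finset.sum_congr rfl
      intro i hi
      rw [Finset.mem_Ico] at hi
      have hi2 : (2 : ℝ) ≤ i := by exact_mod_cast hi.1
      have hit : (i : ℝ) + 1 ≤ t + 2 := by exact_mod_cast hi.2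
      have hk : ((t + 3 - i : ℕ) : ℝ) = t + 3 - i := by
        rw [Nat.cast_sub (by omega)]; push_cast; ring
      have hN := nco_four n i ((t + 3 - i : ℕ) : ℝ) hi2 (by rw [hk]; linarith)
        (by rw [hk, hn]; linarith)
      have hu1 := hWu i
      have hu2 := hWu (t + 3 - i)
      have hN' : nco n 4 (i : ℝ) ((t + 3 - i : ℕ) : ℝ) = - (((i : ℝ) * ((i : ℝ) - 1)) *
        (((t + 3 - i : ℕ) : ℝ) * (((t + 3 - i : ℕ) : ℝ) - 1)) *
          (hco n i ((t + 3 - i : ℕ) : ℝ) + hco n ((t + 3 - i : ℕ) : ℝ) i)) := by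
        rw [← hN]; ring
      rw [hN']
      generalize ((t + 3 - i : ℕ) : ℝ) = kk at *
      linear_combination (-(1 / 2) * (hco n i kk + hco n kk i) * (kk * (kk - 1)) *
        wseq n 4 (t + 3 - i)) * hu1 + (-(1 / 2) * (hco n i kk + hco n kk i) * W * u i) * hu2
    have hN1 := nco_four_one n ((t + 2 : ℕ) : ℝ) hn2 (by
      push_cast
      have : 0 < n - 2 * ((t : ℝ) + 2) := by rw [hn]; linarith
      exact this.ne')
    rw [nco_symm n 4 ((t + 2 : ℕ) : ℝ) 1] at h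
    have h6 : ((t + 3 : ℕ) : ℝ) * (((t + 3 : ℕ) : ℝ) - 1) * (n - ((t + 3 : ℕ) : ℝ)) *
        wseq n 4 (t + 3) = (n - ((t + 3 : ℕ) : ℝ)) * (W * u (t + 3)) := by
      rw [← hWu (t + 3)]; ring
    rw [h6] at h
    have h7 : - nco n 4 1 ((t + 2 : ℕ) : ℝ) * wseq n 4 (t + 2) = (n - (t + 3)) *
        (1 + 2 * (n - 1) * t / ((n - 2) * (t + 1) * (n - 2 * (t + 3) + 2))) * (W * u (t + 2)) := by
      rw [hN1, ← hWu (t + 2)]
      push_cast
      obtain ⟨Q, hQ⟩ : ∃ Q : ℝ, Q = n - 2 * ((t : ℝ) + 2) := ⟨_, rfl⟩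
      obtain ⟨P, hP⟩ : ∃ P : ℝ, P = n - 2 := ⟨_, rfl⟩
      have hQ0 : Q ≠ 0 := by
        have : 0 < n - 2 * ((t : ℝ) + 2) := by rw [hn]; linarith
        rw [hQ]; exact this.ne'
      have hP0 : P ≠ 0 := by rw [hP]; exact hn2
      have e5 : n - 2 * ((t : ℝ) + 3) + 2 = Q := by rw [hQ]; ring
      rw [e5, ← hQ, ← hP]
      have h9 : (t : ℝ) + 1 ≠ 0 := by positivity
      have h10 : (t : ℝ) + 2 - 1 = t + 1 := by ring
      rw [h10]
      field_simp
      rw [hP, hQ]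
      ring
    have h8 : (n - ((t + 3 : ℕ) : ℝ)) * (W * u (t + 3)) = W * ((n - (t + 3)) *
        (1 + 2 * (n - 1) * t / ((n - 2) * (t + 1) * (n - 2 * (t + 3) + 2))) * u (t + 2)) -
        W ^ 2 * ∑ i ∈ Finset.Ico 2 (t + 2),
          hco n i ((t + 3 - i : ℕ) : ℝ) * (u i * u (t + 3 - i)) := by
      rw [h]
      linear_combination hmid + h7
    have h9 : W * ((n - (t + 3)) * u (t + 3)) = W * ((n - (t + 3)) *
        (1 + 2 * (n - 1) * t / ((n - 2) * (t + 1) * (n - 2 * (t + 3) + 2))) * u (t + 2) -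
        W * ∑ i ∈ Finset.Ico 2 (t + 2),
          hco n i ((t + 3 - i : ℕ) : ℝ) * (u i * u (t + 3 - i))) := by
      push_cast at h8
      linear_combination h8
    exact mul_left_cancel₀ hW0.ne' h9

end Pool.QCurv
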