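import Pool.Agent.Lib.MP_993073_gt.SignRec
import Pool.Agent.Lib.MP_993073_gt.SignC

/-!
# Module A, final part (helper file for MP_993073_gt)

Positivity of the Q-curvature of `S^a × S^b(large) × ℝ` for suitable `a`, `b`.
-/

open scoped PowerSeries Topology
open PowerSeries (C X coeff)
open Filter

noncomputable section

namespace Pool.QCurv

/-- continuity of the recursion in the data `k` -/
theorem SRec.tendsto {ι : Type*} {F : Filter ι} {n : ℕ} {m : Fin 3 → ℝ} {k : ι → Fin 3 → ℝ}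
    {k0 : Fin 3 → ℝ} (hk : ∀ s, Tendsto (fun i => k i s) F (𝓝 (k0 s)))
    {v : ι → ℕ → ℝ} {S Z : ι → Fin 3 → ℕ → ℝ} (h : ∀ i, SRec n m (k i) (v i) (S i) (Z i))
    {v0 : ℕ → ℝ} {S0 Z0 : Fin 3 → ℕ → ℝ} (h0 : SRec n m k0 v0 S0 Z0) (j : ℕ) (hj : 1 ≤ j)
    (hjn : 2 * j ≤ n) :
    (∀ s, Tendsto (fun i => S i s j) F (𝓝 (S0 s j))) ∧ Tendsto (fun i => v i j) F (𝓝 (v0 j)) ∧
      (2 * j < n → ∀ s, Tendsto (fun i => Z i s j) F (𝓝 (Z0 s j))) := by
  induction j using Nat.strong_induction_on with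
  | _ j ih =>
  have hj1 : (1 : ℝ) ≤ j := by exact_mod_cast hj
  have hjn' : 2 * (j : ℝ) ≤ n := by exact_mod_cast hjn
  have hS : ∀ s, Tendsto (fun i => S i s j) F (𝓝 (S0 s j)) := by
    intro s
    rcases eq_or_lt_of_le hj with hj' | hj'
    · rw [← hj']
      simp only [(h _).S1, h0.S1]
      exact hk s
    · have hj2 : (2 : ℝ) ≤ j := by exact_mod_cast hj'
      have hne : (j : ℝ) - 1 ≠ 0 := by
        have : 0 < (j : ℝ) - 1 := by linarith
        exact this.ne'
      have e : ∀ i, S i s j = (∑ l ∈ Finset.Ico 1 j, S i s l * (Z i s (j - l) -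
          (2 * (l : ℝ) - j) * v i (j - l))) / ((j : ℝ) - 1) := by
        intro i
        rw [← (h i).Sj s j hj' hjn, mul_div_cancel_left₀ _ hne]
      have e0 : S0 s j = (∑ l ∈ Finset.Ico 1 j, S0 s l * (Z0 s (j - l) -
          (2 * (l : ℝ) - j) * v0 (j - l))) / ((j : ℝ) - 1) := by
        rw [← h0.Sj s j hj' hjn, mul_div_cancel_left₀ _ hne]
      rw [e0]
      simp only [e]
      apply Tendsto.div_const
      apply tendsto_finsetSum
      intro l hl
      rw [Finset.mem_Ico] at hl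
      have h1 := ih l hl.2 hl.1 (by omega)
      have h2 := ih (j - l) (by omega) (by omega) (by omega)
      exact (h1.1 s).mul ((h2.2.2 (by omega) s).sub (h2.2.1.const_mul _))
  have hv : Tendsto (fun i => v i j) F (𝓝 (v0 j)) := by
    have hne : 2 * (j : ℝ) * (n - j) ≠ 0 := by
      have : 0 < (n : ℝ) - j := by linarith
      have : 0 < (j : ℝ) := by linarith
      positivity
    have e : ∀ i, v i j = (∑ s, m s * S i s j) / (2 * (j : ℝ) * (n - j)) := by
      intro i
      rw [← (h i).vj j hj hjn, mul_div_cancel_left₀ _ hne]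
    have e0 : v0 j = (∑ s, m s * S0 s j) / (2 * (j : ℝ) * (n - j)) := by
      rw [← h0.vj j hj hjn, mul_div_cancel_left₀ _ hne]
    rw [e0]
    simp only [e]
    apply Tendsto.div_const
    apply tendsto_finsetSum
    intro s _
    exact (hS s).const_mul _
  refine ⟨hS, hv, ?_⟩
  intro hlt s
  have hne : (j : ℝ) - n / 2 ≠ 0 := by
    have h1 : 2 * (j : ℝ) < n := by exact_mod_cast hlt
    have : (j : ℝ) - n / 2 < 0 := by linarith
    exact this.ne
  have e : ∀ i, Z i s j = (- (n / 2) * v i j + S i s j) / ((j : ℝ) - n / 2) := by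
    intro i
    rw [← (h i).Zj s j hj hlt, mul_div_cancel_left₀ _ hne]
  have e0 : Z0 s j = (- (n / 2) * v0 j + S0 s j) / ((j : ℝ) - n / 2) := by
    rw [← h0.Zj s j hj hlt, mul_div_cancel_left₀ _ hne]
  rw [e0]
  simp only [e]
  exact ((hv.const_mul _).add (hS s)).div_const _

/-- the one-factor solution of the recursion -/
theorem sRec_one (n : ℕ) (h2 : 2 ≤ n) (a b c : ℝ) (ha : a ≠ 0) (k : ℝ)
    (hc : c = a * k / (2 * (n - 1))) :
    SRec n ![a, b, 1] ![k, 0, 0] (fun j => (-c) ^ j * wseq n a j)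
      (fun s j => if s = 0 then 2 * (j : ℝ) * (n - j) * ((-c) ^ j * wseq n a j) / a else 0)
      (fun s j => (- (n / 2 : ℝ) * ((-c) ^ j * wseq n a j) +
        (if s = 0 then 2 * (j : ℝ) * (n - j) * ((-c) ^ j * wseq n a j) / a else 0)) /
          ((j : ℝ) - n / 2)) := by
  have hn1 : (n : ℝ) - 1 ≠ 0 := by
    have : (2 : ℝ) ≤ n := by exact_mod_cast h2
    have : 0 < (n : ℝ) - 1 := by linarith
    exact this.ne'
  refine ⟨?_, ?_, ?_, ?_⟩
  · intro s
    fin_cases s
    · simp only [Fin.zero_eta, Fin.isValue, if_true, Matrix.cons_val_zero, wseq_one, pow_one,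
        Nat.cast_one]
      rw [hc]
      field_simp
    · simp
    · simp
  · intro s j hj hjn
    have hjn' : 2 * (j : ℝ) ≤ n := by exact_mod_cast hjn
    have hj2 : (2 : ℝ) ≤ j := by exact_mod_cast hj
    by_cases hs : s = 0
    · simp only [hs, if_true]
      have hr := wseq_rec n a j hj (by linarith)
      have e : ((j : ℝ) - 1) * (2 * (j : ℝ) * (n - j) * ((-c) ^ j * wseq n a j) / a) =
          (2 / a) * (-c) ^ j * ((j : ℝ) * ((j : ℝ) - 1) * (n - j) * wseq n a j) := by ring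
      rw [e, hr, Finset.mul_sum]
      apply Finset.sum_congr rfl
      intro l hl
      rw [Finset.mem_Ico] at hl
      have hk : ((j - l : ℕ) : ℝ) = j - l := by rw [Nat.cast_sub (by omega)]
      have hl1 : (1 : ℝ) ≤ l := by exact_mod_cast hl.1
      have hpow : (-c) ^ j = (-c) ^ l * (-c) ^ (j - l) := by
        rw [← pow_add]; congr 1; omega
      have hne : (((j - l : ℕ) : ℝ)) - (n : ℝ) / 2 ≠ 0 := by
        rw [hk]
        have : (j : ℝ) - l - (n : ℝ) / 2 < 0 := by linarith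
        exact this.ne
      have hz : (- (n / 2 : ℝ) * ((-c) ^ (j - l) * wseq n a (j - l)) +
        2 * ((j - l : ℕ) : ℝ) * (n - ((j - l : ℕ) : ℝ)) *
          ((-c) ^ (j - l) * wseq n a (j - l)) / a) / (((j - l : ℕ) : ℝ) - n / 2) =
          zc n a ((j - l : ℕ) : ℝ) * ((-c) ^ (j - l) * wseq n a (j - l)) := by
        unfold zc
        generalize ((j - l : ℕ) : ℝ) = kk at *
        have hne2 : (n : ℝ) / 2 - kk ≠ 0 := by
          intro h; apply hne; linarith
        rw [div_eq_iff hne, div_mul_eq_mul_div, div_mul_eq_mul_div, eq_div_iff hne2]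
        field_simp
        ring
      rw [hz, hpow]
      ring
    · simp [hs]
  · intro j hj hjn
    rw [Fin.sum_univ_three]
    simp
    field_simp
  · intro s j hj hjn
    have hne : (j : ℝ) - n / 2 ≠ 0 := by
      have h1 : 2 * (j : ℝ) < n := by exact_mod_cast hjn
      have : (j : ℝ) - n / 2 < 0 := by linarith
      exact this.ne
    rw [mul_div_cancel₀ _ hne]

/-- positivity for large second factor, from positivity of the one-factor value -/
theorem exists_pos_of_one (n ν a b : ℕ) (hν : n = 2 * ν) (h1 : 1 ≤ ν) (ha : 2 ≤ a)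
    (hab : a + b + 1 = n)
    (hpos : 0 < (-((a : ℝ) * ((a : ℝ) - 1) / (2 * (n - 1)))) ^ ν * wseq n a ν) :
    ∃ l : ℝ, 0 < l ∧ 0 < sQ n (mult a b) (kap a b) ![1, l, 1] := by
  have hm : ∑ s, mult a b s = n := by
    rw [Fin.sum_univ_three, ← hab]
    simp [mult]
  have hA0 : ∀ (i : ℕ) (s : Fin 3), (![1, (i : ℝ) + 1, 1] : Fin 3 → ℝ) s ≠ 0 := by
    intro i s
    fin_cases s
    · simp
    · simp; positivity
    · simp
  choose v S Z hrec hQ using fun i : ℕ =>
    sRec_sFam n ν hν h1 (mult a b) (kap a b) ![1, (i : ℝ) + 1, 1] (hA0 i) hm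
  have ha0 : (a : ℝ) ≠ 0 := by positivity
  have h0 := sRec_one n (by omega) (a : ℝ) (b : ℝ) _ ha0 ((a : ℝ) - 1) rfl
  have hk : ∀ s, Tendsto (fun i : ℕ => kap a b s / (![1, (i : ℝ) + 1, 1] : Fin 3 → ℝ) s) atTop
      (𝓝 ((![(a : ℝ) - 1, 0, 0] : Fin 3 → ℝ) s)) := by
    intro s
    fin_cases s
    · simp [kap]
    · simp only [kap, Fin.mk_one, Fin.isValue, Matrix.cons_val_one, Matrix.cons_val_zero]
      exact tendsto_const_nhds.div_atTop
        (tendsto_atTop_add_const_right _ _ tendsto_natCast_atTop_atTop)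
    · simp [kap]
  have hlim := (SRec.tendsto hk hrec h0 ν h1 (by omega)).2.1
  have hev := hlim.eventually (lt_mem_nhds hpos)
  obtain ⟨i, hi⟩ := hev.exists
  refine ⟨(i : ℝ) + 1, by positivity, ?_⟩
  rw [hQ i]
  positivity

/-- Module A: for every even `n ≥ 6` some `S^a × S^b(large) × ℝ` has positive Q-curvature. -/
theorem exists_sQ_pos (n : ℕ) (hn : Even n) (h6 : 6 ≤ n) :
    ∃ a b : ℕ, 2 ≤ a ∧ 2 ≤ b ∧ a + b + 1 = n ∧ ∃ l : ℝ, 0 < l ∧
      0 < sQ n (mult a b) (kap a b) ![1, l, 1] := by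
  obtain ⟨ν, hν⟩ := hn
  have hν' : n = 2 * ν := by omega
  have hnR : (n : ℝ) = 2 * ν := by rw [hν']; push_cast; ring
  have hν3 : (3 : ℝ) ≤ ν := by
    have : 3 ≤ ν := by omega
    exact_mod_cast this
  rcases Nat.even_or_odd ν with he | ho
  · -- ν even: a = 4, b = n - 5
    have h4 : 4 ≤ ν := by
      rcases he with ⟨r, hr⟩
      omega
    refine ⟨4, n - 5, by omega, by omega, by omega, ?_⟩
    apply exists_pos_of_one n ν 4 (n - 5) hν' (by omega) (by omega) (by omega)
    have hw := wseq_four_pos ν n hnR (by omega) ν (by omega) le_rfl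
    have hc : (-(((4 : ℕ) : ℝ) * (((4 : ℕ) : ℝ) - 1) / (2 * ((n : ℝ) - 1)))) ≠ 0 := by
      push_cast
      have : 0 < (n : ℝ) - 1 := by linarith
      have : 0 < (4 : ℝ) * (4 - 1) / (2 * ((n : ℝ) - 1)) := by positivity
      exact neg_ne_zero.mpr this.ne'
    exact mul_pos (he.pow_pos hc) (by exact_mod_cast hw)
  · -- ν odd: a = 2, b = n - 3
    refine ⟨2, n - 3, by omega, by omega, by omega, ?_⟩
    apply exists_pos_of_one n ν 2 (n - 3) hν' (by omega) (by omega) (by omega)
    have hw := wseq_two_neg ν n hnR ν (by omega) le_rfl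
    apply mul_pos_of_neg_of_neg _ (by exact_mod_cast hw)
    apply ho.pow_neg
    push_cast
    have : 0 < (n : ℝ) - 1 := by linarith
    have : 0 < (2 : ℝ) * (2 - 1) / (2 * ((n : ℝ) - 1)) := by positivity
    linarith

end Pool.QCurv
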