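import Pool.Agent.Lib.MP_993073_gt.ScalDefs

/-!
# Module A, part 1 (helper file for MP_993073_gt)

The scalar ambient family solves the scalar Fefferman–Graham equation to the expected order.
-/

open scoped PowerSeries
open PowerSeries (C X coeff)

noncomputable section

namespace Pool.QCurv

/-! ## the derivative -/

lemma sd_add (f g : ℝ⟦X⟧) : sd (f + g) = sd f + sd g := by
  simp [sd]

lemma sd_sub (f g : ℝ⟦X⟧) : sd (f - g) = sd f - sd g := by
  simp [sd]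

lemma sd_mul (f g : ℝ⟦X⟧) : sd (f * g) = f * sd g + g * sd f := by
  simp [sd, Derivation.leibniz]

lemma sd_C (r : ℝ) : sd (C r) = 0 := by
  simp [sd]

lemma sd_X : sd (X : ℝ⟦X⟧) = 1 := by
  simp [sd]

lemma sd_C_mul (r : ℝ) (f : ℝ⟦X⟧) : sd (C r * f) = C r * sd f := by
  rw [sd_mul, sd_C, mul_zero, add_zero]

lemma coeff_sd (f : ℝ⟦X⟧) (j : ℕ) : coeff j (sd f) = coeff (j + 1) f * (j + 1) := by
  simp [sd, PowerSeries.coeff_derivative]

lemma sd_inv (f : ℝ⟦X⟧) : sd f⁻¹ = -f⁻¹ ^ 2 * sd f := by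
  simp [sd]

lemma sd_X_pow_succ (p : ℕ) : sd ((X : ℝ⟦X⟧) ^ (p + 1)) = C ((p : ℝ) + 1) * X ^ p := by
  have h : (C ((p : ℝ) + 1) : ℝ⟦X⟧) = (p : ℝ⟦X⟧) + 1 := by
    rw [map_add, map_one, map_natCast]
  rw [h]
  simp [sd]

lemma X_mul_sd_X_pow (p : ℕ) : (X : ℝ⟦X⟧) * sd (X ^ p) = C (p : ℝ) * X ^ p := by
  cases p with
  | zero =>
    rw [pow_zero, Nat.cast_zero, map_zero, zero_mul]
    simp [sd]
  | succ p =>
    rw [sd_X_pow_succ, pow_succ]
    push_cast
    ring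

/-! ## perturbing the equation -/

/-- the multiplicity weighted trace `∑ m_r d_r / A0_r` -/
def wtr (m A0 d : Fin 3 → ℝ) : ℝ := ∑ r, m r * (d r / A0 r)

lemma quot_mul_inv {A B : ℝ⟦X⟧} (I : Ideal ℝ⟦X⟧) (hA : PowerSeries.constantCoeff A ≠ 0)
    (hB : PowerSeries.constantCoeff B ≠ 0) (h : Ideal.Quotient.mk I A = Ideal.Quotient.mk I B) :
    Ideal.Quotient.mk I A⁻¹ = Ideal.Quotient.mk I B⁻¹ := by
  have h1 : A * A⁻¹ = 1 := PowerSeries.mul_inv_cancel A hA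
  have h2 : B * B⁻¹ = 1 := PowerSeries.mul_inv_cancel B hB
  have h1' := congrArg (Ideal.Quotient.mk I) h1
  have h2' := congrArg (Ideal.Quotient.mk I) h2
  rw [map_mul, map_one] at h1' h2'
  rw [h] at h1'
  calc Ideal.Quotient.mk I A⁻¹ = Ideal.Quotient.mk I A⁻¹ * (Ideal.Quotient.mk I B *
        Ideal.Quotient.mk I B⁻¹) := by rw [h2', mul_one]
    _ = (Ideal.Quotient.mk I B * Ideal.Quotient.mk I A⁻¹) * Ideal.Quotient.mk I B⁻¹ := by ring
    _ = Ideal.Quotient.mk I B⁻¹ := by rw [h1', one_mul]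

/-- the effect of adding `X^(p+1) * C (d s)` to the family on the equation -/
lemma sAmb_add (n : ℕ) (m κ A0 : Fin 3 → ℝ) (hA0 : ∀ s, A0 s ≠ 0) (A : Fin 3 → ℝ⟦X⟧)
    (hA : ∀ s, PowerSeries.constantCoeff (A s) = A0 s) (p : ℕ) (d : Fin 3 → ℝ) (s : Fin 3) :
    (X : ℝ⟦X⟧) ^ (p + 1) ∣ sAmb n m κ (fun s => A s + X ^ (p + 1) * C (d s)) s -
      (sAmb n m κ A s + X ^ p * C (((p : ℝ) + 1) * ((p : ℝ) + 1 - n / 2) * d s
        - ((p : ℝ) + 1) / 2 * wtr m A0 d * A0 s)) := by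
  set I : Ideal ℝ⟦X⟧ := Ideal.span {(X : ℝ⟦X⟧) ^ (p + 1)} with hI
  rw [← Ideal.mem_span_singleton, ← hI, ← Ideal.Quotient.eq]
  set q := Ideal.Quotient.mk I with hq
  have hx0 : q (X ^ (p + 1)) = 0 := by
    rw [hq, Ideal.Quotient.eq_zero_iff_mem, hI]
    exact Ideal.mem_span_singleton_self _
  have hxx : q X * q (X ^ p) = 0 := by
    rw [← map_mul, ← pow_succ', hx0]
  -- the quotient sees only the constant coefficient after multiplication by `X^p`
  have hXp : ∀ f : ℝ⟦X⟧, q (X ^ p) * q f = q (X ^ p) * q (C (PowerSeries.constantCoeff f)) := by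
    intro f
    have h1 : (X : ℝ⟦X⟧) ∣ f - C (PowerSeries.constantCoeff f) := by
      rw [PowerSeries.X_dvd_iff]; simp
    obtain ⟨g, hg⟩ := h1
    have h2 : f = X * g + C (PowerSeries.constantCoeff f) := by rw [← hg]; ring
    calc q (X ^ p) * q f = q (X ^ p) * q (X * g + C (PowerSeries.constantCoeff f)) := by
          rw [← h2]
      _ = (q X * q (X ^ p)) * q g + q (X ^ p) * q (C (PowerSeries.constantCoeff f)) := by
          rw [map_add, map_mul]; ring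
      _ = _ := by rw [hxx]; ring
  have hnew0 : ∀ r, PowerSeries.constantCoeff (A r + X ^ (p + 1) * C (d r)) = A0 r := by
    intro r; simp [hA]
  have hAq : ∀ r, q (A r + X ^ (p + 1) * C (d r)) = q (A r) := by
    intro r; rw [map_add, map_mul, hx0, zero_mul, add_zero]
  have hinv : ∀ r, q (A r + X ^ (p + 1) * C (d r))⁻¹ = q (A r)⁻¹ := by
    intro r
    apply quot_mul_inv I
    · rw [hnew0]; exact hA0 r
    · rw [hA]; exact hA0 r
    · exact hAq r
  have hcinv : ∀ r, PowerSeries.constantCoeff (A r)⁻¹ = (A0 r)⁻¹ := by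
    intro r; rw [PowerSeries.constantCoeff_inv, hA]
  have hsd : ∀ r, sd (A r + X ^ (p + 1) * C (d r)) = sd (A r) + X ^ p * C (((p : ℝ) + 1) * d r) := by
    intro r
    rw [sd_add, sd_mul, sd_C, mul_zero, zero_add, sd_X_pow_succ, map_mul]
    ring
  have hsd2 : ∀ r, X * sd (sd (A r + X ^ (p + 1) * C (d r))) =
      X * sd (sd (A r)) + X ^ p * C ((p : ℝ) * ((p : ℝ) + 1) * d r) := by
    intro r
    rw [hsd, sd_add, sd_mul, sd_C, mul_zero, zero_add, mul_add]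
    have := X_mul_sd_X_pow p
    have e : (C ((p : ℝ) * ((p : ℝ) + 1) * d r) : ℝ⟦X⟧) = C (p : ℝ) * C (((p : ℝ) + 1) * d r) := by
      rw [← map_mul]; ring_nf
    rw [e]
    linear_combination C (((p : ℝ) + 1) * d r) * this
  have hT : q (sT m (fun s => A s + X ^ (p + 1) * C (d s))) =
      q (sT m A) + q (X ^ p) * q (C (((p : ℝ) + 1) * wtr m A0 d)) := by
    have e1 : ∀ r, q (C (m r) * (sd (A r + X ^ (p + 1) * C (d r)) *
        (A r + X ^ (p + 1) * C (d r))⁻¹)) = q (C (m r) * (sd (A r) * (A r)⁻¹)) +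
          q (X ^ p) * q (C (((p : ℝ) + 1) * (m r * (d r / A0 r)))) := by
      intro r
      have h3 := hXp (A r)⁻¹
      rw [hcinv] at h3
      have e2 : (C (((p : ℝ) + 1) * (m r * (d r / A0 r))) : ℝ⟦X⟧) =
          C (m r) * C (((p : ℝ) + 1) * d r) * C ((A0 r)⁻¹) := by
        rw [← map_mul, ← map_mul]; congr 1; rw [div_eq_mul_inv]; ring
      rw [e2]
      simp only [map_mul q, hinv, hsd, map_add q]
      linear_combination (q (C (m r)) * q (C (((p : ℝ) + 1) * d r))) * h3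
    unfold sT
    rw [map_sum, Finset.sum_congr rfl (fun r _ => e1 r), Finset.sum_add_distrib, ← map_sum,
      ← Finset.mul_sum, ← map_sum, ← map_sum]
    congr 5
    rw [wtr, Finset.mul_sum]
  have hxT : q (X * sT m (fun s => A s + X ^ (p + 1) * C (d s))) = q (X * sT m A) := by
    simp only [map_mul q, hT]
    linear_combination q (C (((p : ℝ) + 1) * wtr m A0 d)) * hxx
  unfold sAmb
  have hd : q (sd (A s + X ^ (p + 1) * C (d s))) =
      q (sd (A s)) + q (X ^ p) * q (C (((p : ℝ) + 1) * d s)) := by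
    rw [hsd, map_add, map_mul]
  have t1 : q (X * sd (sd (A s + X ^ (p + 1) * C (d s)))) =
      q (X * sd (sd (A s))) + q (X ^ p) * q (C ((p : ℝ) * ((p : ℝ) + 1) * d s)) := by
    rw [hsd2, map_add, map_mul q (X ^ p)]
  have t2 : q (X * (sd (A s + X ^ (p + 1) * C (d s)) * (A s + X ^ (p + 1) * C (d s))⁻¹ *
      sd (A s + X ^ (p + 1) * C (d s)))) = q (X * (sd (A s) * (A s)⁻¹ * sd (A s))) := by
    simp only [map_mul q, hinv, hd]
    linear_combination (q (A s)⁻¹ * (2 * q (sd (A s)) * q (C (((p : ℝ) + 1) * d s)) +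
      q (X ^ p) * q (C (((p : ℝ) + 1) * d s)) ^ 2)) * hxx
  have t3 : q (C (1 / 2) * X * sT m (fun s => A s + X ^ (p + 1) * C (d s)) *
      sd (A s + X ^ (p + 1) * C (d s))) = q (C (1 / 2) * X * sT m A * sd (A s)) := by
    rw [map_mul q X, map_mul q X] at hxT
    simp only [map_mul q, hd]
    linear_combination (q (C (1 / 2)) * q (sd (A s))) * hxT + (q (C (1 / 2)) * q (X ^ p) * q (C (((p : ℝ) + 1) * d s))) * hxT + (q (C (1 / 2)) * q (sT m A) * q (C (((p : ℝ) + 1) * d s))) * hxx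
  have t4 : q (C (1 / 2) * sT m (fun s => A s + X ^ (p + 1) * C (d s)) *
      (A s + X ^ (p + 1) * C (d s))) = q (C (1 / 2) * sT m A * A s) +
        q (X ^ p) * q (C (((p : ℝ) + 1) / 2 * wtr m A0 d * A0 s)) := by
    have h3 := hXp (A s)
    rw [hA] at h3
    have e2 : (C (((p : ℝ) + 1) / 2 * wtr m A0 d * A0 s) : ℝ⟦X⟧) =
        C (1 / 2) * C (((p : ℝ) + 1) * wtr m A0 d) * C (A0 s) := by
      rw [← map_mul, ← map_mul]; congr 1; ring
    rw [e2]
    simp only [map_mul q, hT, hAq]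
    linear_combination (q (C (1 / 2)) * q (C (((p : ℝ) + 1) * wtr m A0 d))) * h3
  have e5 : (C (((p : ℝ) + 1) * ((p : ℝ) + 1 - n / 2) * d s
        - ((p : ℝ) + 1) / 2 * wtr m A0 d * A0 s) : ℝ⟦X⟧) =
      C ((p : ℝ) * ((p : ℝ) + 1) * d s) - C ((n : ℝ) / 2 - 1) * C (((p : ℝ) + 1) * d s)
        - C (((p : ℝ) + 1) / 2 * wtr m A0 d * A0 s) := by
    rw [← map_mul, ← map_sub, ← map_sub]; congr 1; ring
  rw [e5]
  simp only [map_add q, map_sub q, t1, t2, t3, t4]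
  simp only [map_mul q (C ((n : ℝ) / 2 - 1)), hd, map_mul q (X ^ p), map_sub q]
  ring

/-! ## the family solves the equation -/

lemma constantCoeff_sFam (n : ℕ) (m κ A0 : Fin 3 → ℝ) (j : ℕ) (s : Fin 3) :
    PowerSeries.constantCoeff (sFam n m κ A0 j s) = A0 s := by
  induction j with
  | zero => simp [sFam]
  | succ j ih => simp [sFam, ih]

lemma coeff_sAmb_succ (n : ℕ) (m κ A0 : Fin 3 → ℝ) (hA0 : ∀ s, A0 s ≠ 0) (j i : ℕ) (hi : i ≤ j)
    (s : Fin 3) :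
    coeff i (sAmb n m κ (sFam n m κ A0 (j + 1)) s) =
      coeff i (sAmb n m κ (sFam n m κ A0 j) s) +
        (if i = j then ((j : ℝ) + 1) * ((j : ℝ) + 1 - n / 2) *
          sCorr n (j + 1) m A0 (fun r => coeff j (sAmb n m κ (sFam n m κ A0 j) r)) s
          - ((j : ℝ) + 1) / 2 * wtr m A0 (fun s => sCorr n (j + 1) m A0
            (fun r => coeff j (sAmb n m κ (sFam n m κ A0 j) r)) s) * A0 s else 0) := by
  have h := sAmb_add n m κ A0 hA0 (sFam n m κ A0 j) (constantCoeff_sFam n m κ A0 j) j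
    (fun s => sCorr n (j + 1) m A0 (fun r => coeff j (sAmb n m κ (sFam n m κ A0 j) r)) s) s
  rw [PowerSeries.X_pow_dvd_iff] at h
  have h1 := h i (Nat.lt_succ_of_le hi)
  rw [map_sub, sub_eq_zero] at h1
  have h2 : sFam n m κ A0 (j + 1) = fun s => sFam n m κ A0 j s + X ^ (j + 1) *
      C (sCorr n (j + 1) m A0 (fun r => coeff j (sAmb n m κ (sFam n m κ A0 j) r)) s) := rfl
  rw [h2, h1, map_add]
  congr 1
  rw [PowerSeries.coeff_mul_C, PowerSeries.coeff_X_pow]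
  split_ifs with h3
  · rw [one_mul]
  · rw [zero_mul]

lemma wtr_sCorr (n : ℕ) (j : ℕ) (hj : 1 ≤ j) (hjn : 2 * j ≤ n) (m A0 F : Fin 3 → ℝ)
    (hA0 : ∀ s, A0 s ≠ 0) (hm : ∑ s, m s = n) :
    wtr m A0 (sCorr n j m A0 F) = wtr m A0 F / (j * (n - j)) := by
  have hj0 : (j : ℝ) ≠ 0 := by positivity
  have hjn' : (2 : ℝ) * j ≤ n := by exact_mod_cast hjn
  have hj1 : (1 : ℝ) ≤ j := by exact_mod_cast hj
  have hnj : (n : ℝ) - j ≠ 0 := by
    have : (0 : ℝ) < n - j := by linarith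
    exact this.ne'
  have hn0 : (n : ℝ) ≠ 0 := by
    have : (0 : ℝ) < n := by linarith
    exact this.ne'
  rw [Fin.sum_univ_three] at hm
  have h0 := hA0 0
  have h1 := hA0 1
  have h2 := hA0 2
  unfold wtr
  by_cases h : 2 * j < n
  · have h' : (2 : ℝ) * j < n := by exact_mod_cast h
    have hν : (n : ℝ) / 2 - j ≠ 0 := by
      have : (0 : ℝ) < n / 2 - j := by linarith
      exact this.ne'
    set t : ℝ := ∑ r, m r * (F r / A0 r) with ht
    have e : ∀ s, sCorr n j m A0 F s = (1 / (j * ((n : ℝ) / 2 - j))) *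
        (F s - (j / 2 * (t / (j * (n - j)))) * A0 s) := by
      intro s; unfold sCorr; rw [if_pos h]
    simp only [e]
    have e2 : ∀ r, m r * ((1 / (j * ((n : ℝ) / 2 - j))) *
        (F r - (j / 2 * (t / (j * (n - j)))) * A0 r) / A0 r) =
        (1 / (j * ((n : ℝ) / 2 - j))) * (m r * (F r / A0 r)) -
          (1 / (j * ((n : ℝ) / 2 - j))) * (j / 2 * (t / (j * (n - j)))) * m r := by
      intro r
      have := hA0 r
      field_simp
    rw [Finset.sum_congr rfl (fun r _ => e2 r), Finset.sum_sub_distrib, ← Finset.mul_sum,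
      ← Finset.mul_sum, ← ht, Fin.sum_univ_three m, hm]
    obtain ⟨U, hU⟩ : ∃ U : ℝ, U = (n : ℝ) - j := ⟨_, rfl⟩
    obtain ⟨P, hP⟩ : ∃ P : ℝ, P = (n : ℝ) / 2 - j := ⟨_, rfl⟩
    have hn2 : (n : ℝ) = 2 * (U - P) := by rw [hU, hP]; ring
    rw [← hU] at hnj ⊢
    rw [← hP] at hν ⊢
    rw [hn2]
    clear_value t
    field_simp
    ring
  · have h' : n = 2 * j := by omega
    set t : ℝ := ∑ r, m r * (F r / A0 r) with ht
    have e : ∀ s, sCorr n j m A0 F s = ((t / (j * (n - j))) / n) * A0 s := by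
      intro s; unfold sCorr; rw [if_neg h]
    simp only [e]
    have e2 : ∀ r, m r * (((t / (j * (n - j))) / n) * A0 r / A0 r) =
        ((t / (j * (n - j))) / n) * m r := by
      intro r
      have := hA0 r
      field_simp
    rw [Finset.sum_congr rfl (fun r _ => e2 r), ← Finset.mul_sum, Fin.sum_univ_three m, hm]
    field_simp

/-- the equation holds at order `j` once the family is corrected at order `j + 1` -/
lemma coeff_sAmb_succ_self (n : ℕ) (m κ A0 : Fin 3 → ℝ) (hA0 : ∀ s, A0 s ≠ 0)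
    (hm : ∑ s, m s = n) (j : ℕ) (hj : 2 * (j + 1) < n) (s : Fin 3) :
    coeff j (sAmb n m κ (sFam n m κ A0 (j + 1)) s) = 0 := by
  rw [coeff_sAmb_succ n m κ A0 hA0 j j le_rfl s, if_pos rfl]
  set F : Fin 3 → ℝ := fun r => coeff j (sAmb n m κ (sFam n m κ A0 j) r) with hF
  have h1 := wtr_sCorr n (j + 1) (by omega) (by omega) m A0 F hA0 hm
  have h2 : (fun s => sCorr n (j + 1) m A0 F s) = sCorr n (j + 1) m A0 F := rfl
  rw [h2, h1]
  have h3 : coeff j (sAmb n m κ (sFam n m κ A0 j) s) = F s := rfl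
  rw [h3]
  have h4 : sCorr n (j + 1) m A0 F s = (1 / (((j + 1 : ℕ) : ℝ) * ((n : ℝ) / 2 - ((j + 1 : ℕ) : ℝ)))) *
        (F s - (((j + 1 : ℕ) : ℝ) / 2 * (wtr m A0 F / (((j + 1 : ℕ) : ℝ) * (n - ((j + 1 : ℕ) : ℝ))))) * A0 s) := by
    unfold sCorr wtr; rw [if_pos hj]
  rw [h4]
  push_cast
  have hj' : (2 : ℝ) * (j + 1) < n := by exact_mod_cast hj
  have a1 : (j : ℝ) + 1 ≠ 0 := by positivity
  have a2 : (n : ℝ) / 2 - (j + 1) ≠ 0 := by
    have : (0 : ℝ) < n / 2 - (j + 1) := by linarith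
    exact this.ne'
  have a3 : (n : ℝ) - (j + 1) ≠ 0 := by
    have : (0 : ℝ) < n - (j + 1) := by
      have : (0 : ℝ) ≤ j := by positivity
      linarith
    exact this.ne'
  obtain ⟨q, hq⟩ : ∃ q : ℝ, (n : ℝ) = 2 * q := ⟨n / 2, by ring⟩
  have hq2 : (n : ℝ) / 2 = q := by rw [hq]; ring
  rw [hq2] at a2 ⊢
  rw [hq] at a3 ⊢
  have a4 : q - (j : ℝ) - 1 ≠ 0 := by rwa [← sub_sub] at a2
  have a5 : (j : ℝ) + 1 - q ≠ 0 := by
    intro h; apply a2; linarith
  generalize wtr m A0 F = t at *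
  field_simp
  ring

/-- the trace equation holds at order `n/2 - 1` -/
lemma wtr_coeff_sAmb_last (n : ℕ) (m κ A0 : Fin 3 → ℝ) (hA0 : ∀ s, A0 s ≠ 0)
    (hm : ∑ s, m s = n) (j : ℕ) (hj : 2 * (j + 1) = n) :
    wtr m A0 (fun s => coeff j (sAmb n m κ (sFam n m κ A0 (j + 1)) s)) = 0 := by
  set F : Fin 3 → ℝ := fun r => coeff j (sAmb n m κ (sFam n m κ A0 j) r) with hF
  have h1 := wtr_sCorr n (j + 1) (by omega) (by omega) m A0 F hA0 hm
  have hj' : (2 : ℝ) * (j + 1) = n := by exact_mod_cast hj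
  have e : ∀ s, coeff j (sAmb n m κ (sFam n m κ A0 (j + 1)) s) =
      F s - ((j : ℝ) + 1) / 2 * wtr m A0 (sCorr n (j + 1) m A0 F) * A0 s := by
    intro s
    rw [coeff_sAmb_succ n m κ A0 hA0 j j le_rfl s, if_pos rfl]
    have h0 : ((j : ℝ) + 1 - n / 2) = 0 := by linarith
    rw [h0]
    ring
  simp only [e]
  rw [h1]
  have e2 : wtr m A0 (fun s => F s - ((j : ℝ) + 1) / 2 * (wtr m A0 F /
      (((j + 1 : ℕ) : ℝ) * (n - ((j + 1 : ℕ) : ℝ)))) * A0 s) = wtr m A0 F -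
      ((j : ℝ) + 1) / 2 * (wtr m A0 F / (((j + 1 : ℕ) : ℝ) * (n - ((j + 1 : ℕ) : ℝ)))) * n := by
    unfold wtr
    have e3 : ∀ r, m r * ((F r - ((j : ℝ) + 1) / 2 * ((∑ r, m r * (F r / A0 r)) /
        (((j + 1 : ℕ) : ℝ) * (n - ((j + 1 : ℕ) : ℝ)))) * A0 r) / A0 r) = m r * (F r / A0 r) -
          ((j : ℝ) + 1) / 2 * ((∑ r, m r * (F r / A0 r)) /
        (((j + 1 : ℕ) : ℝ) * (n - ((j + 1 : ℕ) : ℝ)))) * m r := by
      intro r
      have := hA0 r
      generalize (∑ r, m r * (F r / A0 r)) = t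
      field_simp
    rw [Finset.sum_congr rfl (fun r _ => e3 r), Finset.sum_sub_distrib, ← Finset.mul_sum, hm]
  rw [e2]
  push_cast
  have a1 : (j : ℝ) + 1 ≠ 0 := by positivity
  rw [← hj']
  have a3 : (2 : ℝ) * ((j : ℝ) + 1) - (j + 1) ≠ 0 := by
    have : (0 : ℝ) < 2 * ((j : ℝ) + 1) - (j + 1) := by
      have : (0 : ℝ) ≤ j := by positivity
      linarith
    exact this.ne'
  field_simp
  ring

/-- A1, low orders -/
theorem coeff_sAmb_sFam (n : ℕ) (m κ A0 : Fin 3 → ℝ) (hA0 : ∀ s, A0 s ≠ 0)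
    (hm : ∑ s, m s = n) (j : ℕ) (hj : 2 * (j + 1) < n) (k : ℕ) (hk : j + 1 ≤ k) (s : Fin 3) :
    coeff j (sAmb n m κ (sFam n m κ A0 k) s) = 0 := by
  induction k, hk using Nat.le_induction with
  | base => exact coeff_sAmb_succ_self n m κ A0 hA0 hm j hj s
  | succ k hk ih =>
    rw [coeff_sAmb_succ n m κ A0 hA0 k j (by omega) s, if_neg (by omega), ih, add_zero]

end Pool.QCurv
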