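import Mathlib

/-!
# Module A, part 3 (helper file for MP_993073_gt)

Elementary estimates for the one-factor quadratic recursion.
-/

noncomputable section

namespace Pool.QCurv

lemma sum_inv_mul_pred (t : ℕ) :
    ∑ i ∈ Finset.Ico 2 (t + 2), 1 / ((i : ℝ) * ((i : ℝ) - 1)) = (t : ℝ) / ((t : ℝ) + 1) := by
  induction t with
  | zero => simp
  | succ t ih =>
    rw [Finset.sum_Ico_succ_top (by omega), ih]
    push_cast
    have h1 : (t : ℝ) + 1 ≠ 0 := by positivity
    have h2 : (t : ℝ) + 2 ≠ 0 := by positivity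
    have h3 : (t : ℝ) + 2 - 1 ≠ 0 := by
      have : (t : ℝ) + 2 - 1 = t + 1 := by ring
      rw [this]; exact h1
    have h4 : (t : ℝ) + 1 + 1 ≠ 0 := by positivity
    field_simp
    ring

lemma sum_inv_pred_le (t : ℕ) :
    ∑ i ∈ Finset.Ico 2 (t + 2), 1 / ((i : ℝ) - 1) ≤ ((t : ℝ) + 3) / 2 * ((t : ℝ) / ((t : ℝ) + 1)) := by
  induction t with
  | zero => simp
  | succ t ih =>
    rw [Finset.sum_Ico_succ_top (by omega)]
    push_cast
    have h0 : (0 : ℝ) ≤ t := by positivity
    have e1 : (t : ℝ) + 2 - 1 = t + 1 := by ring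
    have e2 : (t : ℝ) + 1 + 1 = t + 2 := by ring
    rw [e1, e2]
    have h1 : (0 : ℝ) < t + 1 := by positivity
    have h2 : (0 : ℝ) < t + 2 := by positivity
    have h3 : ((t : ℝ) + 3) / 2 * ((t : ℝ) / ((t : ℝ) + 1)) + 1 / ((t : ℝ) + 1) = (t + 2) / 2 := by
      field_simp
      ring
    have h4 : ((t : ℝ) + 2) / 2 ≤ ((t : ℝ) + 1 + 3) / 2 * (((t : ℝ) + 1) / ((t : ℝ) + 2)) := by
      rw [div_mul_div_comm, div_le_div_iff₀ (by positivity) (by positivity)]
      nlinarith
    linarith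

lemma sum_Ico_reflect' (a b : ℕ) (f : ℕ → ℕ → ℝ) :
    ∑ l ∈ Finset.Ico a (b + 1), f l (a + b - l) = ∑ l ∈ Finset.Ico a (b + 1), f (a + b - l) l := by
  apply Finset.sum_nbij' (fun l => a + b - l) (fun l => a + b - l)
  · intro l hl
    rw [Finset.mem_Ico] at hl ⊢
    omega
  · intro l hl
    rw [Finset.mem_Ico] at hl ⊢
    omega
  · intro l hl
    rw [Finset.mem_Ico] at hl
    omega
  · intro l hl
    rw [Finset.mem_Ico] at hl
    omega
  · intro l hl
    rw [Finset.mem_Ico] at hl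
    have : a + b - (a + b - l) = l := by omega
    rw [this]

/-- the coefficient of `u_i u_k` -/
def hco (n i k : ℝ) : ℝ := (n - k) * (1 / (i * (i - 1)) + (i - 2) / ((n - 2 * i) * (i - 1) * (k - 1)))

lemma hco_nonneg (n i k : ℝ) (hi : 2 ≤ i) (hk : 2 ≤ k) (hn : 2 * (i + k) ≤ n) :
    0 ≤ hco n i k := by
  unfold hco
  have h1 : 0 ≤ n - k := by linarith
  have h2 : 0 < n - 2 * i := by linarith
  have h3 : 0 < i - 1 := by linarith
  have h4 : 0 < k - 1 := by linarith
  have h5 : 0 ≤ i - 2 := by linarith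
  positivity

lemma sum_hco_le (n : ℝ) (t : ℕ) (hn : 2 * ((t : ℝ) + 3) ≤ n) :
    ∑ i ∈ Finset.Ico 2 (t + 2), hco n i ((t + 3 - i : ℕ) : ℝ) ≤
      ((t : ℝ) / ((t : ℝ) + 1)) * (2 * (n - (t + 3)) + ((t : ℝ) + 3) / 2) := by
  have ht : (0 : ℝ) ≤ t := by positivity
  set g : ℝ := (t : ℝ) / ((t : ℝ) + 1) with hg
  have hg0 : 0 ≤ g := by positivity
  have hg1 : g ≤ 1 := by
    rw [hg, div_le_one (by positivity)]; linarith
  have hq : 0 < n - ((t : ℝ) + 3) := by linarith
  have key : ∀ i ∈ Finset.Ico 2 (t + 2), hco n i ((t + 3 - i : ℕ) : ℝ) ≤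
      (n - ((t : ℝ) + 3)) * (1 / ((i : ℝ) * ((i : ℝ) - 1))) + 1 / ((i : ℝ) - 1) +
        (n - ((t : ℝ) + 3)) * g * (1 / (((t + 3 - i : ℕ) : ℝ) * (((t + 3 - i : ℕ) : ℝ) - 1))) := by
    intro i hi
    rw [Finset.mem_Ico] at hi
    have hi2 : (2 : ℝ) ≤ i := by exact_mod_cast hi.1
    have hit : (i : ℝ) + 1 ≤ t + 2 := by exact_mod_cast hi.2
    have hk : ((t + 3 - i : ℕ) : ℝ) = t + 3 - i := by
      rw [Nat.cast_sub (by omega)]; push_cast; ring
    rw [hk]
    unfold hco
    obtain ⟨k, hkdef⟩ : ∃ k : ℝ, k = (t : ℝ) + 3 - i := ⟨_, rfl⟩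
    rw [← hkdef]
    have hk2 : 2 ≤ k := by linarith
    have hi0 : (0 : ℝ) < (i : ℝ) - 1 := by linarith
    have hi00 : (0 : ℝ) < (i : ℝ) := by linarith
    have hk0 : (0 : ℝ) < k - 1 := by linarith
    have hn2i : 2 * k ≤ n - 2 * i := by rw [hkdef]; linarith
    have e1 : (n - k) * (1 / ((i : ℝ) * ((i : ℝ) - 1)) + ((i : ℝ) - 2) /
        ((n - 2 * i) * ((i : ℝ) - 1) * (k - 1))) =
        (n - ((t : ℝ) + 3)) * (1 / ((i : ℝ) * ((i : ℝ) - 1))) + 1 / ((i : ℝ) - 1) +
          (n - k) * (((i : ℝ) - 2) / ((n - 2 * i) * ((i : ℝ) - 1) * (k - 1))) := by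
      have : n - k = (n - ((t : ℝ) + 3)) + i := by rw [hkdef]; ring
      rw [mul_add]
      have e2 : (n - k) * (1 / ((i : ℝ) * ((i : ℝ) - 1))) =
        (n - ((t : ℝ) + 3)) * (1 / ((i : ℝ) * ((i : ℝ) - 1))) + 1 / ((i : ℝ) - 1) := by
        rw [this]
        have h1 := hi0.ne'
        have h2 := hi00.ne'
        field_simp
      rw [e2]
    rw [e1]
    have e3 : (n - k) * (((i : ℝ) - 2) / ((n - 2 * i) * ((i : ℝ) - 1) * (k - 1))) ≤
        (n - ((t : ℝ) + 3)) * g * (1 / (k * (k - 1))) := by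
      have h5 : n - k ≤ 2 * (n - ((t : ℝ) + 3)) := by rw [hkdef]; linarith
      have h6 : ((i : ℝ) - 2) / ((i : ℝ) - 1) ≤ g := by
        rw [hg, div_le_div_iff₀ hi0 (by positivity)]
        nlinarith
      have h6' : 0 ≤ ((i : ℝ) - 2) / ((i : ℝ) - 1) := div_nonneg (by linarith) hi0.le
      have h7 : 1 / (n - 2 * i) ≤ 1 / (2 * k) :=
        one_div_le_one_div_of_le (by linarith) hn2i
      have h7' : 0 ≤ 1 / (n - 2 * i) := by
        apply div_nonneg zero_le_one; linarith
      have e4 : (n - k) * (((i : ℝ) - 2) / ((n - 2 * i) * ((i : ℝ) - 1) * (k - 1))) =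
          (n - k) * ((((i : ℝ) - 2) / ((i : ℝ) - 1)) * (1 / (n - 2 * i))) * (1 / (k - 1)) := by
        have h1 := hi0.ne'
        have h2 : n - 2 * (i : ℝ) ≠ 0 := by
          have : 0 < n - 2 * (i : ℝ) := by linarith
          exact this.ne'
        have h3 := hk0.ne'
        field_simp
      have e5 : (n - ((t : ℝ) + 3)) * g * (1 / (k * (k - 1))) =
          (2 * (n - ((t : ℝ) + 3))) * (g * (1 / (2 * k))) * (1 / (k - 1)) := by
        have h3 := hk0.ne'
        have h4 : k ≠ 0 := by linarith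
        field_simp
      rw [e4, e5]
      apply mul_le_mul_of_nonneg_right _ (by positivity)
      apply mul_le_mul h5 (mul_le_mul h6 h7 h7' hg0) (mul_nonneg h6' h7') (by linarith)
    linarith
  refine (Finset.sum_le_sum key).trans ?_
  rw [Finset.sum_add_distrib, Finset.sum_add_distrib, ← Finset.mul_sum, ← Finset.mul_sum,
    sum_inv_mul_pred, ← hg]
  have h1 : ∑ i ∈ Finset.Ico 2 (t + 2), (1 / (((t + 3 - i : ℕ) : ℝ) *
      (((t + 3 - i : ℕ) : ℝ) - 1))) = g := by
    have h2 := sum_Ico_reflect' 2 (t + 1) (fun _ k => 1 / ((k : ℝ) * ((k : ℝ) - 1)))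
    have e : 2 + (t + 1) = t + 3 := by ring
    rw [e] at h2
    rw [h2, sum_inv_mul_pred]
  rw [h1]
  have h3 := sum_inv_pred_le t
  rw [← hg] at h3
  have h4 : (n - ((t : ℝ) + 3)) * g * g ≤ (n - ((t : ℝ) + 3)) * g := by
    have : 0 ≤ (n - ((t : ℝ) + 3)) * g := by positivity
    nlinarith
  nlinarith

/-- growth of the normalised coefficients -/
theorem u_bounds (ν : ℕ) (n : ℝ) (hn : n = 2 * ν) (u : ℕ → ℝ) (h2 : u 2 = 1)
    (hrec : ∀ t : ℕ, t + 3 ≤ ν → (n - (t + 3)) * u (t + 3) =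
      (n - (t + 3)) * (1 + 2 * (n - 1) * t / ((n - 2) * (t + 1) * (n - 2 * (t + 3) + 2))) * u (t + 2)
      - (n - 1) / (n - 2) ^ 2 * ∑ i ∈ Finset.Ico 2 (t + 2), hco n i ((t + 3 - i : ℕ) : ℝ) *
        (u i * u (t + 3 - i))) :
    ∀ j : ℕ, 2 ≤ j → j ≤ ν → 1 ≤ u j ∧ u j ≤ (n - 2) / (n - 2 * j + 2) ∧
      ∀ i, 2 ≤ i → i ≤ j → u i ≤ u j := by
  intro j
  induction j using Nat.strong_induction_on with
  | _ j ih =>
  intro hj2 hjν
  have hjνR : (j : ℝ) ≤ ν := by exact_mod_cast hjν
  rcases eq_or_lt_of_le hj2 with hj | hj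
  · subst hj
    have h4 : (2 : ℝ) ≤ ν := by exact_mod_cast hjν
    refine ⟨h2.ge, ?_, ?_⟩
    · rw [h2]
      have : n - 2 * ((2 : ℕ) : ℝ) + 2 = n - 2 := by push_cast; ring
      rw [this, div_self]
      have : 0 < n - 2 := by rw [hn]; linarith
      exact this.ne'
    · intro i hi hi'
      have : i = 2 := by omega
      rw [this]
  · obtain ⟨t, rfl⟩ : ∃ t, j = t + 3 := ⟨j - 3, by omega⟩
    push_cast at hjνR
    have ht : (0 : ℝ) ≤ t := by positivity
    have hprev := ih (t + 2) (by omega) (by omega) (by omega)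
    obtain ⟨hp1, hp2, hp3⟩ := hprev
    have hr := hrec t hjν
    have hn1 : 2 * ((t : ℝ) + 3) ≤ n := by rw [hn]; linarith
    have hq : 0 < n - ((t : ℝ) + 3) := by linarith
    have hn2 : 0 < n - 2 := by linarith
    have hn3 : 0 < n - 1 := by linarith
    have hP : 0 < n - 2 * ((t : ℝ) + 3) + 2 := by linarith
    have hu0 : 0 < u (t + 2) := by linarith
    set g : ℝ := (t : ℝ) / ((t : ℝ) + 1) with hg
    have hg0 : 0 ≤ g := by positivity
    -- bounds for the products
    have hprod : ∀ i ∈ Finset.Ico 2 (t + 2), hco n i ((t + 3 - i : ℕ) : ℝ) *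
        (u i * u (t + 3 - i)) ≤ hco n i ((t + 3 - i : ℕ) : ℝ) *
          (u (t + 2) * ((n - 2) / (n - (t + 3) + 2))) := by
      intro i hi
      rw [Finset.mem_Ico] at hi
      have hi2 : (2 : ℝ) ≤ i := by exact_mod_cast hi.1
      have hit : (i : ℝ) + 1 ≤ t + 2 := by exact_mod_cast hi.2
      have hk : ((t + 3 - i : ℕ) : ℝ) = t + 3 - i := by
        rw [Nat.cast_sub (by omega)]; push_cast; ring
      apply mul_le_mul_of_nonneg_left
      · -- small index bound
        have small : ∀ a : ℕ, 2 ≤ a → 2 * a ≤ t + 3 → u a ≤ (n - 2) / (n - (t + 3) + 2) := by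
          intro a ha ha2
          obtain ⟨_, hb, _⟩ := ih a (by omega) ha (by omega)
          refine hb.trans ?_
          have haR : 2 * (a : ℝ) ≤ t + 3 := by exact_mod_cast ha2
          apply div_le_div_of_nonneg_left hn2.le
          · linarith
          · linarith
        have big : ∀ a : ℕ, 2 ≤ a → a ≤ t + 2 → u a ≤ u (t + 2) := hp3
        have pos : ∀ a : ℕ, 2 ≤ a → a ≤ t + 2 → 0 ≤ u a := by
          intro a ha ha2
          have := (ih a (by omega) ha (by omega)).1
          linarith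
        rcases le_total (2 * i) (t + 3) with h | h
        · rw [mul_comm]
          exact mul_le_mul (big _ (by omega) (by omega)) (small i hi.1 h) (pos i hi.1 (by omega))
            hu0.le
        · exact mul_le_mul (big _ hi.1 (by omega)) (small _ (by omega) (by omega))
            (pos _ (by omega) (by omega)) hu0.le
      · apply hco_nonneg
        · exact hi2
        · rw [hk]; linarith
        · rw [hk]; linarith
    have hprod0 : 0 ≤ ∑ i ∈ Finset.Ico 2 (t + 2), hco n i ((t + 3 - i : ℕ) : ℝ) *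
        (u i * u (t + 3 - i)) := by
      apply Finset.sum_nonneg
      intro i hi
      rw [Finset.mem_Ico] at hi
      have hi2 : (2 : ℝ) ≤ i := by exact_mod_cast hi.1
      have hit : (i : ℝ) + 1 ≤ t + 2 := by exact_mod_cast hi.2
      have hk : ((t + 3 - i : ℕ) : ℝ) = t + 3 - i := by
        rw [Nat.cast_sub (by omega)]; push_cast; ring
      have hpos : ∀ a : ℕ, 2 ≤ a → a ≤ t + 2 → 0 ≤ u a := by
        intro a ha ha2
        have := (ih a (by omega) ha (by omega)).1
        linarith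
      apply mul_nonneg
      · apply hco_nonneg
        · exact hi2
        · rw [hk]; linarith
        · rw [hk]; linarith
      · exact mul_nonneg (hpos _ hi.1 (by omega)) (hpos _ (by omega) (by omega))
    have hsum : ∑ i ∈ Finset.Ico 2 (t + 2), hco n i ((t + 3 - i : ℕ) : ℝ) *
        (u i * u (t + 3 - i)) ≤ (g * (2 * (n - (t + 3)) + ((t : ℝ) + 3) / 2)) *
          (u (t + 2) * ((n - 2) / (n - (t + 3) + 2))) := by
      refine (Finset.sum_le_sum hprod).trans ?_
      rw [← Finset.sum_mul]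
      apply mul_le_mul_of_nonneg_right (sum_hco_le n t hn1)
      have : 0 < n - (t + 3) + 2 := by linarith
      positivity
    -- monotonicity
    have hmono : u (t + 2) ≤ u (t + 3) := by
      have e1 : (n - (t + 3)) * (1 + 2 * (n - 1) * t / ((n - 2) * (t + 1) * (n - 2 * (t + 3) + 2)))
          * u (t + 2) = (n - (t + 3)) * u (t + 2) +
            (n - 1) / (n - 2) * g * (2 * (n - (t + 3)) / (n - 2 * (t + 3) + 2)) * u (t + 2) := by
        rw [hg]
        have h1 := hn2.ne'
        have h3 := hP.ne'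
        have h4 : (t : ℝ) + 1 ≠ 0 := by positivity
        field_simp
      have e2 : (n - 1) / (n - 2) ^ 2 * ((g * (2 * (n - (t + 3)) + ((t : ℝ) + 3) / 2)) *
          (u (t + 2) * ((n - 2) / (n - (t + 3) + 2)))) =
          (n - 1) / (n - 2) * g * ((2 * (n - (t + 3)) + ((t : ℝ) + 3) / 2) / (n - (t + 3) + 2)) *
            u (t + 2) := by
        have h1 := hn2.ne'
        have h3 : n - ((t : ℝ) + 3) + 2 ≠ 0 := by
          have : 0 < n - ((t : ℝ) + 3) + 2 := by linarith
          exact this.ne'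
        field_simp
      have e3 : (2 * (n - (t + 3)) + ((t : ℝ) + 3) / 2) / (n - (t + 3) + 2) ≤
          2 * (n - (t + 3)) / (n - 2 * (t + 3) + 2) := by
        rw [div_le_div_iff₀ (by linarith) hP]
        obtain ⟨q, hqd⟩ : ∃ q : ℝ, q = n - ((t : ℝ) + 3) := ⟨_, rfl⟩
        have hnq : n = q + (t + 3) := by rw [hqd]; ring
        rw [← hqd] at hq
        have hq3 : (t : ℝ) + 3 ≤ q := by linarith
        rw [hnq]
        nlinarith [mul_nonneg ht hq.le, mul_pos hq (show (0 : ℝ) < t + 3 by positivity)]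
      have e4 : 0 ≤ (n - 1) / (n - 2) * g * u (t + 2) := by positivity
      have e5 : (n - 1) / (n - 2) ^ 2 * ∑ i ∈ Finset.Ico 2 (t + 2), hco n i ((t + 3 - i : ℕ) : ℝ) *
        (u i * u (t + 3 - i)) ≤ (n - 1) / (n - 2) ^ 2 * ((g * (2 * (n - (t + 3)) +
          ((t : ℝ) + 3) / 2)) * (u (t + 2) * ((n - 2) / (n - (t + 3) + 2)))) :=
        mul_le_mul_of_nonneg_left hsum (by positivity)
      rw [e1] at hr
      rw [e2] at e5
      have e6 : (n - 1) / (n - 2) * g * ((2 * (n - (t + 3)) + ((t : ℝ) + 3) / 2) /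
          (n - (t + 3) + 2)) * u (t + 2) ≤
          (n - 1) / (n - 2) * g * (2 * (n - (t + 3)) / (n - 2 * (t + 3) + 2)) * u (t + 2) := by
        have := mul_le_mul_of_nonneg_left e3 e4
        linarith
      have e7 : (n - (t + 3)) * u (t + 2) ≤ (n - (t + 3)) * u (t + 3) := by linarith
      exact le_of_mul_le_mul_left e7 hq
    refine ⟨hp1.trans hmono, ?_, ?_⟩
    · -- the upper bound
      have e1 : (n - (t + 3)) * u (t + 3) ≤ (n - (t + 3)) *
          (1 + 2 * (n - 1) * t / ((n - 2) * (t + 1) * (n - 2 * (t + 3) + 2))) * u (t + 2) := by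
        rw [hr]
        have : 0 ≤ (n - 1) / (n - 2) ^ 2 * ∑ i ∈ Finset.Ico 2 (t + 2),
            hco n i ((t + 3 - i : ℕ) : ℝ) * (u i * u (t + 3 - i)) :=
          mul_nonneg (by positivity) hprod0
        linarith
      rw [mul_assoc] at e1
      have e2 := le_of_mul_le_mul_left e1 hq
      refine e2.trans ?_
      have e3 : 1 + 2 * (n - 1) * t / ((n - 2) * (t + 1) * (n - 2 * (t + 3) + 2)) ≤
          (n - 2 * (t + 3) + 4) / (n - 2 * (t + 3) + 2) := by
        have h1 : 1 + 2 * (n - 1) * t / ((n - 2) * (t + 1) * (n - 2 * (t + 3) + 2)) =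
            (n - 2 * (t + 3) + 2 + 2 * ((n - 1) * t / ((n - 2) * (t + 1)))) /
              (n - 2 * (t + 3) + 2) := by
          have h1 := hn2.ne'
          have h3 := hP.ne'
          have h4 : (t : ℝ) + 1 ≠ 0 := by positivity
          field_simp
        rw [h1]
        apply div_le_div_of_nonneg_right _ hP.le
        have h2 : (n - 1) * t / ((n - 2) * (t + 1)) ≤ 1 := by
          rw [div_le_one (by positivity)]
          nlinarith
        linarith
      have e4 : u (t + 2) ≤ (n - 2) / (n - 2 * (t + 3) + 4) := by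
        refine hp2.trans (le_of_eq ?_)
        push_cast
        congr 1
        ring
      have h5 : (n - 2 * ((t + 3 : ℕ) : ℝ) + 2) = n - 2 * (t + 3) + 2 := by push_cast; ring
      rw [h5]
      calc (1 + 2 * (n - 1) * t / ((n - 2) * (t + 1) * (n - 2 * (t + 3) + 2))) * u (t + 2)
          ≤ ((n - 2 * (t + 3) + 4) / (n - 2 * (t + 3) + 2)) * ((n - 2) / (n - 2 * (t + 3) + 4)) := by
            apply mul_le_mul e3 e4 hu0.le
            apply div_nonneg _ hP.le
            linarith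
        _ = (n - 2) / (n - 2 * (t + 3) + 2) := by
            have h6 : n - 2 * ((t : ℝ) + 3) + 4 ≠ 0 := by
              have : 0 < n - 2 * ((t : ℝ) + 3) + 4 := by linarith
              exact this.ne'
            have h3 := hP.ne'
            field_simp
    · intro i hi hi'
      rcases Nat.lt_or_ge i (t + 3) with h | h
      · exact (hp3 i hi (by omega)).trans hmono
      · have : i = t + 3 := by omega
        rw [this]

end Pool.QCurv
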